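import Pool.Agent.Lib.MP_5081b1_an.Iso

/-! The polar equation attached to a pair of angular functions, truncated outside an annulus. -/

set_option autoImplicit false

open Set Filter Topology MeasureTheory Real

namespace Pool.Agent.LC5081

noncomputable def Dd (A B : ℝ → ℝ) (θ Z : ℝ) : ℝ := cos θ * A θ - Z * (sin θ * B θ)

noncomputable def FF (A B : ℝ → ℝ) (θ Z : ℝ) : ℝ :=
  (sin θ * A θ + Z * (cos θ * B θ)) / Dd A B θ Z

noncomputable def cl (K ρ : ℝ) : ℝ := max (-K) (min K ρ)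

noncomputable def fc (c K : ℝ) (A B : ℝ → ℝ) (θ ρ : ℝ) : ℝ := FF A B θ (exp (2 * c * cl K ρ))

theorem cl_eq {K ρ : ℝ} (h : |ρ| ≤ K) : cl K ρ = ρ := by
  rw [cl, min_eq_right (abs_le.1 h).2, max_eq_right (abs_le.1 h).1]

theorem cl_le {K : ℝ} (h : 0 ≤ K) (ρ : ℝ) : cl K ρ ≤ K := max_le (by linarith) (min_le_left _ _)

theorem le_cl (K ρ : ℝ) : -K ≤ cl K ρ := le_max_left _ _

theorem cl_lip (K x y : ℝ) : |cl K x - cl K y| ≤ |x - y| := by
  refine (abs_max_sub_max_le_max _ _ _ _).trans (max_le (by simp) ?_)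
  exact (abs_min_sub_min_le_max _ _ _ _).trans (max_le (by simp) le_rfl)

theorem cl_cont (K : ℝ) : Continuous (cl K) := by unfold cl; fun_prop

theorem FF_sub {A B A' B' : ℝ → ℝ} {θ Z : ℝ} (h : Dd A B θ Z ≠ 0) (h' : Dd A' B' θ Z ≠ 0) :
    FF A' B' θ Z - FF A B θ Z = Z * (A θ * B' θ - A' θ * B θ) / (Dd A B θ Z * Dd A' B' θ Z) := by
  unfold FF
  field_simp
  unfold Dd
  linear_combination Z * (A θ * B' θ - A' θ * B θ) * sin_sq_add_cos_sq θ

theorem FF_sub' {A B : ℝ → ℝ} {θ Z Z' : ℝ} (h : Dd A B θ Z ≠ 0) (h' : Dd A B θ Z' ≠ 0) :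
    FF A B θ Z' - FF A B θ Z = (Z' - Z) * (A θ * B θ) / (Dd A B θ Z * Dd A B θ Z') := by
  unfold FF
  field_simp
  unfold Dd
  linear_combination (Z' - Z) * (A θ * B θ) * sin_sq_add_cos_sq θ

theorem exp_sub_le {x y E : ℝ} (hx : x ≤ E) (hy : y ≤ E) : |exp x - exp y| ≤ exp E * |x - y| := by
  have key : ∀ x y, x ≤ E → y ≤ x → |exp x - exp y| ≤ exp E * |x - y| := by
    intro x y hx hxy
    have h1 : exp y ≤ exp x := exp_le_exp.2 hxy
    have := add_one_le_exp (y - x)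
    have e2 : exp y = exp x * exp (y - x) := by rw [← exp_add]; congr 1; ring
    have h3 := exp_le_exp.2 hx
    have := exp_pos x
    rw [abs_of_nonneg (by linarith), abs_of_nonneg (by linarith)]
    nlinarith
  rcases le_total y x with h | h
  · exact key x y hx h
  · rw [abs_sub_comm, abs_sub_comm x]; exact key y x hy h

structure Ang (c K M d : ℝ) (A B : ℝ → ℝ) : Prop where
  hc : 0 < c
  hK : 0 ≤ K
  hd : 0 < d
  cA : Continuous A
  cB : Continuous B
  pA : ∀ θ, A (θ + 2 * π) = A θ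
  pB : ∀ θ, B (θ + 2 * π) = B θ
  bA : ∀ θ, |A θ| ≤ M
  bB : ∀ θ, |B θ| ≤ M
  lD : ∀ θ ρ, d ≤ Dd A B θ (exp (2 * c * cl K ρ))

theorem comb_le {u v a b Z E M : ℝ} (hu : |u| ≤ 1) (hv : |v| ≤ 1) (ha : |a| ≤ M) (hb : |b| ≤ M)
    (hZ : 0 ≤ Z) (hE : Z ≤ E) : |u * a + Z * (v * b)| ≤ M * (1 + E) := by
  have hM : 0 ≤ M := (abs_nonneg _).trans ha
  refine (abs_add_le _ _).trans ?_
  rw [abs_mul, abs_mul, abs_mul, abs_of_nonneg hZ]
  calc |u| * |a| + Z * (|v| * |b|) ≤ 1 * M + E * (1 * M) := by gcongr; linarith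
    _ = _ := by ring

namespace Ang

variable {c K M d : ℝ} {A B : ℝ → ℝ}

theorem Z_le (h : Ang c K M d A B) (ρ : ℝ) : exp (2 * c * cl K ρ) ≤ exp (2 * c * K) := by
  have := h.hc
  gcongr; exact cl_le h.hK ρ

theorem D_pos (h : Ang c K M d A B) (θ ρ : ℝ) : 0 < Dd A B θ (exp (2 * c * cl K ρ)) :=
  h.hd.trans_le (h.lD θ ρ)

theorem D_le (h : Ang c K M d A B) (θ ρ : ℝ) :
    Dd A B θ (exp (2 * c * cl K ρ)) ≤ M * (1 + exp (2 * c * K)) := by
  have := comb_le (abs_cos_le_one θ) (v := -sin θ) (by simpa using abs_sin_le_one θ) (h.bA θ)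
    (h.bB θ) (exp_pos _).le (h.Z_le ρ)
  refine le_trans (le_of_eq ?_) ((le_abs_self _).trans this)
  unfold Dd; ring

theorem nice (h : Ang c K M d A B) :
    Nice (fc c K A B) (exp (2 * c * K) * (2 * c) * (M * M) / (d * d)) := by
  have hc := h.hc; have hd := h.hd
  have hM : 0 ≤ M := (abs_nonneg _).trans (h.bA 0)
  refine ⟨⟨by positivity, fun t x y => ?_⟩, fun x => ?_, M * (1 + exp (2 * c * K)) / d,
    fun t x => ?_⟩
  · unfold fc
    have d1 := h.D_pos t x; have d2 := h.D_pos t y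
    rw [FF_sub' d2.ne' d1.ne', abs_div, abs_mul, abs_mul, abs_of_pos (mul_pos d2 d1)]
    have e1 : |exp (2 * c * cl K x) - exp (2 * c * cl K y)| ≤
        exp (2 * c * K) * (2 * c) * |x - y| := by
      refine (exp_sub_le (E := 2 * c * K) (by gcongr; exact cl_le h.hK x)
        (by gcongr; exact cl_le h.hK y)).trans ?_
      rw [← mul_sub, abs_mul, abs_of_pos (a := 2 * c) (by positivity), mul_assoc (exp _)]
      exact mul_le_mul_of_nonneg_left (mul_le_mul_of_nonneg_left (cl_lip K x y) (by positivity))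
        (exp_pos _).le
    calc _ ≤ exp (2 * c * K) * (2 * c) * |x - y| * (M * M) / (d * d) := by
          gcongr
          exacts [h.bA t, h.bB t, h.lD t y, h.lD t x]
      _ = _ := by ring
  · have := h.cA; have := h.cB
    unfold fc FF
    exact Continuous.div (by fun_prop) (by unfold Dd; fun_prop) fun t => (h.D_pos t x).ne'
  · unfold fc FF
    rw [abs_div, abs_of_pos (h.D_pos t x)]
    gcongr
    · exact comb_le (abs_sin_le_one t) (abs_cos_le_one t) (h.bA t) (h.bB t) (exp_pos _).le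
        (h.Z_le x)
    · exact h.lD t x

theorem polar (h : Ang c K M d A B) {V : ℝ × ℝ → ℝ × ℝ} (hV : ContDiff ℝ 1 V) {a : ℝ} (ha : 0 ≤ a)
    (e : ∀ θ ρ, V (pol θ ρ) = (exp ρ * exp (a * ρ) * A θ,
      exp ρ * exp (a * ρ) * exp (2 * c * ρ) * B θ)) :
    Polar V (fc c K A B) (fun θ ρ => exp (a * cl K ρ) * Dd A B θ (exp (2 * c * cl K ρ)))
      (exp (2 * c * K) * (2 * c) * (M * M) / (d * d)) K := by
  refine ⟨hV, h.nice.lip, h.nice.cf, h.nice.bf, fun t x => ?_, ?_,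
    fun t x => mul_pos (exp_pos _) (h.D_pos t x), ⟨exp (a * K) * (M * (1 + exp (2 * c * K))),
      fun t x => ?_⟩, fun θ ρ hρ => ?_⟩
  · simp only [fc, FF, Dd, h.pA, h.pB, sin_add_two_pi, cos_add_two_pi]
  · have := h.cA; have := h.cB; have := cl_cont K
    unfold Dd; fun_prop
  · have := (h.D_pos t x).le
    gcongr
    exacts [cl_le h.hK x, h.D_le t x]
  · have := h.D_pos θ ρ
    rw [e]
    simp only [fc, FF, cl_eq hρ] at this ⊢
    generalize exp (2 * c * ρ) = Z at this ⊢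
    have hD : Dd A B θ Z = cos θ * A θ - Z * (sin θ * B θ) := rfl
    generalize Dd A B θ Z = D at this hD ⊢
    refine Prod.ext ?_ ?_
    · simp only
      field_simp
      linear_combination -A θ * sin_sq_add_cos_sq θ - cos θ * hD
    · simp only
      field_simp
      linear_combination -Z * B θ * sin_sq_add_cos_sq θ + sin θ * hD

theorem pert (h : Ang c K M d A B) : ∃ e, 0 < e ∧ e ≤ 1 ∧ ∀ A' B' : ℝ → ℝ, Continuous A' →
    Continuous B' → (∀ θ, A' (θ + 2 * π) = A' θ) → (∀ θ, B' (θ + 2 * π) = B' θ) →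
    (∀ θ, |A' θ - A θ| ≤ e) → (∀ θ, |B' θ - B θ| ≤ e) → Ang c K (M + 1) (d / 2) A' B' := by
  have hd := h.hd
  refine ⟨min 1 (d / 2 / (1 + exp (2 * c * K))), by positivity, min_le_left _ _,
    fun A' B' c1 c2 p1 p2 b1 b2 => ⟨h.hc, h.hK, by positivity, c1, c2, p1, p2, fun θ => ?_,
      fun θ => ?_, fun θ ρ => ?_⟩⟩
  · have := abs_add_le (A θ) (A' θ - A θ)
    rw [add_sub_cancel] at this
    linarith [h.bA θ, (b1 θ).trans (min_le_left _ _)]
  · have := abs_add_le (B θ) (B' θ - B θ)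
    rw [add_sub_cancel] at this
    linarith [h.bB θ, (b2 θ).trans (min_le_left _ _)]
  · have := comb_le (abs_cos_le_one θ) (v := -sin θ) (by simpa using abs_sin_le_one θ)
      ((b1 θ).trans (min_le_right _ _)) ((b2 θ).trans (min_le_right _ _)) (exp_pos _).le (h.Z_le ρ)
    rw [div_mul_cancel₀ _ (by positivity)] at this
    have h1 := (abs_le.1 this).1
    have h2 := h.lD θ ρ
    unfold Dd at h2 ⊢
    linarith

theorem rot (c K M d : ℝ) (hM : 0 < M) (hd : 0 < d) : ∃ β, 0 < β ∧ ∀ (A B : ℝ → ℝ) (δ : ℝ), 0 < δ →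
    Ang c K M d A B → Ang c K M d (fun θ => A θ + δ * sin θ) (fun θ => B θ + δ * cos θ) →
    ∀ t x, fc c K A B t x + β * δ ≤
      fc c K (fun θ => A θ + δ * sin θ) (fun θ => B θ + δ * cos θ) t x := by
  refine ⟨exp (2 * c * -K) * d / ((M * (1 + exp (2 * c * K))) * (M * (1 + exp (2 * c * K)))),
    by positivity, fun A B δ hδ h h' t x => ?_⟩
  have hc := h.hc
  have d1 := h.D_pos t x; have d2 := h'.D_pos t x
  have := FF_sub d1.ne' d2.ne'
  unfold fc
  rw [← le_sub_iff_add_le', this]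
  have h0 := h.lD t 0
  rw [cl_eq (by simpa using h.hK)] at h0
  simp only [mul_zero, exp_zero, Dd] at h0
  rw [show A t * (B t + δ * cos t) - (A t + δ * sin t) * B t =
    (cos t * A t - 1 * (sin t * B t)) * δ by ring, div_mul_eq_mul_div, mul_assoc]
  have h1 : 0 < cos t * A t - 1 * (sin t * B t) := hd.trans_le h0
  gcongr
  exacts [le_cl K x, h.D_le t x, h'.D_le t x]

end Ang

end Pool.Agent.LC5081
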