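import Pool.Agent.Lib.MP_5081b1_an.Bnd

/-! Sign of the first-order displacement integral at extreme levels, and its continuity under
small perturbations of the unperturbed equation. -/

set_option autoImplicit false

open Set Filter Topology MeasureTheory Real

namespace Pool.Agent.LC5081

namespace Sys

variable {c : ℝ} {P Q : ℝ → ℝ} {j p k : ℝ}

/-- The highest term of `R` decides the sign at large levels. -/
theorem top_pos (h : Sys c P Q j p k) {R : ℝ → ℝ} {i d d' : ℝ} (uR : Up R i d') (tR : Top R d)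
    (hi : 0 < i - 1 - j - c / 4) (hd : p + k < d)
    (hint : ∀ W, Integrable fun σ => R σ * KK c P Q W σ) (W0 : ℝ) :
    ∃ W, W0 < W ∧ 0 < MM c P Q R W := by
  obtain ⟨J, hJ⟩ := pos_int hi
  set η := i - 1 - j - c / 4 with hη
  obtain ⟨aR, R1, R2⟩ := uR
  obtain ⟨bR, s0, hs0, R3⟩ := tR
  obtain ⟨aP, -, P2⟩ := h.uP
  obtain ⟨bP, P3, P4⟩ := h.lP
  obtain ⟨aQ, -, Q2⟩ := h.uQ
  obtain ⟨bQ, Q3, Q4⟩ := h.lQ
  obtain ⟨G, G', hG⟩ := h.fwd_L
  have hν : 0 < p - k := sub_pos.2 h.lt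
  set H := max aQ (aP - G)
  have H1 : aQ ≤ H := le_max_left _ _
  have H2 : aP - G ≤ H := le_max_right _ _
  set e := aR - bP - bQ + |d' - p - k + η| * s0 with he
  obtain ⟨s, hs1, hs2, hs3⟩ := ((eventually_ge_atTop s0).and ((ev_ge hν (W0 - G)).and
    (ev_ge (a := d - p - k) (by linarith)
      (e + J - (bR - 3 - G' - 2 * H - (p - k) - G))))).exists
  refine ⟨(p - k) * (s + 1) + G, by linarith, ?_⟩
  set W := (p - k) * (s + 1) + G with hW
  have hx : 0 ≤ |d' - p - k + η| * s0 := by positivity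
  refine hJ _ e (e + J) s (hint W) (fun σ hσ => ?_) (fun σ hσ => ?_) (fun σ hσ => ?_) le_rfl
  · have : η * σ = (i - 1 - j - c / 4) * σ := rfl
    exact neg_le_mul (R1 σ hσ) (h.K_pos W σ) (h.K_le_am W σ (P3 σ hσ) (Q3 σ hσ) (h.L_le' W hσ))
      (by linarith)
  · rcases le_total σ s0 with h0 | h0
    · have := mul_le_abs (x := d' - p - k + η) (σ := σ) (s := s0) (by linarith) h0
      exact neg_le_mul (R2 σ hσ) (h.K_pos W σ) (h.K_le_am W σ (P4 σ hσ) (Q4 σ hσ) (h.L_le W hσ))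
        (by linarith)
    · exact neg_le_mul' (R3 σ h0) (h.K_pos W σ)
  · have h0 : 0 ≤ σ := by linarith [hσ.1]
    have h1 : (p - k) * σ ≤ (p - k) * (s + 1) := by gcongr; exact hσ.2
    have h2 : (d - 2 * k) * s ≤ (d - 2 * k) * σ := by
      gcongr
      · linarith
      · exact hσ.1
    obtain ⟨g1, g2⟩ := hG W σ h0 (by linarith)
    refine le_mul (R3 σ (hs1.trans hσ.1)) (h.K_ge W σ (a := W + k * σ + H) g1 (h.w_le W h0)
      ((le_abs_self _).trans ((P2 σ h0).trans (exp_le_exp.2 (by linarith))))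
      ((le_abs_self _).trans (Q2 σ h0)) (by linarith) g2) (by linarith)

/-- The lowest term of `R` decides the sign at large levels. -/
theorem bot_pos (h : Sys c P Q j p k) (hj : 1 < j) {R : ℝ → ℝ} {i i' d D : ℝ} (uR : Up R i' d)
    (tR : Bot R i) (hD : 0 < D) (hD' : D ≤ p - k) (hd : d ≤ p + k - D)
    (hi : (i - j - 1) * (p - k) < D * (j - 1))
    (hint : ∀ W, Integrable fun σ => R σ * KK c P Q W σ) (W0 : ℝ) :
    ∃ W, W0 < W ∧ 0 < MM c P Q R W := by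
  have hν : 0 < p - k := sub_pos.2 h.lt
  have hj' : 0 < j - 1 := sub_pos.2 hj
  obtain ⟨θ, hθ1, hθ2⟩ : ∃ θ, max 0 ((i - j - 1) / (j - 1)) < θ ∧ θ < D / (p - k) := by
    refine exists_between (max_lt (by positivity) ?_)
    rw [div_lt_div_iff₀ hj' hν]; exact hi
  have θ0 : 0 < θ := (le_max_left _ _).trans_lt hθ1
  have θ1 : i - j - 1 < θ * (j - 1) := (div_lt_iff₀ hj').1 ((le_max_right _ _).trans_lt hθ1)
  have θ2 : θ * (p - k) < D := (lt_div_iff₀ hν).1 hθ2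
  have θ3 : θ < 1 := by nlinarith
  obtain ⟨J, hJ⟩ := pos_int (η := D - θ * (p - k)) (by linarith)
  set η := D - θ * (p - k) with hη
  obtain ⟨aR, R1, R2⟩ := uR
  obtain ⟨bR, s0, hs0, R3⟩ := tR
  obtain ⟨aP, P1, -⟩ := h.uP
  obtain ⟨bP, -, P4⟩ := h.lP
  obtain ⟨aQ, Q1, -⟩ := h.uQ
  obtain ⟨bQ, Q3, Q4⟩ := h.lQ
  obtain ⟨G, hG⟩ := h.fwd_w
  obtain ⟨G2, hG2⟩ := h.bwd_w hj
  set H := max (G2 + aQ) aP
  have H1 : G2 + aQ ≤ H := le_max_left _ _
  have H2 : aP ≤ H := le_max_right _ _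
  set e := max (aR - 2 * bQ + |i' - c / 4 - 2 * j - η| * s0)
    (max (aR + 1 - 2 * bQ + |G|) (aR - bP - bQ + |G|)) with he
  have e1 : aR - 2 * bQ + |i' - c / 4 - 2 * j - η| * s0 ≤ e := le_max_left _ _
  have e2 : aR + 1 - 2 * bQ + |G| ≤ e := (le_max_left _ _).trans (le_max_right _ _)
  have e3 : aR - bP - bQ + |G| ≤ e := (le_max_right _ _).trans (le_max_right _ _)
  obtain ⟨t, hs1, hs2, hs3⟩ := ((eventually_ge_atTop (s0 + 1)).and ((ev_ge hj' (W0 + 1)).and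
    (ev_ge (a := θ * (j - 1) - (i - j - 1)) (by linarith)
      (e + J - (bR - 2 * H - 2 - |i - 2 * j|))))).exists
  refine ⟨(j - 1) * t, by linarith, ?_⟩
  set W := (j - 1) * t with hW
  have W0' : 0 ≤ W := mul_nonneg hj'.le (by linarith)
  have hθW : θ * W ≤ W := by nlinarith
  refine hJ _ (e - θ * W) (e - θ * W + J) (-t) (hint W) (fun σ hσ => ?_) (fun σ hσ => ?_)
    (fun σ hσ => ?_) le_rfl
  · rcases le_total σ (-s0) with h0 | h0
    · exact neg_le_mul' (R3 σ h0) (h.K_pos W σ)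
    · have := mul_le_abs (x := i' - c / 4 - 2 * j - η) (σ := σ) (s := s0) h0 (by linarith)
      exact neg_le_mul (R1 σ hσ) (h.K_pos W σ)
        (h.K_le_Q W σ (h.w_ge W hσ) (Q3 σ hσ) (h.L_le' W hσ)) (by linarith)
  · have hdσ : d * σ ≤ (p + k - D) * σ := by gcongr
    have g1 : (1 - θ) * -G ≤ |G| := by
      have := mul_le_abs (x := G) (σ := -(1 - θ)) (s := 1) (by linarith) (by linarith)
      linarith
    have g2 : θ * G ≤ |G| := by
      have := mul_le_abs (x := G) (σ := θ) (s := 1) (by linarith) (by linarith)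
      linarith
    rcases le_total ((p - k) * σ + G) W with h0 | h0
    · have : (1 - θ) * ((p - k) * σ) ≤ (1 - θ) * (W - G) := by
        gcongr; linarith
      exact neg_le_mul (R2 σ hσ) (h.K_pos W σ)
        (h.K_le_Q W σ (hG W σ hσ h0) (Q4 σ hσ) (h.L_le W hσ)) (by linarith)
    · have : θ * (W - G) ≤ θ * ((p - k) * σ) := by
        gcongr; linarith
      exact neg_le_mul (R2 σ hσ) (h.K_pos W σ)
        (h.K_le_am W σ (P4 σ hσ) (Q4 σ hσ) (h.L_le W hσ)) (by linarith)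
  · have h0 : σ ≤ 0 := by linarith [hσ.2]
    have h1 : -(j - 1) * σ ≤ W := by nlinarith [hσ.1]
    have h2 := mul_le_abs (x := i - 2 * j) (σ := -t - σ) (s := 1) (by linarith [hσ.2])
      (by linarith [hσ.1])
    refine le_mul (R3 σ (by linarith [hσ.2])) (h.K_ge W σ (a := W + j * σ + H) (h.w_ge W h0)
      (hG2 W σ h0 h1) ((le_abs_self _).trans ((P1 σ h0).trans (exp_le_exp.2 (by linarith))))
      ((le_abs_self _).trans (Q1 σ h0)) (by linarith) (h.L_ge W h0)) (by linarith)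

/-- For a closed system the lowest term of `R` decides the sign at small levels. -/
theorem low_pos (h : Sys c P Q 0 p k) {R : ℝ → ℝ} {i i' d : ℝ} (uR : Up R i' d)
    (tR : Bot R i) (hi0 : 0 ≤ i) (hi : i < c + 2) (hd : d < 2 * p + c)
    (hint : ∀ W, Integrable fun σ => R σ * KK c P Q W σ) (W0 : ℝ) :
    ∃ W, W < W0 ∧ 0 < MM c P Q R W := by
  have hc := h.hc
  obtain ⟨J, hJ⟩ := pos_int (η := 2 * p + c - d) (by linarith)
  set η := 2 * p + c - d with hη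
  obtain ⟨aR, R1, R2⟩ := uR
  obtain ⟨bR, s0, hs0, R3⟩ := tR
  obtain ⟨aP, P1, -⟩ := h.uP
  obtain ⟨bP, P3, P4⟩ := h.lP
  obtain ⟨aQ, Q1, -⟩ := h.uQ
  obtain ⟨H0, hH0, hH⟩ := h.fwd_v
  obtain ⟨G, hG⟩ := h.bwd_v
  set H := max (aP + 1) aQ
  have H1 : aP + 1 ≤ H := le_max_left _ _
  have H2 : aQ ≤ H := le_max_right _ _
  set e := aR - 2 * bP + |i' - 5 * c / 4 - 2 - η| * s0 + H0 with he
  have hx : 0 ≤ |i' - 5 * c / 4 - 2 - η| * s0 := by positivity
  obtain ⟨t, hs1, hs2, hs3⟩ := ((eventually_ge_atTop (s0 + 1)).and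
    ((ev_ge (a := c + 1) (by linarith) (1 - W0)).and
    (ev_ge (a := c + 2 - i) (by linarith) (e + J - (bR - c - G - 2 * H - 2))))).exists
  refine ⟨-((c + 1) * t), by linarith, ?_⟩
  set W := -((c + 1) * t) with hW
  have W0' : W ≤ 0 := neg_nonpos.2 (mul_nonneg (by linarith) (by linarith))
  refine hJ _ (e + W) (e + W + J) (-t) (hint W) (fun σ hσ => ?_) (fun σ hσ => ?_)
    (fun σ hσ => ?_) le_rfl
  · rcases le_total σ (-s0) with h0 | h0
    · exact neg_le_mul' (R3 σ h0) (h.K_pos W σ)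
    · have := mul_le_abs (x := i' - 5 * c / 4 - 2 - η) (σ := σ) (s := s0) h0 (by linarith)
      exact neg_le_mul (R1 σ hσ) (h.K_pos W σ)
        (h.K_le_P W σ (h.v_le W hσ) (P3 σ hσ) (h.L_le' W hσ)) (by linarith)
  · have : H0 * exp W ≤ H0 := mul_le_of_le_one_right hH0 (exp_le_one_iff.2 W0')
    exact neg_le_mul (R2 σ hσ) (h.K_pos W σ)
      (h.K_le_P W σ (hH W σ hσ) (P4 σ hσ) (h.L_le W hσ)) (by linarith)
  · have h0 : σ ≤ 0 := by linarith [hσ.2]
    have h1 : W ≤ (c + 1) * σ := by nlinarith [hσ.1]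
    have h2 : i * -t ≤ i * σ := by gcongr; exact hσ.1
    have h3 : c * -t ≤ c * σ := by gcongr; exact hσ.1
    have h4 : c * σ ≤ c * (-t + 1) := by gcongr; exact hσ.2
    refine le_mul (R3 σ (by linarith [hσ.2])) (h.K_ge W σ (a := -t + H) (hG W σ h0 h1)
      (h.v_le W h0) ((le_abs_self _).trans ((P1 σ h0).trans (exp_le_exp.2 (by linarith [hσ.2]))))
      ((le_abs_self _).trans (Q1 σ h0)) (by linarith) (h.L_ge W h0)) (by linarith)

end Sys

theorem Pos.pert {c : ℝ} {P Q G1 G2 : ℝ → ℝ} (h : Pos c P Q) (c1 : Continuous G1)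
    (c2 : Continuous G2) (p1 : ∀ σ, 0 ≤ G1 σ) (p2 : ∀ σ, 0 ≤ G2 σ) {δ : ℝ} (hδ : 0 ≤ δ) :
    Pos c (fun σ => P σ + δ * G1 σ) (fun σ => Q σ + δ * G2 σ) := by
  have := h.cP; have := h.cQ
  refine ⟨h.hc, by fun_prop, by fun_prop, fun σ => ?_, fun σ => ?_⟩
  · have := h.pP σ; have := p1 σ; positivity
  · have := h.pQ σ; have := p2 σ; positivity

theorem Pos.fw_pert {c : ℝ} {P Q G1 G2 : ℝ → ℝ} (h : Pos c P Q) (p1 : ∀ σ, 0 ≤ G1 σ)
    (p2 : ∀ σ, 0 ≤ G2 σ) {δ : ℝ} (hδ : 0 ≤ δ) (t x : ℝ) :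
    |fw c (fun σ => P σ + δ * G1 σ) (fun σ => Q σ + δ * G2 σ) t x - fw c P Q t x| ≤
      δ * (c * (G1 t / P t + G2 t / Q t)) := by
  have hP := h.pP t; have hQ := h.pQ t; have h1 := p1 t; have h2 := p2 t; have hc := h.hc
  have hy := exp_pos x
  set y := exp x with hy'
  have d1 : 0 < P t + y * Q t := by positivity
  have d2 : 0 < P t + δ * G1 t + y * (Q t + δ * G2 t) := by positivity
  have e : fw c (fun σ => P σ + δ * G1 σ) (fun σ => Q σ + δ * G2 σ) t x - fw c P Q t x =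
      δ * (c * (y * P t * G2 t / ((P t + y * Q t) * (P t + δ * G1 t + y * (Q t + δ * G2 t))) -
        y * Q t * G1 t / ((P t + y * Q t) * (P t + δ * G1 t + y * (Q t + δ * G2 t))))) := by
    unfold fw; rw [← hy']; field_simp; ring
  have hD : (P t + y * Q t) * (P t + y * Q t) ≤
      (P t + y * Q t) * (P t + δ * G1 t + y * (Q t + δ * G2 t)) := by
    gcongr
    · nlinarith
    · nlinarith
  have hyQ : 0 < y * Q t := by positivity
  have hD2 : P t * (y * Q t) ≤ (P t + y * Q t) * (P t + δ * G1 t + y * (Q t + δ * G2 t)) := by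
    nlinarith
  have a1 : y * P t * G2 t / ((P t + y * Q t) * (P t + δ * G1 t + y * (Q t + δ * G2 t))) ≤
      G2 t / Q t := by
    rw [div_le_div_iff₀ (by positivity) hQ]
    nlinarith
  have a2 : y * Q t * G1 t / ((P t + y * Q t) * (P t + δ * G1 t + y * (Q t + δ * G2 t))) ≤
      G1 t / P t := by
    rw [div_le_div_iff₀ (by positivity) hP]
    nlinarith
  have b1 : 0 ≤ y * P t * G2 t / ((P t + y * Q t) * (P t + δ * G1 t + y * (Q t + δ * G2 t))) := by
    positivity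
  have b2 : 0 ≤ y * Q t * G1 t / ((P t + y * Q t) * (P t + δ * G1 t + y * (Q t + δ * G2 t))) := by
    positivity
  rw [e, abs_mul, abs_mul, abs_of_nonneg hδ, abs_of_pos hc]
  gcongr
  rw [abs_le]; constructor <;> linarith

theorem Pos.w_tendsto {c : ℝ} {P Q G1 G2 : ℝ → ℝ} (h : Pos c P Q) (c1 : Continuous G1)
    (c2 : Continuous G2) (p1 : ∀ σ, 0 ≤ G1 σ) (p2 : ∀ σ, 0 ≤ G2 σ) (W σ : ℝ) :
    Tendsto (fun δ => sol c (fun σ => P σ + δ * G1 σ) (fun σ => Q σ + δ * G2 σ) W σ) (𝓝[>] 0)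
      (𝓝 (sol c P Q W σ)) := by
  have hcont : Continuous fun t => c * (G1 t / P t + G2 t / Q t) :=
    continuous_const.mul ((c1.div h.cP fun t => (h.pP t).ne').add
      (c2.div h.cQ fun t => (h.pQ t).ne'))
  obtain ⟨B, hB⟩ := (isCompact_Icc (a := -|σ|) (b := |σ|)).bddAbove_image hcont.continuousOn
  have hlim : Tendsto (fun δ => gronwallBound 0 c (δ * B) |σ|) (𝓝[>] 0) (𝓝 0) := by
    have : Continuous fun δ : ℝ => gronwallBound 0 c (δ * B) |σ| :=
      (gronwallBound_continuous_ε 0 c |σ|).comp (by fun_prop)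
    have h2 := this.tendsto 0
    rw [zero_mul, gronwallBound_ε0_δ0] at h2
    exact h2.mono_left nhdsWithin_le_nhds
  rw [tendsto_iff_dist_tendsto_zero]
  refine squeeze_zero' (Eventually.of_forall fun _ => dist_nonneg) ?_ hlim
  filter_upwards [self_mem_nhdsWithin] with δ hδ
  have hδ' : 0 ≤ δ := le_of_lt hδ
  have hp := h.pert c1 c2 p1 p2 hδ'
  have := gron (ε := δ * B) h.lip (h.spec W).1 (hp.spec W).1 σ (fun t ht x =>
    (h.fw_pert p1 p2 hδ' t x).trans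
      (mul_le_mul_of_nonneg_left (hB ⟨t, abs_le.1 ht, rfl⟩) hδ'))
  rwa [(h.spec W).2, (hp.spec W).2, sub_self, abs_zero, abs_sub_comm] at this

theorem Pos.K_tendsto {c : ℝ} {P Q G1 G2 : ℝ → ℝ} (h : Pos c P Q) (c1 : Continuous G1)
    (c2 : Continuous G2) (p1 : ∀ σ, 0 ≤ G1 σ) (p2 : ∀ σ, 0 ≤ G2 σ) (W σ : ℝ) :
    Tendsto (fun δ => KK c (fun σ => P σ + δ * G1 σ) (fun σ => Q σ + δ * G2 σ) W σ) (𝓝[>] 0)
      (𝓝 (KK c P Q W σ)) := by
  have lin : ∀ a b : ℝ, Tendsto (fun δ : ℝ => a + δ * b) (𝓝[>] 0) (𝓝 a) := fun a b => by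
    have : Continuous fun δ : ℝ => a + δ * b := by fun_prop
    simpa using (this.tendsto 0).mono_left nhdsWithin_le_nhds
  have hy := fun t => (h.w_tendsto c1 c2 p1 p2 W t).rexp
  have hden := fun t => ((lin (P t) (G1 t)).add ((hy t).mul (lin (Q t) (G2 t)))).pow 2
  have hE : ∀ t, Tendsto (fun δ => EE c (fun σ => P σ + δ * G1 σ) (fun σ => Q σ + δ * G2 σ) W t)
      (𝓝[>] 0) (𝓝 (EE c P Q W t)) := fun t =>
    (((hy t).mul (lin (P t) (G1 t))).mul (lin (Q t) (G2 t))).div (hden t)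
      (pow_pos (h.den t _) 2).ne'
  have hL : Tendsto (fun δ => LV c (fun σ => P σ + δ * G1 σ) (fun σ => Q σ + δ * G2 σ) W σ)
      (𝓝[>] 0) (𝓝 (LV c P Q W σ)) := by
    refine (Tendsto.const_mul c ?_).neg
    refine intervalIntegral.tendsto_integral_filter_of_dominated_convergence (fun _ => 1 / 4)
      ?_ ?_ (by simp) (Eventually.of_forall fun t _ => hE t)
    · filter_upwards [self_mem_nhdsWithin] with δ hδ
      exact ((h.pert c1 c2 p1 p2 (le_of_lt hδ)).cE W).aestronglyMeasurable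
    · filter_upwards [self_mem_nhdsWithin] with δ hδ
      have hp := h.pert c1 c2 p1 p2 (le_of_lt hδ)
      exact Eventually.of_forall fun t _ => by
        rw [Real.norm_eq_abs, abs_of_nonneg (hp.E_nonneg W t)]; exact hp.E_le W t
  exact ((hy σ).mul hL.rexp).div (hden σ) (pow_pos (h.den σ _) 2).ne'

theorem Sys.M_tendsto {c : ℝ} {P Q G1 G2 R : ℝ → ℝ} {j p k i d : ℝ} (h : Sys c P Q j p k)
    (c1 : Continuous G1) (c2 : Continuous G2) (p1 : ∀ σ, 0 ≤ G1 σ) (p2 : ∀ σ, 0 ≤ G2 σ)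
    (hR : Continuous R) (uR : Up R i d) (hi : 0 < i - 1 - j - c / 4) (hd : d < 2 * p) (W : ℝ) :
    Tendsto (fun δ => MM c (fun σ => P σ + δ * G1 σ) (fun σ => Q σ + δ * G2 σ) R W) (𝓝[>] 0)
      (𝓝 (MM c P Q R W)) := by
  obtain ⟨aR, R1, R2⟩ := uR
  obtain ⟨bP, P3, P4⟩ := h.lP
  obtain ⟨bQ, Q3, -⟩ := h.lQ
  have hb : 0 < 2 * p - d := by linarith
  refine tendsto_integral_filter_of_dominated_convergence _ ?_ ?_
    ((integrable_two hi hb).const_mul (exp (max (aR - bP - bQ) (aR + W - 2 * bP))))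
    (Eventually.of_forall fun σ => (h.K_tendsto c1 c2 p1 p2 W σ).const_mul _)
  · filter_upwards [self_mem_nhdsWithin] with δ hδ
    exact (hR.mul ((h.pert c1 c2 p1 p2 (le_of_lt hδ)).cK W)).aestronglyMeasurable
  · filter_upwards [self_mem_nhdsWithin] with δ hδ
    have hδ' : 0 ≤ δ := le_of_lt hδ
    have hp := h.pert c1 c2 p1 p2 hδ'
    have g1 : ∀ σ, P σ ≤ P σ + δ * G1 σ := fun σ => le_add_of_nonneg_right (mul_nonneg hδ' (p1 σ))
    have g2 : ∀ σ, Q σ ≤ Q σ + δ * G2 σ := fun σ => le_add_of_nonneg_right (mul_nonneg hδ' (p2 σ))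
    refine Eventually.of_forall (bound_two (fun σ hσ => ?_) fun σ hσ => ?_)
    · exact abs_mul_le (R1 σ hσ) (hp.K_pos W σ)
        (hp.K_le_am W σ ((P3 σ hσ).trans (g1 σ)) ((Q3 σ hσ).trans (g2 σ)) (hp.L_le' W hσ))
        (by linarith [le_max_left (aR - bP - bQ) (aR + W - 2 * bP)])
    · exact abs_mul_le (R2 σ hσ) (hp.K_pos W σ)
        (hp.K_le_P W σ (hp.w_le W hσ) ((P4 σ hσ).trans (g1 σ)) (hp.L_le W hσ))
        (by linarith [le_max_right (aR - bP - bQ) (aR + W - 2 * bP)])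

end Pool.Agent.LC5081
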