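import Pool.Agent.Lib.MP_5081b1_an.Ker

/-! Exponential growth classes, integrated bounds along solutions, integrability. -/

set_option autoImplicit false

open Set Filter Topology MeasureTheory Real

namespace Pool.Agent.LC5081

def Up (f : ℝ → ℝ) (lo hi : ℝ) : Prop :=
  ∃ A, (∀ σ, σ ≤ 0 → |f σ| ≤ exp (A + lo * σ)) ∧ ∀ σ, 0 ≤ σ → |f σ| ≤ exp (A + hi * σ)

def Lo (f : ℝ → ℝ) (lo hi : ℝ) : Prop :=
  ∃ A, (∀ σ, σ ≤ 0 → exp (A + lo * σ) ≤ f σ) ∧ ∀ σ, 0 ≤ σ → exp (A + hi * σ) ≤ f σ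

def Top (f : ℝ → ℝ) (d : ℝ) : Prop := ∃ A s, 0 ≤ s ∧ ∀ σ, s ≤ σ → exp (A + d * σ) ≤ f σ

def Bot (f : ℝ → ℝ) (i : ℝ) : Prop := ∃ A s, 0 ≤ s ∧ ∀ σ, σ ≤ -s → exp (A + i * σ) ≤ f σ

structure Sys (c : ℝ) (P Q : ℝ → ℝ) (j p k : ℝ) : Prop extends Pos c P Q where
  uP : Up P 1 p
  lP : Lo P 1 p
  uQ : Up Q j k
  lQ : Lo Q j k
  lt : k < p

theorem integrable_two {a b : ℝ} (ha : 0 < a) (hb : 0 < b) :
    Integrable fun σ : ℝ => if σ ≤ 0 then exp (a * σ) else exp (-b * σ) := by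
  rw [← integrableOn_univ, ← Iic_union_Ioi (a := (0:ℝ)), integrableOn_union]
  constructor
  · exact (integrableOn_exp_mul_Iic ha 0).congr_fun (fun σ hσ => by simp [mem_Iic.1 hσ])
      measurableSet_Iic
  · exact (integrableOn_exp_mul_Ioi (a := -b) (by linarith) 0).congr_fun
      (fun σ hσ => by simp [not_le.2 (mem_Ioi.1 hσ)]) measurableSet_Ioi

theorem bound_two {f : ℝ → ℝ} {A a b : ℝ} (h1 : ∀ σ, σ ≤ 0 → |f σ| ≤ exp (A + a * σ))
    (h2 : ∀ σ, 0 ≤ σ → |f σ| ≤ exp (A + -b * σ)) (σ : ℝ) :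
    ‖f σ‖ ≤ exp A * if σ ≤ 0 then exp (a * σ) else exp (-b * σ) := by
  split_ifs with hσ
  · rw [← exp_add]; exact h1 σ hσ
  · rw [← exp_add]; exact h2 σ (not_le.1 hσ).le

theorem integrable_of_up {f : ℝ → ℝ} (hf : Continuous f) {a b : ℝ} (ha : 0 < a) (hb : 0 < b)
    (h : Up f a (-b)) : Integrable f := by
  obtain ⟨A, h1, h2⟩ := h
  exact ((integrable_two ha hb).const_mul (exp A)).mono' hf.aestronglyMeasurable
    (Eventually.of_forall (bound_two h1 h2))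

theorem pos_int {η : ℝ} (hη : 0 < η) : ∃ J, ∀ (k : ℝ → ℝ) (e l s : ℝ), Integrable k →
    (∀ σ, σ ≤ 0 → -exp (e + η * σ) ≤ k σ) → (∀ σ, 0 ≤ σ → -exp (e + -η * σ) ≤ k σ) →
    (∀ σ ∈ Icc s (s + 1), exp l ≤ k σ) → e + J ≤ l → 0 < ∫ σ, k σ := by
  set g : ℝ → ℝ := fun σ : ℝ => if σ ≤ 0 then exp (η * σ) else exp (-η * σ) with hg
  have gi : Integrable g := integrable_two hη hη
  refine ⟨∫ σ, g σ, fun k e l s hk h1 h2 h3 h4 => ?_⟩
  have ii : Integrable ((Icc s (s + 1)).indicator fun _ : ℝ => exp l) :=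
    (integrable_indicator_iff measurableSet_Icc).2 (integrableOn_const (by simp))
  have hle : ∫ σ, ((Icc s (s + 1)).indicator (fun _ : ℝ => exp l) σ - exp e * g σ) ≤ ∫ σ, k σ := by
    refine integral_mono (ii.sub (gi.const_mul _)) hk fun σ => ?_
    have g0 : 0 ≤ exp e * g σ := by simp only [hg]; split_ifs <;> positivity
    by_cases hσ : σ ∈ Icc s (s + 1)
    · simp only [indicator_of_mem hσ]; linarith [h3 σ hσ]
    · simp only [indicator_of_notMem hσ, hg]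
      split_ifs with h0
      · rw [← exp_add]; linarith [h1 σ h0]
      · rw [← exp_add]; linarith [h2 σ (not_le.1 h0).le]
  rw [integral_sub ii (gi.const_mul _), integral_const_mul, integral_indicator measurableSet_Icc]
    at hle
  simp only [integral_const, MeasurableSet.univ, measureReal_restrict_apply, univ_inter,
    Real.volume_real_Icc, add_sub_cancel_left, smul_eq_mul] at hle
  rw [max_eq_left zero_le_one, one_mul] at hle
  have h5 : exp e * exp (∫ σ, g σ) ≤ exp l := by rw [← exp_add]; exact exp_le_exp.2 h4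
  have h6 := add_one_le_exp (∫ σ, g σ)
  have := exp_pos e
  nlinarith

theorem abs_mul_le {r k a b e : ℝ} (h1 : |r| ≤ exp a) (h0 : 0 < k) (h2 : k ≤ exp b)
    (h : a + b ≤ e) : |r * k| ≤ exp e := by
  rw [abs_mul, abs_of_pos h0]
  calc |r| * k ≤ exp a * exp b := by gcongr
    _ = exp (a + b) := (exp_add _ _).symm
    _ ≤ _ := exp_le_exp.2 h

theorem neg_le_mul {r k a b e : ℝ} (h1 : |r| ≤ exp a) (h0 : 0 < k) (h2 : k ≤ exp b)
    (h : a + b ≤ e) : -exp e ≤ r * k := (abs_le.1 (abs_mul_le h1 h0 h2 h)).1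

theorem neg_le_mul' {r k a e : ℝ} (h1 : exp a ≤ r) (h0 : 0 < k) : -exp e ≤ r * k := by
  have := exp_pos a; have := exp_pos e
  nlinarith

theorem le_mul {r k a b l : ℝ} (h1 : exp a ≤ r) (h2 : exp b ≤ k) (h : l ≤ a + b) :
    exp l ≤ r * k := by
  calc exp l ≤ exp (a + b) := exp_le_exp.2 h
    _ = exp a * exp b := exp_add _ _
    _ ≤ _ := by have := exp_pos a; gcongr; linarith

theorem ev_ge {a : ℝ} (ha : 0 < a) (b : ℝ) : ∀ᶠ s in atTop, b ≤ a * s :=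
  (tendsto_id.const_mul_atTop ha).eventually_ge_atTop b

theorem mul_le_abs {x σ s : ℝ} (h1 : -s ≤ σ) (h2 : σ ≤ s) : x * σ ≤ |x| * s := by
  calc x * σ ≤ |x * σ| := le_abs_self _
    _ = |x| * |σ| := abs_mul _ _
    _ ≤ _ := by gcongr; exact abs_le.2 ⟨h1, h2⟩

namespace Sys

variable {c : ℝ} {P Q : ℝ → ℝ} {j p k : ℝ}

theorem fwd_w (h : Sys c P Q j p k) : ∃ G, ∀ W σ, 0 ≤ σ → (p - k) * σ + G ≤ W →
    W - 1 ≤ sol c P Q W σ := by
  obtain ⟨aP, -, hP⟩ := h.uP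
  obtain ⟨bQ, -, hQ⟩ := h.lQ
  have hν : 0 < p - k := sub_pos.2 h.lt
  have hc := h.hc
  refine ⟨log (2 * (c * exp (aP - bQ) / (p - k))), fun W σ hσ hW => ?_⟩
  have := fwd_bound (h.dy W) (A := c * exp (aP - bQ)) hσ (by positivity) hν (fun t ht => by
    have := h.dy_ge t (sol c P Q W t) ((le_abs_self _).trans (hP t ht.1)) (hQ t ht.1)
    rwa [show aP + p * t - (bQ + k * t) = aP - bQ + (p - k) * t by ring, exp_add, ← mul_assoc]
      at this)
  rw [(h.spec W).2] at this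
  have h2 := exp_le_exp.2 hW
  rw [exp_add, exp_log (by positivity)] at h2
  have h3 : exp W = exp (W - 1) * exp 1 := by rw [← exp_add]; congr 1; ring
  have h4 := add_one_le_exp (1 : ℝ)
  have h5 := exp_pos (W - 1)
  rw [← exp_le_exp]
  nlinarith

theorem fwd_L (h : Sys c P Q j p k) : ∃ G G', ∀ W σ, 0 ≤ σ → (p - k) * σ + G ≤ W →
    W - 1 ≤ sol c P Q W σ ∧ -G' ≤ LV c P Q W σ := by
  obtain ⟨G, hG⟩ := h.fwd_w
  obtain ⟨aP, -, hP⟩ := h.uP
  obtain ⟨bQ, -, hQ⟩ := h.lQ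
  have hν : 0 < p - k := sub_pos.2 h.lt
  have hc := h.hc
  refine ⟨G, c * exp (aP - bQ + 1 - G) / (p - k), fun W σ hσ hW => ⟨hG W σ hσ hW, ?_⟩⟩
  have := fwd_bound (h.dL W) (A := c * exp (aP - bQ + 1 - W)) hσ (by positivity) hν (fun t ht => by
    have := h.E_le' W t ((le_abs_self _).trans (hP t ht.1)) (hQ t ht.1)
      (hG W t ht.1 (by nlinarith [ht.2]))
    rw [show aP + p * t - (bQ + k * t) - (W - 1) = aP - bQ + 1 - W + (p - k) * t by ring,
      exp_add] at this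
    rw [neg_le_neg_iff, mul_assoc]
    gcongr)
  rw [Pos.L0] at this
  refine le_trans ?_ this
  have h2 : exp (aP - bQ + 1 - W) * exp ((p - k) * σ) ≤ exp (aP - bQ + 1 - G) := by
    rw [← exp_add]; exact exp_le_exp.2 (by linarith)
  have h3 : c * exp (aP - bQ + 1 - W) / (p - k) * exp ((p - k) * σ) =
      c * (exp (aP - bQ + 1 - W) * exp ((p - k) * σ)) / (p - k) := by ring
  rw [zero_sub, neg_le_neg_iff, h3]
  gcongr

theorem bwd_w (h : Sys c P Q j p k) (hj : 1 < j) : ∃ G, ∀ W σ, σ ≤ 0 → -(j - 1) * σ ≤ W →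
    sol c P Q W σ ≤ W + G := by
  obtain ⟨aP, hP, -⟩ := h.uP
  obtain ⟨bQ, hQ, -⟩ := h.lQ
  have hν : 0 < j - 1 := sub_pos.2 hj
  have hc := h.hc
  refine ⟨c * exp (aP - bQ) / (j - 1), fun W σ hσ hW => ?_⟩
  have := bwd_bound (h.dy W) (A := c * exp (aP - bQ)) hσ (by positivity) hν (fun t ht => by
    have := h.dy_ge t (sol c P Q W t) ((le_abs_self _).trans (hP t ht.2)) (hQ t ht.2)
    rwa [show aP + 1 * t - (bQ + j * t) = aP - bQ + -(j - 1) * t by ring, exp_add, ← mul_assoc]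
      at this)
  rw [(h.spec W).2] at this
  have h2 := exp_le_exp.2 hW
  have h4 := add_one_le_exp (c * exp (aP - bQ) / (j - 1))
  have h5 := exp_pos W
  have h6 : 0 ≤ c * exp (aP - bQ) / (j - 1) := by positivity
  rw [← exp_le_exp, exp_add]
  nlinarith

theorem fwd_v (h : Sys c P Q j p k) : ∃ H, 0 ≤ H ∧ ∀ W σ, 0 ≤ σ →
    sol c P Q W σ ≤ W - c * σ + H * exp W := by
  obtain ⟨bP, -, hP⟩ := h.lP
  obtain ⟨aQ, -, hQ⟩ := h.uQ
  have hν : 0 < p - k := sub_pos.2 h.lt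
  have hc := h.hc
  refine ⟨c * exp (aQ - bP) / (p - k), by positivity, fun W σ hσ => ?_⟩
  have := bwd_bound (fun t => (h.dv W t).neg) (A := c * exp (W + aQ - bP)) hσ (by positivity) hν
    (fun t ht => by
    have := h.dv_le t (sol c P Q W t) (hP t ht.1) ((le_abs_self _).trans (hQ t ht.1))
      (h.w_le W ht.1)
    rw [show W + (aQ + k * t) - (bP + p * t) = W + aQ - bP + -(p - k) * t by ring, exp_add,
      ← mul_assoc] at this
    linarith)
  simp only [Pi.neg_apply, (h.spec W).2, mul_zero, exp_zero, add_zero, mul_one] at this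
  rw [show W + aQ - bP = aQ - bP + W by ring, exp_add] at this
  have e : c * (exp (aQ - bP) * exp W) / (p - k) = c * exp (aQ - bP) / (p - k) * exp W := by ring
  linarith

theorem bwd_v (h : Sys c P Q 0 p k) : ∃ G, ∀ W σ, σ ≤ 0 → W ≤ (c + 1) * σ →
    W - c * σ - G ≤ sol c P Q W σ := by
  obtain ⟨bP, hP, -⟩ := h.lP
  obtain ⟨aQ, hQ, -⟩ := h.uQ
  have hc := h.hc
  refine ⟨c * exp (aQ - bP) / (c + 1), fun W σ hσ hW => ?_⟩
  have := bwd_bound (fun t => (h.dv W t).neg) (A := c * exp (W + aQ - bP)) (ν := c + 1) hσ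
    (by positivity) (by positivity) (fun t ht => by
    have := h.dv_le t (sol c P Q W t) (hP t ht.2) ((le_abs_self _).trans (hQ t ht.2))
      (h.v_le W ht.2)
    rw [show W - c * t + (aQ + 0 * t) - (bP + 1 * t) = W + aQ - bP + -(c + 1) * t by ring, exp_add,
      ← mul_assoc] at this
    linarith)
  simp only [Pi.neg_apply, (h.spec W).2, mul_zero, add_zero] at this
  have h2 : exp (W + aQ - bP) * exp (-(c + 1) * σ) ≤ exp (aQ - bP) := by
    rw [← exp_add]; exact exp_le_exp.2 (by linarith)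
  have h3 : c * exp (W + aQ - bP) / (c + 1) * exp (-(c + 1) * σ) =
      c * (exp (W + aQ - bP) * exp (-(c + 1) * σ)) / (c + 1) := by ring
  have h4 : c * (exp (W + aQ - bP) * exp (-(c + 1) * σ)) / (c + 1) ≤
      c * exp (aQ - bP) / (c + 1) := by gcongr
  linarith

theorem bwd_L (h : Sys c P Q 0 p k) (W : ℝ) : ∃ G, ∀ σ, σ ≤ 0 → LV c P Q W σ ≤ G := by
  obtain ⟨aP, hP, -⟩ := h.uP
  obtain ⟨bQ, hQ, -⟩ := h.lQ
  have hc := h.hc
  refine ⟨c * exp (aP - bQ - W), fun σ hσ => ?_⟩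
  have := fwd_bound (h.dL W) (A := c * exp (aP - bQ - W)) (ν := 1) hσ (by positivity) one_pos
    (fun t ht => by
    have := h.E_le' W t ((le_abs_self _).trans (hP t ht.2)) (hQ t ht.2) (h.w_ge W ht.2)
    rw [show aP + 1 * t - (bQ + 0 * t) - W = aP - bQ - W + 1 * t by ring, exp_add] at this
    rw [neg_le_neg_iff, mul_assoc]
    gcongr)
  rw [Pos.L0] at this
  simp only [mul_zero, exp_zero, div_one, mul_one] at this
  linarith

theorem bwd_y (h : Sys c P Q 0 p k) (W : ℝ) : ∃ G, ∀ σ, σ ≤ 0 → sol c P Q W σ ≤ G := by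
  obtain ⟨aP, hP, -⟩ := h.uP
  obtain ⟨bQ, hQ, -⟩ := h.lQ
  have hc := h.hc
  refine ⟨exp W + c * exp (aP - bQ), fun σ hσ => ?_⟩
  have := fwd_bound (h.dy W) (A := c * exp (aP - bQ)) (ν := 1) hσ (by positivity) one_pos
    (fun t ht => by
    have := h.dy_ge t (sol c P Q W t) ((le_abs_self _).trans (hP t ht.2)) (hQ t ht.2)
    rwa [show aP + 1 * t - (bQ + 0 * t) = aP - bQ + 1 * t by ring, exp_add, ← mul_assoc]
      at this)
  rw [(h.spec W).2] at this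
  simp only [mul_zero, exp_zero, div_one, mul_one] at this
  linarith [add_one_le_exp (sol c P Q W σ)]

theorem int_aux (h : Sys c P Q j p k) {R : ℝ → ℝ} (hR : Continuous R) {i d η : ℝ} (uR : Up R i d)
    (hd : d < 2 * p + c) (W : ℝ) (hη : 0 < η)
    (hn : ∃ A, ∀ σ, σ ≤ 0 → |R σ * KK c P Q W σ| ≤ exp (A + η * σ)) :
    Integrable fun σ => R σ * KK c P Q W σ := by
  obtain ⟨A, hA⟩ := hn
  obtain ⟨aR, -, h2⟩ := uR
  obtain ⟨bP, -, hP⟩ := h.lP
  obtain ⟨H, -, hH⟩ := h.fwd_v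
  refine integrable_of_up (hR.mul (h.cK W)) hη (b := 2 * p + c - d) (by linarith)
    ⟨max A (aR + W + H * exp W - 2 * bP), fun σ hσ => (hA σ hσ).trans (exp_le_exp.2 ?_),
      fun σ hσ => abs_mul_le (h2 σ hσ) (h.K_pos W σ)
        (h.K_le_P W σ (hH W σ hσ) (hP σ hσ) (h.L_le W hσ)) ?_⟩
  · linarith [le_max_left A (aR + W + H * exp W - 2 * bP)]
  · linarith [le_max_right A (aR + W + H * exp W - 2 * bP)]

theorem int_open (h : Sys c P Q j p k) {R : ℝ → ℝ} (hR : Continuous R) {i d : ℝ} (uR : Up R i d)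
    (hi : 0 < i - 1 - j - c / 4) (hd : d < 2 * p + c) (W : ℝ) :
    Integrable fun σ => R σ * KK c P Q W σ := by
  refine h.int_aux hR uR hd W hi ?_
  obtain ⟨aR, h1, -⟩ := uR
  obtain ⟨bP, hP, -⟩ := h.lP
  obtain ⟨bQ, hQ, -⟩ := h.lQ
  exact ⟨aR - bP - bQ, fun σ hσ => abs_mul_le (h1 σ hσ) (h.K_pos W σ)
    (h.K_le_am W σ (hP σ hσ) (hQ σ hσ) (h.L_le' W hσ)) (by linarith)⟩

theorem int_closed (h : Sys c P Q 0 p k) {R : ℝ → ℝ} (hR : Continuous R) {i d : ℝ} (uR : Up R i d)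
    (hi : 0 < i) (hd : d < 2 * p + c) (W : ℝ) :
    Integrable fun σ => R σ * KK c P Q W σ := by
  refine h.int_aux hR uR hd W hi ?_
  obtain ⟨aR, h1, -⟩ := uR
  obtain ⟨bQ, hQ, -⟩ := h.lQ
  obtain ⟨G, hG⟩ := h.bwd_L W
  exact ⟨aR + G - W - 2 * bQ, fun σ hσ => abs_mul_le (h1 σ hσ) (h.K_pos W σ)
    (h.K_le_Q W σ (h.w_ge W hσ) (hQ σ hσ) (hG σ hσ)) (by linarith)⟩

end Sys

end Pool.Agent.LC5081
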