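import Pool.Agent.Lib.MP_5081b1_an.Slide

/-! Chains of sign changes on both sides of a sliding separatrix and their persistence. -/

set_option autoImplicit false

open Set Filter Topology MeasureTheory Real

namespace Pool.Agent.LC5081

/-- `N` sign changes of `M` at points of `S`, the last sign being that of `t`. -/
def ChainS (M : ℝ → ℝ) (S : Set ℝ) (N : ℕ) (t : ℝ) : Prop :=
  ∃ W : ℕ → ℝ, (∀ i < N, W i < W (i + 1)) ∧ ∀ i ≤ N, W i ∈ S ∧ 0 < t * (-1) ^ (N + i) * M (W i)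

theorem ChainS.ne {M : ℝ → ℝ} {S : Set ℝ} {N : ℕ} {t : ℝ} (h : ChainS M S N t) : t ≠ 0 := by
  obtain ⟨W, -, h⟩ := h
  rintro rfl
  simpa using (h 0 (Nat.zero_le _)).2

theorem ChainS.right {M : ℝ → ℝ} {S : Set ℝ} {N : ℕ} {t : ℝ} (h : ChainS M S N t)
    (h' : ∀ W0 ∈ S, ∃ W ∈ S, W0 < W ∧ 0 < -t * M W) : ChainS M S (N + 1) (-t) := by
  obtain ⟨W, h1, h2⟩ := h
  obtain ⟨V, hS, hV, hV'⟩ := h' (W N) (h2 N le_rfl).1
  refine ⟨fun i => if i ≤ N then W i else V, fun i hi => ?_, fun i hi => ?_⟩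
  · rcases (Nat.lt_succ_iff.1 hi).lt_or_eq with h | rfl
    · simp only [h.le, Nat.succ_le_of_lt h, if_true]; exact h1 i h
    · simpa using hV
  · rcases hi.lt_or_eq with h | rfl
    · simp only [Nat.lt_succ_iff.1 h, if_true]
      have := h2 i (Nat.lt_succ_iff.1 h)
      rwa [show N + 1 + i = N + i + 1 by ring, pow_succ,
        show -t * ((-1) ^ (N + i) * -1) = t * (-1) ^ (N + i) by ring]
    · rw [← two_mul, pow_mul]
      simpa using ⟨hS, by simpa using hV'⟩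

theorem ChainS.persist {M : ℝ → ℝ} {S : Set ℝ} {N : ℕ} {t : ℝ} (h : ChainS M S N t)
    {M' : ℝ → ℝ → ℝ} {S' : ℝ → Set ℝ}
    (h' : ∀ W ∈ S, Tendsto (fun δ => M' δ W) (𝓝[>] 0) (𝓝 (M W)) ∧ ∀ᶠ δ in 𝓝[>] (0 : ℝ), W ∈ S' δ) :
    ∀ᶠ δ in 𝓝[>] (0 : ℝ), ChainS (M' δ) (S' δ) N t := by
  obtain ⟨W, h1, h2⟩ := h
  have : ∀ᶠ δ in 𝓝[>] (0 : ℝ), ∀ i ∈ Finset.range (N + 1),
      W i ∈ S' δ ∧ 0 < t * (-1) ^ (N + i) * M' δ (W i) := by
    rw [Filter.eventually_all_finset]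
    intro i hi
    have h3 := h2 i (by simpa [Nat.lt_succ_iff] using hi)
    exact (h' _ h3.1).2.and (((h' _ h3.1).1.const_mul _).eventually_const_lt h3.2)
  filter_upwards [this] with δ hδ
  exact ⟨W, h1, fun i hi => hδ i (by simpa [Nat.lt_succ_iff] using hi)⟩

/-- Chains on both sides, read towards the separatrix. -/
def Two (M : ℝ → ℝ) (S T : Set ℝ) (N : ℕ) (t : ℝ) : Prop :=
  ChainS M S N t ∧ ChainS (fun W => M (-W)) {W | -W ∈ T} N t

theorem Two.concat {M : ℝ → ℝ} {S T : Set ℝ} {N : ℕ} {t : ℝ} (h : Two M S T N t)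
    (hs : ∀ W ∈ S, ∀ W' ∈ T, W < W') : Chain M (N + N) (t * (-1) ^ N) := by
  obtain ⟨⟨W, w1, w2⟩, V, v1, v2⟩ := h
  refine ⟨fun i => if i ≤ N then W i else -V (N + N - i), fun i hi => ?_, fun i hi => ?_⟩
  · rcases lt_trichotomy i N with h | rfl | h
    · simp only [h.le, Nat.succ_le_of_lt h, if_true]; exact w1 i h
    · simp only [le_rfl, if_true, Nat.not_succ_le_self, if_false]
      exact hs _ (w2 i le_rfl).1 _ (v2 _ (by omega)).1
    · simp only [not_le.2 h, show ¬ i + 1 ≤ N by omega, if_false, neg_lt_neg_iff]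
      have := v1 (N + N - (i + 1)) (by omega)
      rwa [show N + N - (i + 1) + 1 = N + N - i by omega] at this
  · rw [mul_assoc t, ← pow_add, neg_one_pow_eq_pow_mod_two]
    dsimp only
    split_ifs with h
    · have := (w2 i h).2
      rw [neg_one_pow_eq_pow_mod_two] at this
      rwa [show (N + (N + N + i)) % 2 = (N + i) % 2 by omega]
    · have := (v2 (N + N - i) (by omega)).2
      rw [neg_one_pow_eq_pow_mod_two] at this
      rwa [show (N + (N + N + i)) % 2 = (N + (N + N - i)) % 2 by omega]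

theorem Two.persist {M : ℝ → ℝ} {S T : Set ℝ} {N : ℕ} {t : ℝ} (h : Two M S T N t)
    {M' : ℝ → ℝ → ℝ} {S' T' : ℝ → Set ℝ}
    (h1 : ∀ W ∈ S, Tendsto (fun δ => M' δ W) (𝓝[>] 0) (𝓝 (M W)) ∧ ∀ᶠ δ in 𝓝[>] (0 : ℝ), W ∈ S' δ)
    (h2 : ∀ W ∈ T, Tendsto (fun δ => M' δ W) (𝓝[>] 0) (𝓝 (M W)) ∧ ∀ᶠ δ in 𝓝[>] (0 : ℝ), W ∈ T' δ) :
    ∀ᶠ δ in 𝓝[>] (0 : ℝ), 0 < δ ∧ Two (M' δ) (S' δ) (T' δ) N t := by
  filter_upwards [self_mem_nhdsWithin, h.1.persist h1, h.2.persist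
    (M' := fun δ W => M' δ (-W)) (S' := fun δ => {W | -W ∈ T' δ}) fun W hW => h2 _ hW]
    with δ a b c using ⟨a, b, c⟩

namespace Sld

variable {c : ℝ} {P Q R G1 G2 : ℝ → ℝ} {p s : ℝ}

theorem neg_unif (h : Sld c P Q p s) (c1 : Continuous G1) (c2 : Continuous G2)
    (p1 : ∀ σ, 0 ≤ G1 σ) (p2 : ∀ σ, 0 ≤ G2 σ) (g1 : ∀ σ, σ ≤ 0 → G1 σ ≤ exp σ) {i d : ℝ}
    (uR : Up R i d) (W : ℝ) : ∃ A, ∀ᶠ δ in 𝓝[>] (0 : ℝ), ∀ σ, σ ≤ 0 →
      |R σ * KK c (fun σ => P σ + δ * G1 σ) (fun σ => Q σ + δ * G2 σ) W σ| ≤ exp (A + i * σ) := by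
  obtain ⟨aR, R1, -⟩ := uR
  obtain ⟨aP, P1, -⟩ := h.uP
  obtain ⟨bQ, Q3, -⟩ := h.lQ
  refine ⟨aR + (c * exp (max aP 0 + 1 - bQ - W) - W - 2 * bQ), ?_⟩
  filter_upwards [Ioo_mem_nhdsGT (zero_lt_one' ℝ)] with δ hδ σ hσ
  have hp := h.toPos.pert c1 c2 p1 p2 hδ.1.le
  refine abs_mul_le (R1 σ hσ) (hp.K_pos W σ) (hp.neg_K (A := max aP 0 + 1) (b := bQ)
    (fun σ hσ => ?_) (fun σ hσ => (Q3 σ hσ).trans
      (le_add_of_nonneg_right (mul_nonneg hδ.1.le (p2 σ)))) le_rfl σ hσ) (by linarith)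
  have h1 : δ * G1 σ ≤ exp (0 + 1 * σ) :=
    (mul_le_of_le_one_left (p1 σ) hδ.2.le).trans (by simpa using g1 σ hσ)
  refine (add_le_add ((le_abs_self _).trans (P1 σ hσ)) h1).trans ((exp_add_le _ _).trans
    (exp_le_exp.2 ?_))
  rw [max_add_add_right]; linarith

theorem lim_below (h : Sld c P Q p s) (c1 : Continuous G1) (c2 : Continuous G2)
    (p1 : ∀ σ, 0 ≤ G1 σ) (p2 : ∀ σ, 0 ≤ G2 σ) (g1 : ∀ σ, σ ≤ 0 → G1 σ ≤ exp σ)
    (g2 : ∀ σ, G2 σ ≤ exp (s * σ) * G1 σ) (hR : Continuous R) {i d : ℝ} (uR : Up R i d)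
    (hi : 0 < i) (hd : d < 2 * (p + s)) (W : ℝ) (hW : W ∈ Below c P Q) :
    Tendsto (fun δ => MM c (fun σ => P σ + δ * G1 σ) (fun σ => Q σ + δ * G2 σ) R W) (𝓝[>] 0)
      (𝓝 (MM c P Q R W)) ∧
    ∀ᶠ δ in 𝓝[>] (0 : ℝ), W ∈ Below c (fun σ => P σ + δ * G1 σ) (fun σ => Q σ + δ * G2 σ) := by
  obtain ⟨A, A0, hA⟩ := h.ratB
  obtain ⟨G, hG⟩ := hW
  obtain ⟨σ1, s1, s2⟩ := ((eventually_ge_atTop 0).and
    (ev_ge (sub_pos.2 h.sc') (G + log (2 * (c * exp A / (c - s))) + 1))).exists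
  have E : ∀ᶠ δ in 𝓝[>] (0 : ℝ), 0 < δ ∧ ∀ σ, 0 ≤ σ →
      sol c (fun σ => P σ + δ * G1 σ) (fun σ => Q σ + δ * G2 σ) W σ ≤ W + c * σ1 + 1 - c * σ := by
    filter_upwards [self_mem_nhdsWithin, (h.w_tendsto c1 c2 p1 p2 W σ1).eventually_lt_const
      (u := -log (2 * (c * exp A / (c - s))) + -s * σ1) (by linarith [hG σ1 s1])] with δ hδ h1
    have hδ' : 0 ≤ δ := le_of_lt hδ
    refine ⟨hδ, (h.toPos.pert c1 c2 p1 p2 hδ').trapB h.sc' (fun σ hσ => ?_) W s1 h1.le⟩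
    have : G2 σ ≤ exp (A + s * σ) * G1 σ := (g2 σ).trans
      (mul_le_mul_of_nonneg_right (exp_le_exp.2 (by linarith)) (p1 σ))
    nlinarith [hA σ hσ]
  refine ⟨?_, E.mono fun δ hδ => ⟨_, hδ.2⟩⟩
  obtain ⟨A', hA'⟩ := h.neg_unif c1 c2 p1 p2 g1 uR W
  obtain ⟨aR, -, R2⟩ := uR
  obtain ⟨bP, -, P4⟩ := h.lP
  refine h.M_lim c1 c2 p1 p2 hR W hi (b := 2 * (p + s) - d) (A := A')
    (B := aR + W + c * σ1 + 1 - 2 * bP) (by linarith) ?_
  filter_upwards [hA', E] with δ h1 h2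
  have hp := h.toPos.pert c1 c2 p1 p2 h2.1.le
  refine ⟨h1, fun σ hσ => abs_mul_le (R2 σ hσ) (hp.K_pos W σ) (hp.K_le_P W σ (h2.2 σ hσ)
    ((P4 σ hσ).trans (le_add_of_nonneg_right (mul_nonneg h2.1.le (p1 σ)))) (hp.L_le W hσ)) ?_⟩
  nlinarith [h.sc]

theorem lim_above (h : Sld c P Q p s) (c1 : Continuous G1) (c2 : Continuous G2)
    (p1 : ∀ σ, 0 ≤ G1 σ) (p2 : ∀ σ, 0 ≤ G2 σ) (g1 : ∀ σ, σ ≤ 0 → G1 σ ≤ exp σ)
    (g2 : ∀ σ, G1 σ ≤ exp (-s * σ) * G2 σ) (hR : Continuous R) {i d : ℝ} (uR : Up R i d)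
    (hi : 0 < i) (hd : d < 2 * (p + s)) (W : ℝ) (hW : W ∈ Above c P Q) :
    Tendsto (fun δ => MM c (fun σ => P σ + δ * G1 σ) (fun σ => Q σ + δ * G2 σ) R W) (𝓝[>] 0)
      (𝓝 (MM c P Q R W)) ∧
    ∀ᶠ δ in 𝓝[>] (0 : ℝ), W ∈ Above c (fun σ => P σ + δ * G1 σ) (fun σ => Q σ + δ * G2 σ) := by
  obtain ⟨A, A0, hA⟩ := h.ratA
  obtain ⟨G, hG⟩ := hW
  obtain ⟨σ1, s1, s2⟩ := ((eventually_ge_atTop 0).and
    (ev_ge h.s0 (log (2 * (c * exp A / s)) + 1 - G))).exists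
  have E : ∀ᶠ δ in 𝓝[>] (0 : ℝ), 0 < δ ∧ ∀ σ, 0 ≤ σ → W - c * σ1 - 1 ≤
      sol c (fun σ => P σ + δ * G1 σ) (fun σ => Q σ + δ * G2 σ) W σ := by
    filter_upwards [self_mem_nhdsWithin, (h.w_tendsto c1 c2 p1 p2 W σ1).eventually_const_lt
      (u := log (2 * (c * exp A / s)) + -s * σ1) (by linarith [hG σ1 s1])] with δ hδ h1
    have hδ' : 0 ≤ δ := le_of_lt hδ
    refine ⟨hδ, (h.toPos.pert c1 c2 p1 p2 hδ').trapA h.s0 (fun σ hσ => ?_) W s1 h1.le⟩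
    have : G1 σ ≤ exp (A + -s * σ) * G2 σ := (g2 σ).trans
      (mul_le_mul_of_nonneg_right (exp_le_exp.2 (by linarith)) (p2 σ))
    nlinarith [hA σ hσ]
  refine ⟨?_, E.mono fun δ hδ => ⟨_, hδ.2⟩⟩
  obtain ⟨A', hA'⟩ := h.neg_unif c1 c2 p1 p2 g1 uR W
  obtain ⟨aR, -, R2⟩ := uR
  obtain ⟨bQ, -, Q4⟩ := h.lQ
  refine h.M_lim c1 c2 p1 p2 hR W hi (b := 2 * (p + s) - d) (A := A')
    (B := aR - (W - c * σ1 - 1) - 2 * bQ) (by linarith) ?_
  filter_upwards [hA', E] with δ h1 h2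
  have hp := h.toPos.pert c1 c2 p1 p2 h2.1.le
  exact ⟨h1, fun σ hσ => abs_mul_le (R2 σ hσ) (hp.K_pos W σ) (hp.K_le_Q W σ (h2.2 σ hσ)
    ((Q4 σ hσ).trans (le_add_of_nonneg_right (mul_nonneg h2.1.le (p2 σ)))) (hp.L_le W hσ))
    (by linarith)⟩

theorem lim_close (h : Sld c P Q p s) (hR : Continuous R) {i d : ℝ} (uR : Up R i d)
    (hi : 0 < i) (hd : d < 2 * (p + s)) (W : ℝ) (hW : W ∈ Above c P Q) :
    Tendsto (fun δ => MM c (fun σ => P σ + δ * exp ((p + s + 1) * σ)) (fun σ => Q σ + δ * 0) R W)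
      (𝓝[>] 0) (𝓝 (MM c P Q R W)) := by
  have c1 : Continuous fun σ : ℝ => exp ((p + s + 1) * σ) := by fun_prop
  have c2 : Continuous fun _ : ℝ => (0 : ℝ) := continuous_const
  have p1 : ∀ σ : ℝ, 0 ≤ exp ((p + s + 1) * σ) := fun _ => (exp_pos _).le
  have p2 : ∀ _ : ℝ, (0 : ℝ) ≤ 0 := fun _ => le_rfl
  have hc := h.hc; have hs := h.s0; have hp1 := h.p1
  obtain ⟨A, A0, hA⟩ := h.ratA
  obtain ⟨G, hG⟩ := hW
  obtain ⟨A', hA'⟩ := h.neg_unif c1 c2 p1 p2 (fun σ hσ => exp_le_exp.2 (by nlinarith)) uR W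
  obtain ⟨aR, -, R2⟩ := uR
  obtain ⟨bQ, -, Q4⟩ := h.lQ
  obtain ⟨σ1, s1, s2⟩ := ((eventually_ge_atTop 0).and
    (ev_ge hs (log (c * exp A / s) + 3 - G))).exists
  set η := G - 3 + bQ - log c
  refine h.M_lim c1 c2 p1 p2 hR W hi (b := 2 * (p + s) - d) (A := A')
    (B := aR + max (3 - G - 2 * bQ) (-η - bQ)) (by linarith) ?_
  filter_upwards [hA', self_mem_nhdsWithin, (h.w_tendsto c1 c2 p1 p2 W σ1).eventually_const_lt
    (u := G - 1) (by linarith [hG σ1 s1])] with δ h1 hδ h2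
  have hδ : 0 < δ := hδ
  have hp := h.toPos.pert c1 c2 p1 p2 hδ.le
  refine ⟨h1, fun σ hσ => ?_⟩
  have q4 : ∀ σ, 0 ≤ σ → exp (bQ + (p + s) * σ) ≤ Q σ + δ * 0 := fun σ hσ => by
    simpa using Q4 σ hσ
  rcases le_total (log δ + σ) η with h3 | h3
  · refine abs_mul_le (R2 σ hσ) (hp.K_pos W σ) (hp.K_le_Q W σ (u := G - 3) ?_ (q4 σ hσ)
      (hp.L_le W hσ)) (by linarith [le_max_left (3 - G - 2 * bQ) (-η - bQ)])
    rcases le_total σ σ1 with h4 | h4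
    · linarith [hp.w_anti W h4]
    have := bwd_bound (fun t => (hp.dy W t).fun_add
      ((hasDerivAt_exp t).const_mul (c * δ * exp (-bQ)))) (A := c * exp A) h4 (by positivity) hs
      (fun t ht => by
        have t0 := s1.trans ht.1
        have := hp.dy_ge' t (sol c (fun σ => P σ + δ * exp ((p + s + 1) * σ))
          (fun σ => Q σ + δ * 0) W t) (x := exp (A + -s * t) + δ * exp (-bQ) * exp t) (by
          have e : exp ((p + s + 1) * t) = exp (-bQ) * exp t * exp (bQ + (p + s) * t) := by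
            rw [← exp_add, ← exp_add]; congr 1; ring
          have : δ * exp (-bQ) * exp t * exp (bQ + (p + s) * t) ≤ δ * exp (-bQ) * exp t * Q t := by
            gcongr; exact Q4 t t0
          have := hA t t0
          simp only [e]
          linarith)
        rw [exp_add] at this
        linarith)
    have a1 : c * exp A / s * exp (-s * σ1) ≤ exp (G - 3) := by
      rw [← exp_log (x := c * exp A / s) (by positivity), ← exp_add]
      exact exp_le_exp.2 (by linarith)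
    have a2 : c * δ * exp (-bQ) * exp σ ≤ exp (G - 3) := by
      rw [← exp_log hc, ← exp_log hδ, ← exp_add, ← exp_add, ← exp_add]
      exact exp_le_exp.2 (by linarith)
    have a3 : exp (G - 1) = exp (G - 3) * exp 2 := by rw [← exp_add]; congr 1; ring
    have a4 := add_one_le_exp (2 : ℝ)
    have a5 := exp_pos (G - 3)
    have a6 := exp_lt_exp.2 h2
    have a7 : 0 < c * δ * exp (-bQ) * exp σ1 := by positivity
    rw [← exp_le_exp]
    nlinarith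
  · refine abs_mul_le (R2 σ hσ) (hp.K_pos W σ) (hp.K_le_am W σ (a := η + (p + s) * σ) ?_ (q4 σ hσ)
      (hp.L_le W hσ)) (by linarith [le_max_right (3 - G - 2 * bQ) (-η - bQ)])
    have : exp (η + (p + s) * σ) ≤ δ * exp ((p + s + 1) * σ) := by
      rw [← exp_log hδ, ← exp_add]
      exact exp_le_exp.2 (by linarith)
    linarith [h.pP σ]

theorem lim_add (h1 : Integrable fun σ => R σ * KK c P Q s σ)
    (h2 : Integrable fun σ => G1 σ * KK c P Q s σ) (t : ℝ) :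
    Tendsto (fun δ => MM c P Q (fun σ => R σ + δ * t * G1 σ) s) (𝓝[>] 0) (𝓝 (MM c P Q R s)) := by
  have e : ∀ δ, MM c P Q (fun σ => R σ + δ * t * G1 σ) s =
      MM c P Q R s + δ * (t * MM c P Q G1 s) := fun δ => by
    simp only [MM, add_mul]
    rw [integral_add h1 (int_smul h2 _)]
    simp only [mul_assoc, integral_const_mul]
  simp only [e]
  have : Continuous fun δ : ℝ => MM c P Q R s + δ * (t * MM c P Q G1 s) := by fun_prop
  simpa using (this.tendsto 0).mono_left nhdsWithin_le_nhds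

variable {N : ℕ} {t i d : ℝ}

theorem step (h : Sld c P Q p s) (cR : Continuous R) (uR : Up R i d) (hi : 0 < i) {e : ℝ}
    (hie : i ≤ e) (hde : d < e) (he : 2 * (p + s) - s ^ 2 / c < e) (he' : e < 2 * (p + s))
    (ch : Two (MM c P Q R) (Below c P Q) (Above c P Q) N t) :
    ∃ a, Two (MM c P Q fun σ => R σ + a * exp (e * σ)) (Below c P Q) (Above c P Q) (N + 1) (-t) := by
  have l : ∀ W ∈ Below c P Q ∪ Above c P Q, _ := fun W hW => lim_add
    (h.int_of cR uR hi (hde.trans he') hW)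
    (h.int_of (by fun_prop) ((up_exp e).mono hie le_rfl) hi he' hW) (-t)
  obtain ⟨δ, hδ, c1, c2⟩ := (ch.persist (S' := fun _ => Below c P Q) (T' := fun _ => Above c P Q)
    (M' := fun δ => MM c P Q fun σ => R σ + δ * -t * exp (e * σ))
    (fun W hW => ⟨l W (Or.inl hW), Eventually.of_forall fun _ => hW⟩)
    fun W hW => ⟨l W (Or.inr hW), Eventually.of_forall fun _ => hW⟩).exists
  have u' := (uR.add_exp (δ * -t) le_rfl hde.le hie le_rfl).smul (-t)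
  have tp : Top (fun σ => -t * (R σ + δ * -t * exp (e * σ))) e := by
    rw [smul_add_exp]
    exact (uR.smul (-t)).top (by have := mul_self_pos.2 ch.1.ne; nlinarith) hde
  refine ⟨δ * -t, c1.right fun W0 h0 => ?_, c2.right fun W0 h0 => ?_⟩
  · simp only [← MM_smul]
    exact h.pos_below (by fun_prop) u' tp hi he he' W0 h0
  · simp only [← MM_smul]
    obtain ⟨W, w1, w2, w3⟩ := h.pos_above (by fun_prop) u' tp hi he he' (-W0) h0
    exact ⟨-W, by simpa using w1, by linarith, by simpa using w3⟩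

theorem grow (h : Sld c P Q p s) (cR : Continuous R) (uR : Up R i d) (hi : 0 < i)
    (hd : d < 2 * (p + s)) (ch : Two (MM c P Q R) (Below c P Q) (Above c P Q) N t) :
    ∃ δ, 0 < δ ∧ ∀ P' Q', P' = (fun σ => P σ + δ * exp ((p + 1) * σ)) →
      Q' = (fun σ => Q σ + δ * exp ((p + 1 + s) * σ)) →
      Sld c P' Q' (p + 1) s ∧ Two (MM c P' Q' R) (Below c P' Q') (Above c P' Q') N t := by
  have c1 : Continuous fun σ : ℝ => exp ((p + 1) * σ) := by fun_prop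
  have c2 : Continuous fun σ : ℝ => exp ((p + 1 + s) * σ) := by fun_prop
  have p1 : ∀ σ : ℝ, 0 ≤ exp ((p + 1) * σ) := fun _ => (exp_pos _).le
  have p2 : ∀ σ : ℝ, 0 ≤ exp ((p + 1 + s) * σ) := fun _ => (exp_pos _).le
  have hp := h.p1; have hs := h.s0
  have g1 : ∀ σ : ℝ, σ ≤ 0 → exp ((p + 1) * σ) ≤ exp σ := fun σ hσ => exp_le_exp.2 (by nlinarith)
  obtain ⟨δ, hδ, ch'⟩ := (ch.persist
    (h.lim_below c1 c2 p1 p2 g1 (fun σ => by rw [← exp_add]; exact exp_le_exp.2 (by linarith))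
      cR uR hi hd)
    (h.lim_above c1 c2 p1 p2 g1 (fun σ => by rw [← exp_add]; exact exp_le_exp.2 (by linarith))
      cR uR hi hd)).exists
  refine ⟨δ, hδ, ?_⟩
  rintro _ _ rfl rfl
  exact ⟨⟨h.toPos.pert c1 c2 p1 p2 hδ.le, h.uP.add_exp δ le_rfl (by linarith) (by linarith) le_rfl,
    h.lP.add_hi hδ _, h.uQ.add_exp δ le_rfl (by linarith) (by linarith) le_rfl, h.lQ.add_hi hδ _,
    hs, h.sc, by linarith⟩, ch'⟩

theorem close (h : Sld c P Q p s) (cR : Continuous R) (uR : Up R i d) (hi : 0 < i)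
    (hd : d < 2 * (p + s)) (ch : Two (MM c P Q R) (Below c P Q) (Above c P Q) N t) :
    ∀ᶠ δ in 𝓝[>] (0 : ℝ), 0 < δ ∧
      Sys c (fun σ => P σ + δ * exp ((p + s + 1) * σ)) Q 0 (p + s + 1) (p + s) ∧
      Chain (MM c (fun σ => P σ + δ * exp ((p + s + 1) * σ)) Q R) (N + N) (t * (-1) ^ N) := by
  have c1 : Continuous fun σ : ℝ => exp ((p + s + 1) * σ) := by fun_prop
  have c2 : Continuous fun _ : ℝ => (0 : ℝ) := continuous_const
  have p1 : ∀ σ : ℝ, 0 ≤ exp ((p + s + 1) * σ) := fun _ => (exp_pos _).le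
  have p2 : ∀ _ : ℝ, (0 : ℝ) ≤ 0 := fun _ => le_rfl
  have hp := h.p1; have hs := h.s0
  filter_upwards [ch.persist (S' := fun _ => Below c P Q) (T' := fun _ => Above c P Q)
    (fun W hW => ⟨(h.lim_below c1 c2 p1 p2 (fun σ hσ => exp_le_exp.2 (by nlinarith))
      (fun σ => by positivity) cR uR hi hd W hW).1, Eventually.of_forall fun _ => hW⟩)
    fun W hW => ⟨h.lim_close cR uR hi hd W hW, Eventually.of_forall fun _ => hW⟩] with δ hδ
  have h1 := h.toPos.pert c1 c2 p1 p2 hδ.1.le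
  have h2 := hδ.2.concat fun W hW W' hW' => h.below_lt hW hW'
  simp only [mul_zero, add_zero] at h1 h2
  exact ⟨hδ.1, ⟨h1, h.uP.add_exp δ le_rfl (by linarith) (by linarith) le_rfl, h.lP.add_hi hδ.1 _,
    h.uQ, h.lQ, by linarith⟩, h2⟩

end Sld

namespace Sys

variable {c : ℝ} {P Q R : ℝ → ℝ} {p k : ℝ}

theorem top_pos' (h : Sys c P Q 0 p k) {i d d' : ℝ} (uR : Up R i d') (tR : Top R d)
    (hi : 0 < i) (hd : p + k < d)
    (hint : ∀ W, Integrable fun σ => R σ * KK c P Q W σ) (W0 : ℝ) :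
    ∃ W, W0 < W ∧ 0 < MM c P Q R W := by
  obtain ⟨J, hJ⟩ := pos_int hi
  obtain ⟨aR, R1, R2⟩ := uR
  obtain ⟨bR, s0, hs0, R3⟩ := tR
  obtain ⟨aP, P1, P2⟩ := h.uP
  obtain ⟨bP, P3, P4⟩ := h.lP
  obtain ⟨aQ, -, Q2⟩ := h.uQ
  obtain ⟨bQ, Q3, Q4⟩ := h.lQ
  obtain ⟨G, G', hG⟩ := h.fwd_L
  have hν : 0 < p - k := sub_pos.2 h.lt
  set H := max aQ (aP - G)
  have H1 : aQ ≤ H := le_max_left _ _
  have H2 : aP - G ≤ H := le_max_right _ _
  set A := aR + (c * exp (aP - bQ - W0) - W0 - 2 * bQ)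
  set B := aR - bP - bQ + |d' - p - k + i| * s0
  obtain ⟨s, hs1, hs2, hs3⟩ := ((eventually_ge_atTop s0).and ((ev_ge hν (W0 - G)).and
    (ev_ge (a := d - p - k) (by linarith)
      (max A B + J - (bR - 3 - G' - 2 * H - (p - k) - G))))).exists
  have hW : W0 < (p - k) * (s + 1) + G := by linarith
  refine ⟨_, hW, ?_⟩
  set W := (p - k) * (s + 1) + G with eW
  refine hJ _ (max A B) (max A B + J) s (hint W) (fun σ hσ => ?_) (fun σ hσ => ?_)
    (fun σ hσ => ?_) le_rfl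
  · exact neg_le_mul (R1 σ hσ) (h.K_pos W σ)
      (h.neg_K (fun σ hσ => (le_abs_self _).trans (P1 σ hσ)) Q3 hW.le σ hσ)
      (by linarith [le_max_left A B])
  · rcases le_total σ s0 with h0 | h0
    · have := mul_le_abs (x := d' - p - k + i) (σ := σ) (s := s0) (by linarith) h0
      exact neg_le_mul (R2 σ hσ) (h.K_pos W σ) (h.K_le_am W σ (P4 σ hσ) (Q4 σ hσ) (h.L_le W hσ))
        (by linarith [le_max_right A B])
    · exact neg_le_mul' (R3 σ h0) (h.K_pos W σ)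
  · have h0 : 0 ≤ σ := by linarith [hσ.1]
    have h1 : (p - k) * σ ≤ (p - k) * (s + 1) := by gcongr; exact hσ.2
    have k0 : 0 ≤ d - 2 * k := by linarith
    have h2 : (d - 2 * k) * s ≤ (d - 2 * k) * σ := by gcongr; exact hσ.1
    obtain ⟨g1, g2⟩ := hG W σ h0 (by linarith)
    refine le_mul (R3 σ (hs1.trans hσ.1)) (h.K_ge W σ (a := W + k * σ + H) g1 (h.w_le W h0)
      ((le_abs_self _).trans ((P2 σ h0).trans (exp_le_exp.2 (by linarith))))
      ((le_abs_self _).trans (Q2 σ h0)) (by linarith) g2) (by linarith)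

theorem step_top' (h : Sys c P Q 0 p k) (cR : Continuous R) {i d e t : ℝ} {N : ℕ} (uR : Up R i d)
    (hi : 0 < i) (hie : i ≤ e) (hde : d < e) (he : p + k < e) (he' : e < 2 * p + c)
    (ch : Chain (MM c P Q R) N t) :
    ∃ a, Chain (MM c P Q fun σ => R σ + a * exp (e * σ)) (N + 1) (-t) := by
  obtain ⟨δ, hδ, ch'⟩ := ch.addR (h.int_closed cR uR hi (by linarith))
    (h.int_closed (by fun_prop) ((up_exp e).mono hie le_rfl) hi he') (-t)
  refine ⟨δ * -t, ch'.right fun W0 => ?_⟩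
  have u' := (uR.add_exp (δ * -t) le_rfl hde.le hie le_rfl).smul (-t)
  simp only [← MM_smul]
  refine h.top_pos' u' (d := e) ?_ hi he (h.int_closed (by fun_prop) u' hi he') W0
  rw [smul_add_exp]
  exact (uR.smul (-t)).top (by have := mul_self_pos.2 ch.ne; nlinarith) hde

end Sys

end Pool.Agent.LC5081
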