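import Pool.Agent.Lib.MP_5081b1_an.ODE

/-! From isolated fixed points of the return map of the polar equation to limit cycles. -/

set_option autoImplicit false

open Set Filter Topology MeasureTheory Real

namespace Pool.Agent.LC5081

/-- Periodic orbits of a planar vector field. -/
def PO (V : ℝ × ℝ → ℝ × ℝ) : Set (Set (ℝ × ℝ)) :=
  {D | ∃ γ : ℝ → ℝ × ℝ, ∃ T : ℝ, 0 < T ∧ (∀ t : ℝ, HasDerivAt γ (V (γ t)) t) ∧
    (∀ t : ℝ, γ (t + T) = γ t) ∧ (∃ t : ℝ, γ t ≠ γ 0) ∧ D = Set.range γ}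

/-- Limit cycles of a planar vector field. -/
def LC (V : ℝ × ℝ → ℝ × ℝ) : Set (Set (ℝ × ℝ)) :=
  {C | C ∈ PO V ∧ ∃ U : Set (ℝ × ℝ), IsOpen U ∧ C ⊆ U ∧ ∀ D ∈ PO V, (D ∩ U).Nonempty → D = C}

noncomputable def pol (θ ρ : ℝ) : ℝ × ℝ := (exp ρ * sin θ, exp ρ * cos θ)

noncomputable def rad (z : ℝ × ℝ) : ℝ := √(z.1 ^ 2 + z.2 ^ 2)

theorem rad_pol (θ ρ : ℝ) : rad (pol θ ρ) = exp ρ := by
  unfold rad pol
  rw [show (exp ρ * sin θ) ^ 2 + (exp ρ * cos θ) ^ 2 = exp ρ ^ 2 by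
    linear_combination exp ρ ^ 2 * sin_sq_add_cos_sq θ]
  exact sqrt_sq (exp_pos ρ).le

theorem pol_inj {θ ρ θ' ρ' : ℝ} (h : pol θ ρ = pol θ' ρ') :
    ρ = ρ' ∧ ∃ k : ℤ, θ = θ' + k * (2 * π) := by
  have h1 : ρ = ρ' := by
    have := congrArg rad h
    rwa [rad_pol, rad_pol, exp_eq_exp] at this
  subst h1
  simp only [pol, Prod.mk.injEq, mul_eq_mul_left_iff, (exp_pos ρ).ne', or_false] at h
  obtain ⟨k, hk⟩ := Real.Angle.angle_eq_iff_two_pi_dvd_sub.1 (Real.Angle.cos_sin_inj h.2 h.1)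
  exact ⟨rfl, k, by linarith⟩

theorem exists_angle (z : ℝ × ℝ) : ∃ θ ∈ Ico 0 (2 * π), z = (rad z * sin θ, rad z * cos θ) := by
  set w : ℂ := ⟨z.2, z.1⟩
  have hr : rad z = ‖w‖ := by
    rw [Complex.norm_eq_sqrt_sq_add_sq, rad, add_comm]
  have h1 : rad z * sin w.arg = z.1 := by rw [hr]; exact Complex.norm_mul_sin_arg w
  have h2 : rad z * cos w.arg = z.2 := by rw [hr]; exact Complex.norm_mul_cos_arg w
  have a1 := Complex.neg_pi_lt_arg w
  have a2 := Complex.arg_le_pi w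
  have := pi_pos
  rcases le_or_gt 0 w.arg with h | h
  · exact ⟨w.arg, ⟨h, by linarith⟩, by rw [h1, h2]⟩
  · exact ⟨w.arg + 2 * π, ⟨by linarith, by linarith⟩, by
      rw [sin_add_two_pi, cos_add_two_pi, h1, h2]⟩

theorem reparam {ω : ℝ → ℝ} (hc : Continuous ω) (hp : ∀ θ, 0 < ω θ) {B : ℝ} (hb : ∀ θ, ω θ ≤ B)
    (θ0 : ℝ) : ∃ Θ : ℝ → ℝ, StrictMono Θ ∧ Function.Surjective Θ ∧ Θ 0 = θ0 ∧
      ∀ t, HasDerivAt Θ (ω (Θ t)) t := by
  have hB : 0 < B := (hp 0).trans_le (hb 0)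
  have ci : Continuous fun θ => (ω θ)⁻¹ := hc.inv₀ fun θ => (hp θ).ne'
  set τ : ℝ → ℝ := fun θ => ∫ s in θ0..θ, (ω s)⁻¹
  have dτ : ∀ θ, HasDerivAt τ (ω θ)⁻¹ θ := fun θ => (ci.integral_hasStrictDerivAt θ0 θ).hasDerivAt
  have τ0 : τ θ0 = 0 := by simp [τ]
  have sm : StrictMono τ := strictMono_of_deriv_pos fun θ => by
    rw [(dτ θ).deriv]; exact inv_pos.2 (hp θ)
  have cτ : Continuous τ := continuous_iff_continuousAt.2 fun θ => (dτ θ).continuousAt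
  have key : ∀ a b, a ≤ b → τ a - B⁻¹ * a ≤ τ b - B⁻¹ * b := fun a b hab =>
    mono_of_deriv (g := fun θ => τ θ - B⁻¹ * θ) (g' := fun θ => (ω θ)⁻¹ - B⁻¹)
      (fun θ => by simpa using (dτ θ).fun_sub ((hasDerivAt_id θ).const_mul B⁻¹)) hab
      (fun θ _ => sub_nonneg.2 (inv_anti₀ (hp θ) (hb θ)))
  have sj : Function.Surjective τ := by
    refine cτ.surjective ?_ ?_
    · refine tendsto_atTop_mono' _ (f₁ := fun θ => B⁻¹ * θ + -(B⁻¹ * θ0)) ?_
        (tendsto_atTop_add_const_right _ _ (tendsto_id.const_mul_atTop (inv_pos.2 hB)))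
      filter_upwards [eventually_ge_atTop θ0] with θ hθ
      linarith [key θ0 θ hθ]
    · refine tendsto_atBot_mono' _ (f₁ := fun θ => B⁻¹ * θ + -(B⁻¹ * θ0)) ?_
        (tendsto_atBot_add_const_right _ _ (tendsto_id.const_mul_atBot (inv_pos.2 hB)))
      filter_upwards [eventually_le_atBot θ0] with θ hθ
      linarith [key θ θ0 hθ]
  set e := StrictMono.orderIsoOfSurjective τ sm sj
  have he : ∀ t, τ (e.symm t) = t := fun t => e.apply_symm_apply t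
  refine ⟨e.symm, e.symm.strictMono, e.symm.surjective, sm.injective (by rw [he, τ0]), fun t => ?_⟩
  have := HasDerivAt.of_local_left_inverse (f := τ) (g := e.symm) (a := t)
    e.symm.continuous.continuousAt (dτ _) (inv_pos.2 (hp _)).ne' (Eventually.of_forall he)
  rwa [inv_inv] at this

theorem plan_unique {V : ℝ × ℝ → ℝ × ℝ} (hV : ContDiff ℝ 1 V) {γ1 γ2 : ℝ → ℝ × ℝ} {a b t0 : ℝ}
    (h1 : ∀ t ∈ Icc a b, HasDerivAt γ1 (V (γ1 t)) t)
    (h2 : ∀ t ∈ Icc a b, HasDerivAt γ2 (V (γ2 t)) t) (ht : t0 ∈ Icc a b) (e : γ1 t0 = γ2 t0) :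
    EqOn γ1 γ2 (Icc a b) := by
  have c1 : ContinuousOn γ1 (Icc a b) := fun t ht => (h1 t ht).continuousAt.continuousWithinAt
  have c2 : ContinuousOn γ2 (Icc a b) := fun t ht => (h2 t ht).continuousAt.continuousWithinAt
  have hK : IsCompact (γ1 '' Icc a b ∪ γ2 '' Icc a b) :=
    (isCompact_Icc.image_of_continuousOn c1).union (isCompact_Icc.image_of_continuousOn c2)
  obtain ⟨K, hL⟩ := (hV.locallyLipschitz.locallyLipschitzOn).exists_lipschitzOnWith_of_compact hK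
  rw [← Icc_union_Icc_eq_Icc ht.1 ht.2]
  have s1 : Icc a t0 ⊆ Icc a b := Icc_subset_Icc_right ht.2
  have s2 : Icc t0 b ⊆ Icc a b := Icc_subset_Icc_left ht.1
  refine EqOn.union ?_ ?_
  · exact ODE_solution_unique_of_mem_Icc_left (v := fun _ => V) (fun _ _ => hL) (c1.mono s1)
      (fun t h => (h1 t (s1 (Ioc_subset_Icc_self h))).hasDerivWithinAt)
      (fun t h => Or.inl ⟨t, s1 (Ioc_subset_Icc_self h), rfl⟩) (c2.mono s1)
      (fun t h => (h2 t (s1 (Ioc_subset_Icc_self h))).hasDerivWithinAt)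
      (fun t h => Or.inr ⟨t, s1 (Ioc_subset_Icc_self h), rfl⟩) e
  · exact ODE_solution_unique_of_mem_Icc_right (v := fun _ => V) (fun _ _ => hL) (c1.mono s2)
      (fun t h => (h1 t (s2 (Ico_subset_Icc_self h))).hasDerivWithinAt)
      (fun t h => Or.inl ⟨t, s2 (Ico_subset_Icc_self h), rfl⟩) (c2.mono s2)
      (fun t h => (h2 t (s2 (Ico_subset_Icc_self h))).hasDerivWithinAt)
      (fun t h => Or.inr ⟨t, s2 (Ico_subset_Icc_self h), rfl⟩) e

theorem plan_unique_univ {V : ℝ × ℝ → ℝ × ℝ} (hV : ContDiff ℝ 1 V) {γ1 γ2 : ℝ → ℝ × ℝ} {t0 : ℝ}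
    (h1 : ∀ t, HasDerivAt γ1 (V (γ1 t)) t) (h2 : ∀ t, HasDerivAt γ2 (V (γ2 t)) t)
    (e : γ1 t0 = γ2 t0) : γ1 = γ2 := by
  funext t
  exact plan_unique hV (a := min t t0) (b := max t t0) (fun t _ => h1 t) (fun t _ => h2 t)
    ⟨min_le_right _ _, le_max_right _ _⟩ e ⟨min_le_left _ _, le_max_left _ _⟩

theorem shift_deriv {V : ℝ × ℝ → ℝ × ℝ} {γ : ℝ → ℝ × ℝ} (h : ∀ t, HasDerivAt γ (V (γ t)) t)
    (s t : ℝ) : HasDerivAt (fun t => γ (t + s)) (V (γ (t + s))) t :=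
  HasDerivAt.comp_add_const t s (h (t + s))

/-- A function that decreases under the shift by a full turn is controlled by its values on one
turn, from above forwards and from below backwards. -/
theorem shift_bound {g : ℝ → ℝ} (h : ∀ θ, g (θ + 2 * π) ≤ g θ) (θ : ℝ) :
    ∃ θ' ∈ Icc 0 (2 * π), (0 ≤ θ → g θ ≤ g θ') ∧ (θ < 2 * π → g θ' ≤ g θ) := by
  have hp : 0 < 2 * π := two_pi_pos
  set k := ⌊θ / (2 * π)⌋
  have k1 : (k : ℝ) * (2 * π) ≤ θ := (le_div_iff₀ hp).1 (Int.floor_le _)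
  have k2 : θ < (k + 1) * (2 * π) := (div_lt_iff₀ hp).1 (Int.lt_floor_add_one _)
  have an : Antitone fun n : ℤ => g (θ - k * (2 * π) + n * (2 * π)) :=
    antitone_int_of_succ_le fun n => by
      have := h (θ - k * (2 * π) + n * (2 * π))
      rwa [show θ - k * (2 * π) + n * (2 * π) + 2 * π = θ - k * (2 * π) + ((n + 1 : ℤ) : ℝ) * (2 * π)
        by push_cast; ring] at this
  refine ⟨θ - k * (2 * π), ⟨by linarith, by linarith⟩, fun h0 => ?_, fun h0 => ?_⟩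
  · have : 0 ≤ k := Int.floor_nonneg.2 (div_nonneg h0 hp.le)
    simpa using an this
  · have : k ≤ 0 := Int.lt_add_one_iff.1 (Int.floor_lt.2 (by
      rw [div_lt_iff₀ hp]; simpa using h0))
    simpa using an this

/-- Polar form of a planar vector field in an annulus. -/
structure Polar (V : ℝ × ℝ → ℝ × ℝ) (f Ω : ℝ → ℝ → ℝ) (L K : ℝ) : Prop where
  cV : ContDiff ℝ 1 V
  lip : Lip f L
  cf : ∀ x, Continuous fun t => f t x
  bf : ∃ B, ∀ t x, |f t x| ≤ B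
  per : ∀ t x, f (t + 2 * π) x = f t x
  cΩ : Continuous fun z : ℝ × ℝ => Ω z.1 z.2
  pΩ : ∀ t x, 0 < Ω t x
  bΩ : ∃ B, ∀ t x, Ω t x ≤ B
  eq : ∀ θ ρ, |ρ| ≤ K → V (pol θ ρ) = (Ω θ ρ * (exp ρ * (f θ ρ * sin θ + cos θ)),
    Ω θ ρ * (exp ρ * (f θ ρ * cos θ - sin θ)))

namespace Polar

variable {V : ℝ × ℝ → ℝ × ℝ} {f Ω : ℝ → ℝ → ℝ} {L K : ℝ}

theorem shift (h : Polar V f Ω L K) {u : ℝ → ℝ} (hu : IsSol f u) :
    IsSol f fun θ => u (θ + 2 * π) := fun θ => by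
  have := HasDerivAt.comp_add_const θ (2 * π) (hu (θ + 2 * π))
  rwa [h.per] at this

theorem curve (h : Polar V f Ω L K) {u : ℝ → ℝ} (hu : IsSol f u) (θ0 : ℝ) :
    ∃ Θ : ℝ → ℝ, StrictMono Θ ∧ Function.Surjective Θ ∧ Θ 0 = θ0 ∧ ∀ t, |u (Θ t)| ≤ K →
      HasDerivAt (fun t => pol (Θ t) (u (Θ t))) (V (pol (Θ t) (u (Θ t)))) t := by
  obtain ⟨B, hB⟩ := h.bΩ
  obtain ⟨Θ, h1, h2, h3, h4⟩ := reparam (ω := fun θ => Ω θ (u θ))
    (h.cΩ.comp (continuous_id.prodMk hu.cont)) (fun θ => h.pΩ _ _) (fun θ => hB _ _) θ0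
  refine ⟨Θ, h1, h2, h3, fun t ht => ?_⟩
  rw [h.eq _ _ ht]
  have d1 := ((hu (Θ t)).comp t (h4 t)).exp
  refine HasDerivAt.prodMk ?_ ?_
  · refine (d1.fun_mul (h4 t).sin).congr_deriv ?_
    simp only [Function.comp]; ring
  · refine (d1.fun_mul (h4 t).cos).congr_deriv ?_
    simp only [Function.comp]; ring

theorem periodic (h : Polar V f Ω L K) {u : ℝ → ℝ} (hu : IsSol f u) (e : u (2 * π) = u 0) :
    Function.Periodic u (2 * π) := fun θ =>
  congrFun (sol_unique h.lip (h.shift hu) hu (t0 := 0) (by simpa using e)) θ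

theorem per_bound {u : ℝ → ℝ} (hp : Function.Periodic u (2 * π))
    (hb : ∀ θ ∈ Icc 0 (2 * π), |u θ| ≤ K) (θ : ℝ) : |u θ| ≤ K := by
  obtain ⟨θ', h1, h2⟩ := hp.exists_mem_Ico₀ two_pi_pos θ
  rw [h2]; exact hb _ (Ico_subset_Icc_self h1)

theorem no_return (h : Polar V f Ω L K) {u : ℝ → ℝ} (hu : IsSol f u) (e : u (2 * π) ≠ u 0)
    {θ θ' : ℝ} (hθ : pol θ (u θ) = pol θ' (u θ')) : θ = θ' := by
  obtain ⟨h1, k, hk⟩ := pol_inj hθ
  have sh : ∀ n : ℤ, θ' + ((n + 1 : ℤ) : ℝ) * (2 * π) = θ' + n * (2 * π) + 2 * π := fun n => by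
    push_cast; ring
  have inj : Function.Injective fun n : ℤ => u (θ' + n * (2 * π)) := by
    rcases e.lt_or_gt with e | e
    · refine (strictAnti_int_of_succ_lt fun n => ?_).injective
      rw [sh]
      exact sol_lt h.lip (h.shift hu) hu (t0 := 0) (by simpa using e) _
    · refine (strictMono_int_of_lt_succ fun n => ?_).injective
      rw [sh]
      exact sol_lt h.lip hu (h.shift hu) (t0 := 0) (by simpa using e) _
  have : k = 0 := inj (by simp only [← hk, h1]; simp)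
  simpa [this] using hk

theorem half_bound (h : Polar V f Ω L K) {u v : ℝ → ℝ} (hu : IsSol f u) (hv : IsSol f v)
    (bu : ∀ θ ∈ Icc 0 (2 * π), |u θ| ≤ K) (bv : ∀ θ, |v θ| ≤ K) :
    (∀ θ, 0 ≤ θ → |u θ| ≤ K) ∨ ∀ θ, θ < 2 * π → |u θ| ≤ K := by
  have A : u (2 * π) ≤ u 0 → ∀ θ, u (θ + 2 * π) ≤ u θ := fun e =>
    sol_le h.lip (h.shift hu) hu (t0 := 0) (by simpa using e)
  have B : u 0 ≤ u (2 * π) → ∀ θ, -u (θ + 2 * π) ≤ -u θ := fun e θ =>
    neg_le_neg (sol_le h.lip hu (h.shift hu) (t0 := 0) (by simpa using e) θ)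
  rcases le_total (v 0) (u 0) with e | e <;> rcases le_total (u (2 * π)) (u 0) with e' | e'
  · refine Or.inl fun θ hθ => ?_
    obtain ⟨θ', h1, h2, -⟩ := shift_bound (A e') θ
    have := sol_le h.lip hv hu e θ
    exact abs_le.2 ⟨by linarith [(abs_le.1 (bv θ)).1], by linarith [(abs_le.1 (bu θ' h1)).2, h2 hθ]⟩
  · refine Or.inr fun θ hθ => ?_
    obtain ⟨θ', h1, -, h2⟩ := shift_bound (g := fun θ => -u θ) (B e') θ
    have := sol_le h.lip hv hu e θ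
    exact abs_le.2 ⟨by linarith [(abs_le.1 (bv θ)).1], by linarith [(abs_le.1 (bu θ' h1)).2, h2 hθ]⟩
  · refine Or.inr fun θ hθ => ?_
    obtain ⟨θ', h1, -, h2⟩ := shift_bound (A e') θ
    have := sol_le h.lip hu hv e θ
    exact abs_le.2 ⟨by linarith [(abs_le.1 (bu θ' h1)).1, h2 hθ], by linarith [(abs_le.1 (bv θ)).2]⟩
  · refine Or.inl fun θ hθ => ?_
    obtain ⟨θ', h1, h2, -⟩ := shift_bound (g := fun θ => -u θ) (B e') θ
    have := sol_le h.lip hu hv e θ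
    exact abs_le.2 ⟨by linarith [(abs_le.1 (bu θ' h1)).1, h2 hθ], by linarith [(abs_le.1 (bv θ)).2]⟩

theorem isLC (h : Polar V f Ω L K) {v u1 u2 : ℝ → ℝ} (hv : IsSol f v) (h1 : IsSol f u1)
    (h2 : IsSol f u2) (e : v (2 * π) = v 0) (l1 : u1 0 < v 0) (l2 : v 0 < u2 0)
    (b1 : ∀ θ ∈ Icc 0 (2 * π), -K ≤ u1 θ) (b2 : ∀ θ ∈ Icc 0 (2 * π), u2 θ ≤ K)
    (iso : ∀ u, IsSol f u → u1 0 < u 0 → u 0 < u2 0 → u (2 * π) = u 0 → u 0 = v 0) :
    range (fun θ => pol θ (v θ)) ∈ LC V := by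
  have vp := h.periodic hv e
  have mid : ∀ u, IsSol f u → ∀ θ0, u1 θ0 < u θ0 → u θ0 < u2 θ0 →
      ∀ θ ∈ Icc 0 (2 * π), |u θ| ≤ K := fun u hu θ0 a b θ hθ =>
    abs_le.2 ⟨(b1 θ hθ).trans (sol_lt h.lip h1 hu a θ).le,
      (sol_lt h.lip hu h2 b θ).le.trans (b2 θ hθ)⟩
  have bv := per_bound vp (mid v hv 0 l1 l2)
  refine ⟨?_, {z | ∀ θ ∈ Icc 0 (2 * π), z = (rad z * sin θ, rad z * cos θ) →
    exp (u1 θ) < rad z ∧ rad z < exp (u2 θ)}, ?_, ?_, ?_⟩
  · obtain ⟨Θ, m, sj, z, d⟩ := h.curve hv 0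
    obtain ⟨T, hT⟩ := sj (2 * π)
    obtain ⟨S, hS⟩ := sj π
    have d' := fun t => d t (bv _)
    refine ⟨fun t => pol (Θ t) (v (Θ t)), T, m.lt_iff_lt.1 (by rw [z, hT]; exact two_pi_pos), d',
      congrFun (plan_unique_univ h.cV (t0 := 0) (shift_deriv d' T) d' ?_), ⟨S, fun hh => ?_⟩,
      (sj.range_comp fun θ => pol θ (v θ)).symm⟩
    · simp [hT, z, e, pol]
    · simp only [hS, z, pol, sin_pi, sin_zero, cos_pi, cos_zero, Prod.mk.injEq] at hh
      linarith [hh.2, exp_pos (v π), exp_pos (v 0)]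
  · rw [isOpen_iff_eventually]
    intro z hz
    refine isCompact_Icc.eventually_forall_of_forall_eventually
      (P := fun z θ => z = (rad z * sin θ, rad z * cos θ) →
        exp (u1 θ) < rad z ∧ rad z < exp (u2 θ)) fun θ hθ => ?_
    have c1 := h1.cont; have c2 := h2.cont
    have cr : Continuous rad := by unfold rad; fun_prop
    have : IsOpen {p : (ℝ × ℝ) × ℝ | p.1 = (rad p.1 * sin p.2, rad p.1 * cos p.2) →
        exp (u1 p.2) < rad p.1 ∧ rad p.1 < exp (u2 p.2)} := by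
      simp only [imp_iff_not_or]
      have o1 : IsClosed {p : (ℝ × ℝ) × ℝ | p.1 = (rad p.1 * sin p.2, rad p.1 * cos p.2)} :=
        isClosed_eq continuous_fst (by fun_prop)
      have o2 : IsOpen {p : (ℝ × ℝ) × ℝ | exp (u1 p.2) < rad p.1} :=
        isOpen_lt (by fun_prop) (by fun_prop)
      have o3 : IsOpen {p : (ℝ × ℝ) × ℝ | rad p.1 < exp (u2 p.2)} :=
        isOpen_lt (by fun_prop) (by fun_prop)
      exact o1.isOpen_compl.union (o2.inter o3)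
    exact this.mem_nhds (hz θ hθ)
  · rintro _ ⟨θ1, rfl⟩ θ - hθ
    simp only [rad_pol] at hθ ⊢
    obtain ⟨-, k, hk⟩ := pol_inj (θ' := θ) (ρ' := v θ1) hθ
    have : v θ1 = v θ := by rw [hk]; exact vp.int_mul k θ
    rw [this]
    exact ⟨exp_lt_exp.2 (sol_lt h.lip h1 hv l1 θ), exp_lt_exp.2 (sol_lt h.lip hv h2 l2 θ)⟩
  · rintro _ ⟨γ, T, hT, dγ, pγ, -, rfl⟩ ⟨_, ⟨t0, rfl⟩, hz⟩
    obtain ⟨θ0, hθ0, a0⟩ := exists_angle (γ t0)
    obtain ⟨r1, r2⟩ := hz θ0 (Ico_subset_Icc_self hθ0) a0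
    have r0 : 0 < rad (γ t0) := (exp_pos _).trans r1
    obtain ⟨B, hB⟩ := h.bf
    obtain ⟨u, hu, u0⟩ := exists_sol h.lip h.cf hB θ0 (log (rad (γ t0)))
    have q1 : u1 θ0 < u θ0 := by rw [u0]; exact (lt_log_iff_exp_lt r0).2 r1
    have q2 : u θ0 < u2 θ0 := by rw [u0]; exact (log_lt_iff_lt_exp r0).2 r2
    obtain ⟨Θ, m, sj, z, d⟩ := h.curve hu θ0
    have init : pol (Θ 0) (u (Θ 0)) = γ (0 + t0) := by
      rw [z, u0, zero_add, pol, exp_log r0]; exact a0.symm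
    by_cases e' : u (2 * π) = u 0
    · have : u = v := sol_unique h.lip hu hv
        (iso u hu (sol_lt h.lip h1 hu q1 0) (sol_lt h.lip hu h2 q2 0) e')
      subst this
      have := plan_unique_univ h.cV (fun t => d t (bv _)) (shift_deriv dγ t0) init
      rw [← sj.range_comp fun θ => pol θ (u θ)]
      rw [show ((fun θ => pol θ (u θ)) ∘ Θ) = γ ∘ fun t => t + t0 from this]
      exact ((add_right_surjective t0).range_comp γ).symm
    · exfalso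
      rcases h.half_bound hu hv (mid u hu θ0 q1 q2) bv with bu | bu
      · have := plan_unique h.cV (a := 0) (b := T)
          (fun t ht => d t (bu _ (hθ0.1.trans (z ▸ m.monotone ht.1))))
          (fun t _ => shift_deriv dγ t0 t) ⟨le_rfl, hT.le⟩ init ⟨hT.le, le_rfl⟩
        simp only [add_comm T, pγ] at this
        rw [zero_add] at init
        exact hT.ne' (m.injective (h.no_return hu e' (this.trans init.symm)))
      · have := plan_unique h.cV (a := -T) (b := 0)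
          (fun t ht => d t (bu _ ((z ▸ m.monotone ht.2 : Θ t ≤ θ0).trans_lt hθ0.2)))
          (fun t _ => shift_deriv dγ t0 t) ⟨by linarith, le_rfl⟩ init (⟨le_rfl, by linarith⟩ :
            -T ∈ Icc (-T) 0)
        have p2 := pγ (-T + t0)
        rw [show -T + t0 + T = t0 by ring] at p2
        simp only [← p2] at this
        rw [zero_add] at init
        have := m.injective (h.no_return hu e' (this.trans init.symm))
        linarith

end Polar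

end Pool.Agent.LC5081
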