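import Pool.Agent.Lib.MP_5081b1_an.Sepx

/-! Convergence of orbits, kernels and integrals along families of systems. -/

set_option autoImplicit false

open Set Filter Topology MeasureTheory Real

namespace Pool.Agent.LC5081

noncomputable def N1 (c : ℝ) (P Q R : ℝ → ℝ) (W : ℝ) : ℝ :=
  ∫ σ, R σ * (nn c P Q W σ * KK c P Q W σ)

structure Bd (c A : ℝ) (P Q : ℝ → ℝ) : Prop extends Pos c P Q where
  n1 : ∀ σ, σ ≤ 0 → P σ ≤ exp (A + σ) * Q σ
  n2 : ∀ σ, σ ≤ 0 → exp (-A) ≤ Q σ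

structure RB (A : ℝ) (P Q R : ℝ → ℝ) : Prop where
  cR : Continuous R
  r1 : ∀ σ, σ ≤ 0 → |R σ| ≤ exp (A + 1 / 2 * σ)
  r2 : ∀ σ, 0 ≤ σ → |R σ| ≤ exp (A + -(1 / 6) * σ) * (P σ * Q σ)

theorem Bd.mono {c A A' : ℝ} {P Q : ℝ → ℝ} (h : Bd c A P Q) (hA : A ≤ A') : Bd c A' P Q :=
  ⟨h.toPos, fun σ hσ => (h.n1 σ hσ).trans (mul_le_mul_of_nonneg_right
    (exp_le_exp.2 (by linarith)) (h.pQ σ).le),
    fun σ hσ => (exp_le_exp.2 (by linarith)).trans (h.n2 σ hσ)⟩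

theorem RB.mono {c A A' : ℝ} {P Q R : ℝ → ℝ} (h : RB A P Q R) (hp : Pos c P Q) (hA : A ≤ A') :
    RB A' P Q R :=
  ⟨h.cR, fun σ hσ => (h.r1 σ hσ).trans (exp_le_exp.2 (by linarith)),
    fun σ hσ => (h.r2 σ hσ).trans (mul_le_mul_of_nonneg_right
    (exp_le_exp.2 (by linarith)) (mul_pos (hp.pP σ) (hp.pQ σ)).le)⟩

theorem Pos.K_mul {c : ℝ} {P Q : ℝ → ℝ} (h : Pos c P Q) (W σ : ℝ) :
    P σ * Q σ * KK c P Q W σ = EE c P Q W σ * exp (LV c P Q W σ) := by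
  have := h.pP σ; have := h.pQ σ
  rw [h.K_eq]; field_simp

namespace Bd

variable {c A : ℝ} {P Q R : ℝ → ℝ}

theorem th_neg (h : Bd c A P Q) {W0 W : ℝ} (hW : W0 ≤ W) {t : ℝ} (ht : t ≤ 0) :
    th c P Q W t ≤ exp (A - W0) * exp (1 * t) := by
  have hP := h.pP t; have hQ := h.pQ t
  have h1 : exp W0 ≤ exp (sol c P Q W t) := exp_le_exp.2 (hW.trans (h.w_ge W ht))
  have e : exp (A + t) = exp (A - W0) * exp (1 * t) * exp W0 := by
    rw [← exp_add, ← exp_add]; congr 1; ring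
  rw [th, div_le_iff₀ (h.den t _)]
  calc P t ≤ exp (A - W0) * exp (1 * t) * exp W0 * Q t := e ▸ h.n1 t ht
    _ = exp (A - W0) * exp (1 * t) * (exp W0 * Q t) := by ring
    _ ≤ exp (A - W0) * exp (1 * t) * (P t + exp (sol c P Q W t) * Q t) := by
      gcongr; nlinarith

theorem L_neg (h : Bd c A P Q) {W0 W : ℝ} (hW : W0 ≤ W) {σ : ℝ} (hσ : σ ≤ 0) :
    LV c P Q W σ ≤ c * exp (A - W0) := by
  have hc := h.hc
  have := fwd_bound (fun t => (h.dL W t)) (A := c * exp (A - W0)) (ν := 1) hσ (by positivity)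
    one_pos (fun t ht => by
    rw [neg_le_neg_iff, mul_assoc, h.EE_eq]
    refine mul_le_mul_of_nonneg_left (le_trans ?_ (h.th_neg hW ht.2)) hc.le
    exact mul_le_of_le_one_right (h.th_pos W t).le (by linarith [h.th_pos W t]))
  rw [Pos.L0] at this
  simp only [mul_zero, exp_zero, div_one, mul_one] at this
  linarith

theorem w_neg (h : Bd c A P Q) (W : ℝ) {σ : ℝ} (hσ : σ ≤ 0) :
    sol c P Q W σ ≤ W + c * exp (A - W) := by
  have hc := h.hc
  have := fwd_bound (fun t => (h.dsol W t)) (A := c * exp (A - W)) (ν := 1) hσ (by positivity)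
    one_pos (fun t ht => by
    rw [neg_le_neg_iff, mul_assoc]
    exact mul_le_mul_of_nonneg_left (h.th_neg le_rfl ht.2) hc.le)
  rw [(h.spec W).2] at this
  simp only [mul_zero, exp_zero, div_one, mul_one] at this
  linarith

theorem K_neg (h : Bd c A P Q) {W0 W : ℝ} (hW : W0 ≤ W) {σ : ℝ} (hσ : σ ≤ 0) :
    KK c P Q W σ ≤ exp (c * exp (A - W0) - W0 + 2 * A) :=
  (h.K_le_Q W σ (hW.trans (h.w_ge W hσ)) (h.n2 σ hσ) (h.L_neg hW hσ)).trans
    (exp_le_exp.2 (by linarith))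

theorem dom (h : Bd c A P Q) {A' : ℝ} (hR : RB A' P Q R) {W0 W : ℝ} (hW : W0 ≤ W) (σ : ℝ) :
    ‖R σ * KK c P Q W σ‖ ≤ exp (A' + |c * exp (A - W0) - W0 + 2 * A| + 1) *
      (if σ ≤ 0 then exp (1 / 2 * σ) else exp (-(1 / 6) * σ)) ∧
    ‖R σ * (nn c P Q W σ * KK c P Q W σ)‖ ≤ exp (A' + |c * exp (A - W0) - W0 + 2 * A| + 1) *
      (if σ ≤ 0 then exp (1 / 2 * σ) else exp (-(1 / 6) * σ)) := by
  set G := c * exp (A - W0) - W0 + 2 * A
  have g0 := abs_nonneg G; have g1 := le_abs_self G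
  have e2 : (2 : ℝ) ≤ exp 1 := by linarith [add_one_le_exp (1 : ℝ)]
  have pos : ∀ σ, 0 ≤ σ → ∀ k m : ℝ, |k| * (P σ * Q σ) ≤ 1 → m = R σ * k →
      |m| ≤ exp (A' + |G| + 1 + -(1 / 6) * σ) := by
    rintro σ hσ k _ hk rfl
    rw [abs_mul]
    calc |R σ| * |k| ≤ exp (A' + -(1 / 6) * σ) * (P σ * Q σ) * |k| := by
          gcongr; exact hR.r2 σ hσ
      _ = exp (A' + -(1 / 6) * σ) * (|k| * (P σ * Q σ)) := by ring
      _ ≤ exp (A' + -(1 / 6) * σ) * 1 := by gcongr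
      _ ≤ _ := by rw [mul_one]; exact exp_le_exp.2 (by linarith)
  constructor
  · refine bound_two (f := fun σ => R σ * KK c P Q W σ) (fun σ hσ => ?_) (fun σ hσ => ?_) σ
    · exact abs_mul_le (hR.r1 σ hσ) (h.K_pos W σ) (h.K_neg hW hσ) (by linarith)
    · refine pos σ hσ _ _ ?_ rfl
      rw [abs_of_pos (h.K_pos W σ), mul_comm, h.K_mul]
      have := exp_le_one_iff.2 (h.L_le W hσ)
      nlinarith [h.E_le W σ, h.E_pos W σ, exp_pos (LV c P Q W σ)]
  · refine bound_two (f := fun σ => R σ * (nn c P Q W σ * KK c P Q W σ)) (fun σ hσ => ?_)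
      (fun σ hσ => ?_) σ
    · have n := h.nn_le W σ
      rw [max_eq_left (exp_le_one_iff.2 (by linarith [h.L_ge W hσ]))] at n
      rw [← mul_assoc]
      refine abs_mul_le (a := A' + 1 / 2 * σ + 1) ?_ (h.K_pos W σ) (h.K_neg hW hσ) (by linarith)
      rw [abs_mul, exp_add]
      exact mul_le_mul (hR.r1 σ hσ) (by linarith) (abs_nonneg _) (exp_pos _).le
    · refine pos σ hσ _ _ ?_ rfl
      have n := h.nn_le W σ
      rw [max_eq_right (one_le_exp (by linarith [h.L_le W hσ]))] at n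
      rw [abs_mul, abs_of_pos (h.K_pos W σ), mul_assoc, mul_comm (KK _ _ _ _ _), h.K_mul]
      have e1 : exp (-LV c P Q W σ) * exp (LV c P Q W σ) = 1 := by rw [← exp_add]; simp
      have := h.E_pos W σ
      calc |nn c P Q W σ| * (EE c P Q W σ * exp (LV c P Q W σ))
          ≤ 2 * exp (-LV c P Q W σ) * (1 / 4 * exp (LV c P Q W σ)) := by
            gcongr; exact h.E_le W σ
        _ ≤ 1 := by nlinarith

theorem int0 (h : Bd c A P Q) {A' : ℝ} (hR : RB A' P Q R) (W : ℝ) :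
    Integrable fun σ => R σ * KK c P Q W σ :=
  ((integrable_two (by norm_num) (by norm_num)).const_mul _).mono'
    (hR.cR.mul (h.cK W)).aestronglyMeasurable
    (Eventually.of_forall fun σ => (h.dom hR le_rfl σ).1)

theorem int1 (h : Bd c A P Q) {A' : ℝ} (hR : RB A' P Q R) (W : ℝ) :
    Integrable fun σ => R σ * (nn c P Q W σ * KK c P Q W σ) :=
  ((integrable_two (by norm_num) (by norm_num)).const_mul _).mono'
    (hR.cR.mul ((h.cnn W).mul (h.cK W))).aestronglyMeasurable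
    (Eventually.of_forall fun σ => (h.dom hR le_rfl σ).2)

end Bd

theorem fw_close {c ε : ℝ} {P Q P' Q' : ℝ → ℝ} (h : Pos c P Q) (h' : Pos c P' Q') {t : ℝ}
    (e0 : 0 < ε) (e1 : ε ≤ 1 / 2) (hP : |P' t - P t| ≤ ε * P t) (hQ : |Q' t - Q t| ≤ ε * Q t)
    (x : ℝ) : |fw c P' Q' t x - fw c P Q t x| ≤ c * ε := by
  have d := h.den t x; have d' := h'.den t x
  have p := h.pP t; have q := h.pQ t; have hc := h.hc
  have hy := exp_pos x
  set y := exp x with hy'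
  obtain ⟨p1, p2⟩ := abs_le.1 hP
  obtain ⟨q1, q2⟩ := abs_le.1 hQ
  have e : fw c P' Q' t x - fw c P Q t x =
      c * (y * (P t * (Q' t - Q t) - (P' t - P t) * Q t) / ((P t + y * Q t) * (P' t + y * Q' t))) := by
    unfold fw; rw [← hy']; field_simp; ring
  rw [e, abs_mul, abs_of_pos hc, abs_div, abs_of_pos (mul_pos d d')]
  refine mul_le_mul_of_nonneg_left ?_ hc.le
  rw [div_le_iff₀ (mul_pos d d'), abs_mul, abs_of_pos hy]
  have a1 : |P t * (Q' t - Q t) - (P' t - P t) * Q t| ≤ 2 * ε * (P t * Q t) :=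
    abs_le.2 ⟨by nlinarith, by nlinarith⟩
  have a2 : (P t + y * Q t) / 2 ≤ P' t + y * Q' t := by
    have : Q t / 2 ≤ Q' t := by nlinarith
    have : P t / 2 ≤ P' t := by nlinarith
    nlinarith
  have a3 : 4 * (y * (P t * Q t)) ≤ (P t + y * Q t) * (P t + y * Q t) := by
    nlinarith [sq_nonneg (P t - y * Q t)]
  calc y * |P t * (Q' t - Q t) - (P' t - P t) * Q t| ≤ y * (2 * ε * (P t * Q t)) := by gcongr
    _ = ε * (4 * (y * (P t * Q t)) / 2) := by ring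
    _ ≤ ε * ((P t + y * Q t) * (P t + y * Q t) / 2) := by gcongr
    _ = ε * ((P t + y * Q t) * ((P t + y * Q t) / 2)) := by ring
    _ ≤ _ := by gcongr

structure Fam {ι : Type} (l : Filter ι) (c : ℝ) (Pi Qi : ι → ℝ → ℝ) (P Q : ℝ → ℝ) : Prop where
  pos : Pos c P Q
  ev : ∀ᶠ i in l, Pos c (Pi i) (Qi i)
  cP : Conv l Pi P
  cQ : Conv l Qi Q

theorem Pos.fam {ι : Type} (l : Filter ι) {c : ℝ} {P Q : ℝ → ℝ} (h : Pos c P Q) :
    Fam l c (fun _ => P) (fun _ => Q) P Q :=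
  ⟨h, Eventually.of_forall fun _ => h, Conv.const l h.pP, Conv.const l h.pQ⟩

namespace Fam

variable {ι : Type} {l : Filter ι} {c : ℝ} {Pi Qi Ri : ι → ℝ → ℝ} {P Q R : ℝ → ℝ} {Wi : ι → ℝ}
  {W : ℝ}

theorem tw (h : Fam l c Pi Qi P Q) (hW : Tendsto Wi l (𝓝 W)) (σ : ℝ) :
    Tendsto (fun i => sol c (Pi i) (Qi i) (Wi i) σ) l (𝓝 (sol c P Q W σ)) := by
  have hc := h.pos.hc
  refine Metric.tendsto_nhds.2 fun η hη => ?_
  set ε := min (1 / 2) (η / 3 * exp (-(c * |σ|))) with hε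
  have e0 : 0 < ε := lt_min (by norm_num) (by positivity)
  have e2 : ε * exp (c * |σ|) ≤ η / 3 := by
    refine (mul_le_mul_of_nonneg_right (min_le_right _ _) (exp_pos _).le).trans (le_of_eq ?_)
    rw [mul_assoc, ← exp_add]; simp
  filter_upwards [h.ev, h.cP |σ| ε e0, h.cQ |σ| ε e0, Metric.tendsto_nhds.1 hW ε e0]
    with i hp h1 h2 h3
  have := gron (ε := c * ε) h.pos.lip (h.pos.spec W).1 (hp.spec (Wi i)).1 σ (fun t ht x =>
    fw_close h.pos hp e0 (min_le_left _ _) (h1 t ht) (h2 t ht) x)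
  rw [(h.pos.spec W).2, (hp.spec _).2, gronwallBound_of_K_ne_0 hc.ne', abs_sub_comm W,
    mul_div_cancel_left₀ _ hc.ne'] at this
  rw [Real.dist_eq] at h3 ⊢
  rw [abs_sub_comm]
  have h4 := mul_le_mul_of_nonneg_right h3.le (exp_pos (c * |σ|)).le
  simp only at this
  nlinarith

theorem tden (h : Fam l c Pi Qi P Q) (hW : Tendsto Wi l (𝓝 W)) (σ : ℝ) :
    Tendsto (fun i => Pi i σ + exp (sol c (Pi i) (Qi i) (Wi i) σ) * Qi i σ) l
      (𝓝 (P σ + exp (sol c P Q W σ) * Q σ)) :=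
  (h.cP.tendsto (h.pos.pP σ)).add ((h.tw hW σ).rexp.mul (h.cQ.tendsto (h.pos.pQ σ)))

theorem tth (h : Fam l c Pi Qi P Q) (hW : Tendsto Wi l (𝓝 W)) (σ : ℝ) :
    Tendsto (fun i => th c (Pi i) (Qi i) (Wi i) σ) l (𝓝 (th c P Q W σ)) :=
  (h.cP.tendsto (h.pos.pP σ)).div (h.tden hW σ) (h.pos.den σ _).ne'

theorem tE (h : Fam l c Pi Qi P Q) (hW : Tendsto Wi l (𝓝 W)) (σ : ℝ) :
    Tendsto (fun i => EE c (Pi i) (Qi i) (Wi i) σ) l (𝓝 (EE c P Q W σ)) :=
  (((h.tw hW σ).rexp.mul (h.cP.tendsto (h.pos.pP σ))).mul (h.cQ.tendsto (h.pos.pQ σ))).div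
    ((h.tden hW σ).pow 2) (pow_pos (h.pos.den σ _) 2).ne'

theorem below (h : Fam l c Pi Qi P Q) (hW : Tendsto Wi l (𝓝 W)) {A s : ℝ} (hs : s < c)
    (hA : ∀ᶠ i in l, ∀ σ, 0 ≤ σ → Qi i σ ≤ exp (A + s * σ) * Pi i σ) (hB : W ∈ Below c P Q) :
    ∀ᶠ i in l, Wi i ∈ Below c (Pi i) (Qi i) := by
  obtain ⟨G, hG⟩ := hB
  obtain ⟨σ1, s1, s2⟩ := ((eventually_ge_atTop 0).and
    (ev_ge (sub_pos.2 hs) (G + log (2 * (c * exp A / (c - s))) + 1))).exists
  filter_upwards [h.ev, hA, (h.tw hW σ1).eventually_lt_const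
    (u := -log (2 * (c * exp A / (c - s))) + -s * σ1) (by linarith [hG σ1 s1])] with i hp h1 h2
  exact ⟨_, hp.trapB hs h1 _ s1 h2.le⟩

theorem above (h : Fam l c Pi Qi P Q) (hW : Tendsto Wi l (𝓝 W)) {A s : ℝ} (hs : 0 < s)
    (hA : ∀ᶠ i in l, ∀ σ, 0 ≤ σ → Pi i σ ≤ exp (A + -s * σ) * Qi i σ) (hB : W ∈ Above c P Q) :
    ∀ᶠ i in l, Wi i ∈ Above c (Pi i) (Qi i) := by
  obtain ⟨G, hG⟩ := hB
  obtain ⟨σ1, s1, s2⟩ := ((eventually_ge_atTop 0).and
    (ev_ge hs (log (2 * (c * exp A / s)) + 1 - G))).exists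
  filter_upwards [h.ev, hA, (h.tw hW σ1).eventually_const_lt
    (u := log (2 * (c * exp A / s)) + -s * σ1) (by linarith [hG σ1 s1])] with i hp h1 h2
  exact ⟨_, hp.trapA hs h1 _ s1 h2.le⟩

variable [l.IsCountablyGenerated]

theorem tL (h : Fam l c Pi Qi P Q) (hW : Tendsto Wi l (𝓝 W)) (σ : ℝ) :
    Tendsto (fun i => LV c (Pi i) (Qi i) (Wi i) σ) l (𝓝 (LV c P Q W σ)) := by
  refine (Tendsto.const_mul c ?_).neg
  refine intervalIntegral.tendsto_integral_filter_of_dominated_convergence (fun _ => 1 / 4)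
    ?_ ?_ (by simp) (Eventually.of_forall fun t _ => h.tE hW t)
  · filter_upwards [h.ev] with i hp using (hp.cE _).aestronglyMeasurable
  · filter_upwards [h.ev] with i hp
    exact Eventually.of_forall fun t _ => by
      rw [Real.norm_eq_abs, abs_of_nonneg (hp.E_nonneg _ t)]; exact hp.E_le _ t

theorem tK (h : Fam l c Pi Qi P Q) (hW : Tendsto Wi l (𝓝 W)) (σ : ℝ) :
    Tendsto (fun i => KK c (Pi i) (Qi i) (Wi i) σ) l (𝓝 (KK c P Q W σ)) :=
  ((h.tw hW σ).rexp.mul (h.tL hW σ).rexp).div ((h.tden hW σ).pow 2)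
    (pow_pos (h.pos.den σ _) 2).ne'

theorem tY (h : Fam l c Pi Qi P Q) (hW : Tendsto Wi l (𝓝 W)) (σ : ℝ) :
    Tendsto (fun i => Yi c (Pi i) (Qi i) (Wi i) σ) l (𝓝 (Yi c P Q W σ)) := by
  have hc := h.pos.hc
  refine (Tendsto.const_mul c ?_).neg
  refine intervalIntegral.tendsto_integral_filter_of_dominated_convergence
    (fun _ => exp (c / 4 * |σ|)) ?_ ?_ (by simp) (Eventually.of_forall fun t _ =>
      ((h.tE hW t).mul (((h.tth hW t).const_mul 2).sub_const 1)).mul (h.tL hW t).neg.rexp)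
  · filter_upwards [h.ev] with i hp
    have := hp.cE (Wi i); have := hp.cth (Wi i); have := hp.cL (Wi i)
    exact Continuous.aestronglyMeasurable (by fun_prop)
  · filter_upwards [h.ev] with i hp
    refine Eventually.of_forall fun t ht => ?_
    have t1 : |2 * th c (Pi i) (Qi i) (Wi i) t - 1| ≤ 1 :=
      abs_le.2 ⟨by linarith [hp.th_pos (Wi i) t], by linarith [hp.th_lt (Wi i) t]⟩
    have t2 : -LV c (Pi i) (Qi i) (Wi i) t ≤ c / 4 * |σ| := by
      rcases le_total 0 t with h0 | h0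
      · have := (hp.L_lip (Wi i) h0).1
        rw [Pos.L0] at this
        have : t ≤ |σ| := ht.2.trans (max_le (abs_nonneg _) (le_abs_self _))
        nlinarith
      · have := hp.L_ge (Wi i) h0
        have : 0 ≤ c / 4 * |σ| := by positivity
        linarith
    rw [Real.norm_eq_abs, abs_mul, abs_mul, abs_of_pos (hp.E_pos _ t), abs_of_pos (exp_pos _)]
    calc _ ≤ 1 * 1 * exp (c / 4 * |σ|) := by
          gcongr; linarith [hp.E_le (Wi i) t]
      _ = _ := by ring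

theorem tn (h : Fam l c Pi Qi P Q) (hW : Tendsto Wi l (𝓝 W)) (σ : ℝ) :
    Tendsto (fun i => nn c (Pi i) (Qi i) (Wi i) σ) l (𝓝 (nn c P Q W σ)) :=
  ((((h.tth hW σ).const_mul 2).sub_const 1).mul (h.tL hW σ).neg.rexp).add (h.tY hW σ)

theorem tM (h : Fam l c Pi Qi P Q) (hW : Tendsto Wi l (𝓝 W)) {A : ℝ}
    (hb : ∀ᶠ i in l, Bd c A (Pi i) (Qi i) ∧ RB A (Pi i) (Qi i) (Ri i))
    (hR : ∀ σ, Tendsto (fun i => Ri i σ) l (𝓝 (R σ))) :
    Tendsto (fun i => MM c (Pi i) (Qi i) (Ri i) (Wi i)) l (𝓝 (MM c P Q R W)) ∧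
    Tendsto (fun i => N1 c (Pi i) (Qi i) (Ri i) (Wi i)) l (𝓝 (N1 c P Q R W)) := by
  have hW' := hW.eventually_const_le (u := W - 1) (by linarith)
  constructor
  · refine tendsto_integral_filter_of_dominated_convergence _ ?_ ?_
      ((integrable_two (a := 1 / 2) (b := 1 / 6) (by norm_num) (by norm_num)).const_mul
        (exp (A + |c * exp (A - (W - 1)) - (W - 1) + 2 * A| + 1)))
      (Eventually.of_forall fun σ => (hR σ).mul (h.tK hW σ))
    · filter_upwards [hb] with i hi using (hi.2.cR.mul (hi.1.cK _)).aestronglyMeasurable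
    · filter_upwards [hb, hW'] with i hi hw
      exact Eventually.of_forall fun σ => (hi.1.dom hi.2 hw σ).1
  · refine tendsto_integral_filter_of_dominated_convergence _ ?_ ?_
      ((integrable_two (a := 1 / 2) (b := 1 / 6) (by norm_num) (by norm_num)).const_mul
        (exp (A + |c * exp (A - (W - 1)) - (W - 1) + 2 * A| + 1)))
      (Eventually.of_forall fun σ => (hR σ).mul ((h.tn hW σ).mul (h.tK hW σ)))
    · filter_upwards [hb] with i hi
        using (hi.2.cR.mul ((hi.1.cnn _).mul (hi.1.cK _))).aestronglyMeasurable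
    · filter_upwards [hb, hW'] with i hi hw
      exact Eventually.of_forall fun σ => (hi.1.dom hi.2 hw σ).2

end Fam

theorem Pos.exists_sep {c : ℝ} {P Q : ℝ → ℝ} (h : Pos c P Q) {A s s' : ℝ} (hs : 0 < s) (hs' : s' < c)
    (hA : ∀ σ, 0 ≤ σ → P σ ≤ exp (A + -s * σ) * Q σ)
    (hB : ∀ σ, 0 ≤ σ → Q σ ≤ exp (A + s' * σ) * P σ) : ∃ V, Sep c P Q V := by
  by_contra hn
  have o1 : IsOpen (Below c P Q) := isOpen_iff_mem_nhds.2 fun W hW =>
    (h.fam (𝓝 W)).below tendsto_id hs' (Eventually.of_forall fun _ => hB) hW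
  have o2 : IsOpen (Above c P Q) := isOpen_iff_mem_nhds.2 fun W hW =>
    (h.fam (𝓝 W)).above tendsto_id hs (Eventually.of_forall fun _ => hA) hW
  obtain ⟨W, -, w1, w2⟩ := isPreconnected_univ (α := ℝ) _ _ o1 o2 (fun W _ => by
      by_contra hW
      exact hn ⟨W, fun h1 => hW (Or.inl h1), fun h1 => hW (Or.inr h1)⟩)
    ⟨_, trivial, _, h.trapB hs' hB _ le_rfl (by rw [(h.spec _).2, mul_zero, add_zero])⟩
    ⟨_, trivial, _, h.trapA hs hA _ le_rfl (by rw [(h.spec _).2, mul_zero, add_zero])⟩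
  exact lt_irrefl _ (h.below_lt w1 w2)

theorem Fam.tsep {ι : Type} {l : Filter ι} {c : ℝ} {Pi Qi : ι → ℝ → ℝ} {P Q κ : ℝ → ℝ}
    {Vi : ι → ℝ} {V k0 A s s' : ℝ} (h : Fam l c Pi Qi P Q) (hκ : Kap P Q κ) (hV : Sep c P Q V)
    (hk : Tendsto κ atTop (𝓝 k0)) (k1 : 0 < k0) (k2 : k0 < c) (hs : 0 < s) (hs' : s' < c)
    (hA : ∀ᶠ i in l, ∀ σ, 0 ≤ σ → Pi i σ ≤ exp (A + -s * σ) * Qi i σ)
    (hB : ∀ᶠ i in l, ∀ σ, 0 ≤ σ → Qi i σ ≤ exp (A + s' * σ) * Pi i σ)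
    (hi : ∀ᶠ i in l, Sep c (Pi i) (Qi i) (Vi i)) : Tendsto Vi l (𝓝 V) := by
  refine tendsto_order.2 ⟨fun a ha => ?_, fun a ha => ?_⟩
  · filter_upwards [h.ev, hi, h.below (Wi := fun _ => a) tendsto_const_nhds hs' hB
      (h.pos.below_of_lt hκ hV hk k1 k2 ha)] with i hp h1 h2
    exact lt_of_not_ge fun h3 => h1.1 (hp.below_mono h3 h2)
  · filter_upwards [h.ev, hi, h.above (Wi := fun _ => a) tendsto_const_nhds hs hA
      (h.pos.above_of_lt hκ hV hk k1 k2 ha)] with i hp h1 h2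
    exact lt_of_not_ge fun h3 => h1.2 (hp.above_mono h3 h2)

end Pool.Agent.LC5081
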