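import Pool.Agent.Lib.MP_5081b1_an.Qst

/-! Change of scale, concatenation of chains, and limit cycles from chains of closed orbits. -/

set_option autoImplicit false

open Set Filter Topology MeasureTheory Real

namespace Pool.Agent.LC5081

theorem ChainS.first {M : ℝ → ℝ} {S : Set ℝ} {N : ℕ} {t : ℝ} (h : ChainS M S N t) :
    ∃ w, ChainS M (S ∩ Ioi w) N t := by
  obtain ⟨W, h1, h2⟩ := h
  obtain ⟨w, hw⟩ := ((finite_Iic N).image W).bddBelow
  exact ⟨w - 1, W, h1, fun i hi => ⟨⟨(h2 i hi).1, (sub_one_lt w).trans_le (hw ⟨i, hi, rfl⟩)⟩,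
    (h2 i hi).2⟩⟩

theorem ChainS.smul {M : ℝ → ℝ} {S : Set ℝ} {N : ℕ} (h : ChainS M S N 1) {s : ℝ} (hs : s ≠ 0) :
    ChainS (fun W => s * M W) S N s := by
  obtain ⟨W, h1, h2⟩ := h
  refine ⟨W, h1, fun i hi => ⟨(h2 i hi).1, ?_⟩⟩
  have := mul_pos (mul_self_pos.2 hs) (h2 i hi).2
  linarith

theorem ChainS.of_mul {M : ℝ → ℝ} {S : Set ℝ} {N : ℕ} {t k : ℝ}
    (h : ChainS (fun W => k * M W) S N t) (hk : 0 < k) : ChainS M S N t := by
  obtain ⟨W, h1, h2⟩ := h
  refine ⟨W, h1, fun i hi => ⟨(h2 i hi).1, ?_⟩⟩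
  have := (h2 i hi).2
  rw [mul_left_comm] at this
  exact (mul_pos_iff_of_pos_left hk).1 this

theorem ChainS.append {M : ℝ → ℝ} {S1 S2 : Set ℝ} {N1 N2 : ℕ} {t : ℝ} (h1 : ChainS M S1 N1 t)
    (h2 : ChainS M S2 (2 * N2) (-t)) (hs : ∀ x ∈ S1, ∀ y ∈ S2, x < y) :
    ChainS M (S1 ∪ S2) (N1 + 2 * N2 + 1) (-t) := by
  obtain ⟨W, w1, w2⟩ := h1
  obtain ⟨V, v1, v2⟩ := h2
  refine ⟨fun i => if i ≤ N1 then W i else V (i - (N1 + 1)), fun i hi => ?_, fun i hi => ?_⟩
  · rcases lt_trichotomy i N1 with h | rfl | h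
    · simp only [h.le, Nat.succ_le_of_lt h, if_true]; exact w1 i h
    · simp only [le_rfl, if_true, Nat.not_succ_le_self, if_false]
      exact hs _ (w2 i le_rfl).1 _ (v2 _ (by omega)).1
    · simp only [not_le.2 h, show ¬ i + 1 ≤ N1 by omega, if_false]
      have := v1 (i - (N1 + 1)) (by omega)
      rwa [show i - (N1 + 1) + 1 = i + 1 - (N1 + 1) by omega] at this
  · dsimp only
    split_ifs with h
    · refine ⟨Or.inl (w2 i h).1, ?_⟩
      have := (w2 i h).2
      rw [show N1 + 2 * N2 + 1 + i = N1 + i + 2 * N2 + 1 by ring, pow_succ, pow_add, pow_mul]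
      simpa using this
    · refine ⟨Or.inr (v2 _ (by omega)).1, ?_⟩
      have := (v2 (i - (N1 + 1)) (by omega)).2
      rw [neg_one_pow_eq_pow_mod_two] at this ⊢
      rwa [show (N1 + 2 * N2 + 1 + i) % 2 = (2 * N2 + (i - (N1 + 1))) % 2 by omega]

namespace Pos

variable {c : ℝ} {P Q : ℝ → ℝ}

theorem gauge (h : Pos c P Q) (Λ t A B : ℝ) :
    Pos c (fun σ => exp (A + t * σ) * P (σ + Λ)) fun σ => exp (B + t * σ) * Q (σ + Λ) := by
  have := h.cP; have := h.cQ
  exact ⟨h.hc, by fun_prop, by fun_prop, fun σ => mul_pos (exp_pos _) (h.pP _),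
    fun σ => mul_pos (exp_pos _) (h.pQ _)⟩

theorem gauge_sol (h : Pos c P Q) (Λ t A B W : ℝ) :
    sol c (fun σ => exp (A + t * σ) * P (σ + Λ)) (fun σ => exp (B + t * σ) * Q (σ + Λ))
      (sol c P Q W Λ + (A - B)) = fun σ => sol c P Q W (σ + Λ) + (A - B) := by
  have h' := h.gauge Λ t A B
  refine sol_unique h'.lip (h'.spec _).1 (fun σ => ?_) (t0 := 0) (by rw [(h'.spec _).2, zero_add])
  refine ((((h.spec W).1 (σ + Λ)).comp_add_const σ Λ).add_const (A - B)).congr_deriv ?_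
  have d := h.den (σ + Λ) (sol c P Q W (σ + Λ))
  have e : exp (sol c P Q W (σ + Λ) + (A - B)) * exp (B + t * σ) =
      exp (A + t * σ) * exp (sol c P Q W (σ + Λ)) := by
    rw [← exp_add, ← exp_add]; congr 1; ring
  unfold fw
  rw [← mul_assoc (exp (_ + (A - B))), e, mul_assoc (exp (A + t * σ)), ← mul_add, mul_left_comm c,
    mul_div_mul_left _ _ (exp_pos _).ne']

theorem gauge_M (h : Pos c P Q) (Λ t A B W : ℝ) (R : ℝ → ℝ) :
    MM c (fun σ => exp (A + t * σ) * P (σ + Λ)) (fun σ => exp (B + t * σ) * Q (σ + Λ))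
      (fun σ => exp (2 * t * σ) * R (σ + Λ)) (sol c P Q W Λ + (A - B)) =
      exp (-LV c P Q W Λ - A - B) * MM c P Q R W := by
  have h' := h.gauge Λ t A B
  have hθ : ∀ σ, th c (fun σ => exp (A + t * σ) * P (σ + Λ)) (fun σ => exp (B + t * σ) * Q (σ + Λ))
      (sol c P Q W Λ + (A - B)) σ = th c P Q W (σ + Λ) := fun σ => by
    have d1 := h'.dsol (sol c P Q W Λ + (A - B)) σ
    rw [h.gauge_sol] at d1
    have := d1.unique (((h.dsol W (σ + Λ)).comp_add_const σ Λ).add_const (A - B))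
    exact mul_left_cancel₀ h.hc.ne' (neg_injective this)
  have hL : LV c (fun σ => exp (A + t * σ) * P (σ + Λ)) (fun σ => exp (B + t * σ) * Q (σ + Λ))
      (sol c P Q W Λ + (A - B)) = fun σ => LV c P Q W (σ + Λ) - LV c P Q W Λ :=
    sol_unique (lip_zero fun σ => -(c * EE c P Q W (σ + Λ)))
      (fun σ => (h'.dL _ σ).congr_deriv (by rw [h'.EE_eq, hθ, ← h.EE_eq]))
      (fun σ => ((h.dL W (σ + Λ)).comp_add_const σ Λ).sub_const _) (t0 := 0)
      (by rw [L0, zero_add, sub_self])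
  rw [MM, MM, ← integral_add_right_eq_self (fun σ => R σ * KK c P Q W σ) Λ, ← integral_const_mul]
  congr 1
  funext σ
  have := h.pP (σ + Λ); have := h.pQ (σ + Λ)
  rw [h'.K_eq, h.K_eq, h'.EE_eq, hθ, ← h.EE_eq, hL]
  have e : exp (2 * t * σ) * exp (LV c P Q W (σ + Λ) - LV c P Q W Λ) =
      exp (-LV c P Q W Λ - A - B) * exp (LV c P Q W (σ + Λ)) * exp (A + t * σ) *
        exp (B + t * σ) := by
    rw [← exp_add, ← exp_add, ← exp_add, ← exp_add]; congr 1; ring
  have := exp_pos (A + t * σ); have := exp_pos (B + t * σ)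
  generalize exp (A + t * σ) = x1 at *
  generalize exp (B + t * σ) = x2 at *
  generalize exp (2 * t * σ) = x3 at *
  generalize exp (LV c P Q W (σ + Λ) - LV c P Q W Λ) = x4 at *
  generalize exp (-LV c P Q W Λ - A - B) = x5 at *
  field_simp
  linear_combination R (σ + Λ) * EE c P Q W (σ + Λ) * e

theorem gauge_chain (h : Pos c P Q) (Λ t A B : ℝ) {R : ℝ → ℝ} {N : ℕ} {s w W1 : ℝ}
    (hw : sol c P Q W1 Λ + (A - B) ≤ w)
    (ch : ChainS (MM c (fun σ => exp (A + t * σ) * P (σ + Λ)) (fun σ => exp (B + t * σ) * Q (σ + Λ))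
      fun σ => exp (2 * t * σ) * R (σ + Λ)) (Below c (fun σ => exp (A + t * σ) * P (σ + Λ))
      (fun σ => exp (B + t * σ) * Q (σ + Λ)) ∩ Ioi w) N s) :
    ChainS (MM c P Q R) (Below c P Q ∩ Ioi W1) N s := by
  obtain ⟨W, h1, h2⟩ := ch
  choose U hU using fun i => h.exists_through Λ (W i - (A - B))
  have e : ∀ i, W i = sol c P Q (U i) Λ + (A - B) := fun i => by rw [hU]; ring
  have lt : ∀ x y, sol c P Q x Λ < sol c P Q y Λ → x < y := fun x y hxy => by
    have := sol_lt h.lip (h.spec x).1 (h.spec y).1 hxy 0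
    rwa [(h.spec x).2, (h.spec y).2] at this
  refine ⟨U, fun i hi => lt _ _ (by rw [hU, hU]; linarith [h1 i hi]), fun i hi => ?_⟩
  obtain ⟨⟨⟨G, hG⟩, a2⟩, a3⟩ := h2 i hi
  rw [e i, h.gauge_sol] at hG
  rw [e i, h.gauge_M, mul_left_comm] at a3
  refine ⟨⟨⟨G - (A - B) + c * Λ, fun σ _ => ?_⟩, lt _ _ ?_⟩, (mul_pos_iff_of_pos_left (exp_pos _)).1 a3⟩
  · rcases le_total Λ σ with hσ | hσ
    · have := hG (σ - Λ) (sub_nonneg.2 hσ)
      simp only [sub_add_cancel] at this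
      linarith
    · have := hG 0 le_rfl
      simp only [zero_add] at this
      linarith [h.v_mono (U i) hσ]
  · rw [hU]; linarith [mem_Ioi.1 a2]

end Pos

theorem Bd.rho_bound {c A : ℝ} {P Q : ℝ → ℝ} (h : Bd c A P Q) {W : ℝ} (hW : W ∈ Below c P Q) :
    ∃ K, ∀ σ, |rho c P Q W σ| ≤ K := by
  obtain ⟨H, hH⟩ := hW
  have hG := fun σ => h.w_neg W (σ := σ)
  set G := W + c * exp (A - W)
  have hc := h.hc
  have e2 := add_one_le_exp (1 : ℝ)
  have key : ∀ σ, W ≤ sol c P Q W σ + c * log (1 + exp σ) ∧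
      sol c P Q W σ + c * log (1 + exp σ) ≤ max H G + c := by
    intro σ
    have e0 := exp_pos σ
    rcases le_total 0 σ with hσ | hσ
    · have l1 : σ ≤ log (1 + exp σ) := (le_log_iff_exp_le (by positivity)).2 (by linarith)
      have l2 : log (1 + exp σ) ≤ σ + 1 := (log_le_iff_le_exp (by positivity)).2 (by
        have := one_le_exp hσ
        rw [exp_add]; nlinarith)
      have := h.v_ge W hσ
      have := hH σ hσ
      have := le_max_left H G
      constructor <;> nlinarith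
    · have l1 : 0 ≤ log (1 + exp σ) := log_nonneg (by linarith)
      have l2 : log (1 + exp σ) ≤ 1 := (log_le_iff_le_exp (by positivity)).2 (by
        have := exp_le_one_iff.2 hσ
        linarith)
      have := h.w_ge W hσ
      have := hG σ hσ
      have := le_max_right H G
      constructor <;> nlinarith
  refine ⟨(|W| + |max H G + c|) / (2 * c), fun σ => ?_⟩
  have : rho c P Q W σ = (sol c P Q W σ + c * log (1 + exp σ)) / (2 * c) := by
    unfold rho; field_simp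
  rw [this, abs_div, abs_of_pos (a := 2 * c) (by positivity)]
  gcongr
  rw [abs_le]
  constructor
  · linarith [(key σ).1, neg_abs_le W, abs_nonneg (max H G + c)]
  · linarith [(key σ).2, abs_nonneg W, le_abs_self (max H G + c)]

theorem main_of' {a c N : ℕ} {p q A B : Polynomial ℝ} {t b : ℝ} (dp : p.natDegree ≤ a)
    (cp : 0 < p.coeff a) (dq : q.natDegree ≤ a + c) (dA : A.natDegree ≤ a)
    (dB : B.natDegree ≤ a + c) (h : Bd c b (ev 1 p) (ev 0 q))
    (ch : ChainS (MM c (ev 1 p) (ev 0 q) (ev (1 / 2) (Polynomial.X * p * B + A * q)))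
      (Below c (ev 1 p) (ev 0 q)) N t) :
    ∃ P Q : MvPolynomial (Fin 2) ℝ, P.IsHomogeneous (2 * a + 1) ∧
      Q.IsHomogeneous (2 * (a + c) + 1) ∧ (N : ℕ∞) ≤ (LC (vf P Q)).encard := by
  obtain ⟨W, w1, w3⟩ := ch
  have w2 := fun i hi => (w3 i hi).2
  have c0 := h.hc
  have pp : ∀ τ, 0 < τ → 0 < p.eval τ := fun τ hτ => by
    have := h.pP (log τ)
    rw [ev, exp_log hτ] at this
    exact (mul_pos_iff_of_pos_left (exp_pos _)).1 this
  have pq : ∀ τ, 0 ≤ τ → 0 < q.eval τ := fun τ hτ => by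
    rcases hτ.lt_or_eq with hτ | rfl
    · simpa [ev, exp_log hτ] using h.pQ (log τ)
    · have hb := h.n2
      refine (exp_pos (-b)).trans_le (ge_of_tendsto
        ((q.continuous.tendsto 0).comp tendsto_exp_atBot) ?_)
      filter_upwards [eventually_le_atBot 0] with σ hσ
      simpa [ev] using hb σ hσ
  choose! K0 hK0 using fun W (hW : W ∈ Below c (ev 1 p) (ev 0 q)) => h.rho_bound hW
  set K' := ∑ i ∈ Finset.range (N + 1), |K0 (W i)|
  have hK' : ∀ i ≤ N, ∀ σ, |rho c (ev 1 p) (ev 0 q) (W i) σ| ≤ K' := fun i hi σ =>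
    (hK0 _ (w3 i hi).1 σ).trans ((le_abs_self _).trans (Finset.single_le_sum
      (f := fun i => |K0 (W i)|) (fun _ _ => abs_nonneg _) (Finset.mem_range_succ_iff.2 hi)))
  have K0' : 0 ≤ K' := Finset.sum_nonneg fun _ _ => abs_nonneg _
  obtain ⟨M, d, M0, hA⟩ := ang_base dp cp dq pp pq (K := K' + 1) c0 (by linarith)
  have rv : Rev a c (ev 1 p) (ev 0 q) (ev (1 / 2) (Polynomial.X * p * B + A * q)) (ang a p)
      (ang (a + c) q) (ang a A) (ang (a + c) B) := by
    refine ⟨ang_cont _ _, ang_cont _ _, ang1 _ _, ang2 _ _, ang1 _ _, ang2 _ _, ang1 _ _, ang2 _ _,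
      ang1 _ _, ang2 _ _, fun σ => ?_, fun σ => ?_, fun σ => ?_⟩
    · rw [ang_Th dp, cTh_sq, ev, one_mul]; ring
    · rw [ang_Th dq, ev, zero_mul, exp_zero]; ring
    · rw [ang_Th dp, ang_Th dq, ang_Th dA, ang_Th dB, cTh_sq, cTh_eq, ev]
      simp only [Polynomial.eval_add, Polynomial.eval_mul, Polynomial.eval_X]
      ring
  have ex := fun i (hi : i ≤ N) => rv.unpert h.toPos hA (lt_add_one K') (W i) (hK' i hi)
  choose! u u1 u2 u3 u4 u5 using ex
  set A0 : ℝ → ℝ := fun θ => cos θ * ang a p θ with hA0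
  set B0 : ℝ → ℝ := fun θ => -(sin θ * ang (a + c) q θ) with hB0
  set A1 : ℝ → ℝ := fun θ => sin θ * ang a A θ with hA1
  set B1 : ℝ → ℝ := fun θ => cos θ * ang (a + c) B θ with hB1
  have cA1 : Continuous A1 := continuous_sin.mul (ang_cont _ _)
  have cB1 : Continuous B1 := continuous_cos.mul (ang_cont _ _)
  obtain ⟨e, e0, -, he⟩ := hA.pert
  obtain ⟨M1, m1⟩ := ang_bd a A
  obtain ⟨M2, m2⟩ := ang_bd (a + c) B
  have E1 : ∀ᶠ z : ℝ × ℝ in 𝓝 (0, 0), ∀ i ∈ Finset.range (N + 1), _ :=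
    (Filter.eventually_all_finset _).2 fun i hi =>
      hA.melnikov cA1 cB1 (u1 i (Finset.mem_range_succ_iff.1 hi))
        (u3 i (Finset.mem_range_succ_iff.1 hi)) (u4 i (Finset.mem_range_succ_iff.1 hi)) (Th 0)
        (t * (-1) ^ (N + i)) (by
          rw [u5 i (Finset.mem_range_succ_iff.1 hi)]
          linarith [w2 i (Finset.mem_range_succ_iff.1 hi)])
  have E2 : ∀ᶠ z : ℝ × ℝ in 𝓝 (0, 0), |z.1| * max M1 M2 + |z.1 * z.2| < e :=
    (by fun_prop : Continuous fun z : ℝ × ℝ =>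
      |z.1| * max M1 M2 + |z.1 * z.2|).continuousAt.eventually_lt continuousAt_const
      (by simpa using e0)
  obtain ⟨δ, δ0, hδ⟩ := Metric.eventually_nhds_iff.1 (E1.and E2)
  set ε := δ / 2
  have ε0 : 0 < ε := by positivity
  have hz : ∀ μ ∈ Icc 0 (ε * ε), dist (ε, μ / ε) ((0, 0) : ℝ × ℝ) < δ := fun μ hμ => by
    have h1 : 0 ≤ μ / ε := div_nonneg hμ.1 ε0.le
    have h2 : μ / ε ≤ ε := (div_le_iff₀ ε0).2 hμ.2
    have h3 : ε < δ := half_lt_self δ0
    simp only [Prod.dist_eq, dist_zero_right, Real.norm_eq_abs, abs_of_pos ε0, abs_of_nonneg h1]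
    exact max_lt h3 (h2.trans_lt h3)
  have hm : ∀ μ, ε * (μ / ε) = μ := fun μ => by field_simp
  have an : ∀ μ ∈ Icc 0 (ε * ε), Ang c (K' + 1) (M + 1) (d / 2) (prA A0 A1 ε μ) (prB B0 B1 ε μ) := by
    intro μ hμ
    have := (hδ (hz μ hμ)).2
    simp only [hm] at this
    have cA := hA.cA; have cB := hA.cB
    refine he _ _ (by unfold prA; fun_prop) (by unfold prB; fun_prop)
      (fun θ => by simp only [prA, hA0, hA1, ang3, sin_add_two_pi, cos_add_two_pi])
      (fun θ => by simp only [prB, hB0, hB1, ang3, sin_add_two_pi, cos_add_two_pi])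
      (fun θ => ?_) fun θ => ?_
    · rw [prA, add_assoc, add_sub_cancel_left]
      refine (abs_add_le _ _).trans (le_trans ?_ this.le)
      rw [abs_mul, mul_comm μ]
      exact add_le_add (mul_le_mul_of_nonneg_left
        ((mul_bd (abs_sin_le_one θ) (m1 θ)).trans (le_max_left _ _)) (abs_nonneg _))
        (mul_bd (abs_sin_le_one θ) le_rfl)
    · rw [prB, add_assoc, add_sub_cancel_left]
      refine (abs_add_le _ _).trans (le_trans ?_ this.le)
      rw [abs_mul, mul_comm μ]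
      exact add_le_add (mul_le_mul_of_nonneg_left
        ((mul_bd (abs_cos_le_one θ) (m2 θ)).trans (le_max_right _ _)) (abs_nonneg _))
        (mul_bd (abs_cos_le_one θ) le_rfl)
  obtain ⟨β, β0, hβ⟩ := Ang.rot c (K' + 1) (M + 1) (d / 2) (by positivity)
    (by have := hA.hd; positivity)
  obtain ⟨μ, hμ, iso⟩ := isolate (f := fun μ => fc c (K' + 1) (prA A0 A1 ε μ) (prB B0 B1 ε μ))
    (mul_pos ε0 ε0) β0 (fun μ hμ => (an μ hμ).nice) (fun μ hμ μ' hμ' hlt => by
      have e1 : prA A0 A1 ε μ' = fun θ => prA A0 A1 ε μ θ + (μ' - μ) * sin θ := by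
        funext θ; simp only [prA]; ring
      have e2 : prB B0 B1 ε μ' = fun θ => prB B0 B1 ε μ θ + (μ' - μ) * cos θ := by
        funext θ; simp only [prB]; ring
      have := an μ' hμ'
      simp only [e1, e2] at this ⊢
      exact hβ _ _ _ (sub_pos.2 hlt) (an μ hμ) this)
  refine ⟨_, _, hom3 a p A ε μ 1 1 0, hom3 (a + c) q B ε μ (-1) 0 1, ?_⟩
  have hn := (an μ hμ).nice
  have fin := fun i (hi : i ≤ N) => (hδ (hz μ hμ)).1 i (Finset.mem_range_succ_iff.2 hi) ε0
    (flow (fc c (K' + 1) (prA A0 A1 ε μ) (prB B0 B1 ε μ)) (u i 0))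
    (by simp only [hm]; exact (hn.spec _).1) (hn.spec _).2
  refine ((an μ hμ).polar (a := 2 * a) ?_ (by positivity) fun θ ρ => ?_).count
    (α := fun i => u i 0) (t := t) (fun i hi => ?_) (fun i hi => (fin i hi).1)
    (fun i hi => (fin i hi).2) iso
  · have := hom_cd a p; have := hom_cd a A; have := hom_cd (a + c) q; have := hom_cd (a + c) B
    unfold vf
    simp only [map_add, map_mul, map_pow, MvPolynomial.eval_C, MvPolynomial.eval_X, eval_homP,
      Matrix.cons_val_zero, Matrix.cons_val_one]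
    fun_prop
  · have e1 : (exp ρ * sin θ) ^ 2 + (exp ρ * cos θ) ^ 2 = exp ρ ^ 2 := by
      linear_combination exp ρ ^ 2 * sin_sq_add_cos_sq θ
    have e2 : exp (2 * a * ρ) = exp ρ ^ (2 * a) := by rw [← exp_nat_mul]; push_cast; rfl
    have e3 : exp (2 * c * ρ) = exp ρ ^ (2 * c) := by rw [← exp_nat_mul]; push_cast; rfl
    simp only [vf, pol, map_add, map_mul, map_pow, MvPolynomial.eval_C, MvPolynomial.eval_X,
      eval_homP, Matrix.cons_val_zero, Matrix.cons_val_one, hom_smul, e1, e2, e3, prA, prB, hA0,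
      hA1, hB0, hB1, ang]
    refine Prod.ext ?_ ?_ <;> simp only <;> ring
  · refine sol_lt hA.nice.lip (u1 i hi.le) (u1 (i + 1) hi) (t0 := Th 0) ?_ 0
    rw [u2 i hi.le, u2 (i + 1) hi, rho, rho, (h.spec _).2, (h.spec _).2]
    gcongr
    exact w1 i hi

end Pool.Agent.LC5081
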