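import Pool.Agent.Lib.MP_5081b1_an.Gau

/-! Gluing two configurations at very different scales. -/

set_option autoImplicit false

open Set Filter Topology MeasureTheory Real

namespace Pool.Agent.LC5081

structure Cfg (c a A α β : ℝ) (P Q R Q2 R2 : ℝ → ℝ) : Prop extends Bd c A P Q where
  a0 : 0 ≤ a
  A0 : 0 ≤ A
  hα : |α| ≤ A
  hβ : |β| ≤ A
  PQ : ∀ x, P x ≤ exp (A + x) * Q x
  lP : ∀ x, exp (α + (1 + a) * x) ≤ P x
  lQ : ∀ x, exp (β + a * x) ≤ Q x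
  uQ : ∀ x, 0 ≤ x → Q x ≤ exp (A + a * x)
  tP : Tendsto (fun x => P x * exp (-α - (1 + a) * x)) atTop (𝓝 1)
  tQ : Tendsto (fun x => Q x * exp (-β - a * x)) atTop (𝓝 1)
  cR : Continuous R
  r1 : ∀ x, x ≤ 0 → |R x| ≤ exp (A + 1 / 2 * x)
  r2 : ∀ x, 0 ≤ x → |R x| ≤ exp (A + (2 * a - 1 / 2) * x)
  c2 : Continuous Q2
  q1 : ∀ x, 1 ≤ Q2 x
  q2 : Tendsto Q2 atBot (𝓝 1)
  q3 : ∀ x, x ≤ 0 → Q2 x ≤ exp A
  q4 : ∀ x, 0 ≤ x → Q2 x ≤ exp (A + c * x)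
  c3 : Continuous R2
  s1 : ∀ x, |R2 x| ≤ exp (A + 1 / 2 * x) * Q2 x

noncomputable def QL (a β : ℝ) (Q Q2 : ℝ → ℝ) (Λ σ : ℝ) : ℝ :=
  Q σ + exp (β + a * σ) * (Q2 (σ - Λ) - 1)

noncomputable def RL (a : ℝ) (R R2 : ℝ → ℝ) (Λ σ : ℝ) : ℝ :=
  R σ + exp (Λ / 4 + 2 * a * σ) * R2 (σ - Λ)

theorem add_le_exp {x y u v w : ℝ} (hx : x ≤ exp u) (hy : y ≤ exp v) (hu : u + 1 ≤ w)
    (hv : v + 1 ≤ w) : x + y ≤ exp w := by
  have := two_exp (w - 1)
  rw [sub_add_cancel] at this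
  have := exp_le_exp.2 (show u ≤ w - 1 by linarith)
  have := exp_le_exp.2 (show v ≤ w - 1 by linarith)
  linarith

theorem mul_le_exp {x y u v w : ℝ} (hx : x ≤ exp u) (hy : y ≤ exp v) (y0 : 0 ≤ y)
    (h : u + v ≤ w) : x * y ≤ exp w :=
  (mul_le_mul hx hy y0 (exp_pos _).le).trans (by rw [← exp_add]; exact exp_le_exp.2 h)

noncomputable def PG (a α : ℝ) (P : ℝ → ℝ) (Λ σ : ℝ) : ℝ :=
  exp (-α - (1 + a) * Λ + -a * σ) * P (σ + Λ)

noncomputable def QG (a β : ℝ) (Q Q2 : ℝ → ℝ) (Λ σ : ℝ) : ℝ :=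
  exp (-β - a * Λ + -a * σ) * QL a β Q Q2 Λ (σ + Λ)

theorem ePG (a α : ℝ) (P : ℝ → ℝ) (Λ σ : ℝ) :
    PG a α P Λ σ = P (σ + Λ) * exp (-α - (1 + a) * (σ + Λ)) * exp σ := by
  rw [PG, mul_assoc, ← exp_add, mul_comm]; congr 2; ring

theorem eQG (a β : ℝ) (Q Q2 : ℝ → ℝ) (Λ σ : ℝ) :
    QG a β Q Q2 Λ σ = Q (σ + Λ) * exp (-β - a * (σ + Λ)) + (Q2 σ - 1) := by
  have e : exp (-β - a * (σ + Λ)) * exp (β + a * (σ + Λ)) = 1 := by
    rw [← exp_add, ← exp_zero]; congr 1; ring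
  rw [QG, QL, add_sub_cancel_right, show -β - a * Λ + -a * σ = -β - a * (σ + Λ) by ring]
  linear_combination (Q2 σ - 1) * e

namespace Cfg

variable {c a A α β : ℝ} {P Q R Q2 R2 : ℝ → ℝ}

theorem ge1 (h : Cfg c a A α β P Q R Q2 R2) (Λ σ : ℝ) : Q σ ≤ QL a β Q Q2 Λ σ :=
  le_add_of_nonneg_right (mul_nonneg (exp_pos _).le (sub_nonneg.2 (h.q1 _)))

theorem ge2 (h : Cfg c a A α β P Q R Q2 R2) (Λ σ : ℝ) :
    exp (β + a * σ) * Q2 (σ - Λ) ≤ QL a β Q Q2 Λ σ := by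
  unfold QL; linarith [h.lQ σ]

theorem posL (h : Cfg c a A α β P Q R Q2 R2) (Λ : ℝ) : Pos c P (QL a β Q Q2 Λ) := by
  have := h.cQ; have := h.c2
  exact ⟨h.hc, h.cP, by unfold QL; fun_prop, h.pP, fun σ => (h.pQ σ).trans_le (h.ge1 Λ σ)⟩

theorem q5 (h : Cfg c a A α β P Q R Q2 R2) {x y : ℝ} (hy : 0 ≤ y) (hx : x ≤ y) :
    Q2 x ≤ exp (A + c * y) := by
  have := h.hc
  rcases le_total x 0 with h0 | h0
  · exact (h.q3 x h0).trans (exp_le_exp.2 (by nlinarith))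
  · exact (h.q4 x h0).trans (exp_le_exp.2 (by nlinarith))

theorem s2 (h : Cfg c a A α β P Q R Q2 R2) {x : ℝ} (hx : x ≤ 0) :
    |R2 x| ≤ exp (2 * A + 1 / 2 * x) :=
  (h.s1 x).trans (mul_le_exp le_rfl (h.q3 x hx) (zero_le_one.trans (h.q1 x)) (by linarith))

theorem bdL (h : Cfg c a A α β P Q R Q2 R2) {Λ : ℝ} (hΛ : 0 ≤ Λ) :
    Bd c (3 * A + 1) P (QL a β Q Q2 Λ) ∧ RB (3 * A + 1) P (QL a β Q Q2 Λ) (RL a R R2 Λ) ∧
      ∀ σ, 0 ≤ σ → QL a β Q Q2 Λ σ ≤ exp (3 * A + 1 + (c - 1) * σ) * P σ := by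
  have A0 := h.A0; have a0 := h.a0; have hc := h.hc
  obtain ⟨α1, α2⟩ := abs_le.1 h.hα
  obtain ⟨β1, β2⟩ := abs_le.1 h.hβ
  have key : ∀ σ, |RL a R R2 Λ σ| ≤ |R σ| + exp (Λ / 4 + 2 * a * σ) * |R2 (σ - Λ)| := fun σ =>
    (abs_add_le _ _).trans (by rw [abs_mul, abs_of_pos (exp_pos _)])
  refine ⟨Bd.mono ⟨h.posL Λ, fun σ _ => (h.PQ σ).trans (mul_le_mul_of_nonneg_left (h.ge1 Λ σ)
    (exp_pos _).le), fun σ hσ => (h.n2 σ hσ).trans (h.ge1 Λ σ)⟩ (by linarith),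
    ⟨?_, fun σ hσ => (key σ).trans ?_, fun σ hσ => (key σ).trans ?_⟩, fun σ hσ => ?_⟩
  · have := h.cR; have := h.c3
    unfold RL; fun_prop
  · exact add_le_exp (h.r1 σ hσ) (mul_le_exp le_rfl (h.s2 (x := σ - Λ) (by linarith))
      (abs_nonneg _) le_rfl) (by linarith) (by nlinarith)
  · have b1 : |R σ| ≤ exp (3 * A + -(1 / 6) * σ) * (P σ * QL a β Q Q2 Λ σ) :=
      (h.r2 σ hσ).trans (le_mul le_rfl (le_mul (h.lP σ) ((h.lQ σ).trans (h.ge1 Λ σ)) le_rfl)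
        (by nlinarith))
    have q0 := zero_le_one.trans (h.q1 (σ - Λ))
    have b2 : exp (Λ / 4 + 2 * a * σ) * |R2 (σ - Λ)| ≤
        exp (3 * A + -(1 / 6) * σ) * (P σ * QL a β Q Q2 Λ σ) :=
      calc _ ≤ exp (Λ / 4 + 2 * a * σ) * (exp (A + 1 / 2 * (σ - Λ)) * Q2 (σ - Λ)) := by
            gcongr; exact h.s1 _
        _ = exp (Λ / 4 + 2 * a * σ) * exp (A + 1 / 2 * (σ - Λ)) * Q2 (σ - Λ) := by ring
        _ ≤ exp (3 * A + -(1 / 6) * σ) * (P σ * exp (β + a * σ)) * Q2 (σ - Λ) := by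
            refine mul_le_mul_of_nonneg_right ?_ q0
            rw [← exp_add]
            exact le_mul le_rfl (le_mul (h.lP σ) le_rfl le_rfl) (by nlinarith)
        _ = exp (3 * A + -(1 / 6) * σ) * (P σ * (exp (β + a * σ) * Q2 (σ - Λ))) := by ring
        _ ≤ _ := by
            have := h.pP σ
            gcongr; exact h.ge2 Λ σ
    have b3 := two_exp (3 * A + -(1 / 6) * σ)
    rw [add_right_comm] at b3
    have := mul_le_mul_of_nonneg_right b3 (mul_pos (h.pP σ) ((h.posL Λ).pQ σ)).le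
    linarith
  · refine le_trans (b := exp (2 * A + 1 + (a + c) * σ)) ?_ (le_mul le_rfl (h.lP σ) (by nlinarith))
    refine add_le_exp (h.uQ σ hσ) (mul_le_exp le_rfl ((sub_le_self _ zero_le_one).trans
      (h.q5 hσ (by linarith))) (sub_nonneg.2 (h.q1 _)) le_rfl) (by nlinarith) (by nlinarith)

theorem all_below (h : Cfg c a A α β P Q R Q2 R2) (W : ℝ) : W ∈ Below c P Q := by
  obtain ⟨α1, α2⟩ := abs_le.1 h.hα
  have hc := h.hc
  refine ⟨_, h.trapB (A := 2 * A) (s := -1) (by linarith) (fun σ hσ => (h.uQ σ hσ).trans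
    (le_mul le_rfl (h.lP σ) (by linarith))) W
    (σ1 := max 0 (W + log (2 * (c * exp (2 * A) / (c - -1))))) (le_max_left _ _) ?_⟩
  linarith [h.w_le W (le_max_left 0 (W + log (2 * (c * exp (2 * A) / (c - -1))))),
    le_max_right 0 (W + log (2 * (c * exp (2 * A) / (c - -1))))]

theorem view1 (h : Cfg c a A α β P Q R Q2 R2) {S : Set ℝ} {N : ℕ} {t : ℝ}
    (ch : ChainS (MM c P Q R) S N t) : ∀ᶠ Λ in atTop,
      ChainS (MM c P (QL a β Q Q2 Λ) (RL a R R2 Λ)) (Below c P (QL a β Q Q2 Λ) ∩ S) N t := by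
  have F : Fam atTop c (fun _ => P) (QL a β Q Q2) P Q := by
    refine ⟨h.toPos, Eventually.of_forall h.posL, Conv.const _ h.pP, fun T ε hε => ?_⟩
    obtain ⟨y, hy⟩ := eventually_atBot.1 (h.q2.eventually_lt_const (lt_add_of_pos_right 1 hε))
    filter_upwards [eventually_ge_atTop (T - y)] with Λ hΛ σ hσ
    have := hy (σ - Λ) (by linarith [(abs_le.1 hσ).2])
    have q := h.q1 (σ - Λ)
    rw [QL, add_sub_cancel_left, abs_of_nonneg (mul_nonneg (exp_pos _).le (by linarith)), mul_comm]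
    exact mul_le_mul (by linarith) (h.lQ σ) (exp_pos _).le hε.le
  refine ch.persist' fun W hW => ⟨(F.tM (A := 3 * A + 1) tendsto_const_nhds ?_ fun σ => ?_).1, ?_⟩
  · filter_upwards [eventually_ge_atTop 0] with Λ hΛ using ⟨(h.bdL hΛ).1, (h.bdL hΛ).2.1⟩
  · have : Tendsto (fun Λ => exp (Λ / 4 + 2 * a * σ) * R2 (σ - Λ)) atTop (𝓝 0) := by
      refine squeeze_zero_norm' (a := fun Λ => exp (2 * A + 2 * a * σ + σ / 2 + -(1 / 4) * Λ)) ?_
        (tendsto_exp_atBot.comp (tendsto_atBot_add_const_left _ _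
          (tendsto_id.const_mul_atTop_of_neg (by norm_num))))
      filter_upwards [eventually_ge_atTop σ] with Λ hΛ
      rw [Real.norm_eq_abs, abs_mul, abs_of_pos (exp_pos _)]
      exact mul_le_exp le_rfl (h.s2 (by linarith)) (abs_nonneg _) (by linarith)
    simpa [RL] using this.const_add (R σ)
  · refine (F.below (A := 3 * A + 1) tendsto_const_nhds (sub_one_lt c) ?_ (h.all_below W)).and
      (Eventually.of_forall fun _ => hW)
    filter_upwards [eventually_ge_atTop 0] with Λ hΛ using (h.bdL hΛ).2.2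

theorem u1 (h : Cfg c a A α β P Q R Q2 R2) (x : ℝ) : 1 ≤ P x * exp (-α - (1 + a) * x) :=
  exp_zero.ge.trans (le_mul (h.lP x) le_rfl (by linarith))

theorem v1 (h : Cfg c a A α β P Q R Q2 R2) (x : ℝ) : 1 ≤ Q x * exp (-β - a * x) := by
  rw [← exp_zero]; exact le_mul (h.lQ x) le_rfl (by linarith)

theorem pg (h : Cfg c a A α β P Q R Q2 R2) (Λ σ : ℝ) : exp σ ≤ PG a α P Λ σ := by
  rw [ePG]; exact le_mul_of_one_le_left (exp_pos _).le (h.u1 _)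

theorem qg (h : Cfg c a A α β P Q R Q2 R2) (Λ σ : ℝ) : Q2 σ ≤ QG a β Q Q2 Λ σ := by
  rw [eQG]; linarith [h.v1 (σ + Λ)]

theorem bdG (h : Cfg c a A α β P Q R Q2 R2) (Λ : ℝ) :
    Bd c (3 * A) (PG a α P Λ) (QG a β Q Q2 Λ) ∧ RB (3 * A) (PG a α P Λ) (QG a β Q Q2 Λ) R2 := by
  have A0 := h.A0
  obtain ⟨α1, α2⟩ := abs_le.1 h.hα
  obtain ⟨β1, β2⟩ := abs_le.1 h.hβ
  refine ⟨⟨(h.posL Λ).gauge Λ (-a) _ _, fun σ _ => ?_, fun σ _ => ?_⟩, h.c3,
    fun σ hσ => (h.s2 hσ).trans (exp_le_exp.2 (by linarith)), fun σ hσ => (h.s1 σ).trans ?_⟩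
  · have q := h.pQ (σ + Λ)
    calc _ = P (σ + Λ) * (exp (-α - (1 + a) * (σ + Λ)) * exp σ) := by rw [ePG, mul_assoc]
      _ ≤ exp (A + (σ + Λ)) * Q (σ + Λ) * (exp (-α - (1 + a) * (σ + Λ)) * exp σ) := by
        gcongr; exact h.PQ _
      _ = exp (A + (σ + Λ)) * (exp (-α - (1 + a) * (σ + Λ)) * exp σ) * Q (σ + Λ) := by ring
      _ ≤ exp (3 * A + σ) * exp (-β - a * (σ + Λ)) * Q (σ + Λ) := by
        refine mul_le_mul_of_nonneg_right ?_ q.le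
        simp only [← exp_add]
        exact exp_le_exp.2 (by linarith)
      _ = exp (3 * A + σ) * (Q (σ + Λ) * exp (-β - a * (σ + Λ))) := by ring
      _ ≤ _ := by
        refine mul_le_mul_of_nonneg_left ?_ (exp_pos _).le
        rw [eQG]; linarith [h.q1 σ]
  · exact (exp_le_one_iff.2 (by linarith)).trans ((h.q1 σ).trans (h.qg Λ σ))
  · have q0 := zero_le_one.trans (h.q1 σ)
    rw [← mul_assoc]
    exact mul_le_mul (le_mul le_rfl (h.pg Λ σ) (by linarith)) (h.qg Λ σ) q0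
      (mul_pos (exp_pos _) ((exp_pos σ).trans_le (h.pg Λ σ))).le

theorem hk (h : Cfg c a A α β P Q R Q2 R2) (W : ℝ) {Λ : ℝ} (hΛ : 0 ≤ Λ) (σ : ℝ) :
    ‖exp (-Λ / 4 - 2 * a * (σ + Λ)) * R (σ + Λ) * KK c (PG a α P Λ) (QG a β Q Q2 Λ) W σ‖ ≤
      exp (c * exp (3 * A - W) + |W| + 5 * A + -(1 / 4) * Λ) *
        if σ + Λ ≤ 0 then exp (1 / 2 * (σ + Λ)) else exp (-(1 / 2) * (σ + Λ)) := by
  have b := (h.bdG Λ).1
  have A0 := h.A0
  obtain ⟨β1, β2⟩ := abs_le.1 h.hβ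
  have G0 : 0 ≤ c * exp (3 * A - W) := (mul_pos h.hc (exp_pos _)).le
  have w1 := neg_abs_le W; have w2 := abs_nonneg W
  have k0 := (b.K_pos W σ).le
  have q1 : exp 0 ≤ QG a β Q Q2 Λ σ := exp_zero ▸ (h.q1 σ).trans (h.qg Λ σ)
  rw [Real.norm_eq_abs, abs_mul, abs_mul, abs_of_pos (exp_pos _), abs_of_nonneg k0]
  split_ifs with hx
  · have hσ : σ ≤ 0 := by linarith
    have q2 : exp (-A + (-β - a * (σ + Λ))) ≤ QG a β Q Q2 Λ σ := by
      have := le_mul (h.n2 _ hx) (le_refl (exp (-β - a * (σ + Λ)))) le_rfl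
      rw [eQG]; linarith [h.q1 σ]
    rw [← exp_add]
    exact mul_le_exp (mul_le_exp le_rfl (h.r1 _ hx) (abs_nonneg _) le_rfl)
      (b.K_le_Q W σ (b.w_ge W hσ) q2 (b.L_neg le_rfl hσ)) k0 (by linarith)
  · rw [← exp_add]
    refine mul_le_exp (v := c * exp (3 * A - W) + |W|)
      (mul_le_exp le_rfl (h.r2 _ (not_le.1 hx).le) (abs_nonneg _) le_rfl) ?_ k0 (by linarith)
    rcases le_total σ 0 with hσ | hσ
    · exact (b.K_le_Q W σ (b.w_ge W hσ) q1 (b.L_neg le_rfl hσ)).trans (exp_le_exp.2 (by linarith))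
    · exact (b.K_le_am W σ (h.pg Λ σ) q1 (b.L_le W hσ)).trans (exp_le_exp.2 (by linarith))

theorem view2 (h : Cfg c a A α β P Q R Q2 R2) {N : ℕ} {t : ℝ} (W1 : ℝ)
    (ch : ChainS (MM c exp Q2 R2) (Below c exp Q2) N t) : ∀ᶠ Λ in atTop,
      ChainS (MM c P (QL a β Q Q2 Λ) (RL a R R2 Λ)) (Below c P (QL a β Q Q2 Λ) ∩ Ioi W1) N t := by
  obtain ⟨w, ch⟩ := ch.first
  have A0 := h.A0; have hc := h.hc
  obtain ⟨α1, α2⟩ := abs_le.1 h.hα
  obtain ⟨β1, β2⟩ := abs_le.1 h.hβ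
  have F : Fam atTop c (PG a α P) (QG a β Q Q2) exp Q2 := by
    refine ⟨⟨hc, continuous_exp, h.c2, exp_pos, fun σ => one_pos.trans_le (h.q1 σ)⟩,
      Eventually.of_forall fun Λ => (h.bdG Λ).1.toPos, fun T ε hε => ?_, fun T ε hε => ?_⟩
    · obtain ⟨y, hy⟩ := eventually_atTop.1 (h.tP.eventually_lt_const (lt_add_of_pos_right 1 hε))
      filter_upwards [eventually_ge_atTop (y + T)] with Λ hΛ σ hσ
      have := hy (σ + Λ) (by linarith [(abs_le.1 hσ).1])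
      rw [abs_of_nonneg (sub_nonneg.2 (h.pg Λ σ)), ePG]
      nlinarith [exp_pos σ]
    · obtain ⟨y, hy⟩ := eventually_atTop.1 (h.tQ.eventually_lt_const (lt_add_of_pos_right 1 hε))
      filter_upwards [eventually_ge_atTop (y + T)] with Λ hΛ σ hσ
      have := hy (σ + Λ) (by linarith [(abs_le.1 hσ).1])
      rw [abs_of_nonneg (sub_nonneg.2 (h.qg Λ σ)), eQG]
      nlinarith [h.q1 σ]
  have ig := integrable_two (a := 1 / 2) (b := 1 / 2) (by norm_num) (by norm_num)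
  have E := ch.persist' (l := atTop) (M' := fun Λ W => exp (-Λ / 4 - 2 * a * Λ) *
      MM c (PG a α P Λ) (QG a β Q Q2 Λ) (fun σ => exp (2 * -a * σ) * RL a R R2 Λ (σ + Λ)) W)
    (S' := fun Λ => Below c (PG a α P Λ) (QG a β Q Q2 Λ) ∩ Ioi w) fun W hW => ⟨?_, ?_⟩
  · filter_upwards [E, eventually_ge_atTop 0, eventually_ge_atTop (W1 + 2 * A - w)]
      with Λ e h0 h1
    exact (h.posL Λ).gauge_chain Λ (-a) _ _ (by linarith [(h.posL Λ).w_le W1 h0])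
      (e.of_mul (exp_pos _))
  · have t1 := (F.tM (A := 3 * A) (Wi := fun _ => W) (Ri := fun _ => R2) tendsto_const_nhds
      (Eventually.of_forall h.bdG) fun σ => tendsto_const_nhds).1
    have t2 : Tendsto (fun Λ => ∫ σ, exp (-Λ / 4 - 2 * a * (σ + Λ)) * R (σ + Λ) *
        KK c (PG a α P Λ) (QG a β Q Q2 Λ) W σ) atTop (𝓝 0) := by
      refine squeeze_zero_norm' (a := fun Λ => exp (c * exp (3 * A - W) + |W| + 5 * A +
        -(1 / 4) * Λ) * ∫ σ : ℝ, if σ ≤ 0 then exp (1 / 2 * σ) else exp (-(1 / 2) * σ)) ?_ ?_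
      · filter_upwards [eventually_ge_atTop 0] with Λ hΛ
        refine (norm_integral_le_of_norm_le ((ig.comp_add_right Λ).const_mul _)
          (Eventually.of_forall (h.hk W hΛ))).trans (le_of_eq ?_)
        rw [integral_const_mul, integral_add_right_eq_self
          (fun σ : ℝ => if σ ≤ 0 then exp (1 / 2 * σ) else exp (-(1 / 2) * σ)) Λ]
      · simpa using (tendsto_exp_atBot.comp (tendsto_atBot_add_const_left _
          (c * exp (3 * A - W) + |W| + 5 * A) (tendsto_id.const_mul_atTop_of_neg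
            (show -(1 / 4 : ℝ) < 0 by norm_num)))).mul_const
          (∫ σ : ℝ, if σ ≤ 0 then exp (1 / 2 * σ) else exp (-(1 / 2) * σ))
    have := t1.add t2
    rw [add_zero] at this
    refine this.congr' ?_
    filter_upwards [eventually_ge_atTop 0] with Λ hΛ
    have cK := (h.bdG Λ).1.cK W
    have cR := h.cR
    rw [← MM_smul, MM, MM, ← integral_add ((h.bdG Λ).1.int0 (h.bdG Λ).2 W)
      (((ig.comp_add_right Λ).const_mul _).mono' (Continuous.aestronglyMeasurable (by fun_prop))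
        (Eventually.of_forall (h.hk W hΛ)))]
    congr 1
    funext σ
    have e1 : exp (-Λ / 4 - 2 * a * Λ) * exp (2 * -a * σ) = exp (-Λ / 4 - 2 * a * (σ + Λ)) := by
      rw [← exp_add]; congr 1; ring
    have e2 : exp (-Λ / 4 - 2 * a * (σ + Λ)) * exp (Λ / 4 + 2 * a * (σ + Λ)) = 1 := by
      rw [← exp_add, ← exp_zero]; congr 1; ring
    rw [← mul_assoc, e1, RL, add_sub_cancel_right]
    linear_combination (-R2 σ * KK c (PG a α P Λ) (QG a β Q Q2 Λ) W σ) * e2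
  · refine (F.below (A := 2 * A + 1) tendsto_const_nhds (sub_one_lt c) ?_ hW.1).and
      (Eventually.of_forall fun _ => hW.2)
    filter_upwards [eventually_ge_atTop 0] with Λ hΛ σ hσ
    refine le_trans (b := exp (2 * A + 1 + c * σ)) ?_ (le_mul le_rfl (h.pg Λ σ) (by linarith))
    rw [eQG]
    exact add_le_exp (mul_le_exp (h.uQ _ (by linarith)) le_rfl (exp_pos _).le le_rfl)
      ((sub_le_self _ zero_le_one).trans (h.q4 σ hσ)) (by nlinarith) (by linarith)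

end Cfg

end Pool.Agent.LC5081
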