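import Pool.Agent.Lib.MP_5081b1_an.Step

/-! Construction of polynomial data whose displacement integral has many sign changes. -/

set_option autoImplicit false

open Set Filter Topology MeasureTheory Real Polynomial

namespace Pool.Agent.LC5081

noncomputable def ev (h : ℝ) (p : ℝ[X]) (σ : ℝ) : ℝ := exp (h * σ) * p.eval (exp σ)

theorem ev_cont (h : ℝ) (p : ℝ[X]) : Continuous (ev h p) := by
  unfold ev
  exact (by fun_prop : Continuous fun σ => exp (h * σ)).mul (p.continuous.comp continuous_exp)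

theorem ev_add (h : ℝ) (p : ℝ[X]) (a : ℝ) (n : ℕ) {e : ℝ} (he : e = h + n) :
    ev h (p + C a * X ^ n) = fun σ => ev h p σ + a * exp (e * σ) := by
  funext σ
  simp only [ev, eval_add, eval_mul, eval_C, eval_pow, eval_X, he, add_mul, exp_add]
  rw [← exp_nat_mul]; ring

theorem ev_mono (h : ℝ) (n : ℕ) {e : ℝ} (he : e = h + n) :
    ev h (X ^ n) = fun σ => exp (e * σ) := by
  funext σ
  simp only [ev, eval_pow, eval_X, he, add_mul, exp_add]
  rw [← exp_nat_mul]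

theorem deg_add {p : ℝ[X]} {n m : ℕ} (h : p.natDegree ≤ n) (a : ℝ) (hm : m ≤ n) :
    (p + C a * X ^ m).natDegree ≤ n :=
  natDegree_add_le_of_degree_le h ((natDegree_C_mul_X_pow_le a m).trans hm)

theorem lo_exp (e : ℝ) : Lo (fun σ => exp (e * σ)) e e :=
  ⟨0, fun σ _ => by simp, fun σ _ => by simp⟩

theorem base_sys {c : ℝ} (hc : 0 < c) (j : ℕ) :
    Sys c (ev 1 (X ^ 0 + C 1 * X ^ j)) (ev 0 (X ^ j)) j (j + 1) j := by
  have hj : (0 : ℝ) ≤ j := Nat.cast_nonneg j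
  rw [ev_add (e := j + 1) _ _ _ _ (by ring), ev_mono (e := 1) _ _ (by simp),
    ev_mono (e := j) _ _ (by simp)]
  exact ⟨⟨hc, by fun_prop, by fun_prop, fun σ => by positivity, fun σ => by positivity⟩,
    (up_exp 1).add_exp 1 le_rfl (by linarith) (by linarith) le_rfl,
    (lo_exp 1).add_hi one_pos _, up_exp _, lo_exp _, by linarith⟩

theorem phaseB {c : ℝ} {P Q : ℝ → ℝ} {k : ℕ} (hk : c + 3 ≤ 4 * k)
    (h : Sys c P Q (4 * k) (4 * k + 1) (4 * k)) (l : ℕ) : ∀ n : ℕ, l + n + 1 = 8 * k → 5 * k ≤ n →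
    ∃ (r : ℝ[X]) (t : ℝ), r.natDegree ≤ 8 * k ∧ Up (ev (1 / 2) r) (n + 1 / 2) (8 * k - 1 / 2) ∧
      Bot (fun σ => t * ev (1 / 2) r σ) (n + 1 / 2) ∧ Chain (MM c P Q (ev (1 / 2) r)) l t := by
  have hc := h.hc
  induction l with
  | zero =>
    intro n hn h5
    have hn' : (n : ℝ) + 1 = 8 * k := by exact_mod_cast (by omega : n + 1 = 8 * k)
    have h5' : 5 * (k : ℝ) ≤ n := by exact_mod_cast h5
    have u : Up (ev (1 / 2) (X ^ n)) (n + 1 / 2) (8 * k - 1 / 2) := by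
      rw [ev_mono (e := n + 1 / 2) _ _ (by ring)]
      exact (up_exp _).mono le_rfl (by linarith)
    have b : Bot (ev (1 / 2) (X ^ n)) (n + 1 / 2) := by
      rw [ev_mono (e := n + 1 / 2) _ _ (by ring)]
      exact ⟨0, 0, le_rfl, fun σ _ => by simp⟩
    obtain ⟨W, -, hW⟩ := h.bot_pos (by linarith) u b (D := 1) one_pos (by linarith) (by linarith)
      (by linarith) (h.int_open (ev_cont _ _) u (by linarith) (by linarith)) 0
    refine ⟨X ^ n, 1, by simp; omega, u, by simpa using b, fun _ => W, fun i hi => by omega,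
      fun i hi => ?_⟩
    obtain rfl : i = 0 := by omega
    simpa using hW
  | succ l ih =>
    intro n hn h5
    obtain ⟨r, t, d, u, -, ch⟩ := ih (n + 1) (by omega) (by omega)
    have hn' : (n : ℝ) + 2 ≤ 8 * k := by exact_mod_cast (by omega : n + 2 ≤ 8 * k)
    have h5' : 5 * (k : ℝ) ≤ n := by exact_mod_cast h5
    push_cast at u
    obtain ⟨a, ch', b⟩ := h.step_bot (by linarith) (ev_cont _ _) u (e := n + 1 / 2) (D := 1)
      (by linarith) (by linarith) (by linarith) (by linarith) one_pos (by linarith) (by linarith)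
      (by linarith) ch
    refine ⟨r + C a * X ^ n, -t, deg_add d a (by omega), ?_⟩
    rw [ev_add (e := n + 1 / 2) _ _ _ _ (by ring)]
    exact ⟨u.add_exp a (by linarith) le_rfl le_rfl (by linarith), b, ch'⟩

/-- The state reached after the rounds up to degree `e`. -/
def St (c : ℝ) (k e : ℕ) : Prop :=
  ∃ (p q r : ℝ[X]) (t : ℝ) (N : ℕ), Sys c (ev 1 p) (ev 0 q) (4 * k) (e + 1) e ∧
    p.natDegree ≤ e ∧ 0 < p.coeff e ∧ q.natDegree ≤ e ∧ r.natDegree ≤ 2 * e ∧
    Up (ev (1 / 2) r) (5 * k + 1 / 2) (2 * e + 1 / 2) ∧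
    Bot (fun σ => t * ev (1 / 2) r σ) (5 * k + 1 / 2) ∧
    Chain (MM c (ev 1 p) (ev 0 q) (ev (1 / 2) r)) N t ∧ N + 13 * k + 1 = 4 * e

theorem st_base {c : ℝ} (hc : 0 < c) {k : ℕ} (hk : c + 3 ≤ 4 * k) : St c k (4 * k) := by
  have hk1 : 1 ≤ k := by
    rcases Nat.eq_zero_or_pos k with rfl | h
    · simp at hk; linarith
    · exact h
  have h := base_sys hc (4 * k)
  push_cast at h
  obtain ⟨r, t, d, u, b, ch⟩ := phaseB hk h (3 * k - 1) (5 * k) (by omega) le_rfl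
  push_cast at u b
  refine ⟨X ^ 0 + C 1 * X ^ (4 * k), X ^ (4 * k), r, t, 3 * k - 1, by push_cast; exact h,
    deg_add (by simp) _ le_rfl, ?_, by simp, by omega, u.mono le_rfl (by push_cast; linarith), b,
    ch, by omega⟩
  have : 4 * k ≠ 0 := by omega
  simp [coeff_one, this]

theorem st_step {c : ℝ} {k e : ℕ} (hk : c + 3 ≤ 4 * k) (he : 4 * k ≤ e) (h : St c k e) :
    St c k (e + 1) := by
  obtain ⟨p, q, r, t, N, h, dp, -, dq, dr, u, b, ch, hN⟩ := h
  have hc := h.hc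
  have he' : 4 * (k : ℝ) ≤ e := by exact_mod_cast he
  have hi : 0 < 5 * (k : ℝ) + 1 / 2 - 1 - 4 * k - c / 4 := by linarith
  obtain ⟨a1, ch1⟩ := h.step_top (ev_cont _ _) u (e := 2 * e + 3 / 2) hi (by linarith)
    (by linarith) (by linarith) (by linarith) ch
  have u1 := u.add_exp (e := 2 * e + 3 / 2) a1 le_rfl (by linarith) (by linarith) le_rfl
  have b1 := b.add (e := 2 * e + 3 / 2) (t * a1) (by linarith)
  rw [← smul_add_exp] at b1
  rw [← ev_add (n := 2 * e + 1) _ _ _ (by push_cast; ring)] at ch1 u1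
  simp only [← congrFun (ev_add (1 / 2) r a1 (2 * e + 1) (e := 2 * e + 3 / 2)
    (by push_cast; ring))] at b1
  set r1 := r + C a1 * X ^ (2 * e + 1)
  obtain ⟨δ1, hδ1, ch2⟩ := (h.perP (ev_cont _ _) u1 hi (by linarith) ch1 (e + 2)).exists
  have h1 := h.addP (e := e + 2) hδ1 (by linarith) (by linarith)
  have ch3 := h1.ext_bot (by linarith) (ev_cont _ _) u1 hi b1 (D := 1 / 2) (by linarith)
    (by linarith) (by linarith) (by linarith) (by linarith) ch2
  obtain ⟨a2, ch4⟩ := h1.step_top (ev_cont _ _) u1 (e := 2 * e + 5 / 2) hi (by linarith)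
    (by linarith) (by linarith) (by linarith) ch3
  have u2 := u1.add_exp (e := 2 * e + 5 / 2) a2 le_rfl (by linarith) (by linarith) le_rfl
  have b2 := b1.add (e := 2 * e + 5 / 2) (t * a2) (by linarith)
  rw [← smul_add_exp] at b2
  rw [← ev_add (1 / 2) r1 a2 (2 * e + 2) (by push_cast; ring)] at ch4 u2
  simp only [← congrFun (ev_add (1 / 2) r1 a2 (2 * e + 2) (e := 2 * e + 5 / 2)
    (by push_cast; ring))] at b2
  set r2 := r1 + C a2 * X ^ (2 * e + 2)
  obtain ⟨δ2, hδ2, ch5⟩ := (h1.perQ (ev_cont _ _) u2 hi (by linarith) ch4 (e + 1)).exists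
  have h2 := h1.addQ (e := e + 1) hδ2 (by linarith) (by linarith) (by linarith)
  have ch6 := h2.ext_bot (by linarith) (ev_cont _ _) u2 hi b2 (D := 1 / 2) (by linarith)
    (by linarith) (by linarith) (by linarith) (by linarith) ch5
  rw [← ev_add 1 p δ1 (e + 1) (by push_cast; ring),
    ← ev_add 0 q δ2 (e + 1) (by push_cast; ring)] at h2 ch6
  refine ⟨p + C δ1 * X ^ (e + 1), q + C δ2 * X ^ (e + 1), r2, t, N + 1 + 1 + 1 + 1, ?_,
    deg_add (by omega) _ le_rfl, ?_, deg_add (by omega) _ le_rfl,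
    deg_add (deg_add (by omega) _ (by omega)) _ (by omega),
    u2.mono le_rfl (by push_cast; linarith), b2, ch6, by omega⟩
  · convert h2 using 1 <;> push_cast <;> ring
  · simp [coeff_eq_zero_of_natDegree_lt (Nat.lt_succ_of_le dp), hδ1]

theorem st_all {c : ℝ} (hc : 0 < c) {k a : ℕ} (hk : c + 3 ≤ 4 * k) (ha : 4 * k ≤ a) :
    St c k a := by
  induction a, ha using Nat.le_induction with
  | base => exact st_base hc hk
  | succ e he ih => exact st_step hk he ih

theorem phaseT {c : ℕ} {P Q : ℝ → ℝ} {a N : ℕ} {i t : ℝ} (h : Sys c P Q 0 (a + 1) a) {r : ℝ[X]}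
    (hi : 0 < i - 1 - 0 - c / 4) (hi' : i ≤ 2 * a) (dr : r.natDegree ≤ 2 * a)
    (u : Up (ev (1 / 2) r) i (2 * a + 1 / 2)) (ch : Chain (MM c P Q (ev (1 / 2) r)) N t) (l : ℕ)
    (hl : l ≤ c + 1) : ∃ (r : ℝ[X]) (t : ℝ), r.natDegree ≤ 2 * a + l ∧
      Up (ev (1 / 2) r) i (2 * a + l + 1 / 2) ∧ Chain (MM c P Q (ev (1 / 2) r)) (N + l) t := by
  induction l with
  | zero => exact ⟨r, t, dr, by simpa using u, ch⟩
  | succ l ih =>
    obtain ⟨r, t, d, u, ch⟩ := ih (by omega)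
    have hl' : (l : ℝ) ≤ c := by exact_mod_cast (by omega : l ≤ c)
    have l0 : (0 : ℝ) ≤ l := Nat.cast_nonneg l
    obtain ⟨b, ch'⟩ := h.step_top (ev_cont _ _) u (e := 2 * a + l + 3 / 2) hi (by linarith)
      (by linarith) (by linarith) (by linarith) ch
    refine ⟨r + C b * X ^ (2 * a + l + 1), -t, deg_add (by omega) b (by omega), ?_⟩
    rw [ev_add (e := 2 * a + l + 3 / 2) _ _ _ _ (by push_cast; ring)]
    exact ⟨u.add_exp b le_rfl (by push_cast; linarith) (by linarith) (by push_cast; linarith), ch'⟩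

theorem phaseL {c : ℕ} {P Q : ℝ → ℝ} {a N : ℕ} {t : ℝ} (h : Sys c P Q 0 (a + 1) a) {r : ℝ[X]}
    (ha : 1 ≤ a) (dr : r.natDegree ≤ 2 * a + c + 1)
    (u : Up (ev (1 / 2) r) (c + 2 + 1 / 2) (2 * a + c + 3 / 2))
    (ch : Chain (MM c P Q (ev (1 / 2) r)) N t) (l : ℕ) :
    ∀ n : ℕ, l + n = c + 2 → ∃ r : ℝ[X], r.natDegree ≤ 2 * a + c + 1 ∧
      Up (ev (1 / 2) r) (n + 1 / 2) (2 * a + c + 3 / 2) ∧
      Chain (MM c P Q (ev (1 / 2) r)) (N + l) t := by
  induction l with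
  | zero =>
    intro n hn
    obtain rfl : n = c + 2 := by omega
    exact ⟨r, dr, by simpa using u, ch⟩
  | succ l ih =>
    intro n hn
    obtain ⟨r, d, u, ch⟩ := ih (n + 1) (by omega)
    have hn' : (n : ℝ) ≤ c + 1 := by exact_mod_cast (by omega : n ≤ c + 1)
    have n0 : (0 : ℝ) ≤ n := Nat.cast_nonneg n
    have a0 : (0 : ℝ) ≤ a := Nat.cast_nonneg a
    push_cast at u
    obtain ⟨b, ch'⟩ := h.step_low (ev_cont _ _) u (e := n + 1 / 2) (by linarith) (by linarith)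
      (by linarith) (by linarith) (by linarith) ch
    refine ⟨r + C b * X ^ n, deg_add d b (by omega), ?_⟩
    rw [ev_add (e := n + 1 / 2) _ _ _ _ (by ring)]
    exact ⟨u.add_exp b (by linarith) le_rfl le_rfl (by linarith), ch'⟩

theorem coprime_ev {f q : ℝ[X]} (hf : f ≠ 0) :
    ∀ᶠ δ in 𝓝[>] (0 : ℝ), IsCoprime f (q + C δ * X ^ 0) := by
  have hfin : {δ : ℝ | ¬ IsCoprime f (q + C δ * X ^ 0)}.Finite := by
    refine ((rootSet_finite f ℂ).image fun z => -(aeval z q).re).subset fun δ hδ => ?_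
    have hδ' : ¬ ∀ z : ℂ, aeval z f ≠ 0 ∨ aeval z (q + C δ * X ^ 0) ≠ 0 := fun h =>
      hδ ((Polynomial.isCoprime_iff_aeval_ne_zero_of_isAlgClosed ℝ ℂ _ _).2 h)
    push Not at hδ'
    obtain ⟨z, h1, h2⟩ := hδ'
    refine ⟨z, mem_rootSet.2 ⟨hf, h1⟩, ?_⟩
    have := congrArg Complex.re h2
    simp at this
    linarith
  have h1 : ∀ᶠ δ in 𝓝[≠] (0 : ℝ), δ ∉ {δ : ℝ | ¬ IsCoprime f (q + C δ * X ^ 0)} :=
    nhdsNE_le_cofinite 0 hfin.compl_mem_cofinite
  exact (h1.filter_mono (nhdsWithin_mono _ fun x hx => ne_of_gt hx)).mono fun δ hδ => by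
    simpa using hδ

theorem bezout {f q r : ℝ[X]} {a b : ℕ} (h : IsCoprime f q) (hf : f.natDegree = a + 1)
    (hq : q.natDegree ≤ b + 1) (hr : r.natDegree ≤ a + b + 1) :
    ∃ A B : ℝ[X], A.natDegree ≤ a ∧ B.natDegree ≤ b ∧ r = f * B + A * q := by
  obtain ⟨u, v, huv⟩ := h
  have f0 : f ≠ 0 := by rintro rfl; simp at hf
  have hA : (r * v % f).natDegree ≤ a := by
    by_cases h0 : r * v % f = 0
    · simp [h0]
    · have := natDegree_lt_natDegree h0 (degree_mod_lt (r * v) f0)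
      omega
  have e : r = f * (r * u + r * v / f * q) + r * v % f * q := by
    have := EuclideanDomain.div_add_mod (r * v) f
    linear_combination -r * huv - q * this
  refine ⟨r * v % f, r * u + r * v / f * q, hA, ?_, e⟩
  set B := r * u + r * v / f * q
  by_cases h0 : B = 0
  · simp [h0]
  · have e2 : f * B = r - r * v % f * q := by linear_combination -e
    have h1 := natDegree_mul f0 h0
    have h2 : (r - r * v % f * q).natDegree ≤ a + b + 1 :=
      natDegree_sub_le_of_le hr (natDegree_mul_le.trans (by omega)) |>.trans (max_self _).le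
    rw [e2] at h1
    omega

/-- Polynomial data with many sign changes of the displacement integral. -/
theorem partA {a c k : ℕ} (hc : 1 ≤ c) (hk : c + 3 ≤ 4 * k) (ha : 4 * k ≤ a) :
    ∃ (p q A B : ℝ[X]) (N : ℕ) (t : ℝ), p.natDegree ≤ a ∧ 0 < p.coeff a ∧ q.natDegree ≤ a + c ∧
      A.natDegree ≤ a ∧ B.natDegree ≤ a + c ∧ Sys c (ev 1 p) (ev 0 q) 0 (a + 1) a ∧
      N + 13 * k = 4 * a + 2 * c + 2 ∧
      Chain (MM c (ev 1 p) (ev 0 q) (ev (1 / 2) (X * p * B + A * q))) N t := by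
  have hc' : (1 : ℝ) ≤ c := by exact_mod_cast hc
  have hk' : (c : ℝ) + 3 ≤ 4 * k := by exact_mod_cast hk
  have ha' : 4 * (k : ℝ) ≤ a := by exact_mod_cast ha
  obtain ⟨p, q, r, t, N, h, dp, cp, dq, dr, u, -, ch, hN⟩ := st_all (c := c) (by linarith) hk' ha
  have p0 : p ≠ 0 := by rintro rfl; simp at cp
  have dp' : p.natDegree = a := le_antisymm dp (le_natDegree_of_ne_zero cp.ne')
  obtain ⟨δ, ⟨hδ, ch1⟩, cop⟩ := ((h.perQ (ev_cont _ _) u (by linarith) (by linarith) ch 0).and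
    (coprime_ev (q := q) (mul_ne_zero X_ne_zero p0))).exists
  have h1 := h.addQ0 hδ (by linarith) (by linarith)
  rw [← ev_add (n := 0) _ _ _ (by simp)] at h1 ch1
  obtain ⟨r1, t1, d1, u1, ch2⟩ := phaseT h1 (by linarith) (by linarith) dr u ch1 (c + 1) le_rfl
  obtain ⟨r2, d2, -, ch3⟩ := phaseL h1 (by omega) d1
    (u1.mono (by linarith) (by push_cast; linarith)) ch2 (c + 2) 0 rfl
  have dq1 : (q + C δ * X ^ 0).natDegree ≤ a := deg_add dq δ (Nat.zero_le _)
  obtain ⟨A, B, dA, dB, e⟩ := bezout (a := a) (b := a + c) (r := r2) cop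
    (by rw [natDegree_X_mul p0, dp']) (by omega) (by omega)
  exact ⟨p, q + C δ * X ^ 0, A, B, _, t1, dp, cp, by omega, dA, dB, h1, by omega, e ▸ ch3⟩

end Pool.Agent.LC5081
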