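import Pool.Agent.Lib.MP_5081b1_an.Cyc

/-! The return map: counting limit cycles from sign changes of the displacement, and isolation
of fixed points for almost every member of a rotated family. -/

set_option autoImplicit false

open Set Filter Topology MeasureTheory Real

namespace Pool.Agent.LC5081

noncomputable def flow (f : ℝ → ℝ → ℝ) (x : ℝ) : ℝ → ℝ :=
  Classical.epsilon fun u => IsSol f u ∧ u 0 = x

structure Nice (f : ℝ → ℝ → ℝ) (L : ℝ) : Prop where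
  lip : Lip f L
  cf : ∀ x, Continuous fun t => f t x
  bf : ∃ B, ∀ t x, |f t x| ≤ B

theorem Nice.spec {f : ℝ → ℝ → ℝ} {L : ℝ} (h : Nice f L) (x : ℝ) :
    IsSol f (flow f x) ∧ flow f x 0 = x := by
  obtain ⟨B, hB⟩ := h.bf
  exact Classical.epsilon_spec (p := fun u => IsSol f u ∧ u 0 = x) (exists_sol h.lip h.cf hB 0 x)

theorem Nice.eq_flow {f : ℝ → ℝ → ℝ} {L : ℝ} (h : Nice f L) {u : ℝ → ℝ} (hu : IsSol f u) :
    u = flow f (u 0) := sol_unique h.lip hu (h.spec _).1 (h.spec _).2.symm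

theorem Nice.ret_lip {f : ℝ → ℝ → ℝ} {L : ℝ} (h : Nice f L) (x y : ℝ) :
    |flow f x (2 * π) - flow f y (2 * π)| ≤ exp (L * (2 * π)) * |x - y| := by
  have := gron_fwd (ε := 0) h.lip (h.spec x).1 (h.spec y).1 two_pi_pos.le (fun t _ x => by simp)
  rwa [(h.spec x).2, (h.spec y).2, gronwallBound_ε0, mul_comm |x - y|] at this

theorem Nice.ret_cont {f : ℝ → ℝ → ℝ} {L : ℝ} (h : Nice f L) :
    Continuous fun x => flow f x (2 * π) :=
  (LipschitzWith.of_dist_le_mul (K := ⟨exp (L * (2 * π)), (exp_pos _).le⟩) h.ret_lip).continuous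

theorem Polar.nice {V : ℝ × ℝ → ℝ × ℝ} {f Ω : ℝ → ℝ → ℝ} {L K : ℝ} (h : Polar V f Ω L K) :
    Nice f L := ⟨h.lip, h.cf, h.bf⟩

theorem Polar.count {V : ℝ × ℝ → ℝ × ℝ} {f Ω : ℝ → ℝ → ℝ} {L K : ℝ} (h : Polar V f Ω L K)
    {N : ℕ} {α : ℕ → ℝ} {t : ℝ} (h1 : ∀ i < N, α i < α (i + 1))
    (h2 : ∀ i ≤ N, ∀ θ ∈ Icc 0 (2 * π), |flow f (α i) θ| ≤ K)
    (h3 : ∀ i ≤ N, 0 < t * (-1) ^ (N + i) * (flow f (α i) (2 * π) - α i))
    (h4 : ∀ x, flow f x (2 * π) = x → ∀ᶠ y in 𝓝[≠] x, flow f y (2 * π) ≠ y) :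
    (N : ℕ∞) ≤ (LC V).encard := by
  have hn := h.nice
  have key : ∀ i : Fin N, ∃ x ∈ Ioo (α i) (α (i + 1)), flow f x (2 * π) = x ∧
      range (fun θ => pol θ (flow f x θ)) ∈ LC V := by
    rintro ⟨i, hi⟩
    have c : Continuous fun x => t * (-1) ^ (N + i) * (flow f x (2 * π) - x) := by
      have := hn.ret_cont; fun_prop
    have a1 := h3 i hi.le
    have a2 := h3 (i + 1) hi
    rw [← add_assoc, pow_succ] at a2
    obtain ⟨x, hx, e⟩ := intermediate_value_Ioo' (h1 i hi).le c.continuousOn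
      (⟨by linarith, a1⟩ : (0 : ℝ) ∈ Ioo _ _)
    have t0 : t * (-1) ^ (N + i) ≠ 0 := left_ne_zero_of_mul a1.ne'
    have e' : flow f x (2 * π) = x := sub_eq_zero.1 ((mul_eq_zero.1 e).resolve_left t0)
    have := (eventually_nhdsWithin_iff.1 (h4 x e')).and (Ioo_mem_nhds hx.1 hx.2)
    obtain ⟨a, b, hab, hs⟩ := mem_nhds_iff_exists_Ioo_subset.1 this
    obtain ⟨a', ha1, ha2⟩ := exists_between hab.1
    obtain ⟨b', hb1, hb2⟩ := exists_between hab.2
    have ma := (hs ⟨ha1, ha2.trans hab.2⟩).2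
    have mb := (hs ⟨hab.1.trans hb1, hb2⟩).2
    refine ⟨x, hx, e', h.isLC (hn.spec x).1 (hn.spec a').1 (hn.spec b').1 (by rw [(hn.spec x).2, e'])
      (by rwa [(hn.spec x).2, (hn.spec a').2]) (by rwa [(hn.spec x).2, (hn.spec b').2])
      (fun θ hθ => (abs_le.1 (h2 i hi.le θ hθ)).1.trans (sol_le h.lip (hn.spec _).1 (hn.spec _).1
        (t0 := 0) (by rw [(hn.spec _).2, (hn.spec _).2]; exact ma.1.le) θ))
      (fun θ hθ => (sol_le h.lip (hn.spec _).1 (hn.spec _).1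
        (t0 := 0) (by rw [(hn.spec _).2, (hn.spec _).2]; exact mb.2.le) θ).trans
        (abs_le.1 (h2 (i + 1) hi θ hθ)).2) fun u hu q1 q2 q3 => ?_⟩
    rw [(hn.spec _).2] at q1 q2 ⊢
    by_contra hne
    refine (hs ⟨ha1.trans q1, q2.trans hb2⟩).1 hne ?_
    rw [← hn.eq_flow hu, q3]
  choose x hx hF hC using key
  have mono : ∀ i j, i ≤ j → j ≤ N → α i ≤ α j := by
    intro i j hij hj
    induction j, hij using Nat.le_induction with
    | base => exact le_rfl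
    | succ j _ ih => exact (ih (by omega)).trans (h1 j hj).le
  have xm : StrictMono x := fun i j hij =>
    (hx i).2.trans ((mono _ _ hij j.2.le).trans_lt (hx j).1)
  have inj : Function.Injective fun i => range fun θ => pol θ (flow f (x i) θ) := by
    intro i j hij
    apply xm.injective
    have : pol 0 (flow f (x i) 0) ∈ range fun θ => pol θ (flow f (x j) θ) := by
      simp only at hij
      rw [← hij]; exact ⟨0, rfl⟩
    obtain ⟨θ, hθ⟩ := this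
    obtain ⟨e1, k, hk⟩ := pol_inj hθ
    have := (h.periodic (hn.spec (x j)).1 (by rw [(hn.spec _).2, hF])).int_mul k 0
    rw [← hk, e1, (hn.spec _).2, (hn.spec _).2] at this
    exact this
  calc (N : ℕ∞) = (univ : Set (Fin N)).encard := by simp
    _ = _ := (inj.injOn.encard_image).symm
    _ ≤ _ := encard_le_encard (by rintro _ ⟨i, -, rfl⟩; exact hC i)

theorem rot_gain {f g : ℝ → ℝ → ℝ} {L β : ℝ} (hf : Nice f L) (hg : Nice g L) (hβ : 0 < β)
    (h : ∀ t x, f t x + β ≤ g t x) (x : ℝ) :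
    flow f x (2 * π) + β * (π * exp (-L * (2 * π))) ≤ flow g x (2 * π) := by
  have := sub_le (hg.spec x).1 (l := fun θ => flow f x θ + β / 2 * (θ * exp (-L * θ)))
    (l' := fun θ => f θ (flow f x θ) + β / 2 * (1 * exp (-L * θ) + θ * (exp (-L * θ) * -L)))
    (fun θ => ((hf.spec x).1 θ).fun_add (HasDerivAt.const_mul _ ((hasDerivAt_id θ).fun_mul (by
      simpa using ((hasDerivAt_id θ).const_mul (-L)).exp)))) (T := 2 * π)
    (by simp [(hf.spec x).2, (hg.spec x).2]) (fun θ hθ => by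
      have h1 := h θ (flow f x θ + β / 2 * (θ * exp (-L * θ)))
      have h2 := hf.lip.2 θ (flow f x θ + β / 2 * (θ * exp (-L * θ))) (flow f x θ)
      have h0 := hθ.1
      rw [add_sub_cancel_left, abs_of_nonneg (a := β / 2 * _) (by positivity)] at h2
      have h3 := (abs_le.1 h2).1
      have h4 : exp (-L * θ) ≤ 1 := exp_le_one_iff.2 (by nlinarith [hf.lip.1])
      nlinarith) (2 * π) ⟨two_pi_pos.le, le_rfl⟩
  linarith

theorem lip_fibre {Λ : ℝ → ℝ} {C : NNReal} (h : LipschitzWith C Λ) {m : ℝ} (hm : 0 < m) :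
    ∃ μ ∈ Icc 0 m, ∀ x, Λ x = μ → ∀ᶠ y in 𝓝[≠] x, Λ y ≠ μ := by
  have n1 : volume (Λ '' {x | ¬ DifferentiableAt ℝ Λ x}) = 0 := by
    have := h.hausdorffMeasure_image_le zero_le_one {x | ¬ DifferentiableAt ℝ Λ x}
    rw [hausdorffMeasure_real, ae_iff.1 h.ae_differentiableAt_real, mul_zero] at this
    exact nonpos_iff_eq_zero.1 this
  have n2 : volume (Λ '' {x | HasDerivAt Λ 0 x}) = 0 :=
    addHaar_image_eq_zero_of_det_fderivWithin_eq_zero volume (f' := fun _ => 0)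
      (fun x hx => by simpa using (hasDerivAt_iff_hasFDerivAt.1 hx).hasFDerivWithinAt)
      (fun x _ => by simp [ContinuousLinearMap.det])
  have : ¬ Icc 0 m ⊆ Λ '' {x | ¬ DifferentiableAt ℝ Λ x} ∪ Λ '' {x | HasDerivAt Λ 0 x} := by
    intro hs
    have := measure_mono_null hs (measure_union_null n1 n2)
    simp at this
    linarith
  obtain ⟨μ, h1, h2⟩ := not_subset.1 this
  refine ⟨μ, h1, fun x hx => ?_⟩
  have d : DifferentiableAt ℝ Λ x := by
    by_contra hd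
    exact h2 (Or.inl ⟨x, hd, hx⟩)
  refine d.hasDerivAt.eventually_ne fun h0 => h2 (Or.inr ⟨x, ?_, hx⟩)
  have := d.hasDerivAt
  rwa [h0] at this

theorem isolate {f : ℝ → ℝ → ℝ → ℝ} {L β m : ℝ} (hm : 0 < m) (hβ : 0 < β)
    (hf : ∀ μ ∈ Icc 0 m, Nice (f μ) L)
    (h : ∀ μ ∈ Icc 0 m, ∀ μ' ∈ Icc 0 m, μ < μ' → ∀ t x, f μ t x + β * (μ' - μ) ≤ f μ' t x) :
    ∃ μ ∈ Icc 0 m, ∀ x, flow (f μ) x (2 * π) = x →
      ∀ᶠ y in 𝓝[≠] x, flow (f μ) y (2 * π) ≠ y := by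
  set κ := β * (π * exp (-L * (2 * π)))
  have κ0 : 0 < κ := by have := pi_pos; positivity
  set C := (1 + exp (L * (2 * π))) / κ
  have C0 : 0 ≤ C := by positivity
  have k1 : ∀ μ ∈ Icc 0 m, ∀ μ' ∈ Icc 0 m, μ ≤ μ' → ∀ x x', flow (f μ) x (2 * π) = x →
      flow (f μ') x' (2 * π) = x' → μ' - μ ≤ C * |x - x'| := by
    intro μ h1 μ' h2 hle x x' e e'
    rcases hle.lt_or_eq with hlt | rfl
    · have a := rot_gain (hf μ h1) (hf μ' h2) (β := β * (μ' - μ)) (mul_pos hβ (sub_pos.2 hlt))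
        (h μ h1 μ' h2 hlt) x'
      have b := (abs_le.1 ((hf μ h1).ret_lip x x')).2
      have c := neg_abs_le (x - x')
      rw [e'] at a
      rw [e] at b
      rw [div_mul_eq_mul_div, le_div_iff₀ κ0]
      simp only [κ]
      nlinarith
    · rw [sub_self]; positivity
  have k2 : ∀ μ ∈ Icc 0 m, ∀ μ' ∈ Icc 0 m, ∀ x x', flow (f μ) x (2 * π) = x →
      flow (f μ') x' (2 * π) = x' → |μ - μ'| ≤ C * |x - x'| := by
    intro μ h1 μ' h2 x x' e e'
    rcases le_total μ μ' with hle | hle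
    · rw [abs_sub_comm, abs_of_nonneg (sub_nonneg.2 hle)]
      exact k1 μ h1 μ' h2 hle x x' e e'
    · rw [abs_of_nonneg (sub_nonneg.2 hle), abs_sub_comm]
      exact k1 μ' h2 μ h1 hle x' x e' e
  have ex : ∀ x, ∃ μ, (∃ μ ∈ Icc 0 m, flow (f μ) x (2 * π) = x) →
      μ ∈ Icc 0 m ∧ flow (f μ) x (2 * π) = x := fun x => by
    by_cases hx : ∃ μ ∈ Icc 0 m, flow (f μ) x (2 * π) = x
    · obtain ⟨μ, hμ⟩ := hx
      exact ⟨μ, fun _ => hμ⟩
    · exact ⟨0, fun h => absurd h hx⟩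
  choose Λ0 hΛ using ex
  have l0 : LipschitzOnWith ⟨C, C0⟩ Λ0 {x | ∃ μ ∈ Icc 0 m, flow (f μ) x (2 * π) = x} :=
    LipschitzOnWith.of_dist_le_mul fun x hx y hy =>
      k2 _ (hΛ x hx).1 _ (hΛ y hy).1 x y (hΛ x hx).2 (hΛ y hy).2
  obtain ⟨Λ, l1, l2⟩ := l0.extend_real
  obtain ⟨μ, h1, h2⟩ := lip_fibre l1 hm
  have val : ∀ x, flow (f μ) x (2 * π) = x → Λ x = μ := fun x e => by
    have hx : ∃ μ ∈ Icc 0 m, flow (f μ) x (2 * π) = x := ⟨μ, h1, e⟩
    have := k2 _ (hΛ x hx).1 μ h1 x x (hΛ x hx).2 e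
    rw [sub_self, abs_zero, mul_zero] at this
    rw [← l2 hx]
    exact sub_eq_zero.1 (abs_nonpos_iff.1 this)
  exact ⟨μ, h1, fun x e => (h2 x (val x e)).mono fun y hy e' => hy (val y e')⟩

end Pool.Agent.LC5081
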