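import Pool.Agent.Lib.MP_5081b1_an.ODE

/-! The logarithmic form of the unperturbed equation and the kernel of the first-order
displacement integral: definitions and pointwise bounds. -/

set_option autoImplicit false

open Set Filter Topology MeasureTheory Real

namespace Pool.Agent.LC5081

noncomputable def fw (c : ℝ) (P Q : ℝ → ℝ) (σ w : ℝ) : ℝ := -(c * P σ / (P σ + exp w * Q σ))

structure Pos (c : ℝ) (P Q : ℝ → ℝ) : Prop where
  hc : 0 < c
  cP : Continuous P
  cQ : Continuous Q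
  pP : ∀ σ, 0 < P σ
  pQ : ∀ σ, 0 < Q σ

noncomputable def sol (c : ℝ) (P Q : ℝ → ℝ) (W : ℝ) : ℝ → ℝ :=
  Classical.epsilon fun u => IsSol (fw c P Q) u ∧ u 0 = W

noncomputable def EE (c : ℝ) (P Q : ℝ → ℝ) (W σ : ℝ) : ℝ :=
  exp (sol c P Q W σ) * P σ * Q σ / (P σ + exp (sol c P Q W σ) * Q σ) ^ 2

noncomputable def LV (c : ℝ) (P Q : ℝ → ℝ) (W σ : ℝ) : ℝ := -(c * ∫ t in (0:ℝ)..σ, EE c P Q W t)

noncomputable def KK (c : ℝ) (P Q : ℝ → ℝ) (W σ : ℝ) : ℝ :=
  exp (sol c P Q W σ) * exp (LV c P Q W σ) / (P σ + exp (sol c P Q W σ) * Q σ) ^ 2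

noncomputable def MM (c : ℝ) (P Q R : ℝ → ℝ) (W : ℝ) : ℝ := ∫ σ, R σ * KK c P Q W σ

namespace Pos

variable {c : ℝ} {P Q : ℝ → ℝ}

theorem den (h : Pos c P Q) (σ w : ℝ) : 0 < P σ + exp w * Q σ := by
  have := h.pP σ; have := h.pQ σ; positivity

theorem lip (h : Pos c P Q) : Lip (fw c P Q) c := by
  refine ⟨h.hc.le, ?_⟩
  have key : ∀ t x y, y ≤ x → |fw c P Q t x - fw c P Q t y| ≤ c * |x - y| := by
    intro t x y hxy
    have hP := h.pP t; have hQ := h.pQ t; have hc := h.hc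
    have d1 := h.den t x; have d2 := h.den t y
    have e : fw c P Q t x - fw c P Q t y =
        c * (P t * ((exp x - exp y) * Q t) / ((P t + exp y * Q t) * (P t + exp x * Q t))) := by
      unfold fw; field_simp; ring
    have h1 : exp y ≤ exp x := exp_le_exp.2 hxy
    have h2 : exp x - exp y ≤ exp x * (x - y) := by
      have := add_one_le_exp (y - x)
      have e2 : exp y = exp x * exp (y - x) := by rw [← exp_add]; congr 1; ring
      have := exp_pos x
      nlinarith
    rw [e, abs_of_nonneg (a := x - y) (by linarith), abs_of_nonneg (by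
      have : 0 ≤ exp x - exp y := by linarith
      positivity)]
    refine mul_le_mul_of_nonneg_left ?_ hc.le
    rw [div_le_iff₀ (by positivity)]
    have h3 : P t * ((exp x - exp y) * Q t) ≤ P t * (exp x * (x - y) * Q t) := by gcongr
    have h4 : P t * (exp x * Q t) ≤ (P t + exp y * Q t) * (P t + exp x * Q t) := by
      have := exp_pos y; have := exp_pos x
      gcongr <;> nlinarith
    have h5 : 0 ≤ x - y := by linarith
    nlinarith
  intro t x y
  rcases le_total y x with hxy | hxy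
  · exact key t x y hxy
  · rw [abs_sub_comm, abs_sub_comm x y]; exact key t y x hxy

theorem fw_le (h : Pos c P Q) (σ w : ℝ) : fw c P Q σ w ≤ 0 := by
  have := h.pP σ; have := h.den σ w; have := h.hc
  unfold fw; rw [neg_nonpos]; positivity

theorem fw_add (h : Pos c P Q) (σ w : ℝ) :
    fw c P Q σ w + c = c * (exp w * Q σ / (P σ + exp w * Q σ)) := by
  have := h.den σ w
  unfold fw; field_simp; ring

theorem fw_ge (h : Pos c P Q) (σ w : ℝ) : 0 ≤ fw c P Q σ w + c := by
  have := h.pQ σ; have := h.den σ w; have := h.hc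
  rw [h.fw_add]; positivity

theorem spec (h : Pos c P Q) (W : ℝ) : IsSol (fw c P Q) (sol c P Q W) ∧ sol c P Q W 0 = W := by
  refine Classical.epsilon_spec (p := fun u => IsSol (fw c P Q) u ∧ u 0 = W)
    (exists_sol (B := c) h.lip (fun x => ?_) (fun t x => ?_) 0 W)
  · have := h.cP; have := h.cQ
    unfold fw
    exact ((continuous_const.mul h.cP).div (by fun_prop) fun t => (h.den t x).ne').neg
  · have := h.fw_le t x; have := h.fw_ge t x
    rw [abs_le]; constructor <;> linarith [h.hc]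

theorem cw (h : Pos c P Q) (W : ℝ) : Continuous (sol c P Q W) := (h.spec W).1.cont

theorem cE (h : Pos c P Q) (W : ℝ) : Continuous (EE c P Q W) := by
  have := h.cP; have := h.cQ; have := h.cw W
  unfold EE
  exact Continuous.div (by fun_prop) (by fun_prop) fun t => (pow_pos (h.den t _) 2).ne'

theorem dL (h : Pos c P Q) (W σ : ℝ) : HasDerivAt (LV c P Q W) (-(c * EE c P Q W σ)) σ :=
  ((((h.cE W).integral_hasStrictDerivAt 0 σ).hasDerivAt).const_mul c).neg

theorem L0 (W : ℝ) : LV c P Q W 0 = 0 := by simp [LV]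

theorem cL (h : Pos c P Q) (W : ℝ) : Continuous (LV c P Q W) :=
  continuous_iff_continuousAt.2 fun σ => (h.dL W σ).continuousAt

theorem cK (h : Pos c P Q) (W : ℝ) : Continuous (KK c P Q W) := by
  have := h.cP; have := h.cQ; have := h.cw W; have := h.cL W
  unfold KK
  exact Continuous.div (by fun_prop) (by fun_prop) fun t => (pow_pos (h.den t _) 2).ne'

theorem K_pos (h : Pos c P Q) (W σ : ℝ) : 0 < KK c P Q W σ := by
  have := h.den σ (sol c P Q W σ)
  unfold KK; positivity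

theorem E_nonneg (h : Pos c P Q) (W σ : ℝ) : 0 ≤ EE c P Q W σ := by
  have := h.pP σ; have := h.pQ σ
  unfold EE; positivity

theorem E_le (h : Pos c P Q) (W σ : ℝ) : EE c P Q W σ ≤ 1 / 4 := by
  have := h.den σ (sol c P Q W σ)
  unfold EE
  rw [div_le_iff₀ (by positivity)]
  nlinarith [sq_nonneg (P σ - exp (sol c P Q W σ) * Q σ)]

theorem E_le' (h : Pos c P Q) (W σ : ℝ) {a b u : ℝ} (ha : P σ ≤ exp a) (hb : exp b ≤ Q σ)
    (hu : u ≤ sol c P Q W σ) : EE c P Q W σ ≤ exp (a - b - u) := by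
  have hd := h.den σ (sol c P Q W σ)
  have hP := h.pP σ; have hQ := h.pQ σ
  unfold EE
  set y := exp (sol c P Q W σ)
  have hy : exp u ≤ y := exp_le_exp.2 hu
  have hy0 : 0 < y := exp_pos _
  rw [div_le_iff₀ (by positivity)]
  have e : exp a = exp (a - b - u) * (exp u * exp b) := by
    rw [← exp_add, ← exp_add]; congr 1; ring
  have h1 : P σ ≤ exp (a - b - u) * (y * Q σ) := by
    refine ha.trans ?_
    rw [e]; gcongr
  have h2 : (y * Q σ) * (y * Q σ) ≤ (P σ + y * Q σ) ^ 2 := by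
    have : 0 < y * Q σ := by positivity
    nlinarith
  calc y * P σ * Q σ = P σ * (y * Q σ) := by ring
    _ ≤ exp (a - b - u) * (y * Q σ) * (y * Q σ) := by gcongr
    _ = exp (a - b - u) * ((y * Q σ) * (y * Q σ)) := by ring
    _ ≤ _ := by gcongr

theorem w_ge (h : Pos c P Q) (W : ℝ) {σ : ℝ} (hσ : σ ≤ 0) : W ≤ sol c P Q W σ := by
  have := mono_of_deriv (g := fun t => -sol c P Q W t) (fun t => ((h.spec W).1 t).neg) hσ
    (fun t _ => by linarith [h.fw_le t (sol c P Q W t)])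
  rw [(h.spec W).2] at this
  linarith

theorem w_le (h : Pos c P Q) (W : ℝ) {σ : ℝ} (hσ : 0 ≤ σ) : sol c P Q W σ ≤ W := by
  have := mono_of_deriv (g := fun t => -sol c P Q W t) (fun t => ((h.spec W).1 t).neg) hσ
    (fun t _ => by linarith [h.fw_le t (sol c P Q W t)])
  rw [(h.spec W).2] at this
  linarith

theorem dv (h : Pos c P Q) (W σ : ℝ) : HasDerivAt (fun t => sol c P Q W t + c * t)
    (fw c P Q σ (sol c P Q W σ) + c) σ := by
  simpa using ((h.spec W).1 σ).fun_add ((hasDerivAt_id σ).const_mul c)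

theorem v_le (h : Pos c P Q) (W : ℝ) {σ : ℝ} (hσ : σ ≤ 0) : sol c P Q W σ ≤ W - c * σ := by
  have := mono_of_deriv (h.dv W) hσ (fun t _ => h.fw_ge t _)
  rw [(h.spec W).2] at this
  linarith

theorem v_ge (h : Pos c P Q) (W : ℝ) {σ : ℝ} (hσ : 0 ≤ σ) : W - c * σ ≤ sol c P Q W σ := by
  have := mono_of_deriv (h.dv W) hσ (fun t _ => h.fw_ge t _)
  rw [(h.spec W).2] at this
  linarith

theorem L_le (h : Pos c P Q) (W : ℝ) {σ : ℝ} (hσ : 0 ≤ σ) : LV c P Q W σ ≤ 0 := by
  have := mono_of_deriv (g := fun t => -LV c P Q W t) (fun t => (h.dL W t).neg) hσ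
    (fun t _ => by have := h.E_nonneg W t; have := h.hc; rw [neg_neg]; positivity)
  rw [L0] at this
  linarith

theorem L_ge (h : Pos c P Q) (W : ℝ) {σ : ℝ} (hσ : σ ≤ 0) : 0 ≤ LV c P Q W σ := by
  have := mono_of_deriv (g := fun t => -LV c P Q W t) (fun t => (h.dL W t).neg) hσ
    (fun t _ => by have := h.E_nonneg W t; have := h.hc; rw [neg_neg]; positivity)
  rw [L0] at this
  linarith

theorem L_le' (h : Pos c P Q) (W : ℝ) {σ : ℝ} (hσ : σ ≤ 0) : LV c P Q W σ ≤ -(c / 4 * σ) := by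
  have := mono_of_deriv (g := fun t => LV c P Q W t + c / 4 * t)
    (g' := fun t => -(c * EE c P Q W t) + c / 4)
    (fun t => by simpa using (h.dL W t).fun_add ((hasDerivAt_id t).const_mul (c / 4))) hσ
    (fun t _ => by have := h.E_le W t; have := h.hc; nlinarith)
  rw [L0] at this
  linarith

theorem dy (h : Pos c P Q) (W σ : ℝ) : HasDerivAt (fun t => exp (sol c P Q W t))
    (exp (sol c P Q W σ) * fw c P Q σ (sol c P Q W σ)) σ := ((h.spec W).1 σ).exp

theorem dy_ge (h : Pos c P Q) (σ w : ℝ) {a b : ℝ} (ha : P σ ≤ exp a) (hb : exp b ≤ Q σ) :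
    -(c * exp (a - b)) ≤ exp w * fw c P Q σ w := by
  have hd := h.den σ w
  have hP := h.pP σ; have hQ := h.pQ σ; have hc := h.hc
  have hy : 0 < exp w := exp_pos w
  have e : exp w * fw c P Q σ w = -(c * (exp w * P σ / (P σ + exp w * Q σ))) := by
    unfold fw; ring
  rw [e, neg_le_neg_iff]
  refine mul_le_mul_of_nonneg_left ?_ hc.le
  rw [div_le_iff₀ hd]
  have e2 : exp a = exp (a - b) * exp b := by rw [← exp_add]; congr 1; ring
  have h1 : P σ ≤ exp (a - b) * Q σ := by
    refine ha.trans ?_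
    rw [e2]; gcongr
  have h2 : 0 < exp (a - b) * P σ := by positivity
  nlinarith

theorem dv_le (h : Pos c P Q) (σ w : ℝ) {a b u : ℝ} (ha : exp a ≤ P σ) (hb : Q σ ≤ exp b)
    (hu : w ≤ u) : fw c P Q σ w + c ≤ c * exp (u + b - a) := by
  have hd := h.den σ w
  have hP := h.pP σ; have hQ := h.pQ σ; have hc := h.hc
  rw [h.fw_add]
  refine mul_le_mul_of_nonneg_left ?_ hc.le
  rw [div_le_iff₀ hd]
  have e2 : exp u * exp b = exp (u + b - a) * exp a := by
    rw [← exp_add, ← exp_add]; congr 1; ring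
  have hy : exp w ≤ exp u := exp_le_exp.2 hu
  have h1 : exp w * Q σ ≤ exp (u + b - a) * P σ := by
    calc exp w * Q σ ≤ exp u * exp b := by gcongr
      _ = _ := e2
      _ ≤ _ := by gcongr
  have h2 : 0 < exp (u + b - a) * (exp w * Q σ) := by positivity
  nlinarith

theorem K_le_am (h : Pos c P Q) (W σ : ℝ) {a b v : ℝ} (ha : exp a ≤ P σ) (hb : exp b ≤ Q σ)
    (hv : LV c P Q W σ ≤ v) : KK c P Q W σ ≤ exp (v - a - b) := by
  have hd := h.den σ (sol c P Q W σ)
  have hP := h.pP σ; have hQ := h.pQ σ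
  unfold KK
  set y := exp (sol c P Q W σ)
  have hy0 : 0 < y := exp_pos _
  rw [div_le_iff₀ (by positivity)]
  have e : exp v = exp (v - a - b) * (exp a * exp b) := by
    rw [← exp_add, ← exp_add]; congr 1; ring
  have h2 : y * (P σ * Q σ) ≤ (P σ + y * Q σ) ^ 2 := by
    have : 0 < y * Q σ := by positivity
    nlinarith
  calc y * exp (LV c P Q W σ) ≤ y * exp v := by gcongr
    _ = exp (v - a - b) * (y * (exp a * exp b)) := by rw [e]; ring
    _ ≤ exp (v - a - b) * (y * (P σ * Q σ)) := by gcongr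
    _ ≤ _ := by gcongr

theorem K_le_Q (h : Pos c P Q) (W σ : ℝ) {u b v : ℝ} (hu : u ≤ sol c P Q W σ) (hb : exp b ≤ Q σ)
    (hv : LV c P Q W σ ≤ v) : KK c P Q W σ ≤ exp (v - u - 2 * b) := by
  have hd := h.den σ (sol c P Q W σ)
  have hP := h.pP σ; have hQ := h.pQ σ
  unfold KK
  set y := exp (sol c P Q W σ)
  have hy0 : 0 < y := exp_pos _
  have hy : exp u ≤ y := exp_le_exp.2 hu
  rw [div_le_iff₀ (by positivity)]
  have e : exp v = exp (v - u - 2 * b) * (exp u * exp b * exp b) := by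
    rw [← exp_add, ← exp_add, ← exp_add]; congr 1; ring
  have h2 : y * (y * Q σ * Q σ) ≤ (P σ + y * Q σ) ^ 2 := by
    have : 0 < y * Q σ := by positivity
    nlinarith
  calc y * exp (LV c P Q W σ) ≤ y * exp v := by gcongr
    _ = exp (v - u - 2 * b) * (y * (exp u * exp b * exp b)) := by rw [e]; ring
    _ ≤ exp (v - u - 2 * b) * (y * (y * Q σ * Q σ)) := by gcongr
    _ ≤ _ := by gcongr

theorem K_le_P (h : Pos c P Q) (W σ : ℝ) {u a v : ℝ} (hu : sol c P Q W σ ≤ u) (ha : exp a ≤ P σ)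
    (hv : LV c P Q W σ ≤ v) : KK c P Q W σ ≤ exp (u + v - 2 * a) := by
  have hd := h.den σ (sol c P Q W σ)
  have hP := h.pP σ; have hQ := h.pQ σ
  unfold KK
  set y := exp (sol c P Q W σ)
  have hy0 : 0 < y := exp_pos _
  have hy : y ≤ exp u := exp_le_exp.2 hu
  rw [div_le_iff₀ (by positivity)]
  have e : exp u * exp v = exp (u + v - 2 * a) * (exp a * exp a) := by
    rw [← exp_add, ← exp_add, ← exp_add]; congr 1; ring
  have h2 : P σ * P σ ≤ (P σ + y * Q σ) ^ 2 := by
    have : 0 < y * Q σ := by positivity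
    nlinarith
  calc y * exp (LV c P Q W σ) ≤ exp u * exp v := by gcongr
    _ = _ := e
    _ ≤ exp (u + v - 2 * a) * (P σ * P σ) := by gcongr
    _ ≤ _ := by gcongr

theorem K_ge (h : Pos c P Q) (W σ : ℝ) {u u' a b v : ℝ} (hu : u ≤ sol c P Q W σ)
    (hu' : sol c P Q W σ ≤ u') (ha : P σ ≤ exp a) (hb : Q σ ≤ exp b) (hab : u' + b ≤ a)
    (hv : v ≤ LV c P Q W σ) : exp (u + v - 2 * a - 2) ≤ KK c P Q W σ := by
  have hd := h.den σ (sol c P Q W σ)
  have hP := h.pP σ; have hQ := h.pQ σ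
  unfold KK
  set y := exp (sol c P Q W σ)
  have hy0 : 0 < y := exp_pos _
  have hy : exp u ≤ y := exp_le_exp.2 hu
  have hy' : y ≤ exp u' := exp_le_exp.2 hu'
  rw [le_div_iff₀ (by positivity)]
  have h1 : y * Q σ ≤ exp a := by
    calc y * Q σ ≤ exp u' * exp b := by gcongr
      _ = exp (u' + b) := (exp_add _ _).symm
      _ ≤ _ := exp_le_exp.2 hab
  have h2 : P σ + y * Q σ ≤ exp (a + 1) := by
    have := add_one_le_exp (1 : ℝ)
    rw [exp_add]
    nlinarith [exp_pos a]
  have e : exp (u + v - 2 * a - 2) * exp (a + 1) ^ 2 = exp u * exp v := by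
    rw [sq, ← exp_add, ← exp_add, ← exp_add]; congr 1; ring
  calc exp (u + v - 2 * a - 2) * (P σ + y * Q σ) ^ 2
      ≤ exp (u + v - 2 * a - 2) * exp (a + 1) ^ 2 := by gcongr
    _ = _ := e
    _ ≤ _ := by gcongr

end Pos

end Pool.Agent.LC5081
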