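import Pool.Agent.Lib.MP_5081b1_an.Fam

/-! The sign of a doubly tuned displacement integral near the separatrix. -/

set_option autoImplicit false

open Set Filter Topology MeasureTheory Real

namespace Pool.Agent.LC5081

noncomputable def Dl (c : ℝ) (P Q : ℝ → ℝ) (V W σ : ℝ) : ℝ :=
  KK c P Q W σ - KK c P Q V σ + xx c P Q V W 0 * (nn c P Q V σ * KK c P Q V σ)

noncomputable def Ph (c : ℝ) (P Q : ℝ → ℝ) (V W σ : ℝ) : ℝ :=
  exp (LV c P Q W σ) - exp (LV c P Q V σ) + xx c P Q V W 0 * (Yi c P Q V σ * exp (LV c P Q V σ))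

def Tun (c : ℝ) (P Q R : ℝ → ℝ) (V : ℝ) : Prop := MM c P Q R V = 0 ∧ N1 c P Q R V = 0

theorem Pos.dPh {c : ℝ} {P Q : ℝ → ℝ} (h : Pos c P Q) (V W σ : ℝ) :
    HasDerivAt (Ph c P Q V W) (-(c * (P σ * Q σ * Dl c P Q V W σ))) σ := by
  refine (((h.dL W σ).exp.fun_sub (h.dL V σ).exp).fun_add
    (((h.dYi V σ).fun_mul (h.dL V σ).exp).const_mul _)).congr_deriv ?_
  have a := h.K_mul W σ; have b := h.K_mul V σ
  unfold Dl nn
  linear_combination c * a - c * b + c * xx c P Q V W 0 *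
    ((2 * th c P Q V σ - 1) * exp (-LV c P Q V σ) + Yi c P Q V σ) * b

theorem Pos.cDl {c : ℝ} {P Q : ℝ → ℝ} (h : Pos c P Q) (V W : ℝ) : Continuous (Dl c P Q V W) := by
  have := h.cK V; have := h.cK W; have := h.cnn V
  unfold Dl; fun_prop

theorem Bd.intD {c A A' : ℝ} {P Q R : ℝ → ℝ} (h : Bd c A P Q) (hR : RB A' P Q R) (V W : ℝ) :
    Integrable fun σ => R σ * Dl c P Q V W σ :=
  (((h.int0 hR W).sub (h.int0 hR V)).add ((h.int1 hR V).const_mul (xx c P Q V W 0))).congr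
    (Eventually.of_forall fun σ => by simp only [Dl, Pi.add_apply, Pi.sub_apply]; ring)

theorem Bd.M_eq {c A A' : ℝ} {P Q R : ℝ → ℝ} (h : Bd c A P Q) (hR : RB A' P Q R) {V : ℝ}
    (ht : Tun c P Q R V) (W : ℝ) : MM c P Q R W = ∫ σ, R σ * Dl c P Q V W σ := by
  have e : (fun σ => R σ * Dl c P Q V W σ) = fun σ => (R σ * KK c P Q W σ - R σ * KK c P Q V σ) +
      xx c P Q V W 0 * (R σ * (nn c P Q V σ * KK c P Q V σ)) := by
    funext σ; simp only [Dl]; ring
  have i0 : Integrable fun σ => R σ * KK c P Q W σ - R σ * KK c P Q V σ :=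
    (h.int0 hR W).sub (h.int0 hR V)
  rw [e, integral_add i0 ((h.int1 hR V).const_mul _), integral_sub (h.int0 hR W) (h.int0 hR V),
    integral_const_mul]
  have a := ht.1; have b := ht.2
  unfold MM at a; unfold N1 at b
  rw [a, b]; simp [MM]

theorem Pos.exists_exit {c : ℝ} {P Q : ℝ → ℝ} (h : Pos c P Q) {V W : ℝ}
    (hL : Tendsto (LV c P Q V) atTop atBot) (h0 : xx c P Q V W 0 ≠ 0)
    (h1 : |xx c P Q V W 0| ≤ 1 / 2) : ∃ σ0, 0 ≤ σ0 ∧ |xx c P Q V W σ0| = 1 / 2 := by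
  obtain ⟨C, -, hC⟩ := second
  have : ∃ S, 0 ≤ S ∧ 1 / 2 ≤ |xx c P Q V W S| := by
    by_contra hn
    push Not at hn
    have t := (tendsto_exp_atTop.comp (tendsto_neg_atBot_atTop.comp hL)).const_mul_atTop
      (abs_pos.2 h0)
    obtain ⟨S, s0, s1⟩ := ((eventually_ge_atTop 0).and (t.eventually_gt_atTop 4)).exists
    have := (hC c P Q h V W S s0 (hn S s0).le S le_rfl).lo
    simp only [Function.comp] at s1
    linarith [hn S s0]
  obtain ⟨S, s0, s1⟩ := this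
  obtain ⟨σ0, a, b⟩ := intermediate_value_Icc s0 (h.cxx V W).abs.continuousOn ⟨h1, s1⟩
  exact ⟨σ0, a.1, b⟩

theorem left_bd (c A A1 lam μ W0 : ℝ) (hν : 0 < lam + μ) : ∃ Z, 0 < Z ∧
    ∀ (P Q R : ℝ → ℝ) (V W σa σ0 : ℝ), Bd c A P Q → W0 ≤ V →
    (∀ σ, σ ≤ 0 → |R σ| ≤ exp (A + 1 / 2 * σ)) →
    (∀ σ, 0 ≤ σ → σ ≤ σa → |R σ| ≤ exp (A + μ * σ) * (P σ * Q σ)) →
    (∀ a b, 0 ≤ a → a ≤ b → LV c P Q V b ≤ LV c P Q V a + A1 - lam * (b - a)) →
    0 ≤ σa → σa ≤ σ0 → |xx c P Q V W σ0| ≤ 1 / 2 →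
    |∫ σ in Iic σa, R σ * Dl c P Q V W σ| ≤
      Z * |xx c P Q V W 0| * exp (μ * σ0 - (lam + μ) * (σ0 - σa)) ∧
    |R σa / (P σa * Q σa) * Ph c P Q V W σa| ≤
      Z * |xx c P Q V W 0| * exp (μ * σ0 - (lam + μ) * (σ0 - σa)) := by
  obtain ⟨C, C1, hC⟩ := second
  set G := c * exp (A - W0) - W0 + 2 * A
  set ν := min (lam + μ) (1 / 2) with hν'
  have ν0 : 0 < ν := lt_min hν (by norm_num)
  have ν1 : ν ≤ lam + μ := min_le_left _ _
  have ν2 : ν ≤ 1 / 2 := min_le_right _ _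
  set Z0 := 16 * C * exp (A + A1 + |G|) with hZ0
  have Z00 : 0 < Z0 := by positivity
  refine ⟨Z0 / ν, by positivity, fun P Q R V W σa σ0 h hV r1 r2 hL a0 a1 hx => ?_⟩
  have s0 : 0 ≤ σ0 := a0.trans a1
  have sec := hC c P Q h.toPos V W σ0 s0 hx
  set x0 := |xx c P Q V W 0| with hx0
  have x00 : 0 ≤ x0 := abs_nonneg _
  set L := LV c P Q V with hL'
  have g0 := abs_nonneg G; have g1 := le_abs_self G
  have xi : ∀ σ, 0 ≤ σ → σ ≤ σ0 → x0 * exp (-L σ) ≤ 4 * exp (A1 - lam * (σ0 - σ)) := by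
    intro σ h1 h2
    have a := (sec σ0 le_rfl).lo
    have b : exp (-L σ) ≤ exp (-L σ0) * exp (A1 - lam * (σ0 - σ)) := by
      rw [← exp_add]; exact exp_le_exp.2 (by linarith [hL σ σ0 h1 h2])
    calc x0 * exp (-L σ) ≤ x0 * (exp (-L σ0) * exp (A1 - lam * (σ0 - σ))) := by gcongr
      _ = x0 * exp (-L σ0) * exp (A1 - lam * (σ0 - σ)) := by ring
      _ ≤ _ := by gcongr; linarith
  have zpos : ∀ σ, 0 ≤ σ → σ ≤ σ0 → C * ze c P Q V W σ ^ 2 * exp (L σ) ≤
      16 * C * x0 * exp (A1 - lam * (σ0 - σ)) := by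
    intro σ h1 h2
    have e1 : 1 ≤ exp (-L σ) := one_le_exp (by linarith [h.L_le V h1])
    have e2 : exp (-L σ) * exp (L σ) = 1 := by rw [← exp_add]; simp
    have z0 : 0 ≤ ze c P Q V W σ := by unfold ze; positivity
    have z1 : ze c P Q V W σ ≤ 2 * (x0 * exp (-L σ)) := by
      change x0 * (1 + exp (-L σ)) ≤ _
      nlinarith
    calc C * ze c P Q V W σ ^ 2 * exp (L σ) ≤ C * (2 * (x0 * exp (-L σ))) ^ 2 * exp (L σ) := by
          gcongr
      _ = 4 * C * x0 * (x0 * exp (-L σ)) * (exp (-L σ) * exp (L σ)) := by ring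
      _ ≤ 4 * C * x0 * (4 * exp (A1 - lam * (σ0 - σ))) * 1 := by
          rw [e2, mul_one, mul_one]
          exact mul_le_mul_of_nonneg_left (xi σ h1 h2) (by positivity)
      _ = _ := by ring
  have fin : ∀ σ, 0 ≤ σ → σ ≤ σa → exp (A + μ * σ) * (16 * C * x0 * exp (A1 - lam * (σ0 - σ))) ≤
      Z0 * x0 * exp (μ * σ0 - (lam + μ) * (σ0 - σa) - ν * σa) * exp (ν * σ) := by
    intro σ h1 h2
    have : exp (A + μ * σ) * exp (A1 - lam * (σ0 - σ)) ≤ exp (A + A1 + |G|) *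
        exp (μ * σ0 - (lam + μ) * (σ0 - σa) - ν * σa) * exp (ν * σ) := by
      rw [← exp_add, ← exp_add, ← exp_add]
      exact exp_le_exp.2 (by nlinarith)
    calc _ = 16 * C * x0 * (exp (A + μ * σ) * exp (A1 - lam * (σ0 - σ))) := by ring
      _ ≤ 16 * C * x0 * (exp (A + A1 + |G|) *
        exp (μ * σ0 - (lam + μ) * (σ0 - σa) - ν * σa) * exp (ν * σ)) := by gcongr
      _ = _ := by rw [hZ0]; ring
  constructor
  · have := norm_integral_le_of_norm_le (μ := volume.restrict (Iic σa))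
      (f := fun σ => R σ * Dl c P Q V W σ)
      ((integrableOn_exp_mul_Iic ν0 σa).const_mul
        (Z0 * x0 * exp (μ * σ0 - (lam + μ) * (σ0 - σa) - ν * σa)))
      ((ae_restrict_iff' measurableSet_Iic).2 (Eventually.of_forall fun σ (hσ : σ ≤ σa) => by
        have k := (sec σ (hσ.trans a1)).kk
        have Kp := h.K_pos V σ
        rw [Real.norm_eq_abs, abs_mul]
        rcases le_total 0 σ with h1 | h1
        · refine le_trans ?_ (fin σ h1 hσ)
          calc |R σ| * |Dl c P Q V W σ| ≤ exp (A + μ * σ) * (P σ * Q σ) *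
                (C * ze c P Q V W σ ^ 2 * KK c P Q V σ) :=
                mul_le_mul (r2 σ h1 hσ) k (abs_nonneg _)
                  (mul_pos (exp_pos _) (mul_pos (h.pP σ) (h.pQ σ))).le
            _ = exp (A + μ * σ) * (C * ze c P Q V W σ ^ 2 * exp (L σ) * EE c P Q V σ) := by
                linear_combination exp (A + μ * σ) * (C * ze c P Q V W σ ^ 2) * h.K_mul V σ
            _ ≤ _ := by
                refine mul_le_mul_of_nonneg_left (le_trans ?_ (zpos σ h1 (hσ.trans a1)))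
                  (exp_pos _).le
                exact mul_le_of_le_one_right (by positivity) (by linarith [h.E_le V σ])
        · have e1 : exp (-L σ) ≤ 1 := exp_le_one_iff.2 (by linarith [h.L_ge V h1])
          have z0 : 0 ≤ ze c P Q V W σ := by unfold ze; positivity
          have z1 : ze c P Q V W σ ≤ 2 * x0 := by
            change x0 * (1 + exp (-L σ)) ≤ _
            nlinarith
          have x1 := xi 0 le_rfl s0
          rw [hL', Pos.L0, neg_zero, exp_zero, mul_one] at x1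
          have : exp (A + 1 / 2 * σ) * exp (A1 - lam * (σ0 - 0)) * exp G ≤ exp (A + A1 + |G|) *
              exp (μ * σ0 - (lam + μ) * (σ0 - σa) - ν * σa) * exp (ν * σ) := by
            rw [← exp_add, ← exp_add, ← exp_add, ← exp_add]
            exact exp_le_exp.2 (by nlinarith)
          calc |R σ| * |Dl c P Q V W σ| ≤ exp (A + 1 / 2 * σ) *
                (C * ze c P Q V W σ ^ 2 * KK c P Q V σ) :=
                mul_le_mul (r1 σ h1) k (abs_nonneg _) (exp_pos _).le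
            _ ≤ exp (A + 1 / 2 * σ) * (C * (2 * x0) ^ 2 * exp G) := by
                gcongr; exact h.K_neg hV h1
            _ = 4 * C * x0 * exp (A + 1 / 2 * σ) * x0 * exp G := by ring
            _ ≤ 4 * C * x0 * exp (A + 1 / 2 * σ) * (4 * exp (A1 - lam * (σ0 - 0))) * exp G := by
                gcongr
            _ = 16 * C * x0 * (exp (A + 1 / 2 * σ) * exp (A1 - lam * (σ0 - 0)) * exp G) := by ring
            _ ≤ 16 * C * x0 * (exp (A + A1 + |G|) *
              exp (μ * σ0 - (lam + μ) * (σ0 - σa) - ν * σa) * exp (ν * σ)) := by gcongr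
            _ = _ := by rw [hZ0]; ring))
    rw [Real.norm_eq_abs, integral_const_mul, integral_exp_mul_Iic ν0] at this
    refine this.trans (le_of_eq ?_)
    rw [exp_sub _ (ν * σa)]
    field_simp
  · have k := (sec σa a1).ee
    have pq := mul_pos (h.pP σa) (h.pQ σa)
    have r : |R σa / (P σa * Q σa)| ≤ exp (A + μ * σa) := by
      rw [abs_div, abs_of_pos pq, div_le_iff₀ pq]; exact r2 σa a0 le_rfl
    rw [abs_mul]
    refine (mul_le_mul r (k.trans (zpos σa a0 a1)) (abs_nonneg _) (exp_pos _).le).trans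
      ((fin σa a0 le_rfl).trans ?_)
    rw [mul_assoc _ (exp _), ← exp_add, sub_add_cancel]
    gcongr
    rw [le_div_iff₀ ν0]; nlinarith

theorem gap_exp {θ g η : ℝ} (h0 : 0 < θ) (h1 : θ < 1) (e0 : 0 < η) (e1 : η ≤ 1)
    (hx : η ≤ |1 - exp g|) :
    exp (θ * g) ≤ θ * exp g + 1 - θ - θ * (1 - θ) * (η ^ 2 * (1 + exp g) / 18) := by
  have hv : exp g = exp (g / 2) ^ 2 := by rw [sq, ← exp_add]; congr 1; ring
  have h2 : exp (θ * g) = exp (θ * (g / 2)) ^ 2 := by rw [sq, ← exp_add]; congr 1; ring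
  have h3 : exp (θ * (g / 2)) ≤ θ * exp (g / 2) + (1 - θ) := by
    have := convexOn_exp.2 (mem_univ (g / 2)) (mem_univ 0) h0.le (sub_pos.2 h1).le (by ring)
    simpa using this
  have h4 : exp (θ * (g / 2)) ^ 2 ≤ (θ * exp (g / 2) + (1 - θ)) ^ 2 := by gcongr
  have u0 := exp_pos g
  have h5 : η / 3 * (1 + exp g) ≤ |1 - exp g| := by
    rcases le_total 0 (1 - exp g) with h | h
    · rw [abs_of_nonneg h] at hx ⊢; nlinarith
    · rw [abs_of_nonpos h] at hx ⊢; nlinarith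
  have h6 : (η / 3 * (1 + exp g)) ^ 2 ≤ (1 - exp g) ^ 2 := by
    rw [← sq_abs (1 - exp g)]; gcongr
  set v := exp (g / 2)
  have h7 : η ^ 2 * (1 + exp g) / 18 ≤ (v - 1) ^ 2 := by
    refine le_of_mul_le_mul_right ?_ (show 0 < 2 * (1 + exp g) by positivity)
    have a : (v + 1) ^ 2 ≤ 2 * (1 + exp g) := by rw [hv]; nlinarith [sq_nonneg (v - 1)]
    have b : (1 - exp g) ^ 2 = (v - 1) ^ 2 * (v + 1) ^ 2 := by rw [hv]; ring
    have := mul_le_mul_of_nonneg_left a (sq_nonneg (v - 1))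
    nlinarith
  have h8 := mul_le_mul_of_nonneg_left h7 (mul_pos h0 (sub_pos.2 h1)).le
  rw [h2]
  refine h4.trans (le_trans (le_of_eq ?_) (sub_le_sub_left h8 _))
  rw [hv]; ring

theorem Pos.phi_lower {c : ℝ} {P Q : ℝ → ℝ} (h : Pos c P Q) {V W θ ε m η σ1 σ : ℝ}
    (x0 : xx c P Q V W 0 ≠ 0) (hσ : σ1 ≤ σ)
    (hs : ∀ t, σ1 ≤ t → 0 ≤ xx c P Q V W t * (th c P Q V t - θ)) (h0 : 0 < θ) (h1 : θ < 1)
    (hm : m ≤ θ * (1 - θ)) (m0 : 0 < m)
    (i1 : (1 - ε) * (1 - xx c P Q V W σ1 * (1 - θ)) ≤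
      exp (LV c P Q W σ1) * xx c P Q V W σ1 / xx c P Q V W 0)
    (i2 : exp (LV c P Q V σ1) * xx c P Q V W σ1 / xx c P Q V W 0 ≤
      (1 + ε) * exp (θ * (sol c P Q W σ1 - sol c P Q V σ1)))
    (hy : |Yi c P Q V σ * exp (LV c P Q V σ) - (1 - 2 * θ)| ≤ 5 * ε)
    (e0 : 0 < η) (e1 : η ≤ 1) (hx : η ≤ |xx c P Q V W σ|) (ε0 : 0 ≤ ε)
    (hε : 7 * ε ≤ m * η ^ 2 / 36) : m * η ^ 2 / 36 * |xx c P Q V W 0| ≤ Ph c P Q V W σ := by
  obtain ⟨l, -, -, e⟩ := h.exists_ell V W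
  have hc := h.hc
  set x := xx c P Q V W with hxx
  have r0 : ∀ t, 0 < x t / x 0 := fun t => by
    rw [e t, mul_assoc, mul_div_cancel_left₀ _ x0]; positivity
  have d0 : ∀ t, 0 < 1 - x t * (1 - θ) := fun t => by
    have := Pos.xx_lt (c := c) (P := P) (Q := Q) V W t
    nlinarith
  have m1 := mono_of_deriv (fun t => (((h.dL W t).exp.fun_mul (h.dxx V W t)).div_const (x 0)).fun_div
    (((h.dxx V W t).mul_const (1 - θ)).const_sub 1) (d0 t).ne') hσ (fun t ht => by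
      have a := hs t ht.1; have b := r0 t; have d := h.dn_pos V W t; have k := h.E_pos V t
      have u := sub_pos.2 (Pos.xx_lt (c := c) (P := P) (Q := Q) V W t)
      refine div_nonneg (le_of_le_of_eq (b := exp (LV c P Q W t) * ((1 - x t) * c * EE c P Q V t *
        (x t / x 0) / dn c P Q V W t) * (x t * (th c P Q V t - θ)) / dn c P Q V W t)
        (by positivity) ?_) (sq_nonneg _)
      rw [h.EE_two V W t, ← hxx]
      field_simp
      unfold dn; ring)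
  have m2 := mono_of_deriv (fun t => ((((h.dL V t).exp.fun_mul (h.dxx V W t)).div_const
    (x 0)).fun_mul ((h.dg V W t).const_mul θ).fun_neg.exp).fun_neg) hσ (fun t ht => by
      have a := hs t ht.1; have b := r0 t; have d := h.dn_pos V W t; have k := h.E_pos V t
      refine le_of_le_of_eq (b := exp (LV c P Q V t) *
        exp (-(θ * (sol c P Q W t - sol c P Q V t))) * (c * EE c P Q V t *
        (x t / x 0) / dn c P Q V W t) * (x t * (th c P Q V t - θ))) (by positivity) ?_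
      rw [← hxx]
      field_simp
      unfold dn; ring)
  rw [← hxx] at m1 m2
  have j1 : (1 - ε) * (1 - x σ * (1 - θ)) ≤ exp (LV c P Q W σ) * x σ / x 0 :=
    (le_div_iff₀ (d0 σ)).1 (((le_div_iff₀ (d0 σ1)).2 i1).trans m1)
  set g := sol c P Q W σ - sol c P Q V σ with hg
  have j2 : exp (LV c P Q V σ) * x σ / x 0 ≤ (1 + ε) * exp (θ * g) := by
    rw [neg_le_neg_iff, exp_neg, exp_neg, ← div_eq_mul_inv, ← div_eq_mul_inv] at m2
    exact (div_le_iff₀ (exp_pos _)).1 (m2.trans ((div_le_iff₀ (exp_pos _)).2 i2))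
  have xg : x σ = 1 - exp g := rfl
  have gp := gap_exp h0 h1 e0 e1 (xg ▸ hx)
  have u0 := exp_pos g
  set u := exp g
  have gp0 : m * (η ^ 2 * (1 + u) / 18) ≤ θ * (1 - θ) * (η ^ 2 * (1 + u) / 18) := by gcongr
  have gp1 : 0 ≤ m * (η ^ 2 * (1 + u) / 18) := by positivity
  have xa : |x σ| ≤ 1 + u := by rw [xg]; exact abs_le.2 ⟨by linarith, by linarith⟩
  set y := Yi c P Q V σ * exp (LV c P Q V σ)
  have hy' : |x σ * (y - (1 - 2 * θ))| ≤ (1 + u) * (5 * ε) := by rw [abs_mul]; gcongr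
  have key : m * η ^ 2 / 36 * (1 + u) ≤ x σ / x 0 * Ph c P Q V W σ := by
    have e1 : x σ / x 0 * Ph c P Q V W σ =
        exp (LV c P Q W σ) * x σ / x 0 - exp (LV c P Q V σ) * x σ / x 0 + x σ * y := by
      change x σ / x 0 * (_ - _ + x 0 * y) = _
      field_simp
    have a1 : ε * (1 - x σ * (1 - θ)) ≤ ε * (1 + u) := by
      refine mul_le_mul_of_nonneg_left ?_ ε0
      rw [xg]; nlinarith
    have a2 : ε * exp (θ * g) ≤ ε * (1 + u) := by
      refine mul_le_mul_of_nonneg_left ?_ ε0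
      nlinarith
    have a3 := mul_le_mul_of_nonneg_right hε (show 0 ≤ 1 + u by positivity)
    have a4 := (abs_le.1 hy').1
    rw [e1]
    generalize exp (LV c P Q W σ) * x σ / x 0 = a at *
    generalize exp (LV c P Q V σ) * x σ / x 0 = b at *
    rw [xg] at j1 a1 a4 ⊢
    linarith
  have p0 : 0 < Ph c P Q V W σ := by
    have : 0 < x σ / x 0 * Ph c P Q V W σ := lt_of_lt_of_le (by positivity) key
    exact (mul_pos_iff_of_pos_left (r0 σ)).1 this
  have ax := abs_pos.2 x0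
  have : x σ / x 0 ≤ (1 + u) / |x 0| := by
    rw [← abs_of_pos (r0 σ), abs_div]; gcongr
  have k2 := key.trans (mul_le_mul_of_nonneg_right this p0.le)
  rw [div_mul_eq_mul_div (1 + u), le_div_iff₀ ax] at k2
  refine le_of_mul_le_mul_left ?_ (show 0 < 1 + u by positivity)
  linarith

theorem Pos.right_le {c : ℝ} {P Q R ψ' : ℝ → ℝ} (h : Pos c P Q) (cR : Continuous R) {V W a b g : ℝ}
    (hi : Integrable fun σ => R σ * Dl c P Q V W σ)
    (dψ : ∀ σ, HasDerivAt (fun t => R t / (P t * Q t)) (ψ' σ) σ) (hab : a ≤ b)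
    (s1 : ∀ σ, a ≤ σ → ψ' σ ≤ 0) (s2 : ∀ σ, a ≤ σ → 0 ≤ R σ / (P σ * Q σ))
    (p1 : ∀ σ, a ≤ σ → 0 ≤ Ph c P Q V W σ) (p2 : ∀ σ, b ≤ σ → g ≤ Ph c P Q V W σ) :
    c * ∫ σ in Ioi a, R σ * Dl c P Q V W σ ≤
      R a / (P a * Q a) * Ph c P Q V W a - g * (R b / (P b * Q b)) := by
  have cf : Continuous fun σ => R σ * Dl c P Q V W σ := cR.mul (h.cDl V W)
  have dH : ∀ σ, HasDerivAt (fun u => c * (∫ t in a..u, R t * Dl c P Q V W t) +
      R u / (P u * Q u) * Ph c P Q V W u) (ψ' σ * Ph c P Q V W σ) σ := fun σ => by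
    refine ((((cf.integral_hasStrictDerivAt a σ).hasDerivAt).const_mul c).fun_add
      ((dψ σ).fun_mul (h.dPh V W σ))).congr_deriv ?_
    have := h.pP σ; have := h.pQ σ
    field_simp; ring
  have m1 := mono_of_deriv (fun t => (dH t).fun_neg) hab (fun t ht => by
    rw [neg_nonneg]; exact mul_nonpos_of_nonpos_of_nonneg (s1 t ht.1) (p1 t ht.1))
  refine le_of_tendsto ((intervalIntegral_tendsto_integral_Ioi a hi.integrableOn
    tendsto_id).const_mul c) ?_
  filter_upwards [eventually_ge_atTop b] with S hS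
  have m2 := mono_of_deriv (fun t => ((dψ t).const_mul g).fun_sub (dH t)) hS (fun t ht => by
    nlinarith [s1 t (hab.trans ht.1), p2 t ht.1])
  have := mul_le_mul_of_nonneg_left (p2 S hS) (s2 S (hab.trans hS))
  simp only [intervalIntegral.integral_same, mul_zero, zero_add, id] at m1 ⊢
  linarith

theorem alg_th {θ θ' ε m : ℝ} (t0 : 0 < θ) (t1 : θ < 1) (hm : m = θ * (1 - θ) / 2) (m0 : 0 < m)
    (ε1 : ε ≤ m / 2) (a1 : |θ' - θ| ≤ ε) : m ≤ θ' * (1 - θ') ∧ 0 < θ' ∧ θ' < 1 := by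
  obtain ⟨a11, a12⟩ := abs_le.1 a1
  have m1 : m ≤ 1 := by nlinarith
  have b : |1 - θ - θ'| ≤ 2 := abs_le.2 ⟨by linarith, by linarith⟩
  have b2 : |(θ' - θ) * (1 - θ - θ')| ≤ ε * 2 := by
    rw [abs_mul]; exact mul_le_mul a1 b (abs_nonneg _) ((abs_nonneg _).trans a1)
  have a7 : m ≤ θ' * (1 - θ') := by linarith [(abs_le.1 b2).1]
  exact ⟨a7, by nlinarith, by nlinarith⟩

theorem alg_i1 {ε x θ r a b : ℝ} (e0 : 0 < ε) (e1 : ε ≤ 1 / 2) (t0 : 0 < θ) (t1 : θ < 1)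
    (hx : -(ε / 4) ≤ x) (a0 : 0 < a) (h1 : -(ε / 4) ≤ a * r - 1) (h2 : (1 - ε / 4) * a ≤ b) :
    (1 - ε) * (1 - x * (1 - θ)) ≤ b * r := by
  have r0 : 0 < r := (mul_pos_iff_of_pos_left a0).1 (by linarith)
  have c1 := mul_le_mul_of_nonneg_right h2 r0.le
  have c2 : 1 - x * (1 - θ) ≤ 1 + ε / 4 := by nlinarith
  have c3 := mul_le_mul_of_nonneg_left c2 (show 0 ≤ 1 - ε by linarith)
  have c4 : (1 - ε / 4) * (1 - ε / 4) ≤ (1 - ε / 4) * (a * r) :=
    mul_le_mul_of_nonneg_left (by linarith) (by linarith)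
  nlinarith

theorem alg_i2 {ε θ g a : ℝ} (e0 : 0 < ε) (e1 : ε ≤ 1 / 2) (t0 : 0 < θ) (t1 : θ < 1)
    (hx : 1 - exp g ≤ ε / 4) (h1 : a - 1 ≤ ε / 4) : a ≤ (1 + ε) * exp (θ * g) := by
  have c1 : 1 - ε / 4 ≤ exp (θ * g) := by
    rcases le_total 0 g with h0 | h0
    · linarith [one_le_exp (mul_nonneg t0.le h0)]
    · have := exp_le_exp.2 (show g ≤ θ * g by nlinarith)
      linarith
  nlinarith

theorem local_neg {c A : ℝ} {P Q R κ ψ' : ℝ → ℝ} (h : Bd c A P Q) (hκ : Kap P Q κ) {k0 V μ B : ℝ}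
    (hk : Tendsto κ atTop (𝓝 k0)) (k1 : 0 < k0) (k2 : k0 < c) (hV : Sep c P Q V)
    (hR : RB A P Q R) (r2 : ∀ σ, 0 ≤ σ → |R σ| ≤ exp (A + μ * σ) * (P σ * Q σ))
    (dψ : ∀ σ, HasDerivAt (fun t => R t / (P t * Q t)) (ψ' σ) σ)
    (hψ : ∀ᶠ σ in atTop, ψ' σ ≤ 0 ∧ exp (B + μ * σ) ≤ R σ / (P σ * Q σ))
    (hμ : -μ < c * (k0 / c * (1 - k0 / c))) (ht : Tun c P Q R V) :
    ∀ᶠ W in 𝓝[≠] V, MM c P Q R W < 0 := by
  have hc := h.hc
  have hθ := h.th_tendsto hκ hV hk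
  have hE := (h.E_tendsto hκ hV hk).const_mul c
  set θ := k0 / c with hθ0
  have t0 : 0 < θ := by positivity
  have t1 : θ < 1 := (div_lt_one hc).2 k2
  have t2 : 0 < θ * (1 - θ) := mul_pos t0 (by linarith)
  obtain ⟨lam, l1, l2⟩ := exists_between (max_lt (mul_pos hc t2) hμ)
  have l0 : 0 < lam := (le_max_left _ _).trans_lt l1
  have hν : 0 < lam + μ := by linarith [(le_max_right _ _).trans_lt l1]
  obtain ⟨σ2, hσ2⟩ := eventually_atTop.1 ((eventually_ge_atTop 0).and (hE.eventually_const_le l2))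
  have hdec : ∀ a b, 0 ≤ a → a ≤ b → LV c P Q V b ≤ LV c P Q V a + lam * σ2 - lam * (b - a) :=
    fun a b ha hab => h.L_decay V l0.le (hσ2 σ2 le_rfl).1 (fun t ht => (hσ2 t ht).2) ha hab
  have hL : Tendsto (LV c P Q V) atTop atBot := by
    refine tendsto_atBot_mono' _ ?_ (tendsto_atBot_add_const_left _ (lam * σ2)
      (tendsto_id.const_mul_atTop_of_neg (neg_neg_of_pos l0)))
    filter_upwards [eventually_ge_atTop 0] with b hb
    have := hdec 0 b le_rfl hb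
    rw [Pos.L0] at this
    simp only [id]; linarith
  obtain ⟨C, C1, hC⟩ := second
  obtain ⟨Z, Z0, hZ⟩ := left_bd c A (lam * σ2) lam μ V hν
  set m := θ * (1 - θ) / 2 with hm
  have m0 : 0 < m := by positivity
  obtain ⟨T, T0, hT⟩ : ∃ T, 0 ≤ T ∧ (c + 1) * Z * exp (-((lam + μ) * T)) < m / 144 * exp B := by
    have : Tendsto (fun T => (c + 1) * Z * exp (-((lam + μ) * T))) atTop (𝓝 0) := by
      simpa using (tendsto_exp_atBot.comp (tendsto_neg_atTop_atBot.comp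
        (tendsto_id.const_mul_atTop hν))).const_mul ((c + 1) * Z)
    exact ((eventually_ge_atTop 0).and (this.eventually_lt_const (by positivity))).exists
  set η := exp (-(c / 4 * T)) / 128 with hη
  have η0 : 0 < η := by positivity
  have η1 : η ≤ 1 / 2 := by
    have : exp (-(c / 4 * T)) ≤ 1 := exp_le_one_iff.2 (by rw [neg_nonpos]; positivity)
    rw [hη]; linarith
  set ε := m * η ^ 2 / 252 with hε
  have ε0 : 0 < ε := by positivity
  have η2 : η ^ 2 ≤ (1 / 2) ^ 2 := by gcongr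
  have ε1 : ε ≤ m / 2 := by
    have := mul_le_mul_of_nonneg_left η2 m0.le
    rw [hε]; linarith
  have m1 : m ≤ 1 := by
    have := mul_le_one₀ t1.le (sub_pos.2 t1).le (sub_le_self 1 t0.le)
    rw [hm]; linarith
  obtain ⟨σ1, hσ1⟩ := eventually_atTop.1 (((eventually_ge_atTop 0).and hψ).and
    ((Metric.tendsto_nhds.1 hθ ε ε0).and (Metric.tendsto_nhds.1 (h.y_tendsto hθ hL) ε ε0)))
  have s10 : 0 ≤ σ1 := (hσ1 σ1 le_rfl).1.1
  have x0t : Tendsto (fun W => |xx c P Q V W 0|) (𝓝[≠] V) (𝓝 0) := by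
    simp only [h.xx0]
    have : Continuous fun W : ℝ => |1 - exp (W - V)| := by fun_prop
    simpa using (this.tendsto V).mono_left nhdsWithin_le_nhds
  have u1 := (x0t.mul_const (8 * exp (-LV c P Q V (σ1 + T)))).eventually_lt_const
    (u := 1 / 2) (by simp)
  have u2 := (x0t.mul_const ((C + 8) * (1 + exp (-LV c P Q V σ1)))).eventually_lt_const
    (u := ε / 4) (by simpa using ε0)
  filter_upwards [self_mem_nhdsWithin, u1, u2, x0t.eventually_lt_const (u := 1 / 2) (by simp)]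
    with W hW u1 u2 u3
  have x0 : xx c P Q V W 0 ≠ 0 := by
    rw [h.xx0, sub_ne_zero, ne_comm, ne_eq, exp_eq_one_iff, sub_eq_zero]; exact hW
  obtain ⟨σ0, s0, e0⟩ := h.exists_exit hL x0 u3.le
  have sec := hC c P Q h.toPos V W σ0 s0 e0.le
  have ax := abs_pos.2 x0
  have s1 : σ1 + T ≤ σ0 := by
    by_contra hn
    have a := (sec σ0 le_rfl).up
    have b : exp (-LV c P Q V σ0) ≤ exp (-LV c P Q V (σ1 + T)) :=
      exp_le_exp.2 (by linarith [(h.L_lip V (not_le.1 hn).le).2])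
    have := mul_le_mul_of_nonneg_left b ax.le
    linarith
  set x := xx c P Q V W with hx
  -- the state at `σ1`
  have S1 := sec σ1 (by linarith)
  have z0 : 0 ≤ ze c P Q V W σ1 := by unfold ze; positivity
  have zz : (C + 8) * ze c P Q V W σ1 < ε / 4 := by
    refine lt_of_eq_of_lt ?_ u2; unfold ze; ring
  have b1 : |x σ1| ≤ ε / 4 := by
    refine S1.up.trans ?_
    have : |x 0| * exp (-LV c P Q V σ1) ≤ ze c P Q V W σ1 := by
      unfold ze; rw [mul_add, ← hx]; linarith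
    linarith [mul_nonneg (zero_le_one.trans C1) z0]
  have b2 : |exp (LV c P Q V σ1) * x σ1 / x 0 - 1| ≤ ε / 4 := by
    rw [div_sub_one x0, abs_div, div_le_iff₀ ax, mul_comm (exp _)]
    exact S1.ff.trans (mul_le_mul_of_nonneg_right (by linarith) ax.le)
  have b3 : (1 - ε / 4) * exp (LV c P Q V σ1) ≤ exp (LV c P Q W σ1) := by
    have a := (abs_le.1 S1.e1).1
    have b : C * ze c P Q V W σ1 * exp (LV c P Q V σ1) ≤ ε / 4 * exp (LV c P Q V σ1) :=
      mul_le_mul_of_nonneg_right (by linarith) (exp_pos _).le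
    linarith
  obtain ⟨b11, b12⟩ := abs_le.1 b1
  obtain ⟨b21, b22⟩ := abs_le.1 b2
  have key : ∀ θ', |θ' - θ| ≤ ε → (∀ t, σ1 ≤ t → 0 ≤ x t * (th c P Q V t - θ')) →
      ∀ η', η ≤ η' → η' ≤ 1 → ∀ σ, σ1 ≤ σ → η' ≤ |x σ| → m * η' ^ 2 / 36 * |x 0| ≤ Ph c P Q V W σ := by
    intro θ' a1 a2 η' a3 a4 σ a5 a6
    obtain ⟨a11, a12⟩ := abs_le.1 a1
    obtain ⟨a7, a8, a9⟩ := alg_th t0 t1 hm m0 ε1 a1
    refine h.phi_lower (ε := ε) x0 a5 a2 a8 a9 a7 m0 ?_ ?_ ?_ (η0.trans_le a3) a4 a6 ε0.le ?_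
    · rw [mul_div_assoc] at b21 ⊢
      exact alg_i1 ε0 (by linarith) a8 a9 b11 (exp_pos _) b21 b3
    · exact alg_i2 ε0 (by linarith) a8 a9 b12 b22
    · have c1 := (hσ1 σ a5).2.2
      rw [Real.dist_eq] at c1
      obtain ⟨c2, c3⟩ := abs_lt.1 c1
      exact abs_le.2 ⟨by linarith, by linarith⟩
    · have : η ^ 2 ≤ η' ^ 2 := by gcongr
      have := mul_le_mul_of_nonneg_left this m0.le
      rw [hε]; linarith
  have key2 : ∀ η', η ≤ η' → η' ≤ 1 → ∀ σ, σ1 ≤ σ → η' ≤ |x σ| →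
      m * η' ^ 2 / 36 * |x 0| ≤ Ph c P Q V W σ := by
    obtain ⟨l, -, -, e⟩ := h.exists_ell V W
    have near : ∀ t, σ1 ≤ t → |th c P Q V t - θ| < ε := fun t ht => (hσ1 t ht).2.1
    rcases le_total 0 (x 0) with h0 | h0
    · refine key (θ - ε) (by simp [abs_of_pos ε0]) fun t ht => mul_nonneg ?_ ?_
      · rw [hx, e t]; positivity
      · linarith [(abs_lt.1 (near t ht)).1]
    · refine key (θ + ε) (by simp [abs_of_pos ε0]) fun t ht => mul_nonneg_of_nonpos_of_nonpos ?_ ?_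
      · rw [hx, e t, mul_assoc]; exact mul_nonpos_of_nonpos_of_nonneg h0 (by positivity)
      · linarith [(abs_lt.1 (near t ht)).2]
  have xa : η ≤ |x (σ0 - T)| := by
    have a := (sec σ0 le_rfl).up
    have b := (sec (σ0 - T) (by linarith)).lo
    have d : exp (-LV c P Q V σ0) * exp (-(c / 4 * T)) ≤ exp (-LV c P Q V (σ0 - T)) := by
      rw [← exp_add]
      exact exp_le_exp.2 (by linarith [(h.L_lip V (show σ0 - T ≤ σ0 by linarith)).1])
    have d1 := mul_le_mul_of_nonneg_left d ax.le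
    have d2 := mul_le_mul_of_nonneg_right a (exp_pos (-(c / 4 * T))).le
    rw [e0] at d2
    rw [hη]; linarith
  have sa : σ1 ≤ σ0 - T := by linarith
  obtain ⟨L1, L2⟩ := hZ P Q R V W (σ0 - T) σ0 h le_rfl hR.r1 (fun σ a _ => r2 σ a) hdec
    (by linarith) (by linarith) e0.le
  have hi := h.intD hR V W
  have R1 := h.right_le hR.cR hi dψ (show σ0 - T ≤ σ0 by linarith)
    (g := m * (1 / 2) ^ 2 / 36 * |x 0|) (fun σ a => (hσ1 σ (sa.trans a)).1.2.1)
    (fun σ a => (exp_pos _).le.trans (hσ1 σ (sa.trans a)).1.2.2)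
    (fun σ a => le_trans (by positivity)
      (key2 η le_rfl (by linarith) σ (sa.trans a) (xa.trans (h.xx_mono V W a))))
    (fun σ a => key2 _ η1 (by norm_num) σ (by linarith) (e0.ge.trans (h.xx_mono V W a)))
  have R2 := mul_le_mul_of_nonneg_left (hσ1 σ0 (by linarith)).1.2.2
    (show 0 ≤ m * (1 / 2) ^ 2 / 36 * |x 0| by positivity)
  rw [sub_sub_cancel, sub_eq_add_neg (μ * σ0), exp_add, ← hx] at L1 L2
  rw [exp_add] at R2
  have fin := mul_lt_mul_of_pos_right hT (mul_pos ax (exp_pos (μ * σ0)))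
  have L3 := mul_le_mul_of_nonneg_left (le_abs_self _ |>.trans L1) hc.le
  have L4 := (le_abs_self _).trans L2
  rw [h.M_eq hR ht,
    ← intervalIntegral.integral_Iic_add_Ioi (b := σ0 - T) hi.integrableOn hi.integrableOn]
  by_contra hn
  have := mul_nonneg hc.le (not_lt.1 hn)
  rw [mul_add] at this
  linarith

end Pool.Agent.LC5081
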