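import Pool.Agent.Lib.MP_5081b1_an.Sym
import Pool.Agent.Lib.MP_5081b1_an.Ind

/-! Assembly: homogeneous planar systems with many limit cycles. -/

set_option autoImplicit false

open Set Filter Topology MeasureTheory Real

namespace Pool.Agent.LC5081

noncomputable def hom (a : ℕ) (p : Polynomial ℝ) (x y : ℝ) : ℝ :=
  ∑ i ∈ Finset.range (a + 1), p.coeff i * x ^ (2 * (a - i)) * y ^ (2 * i)

open MvPolynomial in
noncomputable def homP (a : ℕ) (p : Polynomial ℝ) : MvPolynomial (Fin 2) ℝ :=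
  ∑ i ∈ Finset.range (a + 1), C (p.coeff i) * X 0 ^ (2 * (a - i)) * X 1 ^ (2 * i)

open MvPolynomial in
theorem homP_hom (a : ℕ) (p : Polynomial ℝ) : (homP a p).IsHomogeneous (2 * a) := by
  refine IsHomogeneous.sum _ _ _ fun i hi => ?_
  have := Finset.mem_range.1 hi
  have h := ((isHomogeneous_C (Fin 2) (p.coeff i)).mul
    (isHomogeneous_X_pow (R := ℝ) (0 : Fin 2) (2 * (a - i)))).mul
    (isHomogeneous_X_pow (R := ℝ) (1 : Fin 2) (2 * i))
  rwa [show 0 + 2 * (a - i) + 2 * i = 2 * a by omega] at h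

theorem eval_homP (a : ℕ) (p : Polynomial ℝ) (x y : ℝ) :
    MvPolynomial.eval ![x, y] (homP a p) = hom a p x y := by
  simp [homP, hom]

theorem hom_smul (a : ℕ) (p : Polynomial ℝ) (r x y : ℝ) :
    hom a p (r * x) (r * y) = r ^ (2 * a) * hom a p x y := by
  simp only [hom, Finset.mul_sum]
  refine Finset.sum_congr rfl fun i hi => ?_
  have := Finset.mem_range.1 hi
  rw [show r ^ (2 * a) = r ^ (2 * (a - i)) * r ^ (2 * i) by rw [← pow_add]; congr 1; omega]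
  ring

theorem hom_neg (a : ℕ) (p : Polynomial ℝ) (x y : ℝ) :
    hom a p (-x) y = hom a p x y ∧ hom a p x (-y) = hom a p x y := by
  simp only [hom, pow_mul, neg_sq, and_self]

theorem hom_eq {a : ℕ} {p : Polynomial ℝ} (h : p.natDegree ≤ a) {x y τ : ℝ}
    (e : y ^ 2 = τ * x ^ 2) : hom a p x y = x ^ (2 * a) * p.eval τ := by
  rw [Polynomial.eval_eq_sum_range' (Nat.lt_succ_of_le h), hom, Finset.mul_sum]
  refine Finset.sum_congr rfl fun i hi => ?_
  have := Finset.mem_range.1 hi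
  rw [show x ^ (2 * a) = x ^ (2 * (a - i)) * x ^ (2 * i) by rw [← pow_add]; congr 1; omega,
    pow_mul y, e, pow_mul x 2 i]
  ring

theorem hom_zero (a : ℕ) (p : Polynomial ℝ) (y : ℝ) : hom a p 0 y = p.coeff a * y ^ (2 * a) := by
  rw [hom, Finset.sum_range_succ, Finset.sum_eq_zero fun i hi => by
    have := Finset.mem_range.1 hi
    rw [zero_pow (by omega)]; ring]
  simp

theorem hom_cd (a : ℕ) (p : Polynomial ℝ) : ContDiff ℝ 1 fun z : ℝ × ℝ => hom a p z.1 z.2 := by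
  unfold hom; fun_prop

noncomputable def ang (a : ℕ) (p : Polynomial ℝ) (θ : ℝ) : ℝ := hom a p (sin θ) (cos θ)

theorem ang_cont (a : ℕ) (p : Polynomial ℝ) : Continuous (ang a p) := by
  unfold ang hom; fun_prop

theorem ang1 (a : ℕ) (p : Polynomial ℝ) (θ : ℝ) : ang a p (0 - θ) = ang a p θ := by
  simp only [ang, zero_sub, sin_neg, cos_neg, (hom_neg _ _ _ _).1]

theorem ang2 (a : ℕ) (p : Polynomial ℝ) (θ : ℝ) : ang a p (π - θ) = ang a p θ := by
  simp only [ang, sin_pi_sub, cos_pi_sub, (hom_neg _ _ _ _).2]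

theorem ang3 (a : ℕ) (p : Polynomial ℝ) (θ : ℝ) : ang a p (θ + 2 * π) = ang a p θ := by
  simp only [ang, sin_add_two_pi, cos_add_two_pi]

theorem ang_Th {a : ℕ} {p : Polynomial ℝ} (h : p.natDegree ≤ a) (σ : ℝ) :
    ang a p (Th σ) = sin (Th σ) ^ (2 * a) * p.eval (exp σ) := hom_eq h (cTh_sq σ)

theorem per_min {g : ℝ → ℝ} (hc : Continuous g) (hp : ∀ θ, g (θ + 2 * π) = g θ) :
    ∃ θ0, ∀ θ, g θ0 ≤ g θ := by
  obtain ⟨θ0, -, h⟩ := (isCompact_Icc (a := 0) (b := 2 * π)).exists_isMinOn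
    ⟨0, le_rfl, two_pi_pos.le⟩ hc.continuousOn
  refine ⟨θ0, fun θ => ?_⟩
  obtain ⟨θ', h1, h2⟩ := Function.Periodic.exists_mem_Ico₀ hp two_pi_pos θ
  rw [h2]; exact h (Ico_subset_Icc_self h1)

theorem ang_bd (a : ℕ) (p : Polynomial ℝ) : ∃ M, ∀ θ, |ang a p θ| ≤ M := by
  obtain ⟨θ0, h⟩ := per_min (g := fun θ => -|ang a p θ|) (ang_cont a p).abs.neg
    (fun θ => by simp only [ang3])
  exact ⟨_, fun θ => neg_le_neg_iff.1 (h θ)⟩

theorem mul_bd {u x M : ℝ} (hu : |u| ≤ 1) (hx : |x| ≤ M) : |u * x| ≤ M := by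
  rw [abs_mul]
  exact (mul_le_of_le_one_left (abs_nonneg _) hu).trans hx

theorem ang_base {a b : ℕ} {p q : Polynomial ℝ} (dp : p.natDegree ≤ a) (cp : 0 < p.coeff a)
    (dq : q.natDegree ≤ b) (pp : ∀ τ, 0 < τ → 0 < p.eval τ) (pq : ∀ τ, 0 ≤ τ → 0 < q.eval τ)
    {c K : ℝ} (hc : 0 < c) (hK : 0 ≤ K) : ∃ M d, 0 ≤ M ∧
      Ang c K M d (fun θ => cos θ * ang a p θ) (fun θ => -(sin θ * ang b q θ)) := by
  have key : ∀ θ, 0 ≤ sin θ ^ 2 * ang b q θ ∧
      0 < cos θ ^ 2 * ang a p θ + exp (2 * c * -K) * (sin θ ^ 2 * ang b q θ) := by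
    intro θ
    by_cases hs : sin θ = 0
    · have : cos θ ^ 2 = 1 := by simpa [hs] using sin_sq_add_cos_sq θ
      simp only [ang, hs, hom_zero, pow_mul, this]
      simpa using cp
    · have e : cos θ ^ 2 = cos θ ^ 2 / sin θ ^ 2 * sin θ ^ 2 := by field_simp
      have t0 : 0 ≤ cos θ ^ 2 / sin θ ^ 2 := by positivity
      have q0 := pq _ t0
      simp only [ang, hom_eq dp e, hom_eq dq e, pow_mul]
      have h1 : 0 < sin θ ^ 2 * ((sin θ ^ 2) ^ b * q.eval (cos θ ^ 2 / sin θ ^ 2)) := by positivity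
      have h2 : 0 ≤ cos θ ^ 2 * ((sin θ ^ 2) ^ a * p.eval (cos θ ^ 2 / sin θ ^ 2)) := by
        by_cases hc : cos θ = 0
        · simp [hc]
        · have := pp (cos θ ^ 2 / sin θ ^ 2) (by positivity)
          positivity
      exact ⟨h1.le, by positivity⟩
  have c1 := ang_cont a p
  have c2 := ang_cont b q
  obtain ⟨θ0, h0⟩ := per_min (g := fun θ => cos θ ^ 2 * ang a p θ +
    exp (2 * c * -K) * (sin θ ^ 2 * ang b q θ)) (by fun_prop)
    (fun θ => by simp only [ang3, sin_add_two_pi, cos_add_two_pi])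
  obtain ⟨M1, h1⟩ := ang_bd a p
  obtain ⟨M2, h2⟩ := ang_bd b q
  refine ⟨max M1 M2, _, (abs_nonneg _).trans ((h1 0).trans (le_max_left _ _)), hc, hK, (key θ0).2,
    by fun_prop, by fun_prop, fun θ => by simp only [ang3, cos_add_two_pi],
    fun θ => by simp only [ang3, sin_add_two_pi],
    fun θ => (mul_bd (abs_cos_le_one θ) (h1 θ)).trans (le_max_left _ _),
    fun θ => by rw [abs_neg]; exact (mul_bd (abs_sin_le_one θ) (h2 θ)).trans (le_max_right _ _),
    fun θ ρ => (h0 θ).trans ?_⟩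
  have : exp (2 * c * -K) ≤ exp (2 * c * cl K ρ) := by gcongr; exact le_cl K ρ
  have := mul_le_mul_of_nonneg_right this (key θ).1
  simp only [Dd]
  linarith

/-- The planar vector field of a pair of polynomials. -/
noncomputable def vf (P Q : MvPolynomial (Fin 2) ℝ) (z : ℝ × ℝ) : ℝ × ℝ :=
  (MvPolynomial.eval ![z.1, z.2] P, MvPolynomial.eval ![z.1, z.2] Q)

open MvPolynomial in
theorem hom3 (a : ℕ) (p A : Polynomial ℝ) (ε μ s : ℝ) (i j : Fin 2) :
    (C s * (X i * homP a p) + C ε * (X j * homP a A) +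
      C μ * (X j * (X 0 ^ 2 + X 1 ^ 2) ^ a) : MvPolynomial (Fin 2) ℝ).IsHomogeneous (2 * a + 1) := by
  have h1 : ∀ (i : Fin 2) (s : ℝ) (F : MvPolynomial (Fin 2) ℝ), F.IsHomogeneous (2 * a) →
      (C s * (X i * F)).IsHomogeneous (2 * a + 1) := fun i s F hF => by
    have := ((isHomogeneous_X ℝ i).mul hF).C_mul s
    rwa [add_comm] at this
  exact ((h1 _ _ _ (homP_hom _ _)).add (h1 _ _ _ (homP_hom _ _))).add (h1 _ _ _
    (((isHomogeneous_X_pow (0 : Fin 2) 2).add (isHomogeneous_X_pow (1 : Fin 2) 2)).pow a))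

theorem main_of {a c N : ℕ} {p q A B : Polynomial ℝ} {t p' k' : ℝ} (dp : p.natDegree ≤ a)
    (cp : 0 < p.coeff a) (dq : q.natDegree ≤ a + c) (dA : A.natDegree ≤ a)
    (dB : B.natDegree ≤ a + c) (h : Sys c (ev 1 p) (ev 0 q) 0 p' k')
    (ch : Chain (MM c (ev 1 p) (ev 0 q) (ev (1 / 2) (Polynomial.X * p * B + A * q))) N t) :
    ∃ P Q : MvPolynomial (Fin 2) ℝ, P.IsHomogeneous (2 * a + 1) ∧
      Q.IsHomogeneous (2 * (a + c) + 1) ∧ (N : ℕ∞) ≤ (LC (vf P Q)).encard := by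
  obtain ⟨W, w1, w2⟩ := ch
  have c0 := h.hc
  have pp : ∀ τ, 0 < τ → 0 < p.eval τ := fun τ hτ => by
    have := h.pP (log τ)
    rw [ev, exp_log hτ] at this
    exact (mul_pos_iff_of_pos_left (exp_pos _)).1 this
  have pq : ∀ τ, 0 ≤ τ → 0 < q.eval τ := fun τ hτ => by
    rcases hτ.lt_or_eq with hτ | rfl
    · simpa [ev, exp_log hτ] using h.pQ (log τ)
    · obtain ⟨b, hb, -⟩ := h.lQ
      refine (exp_pos b).trans_le (ge_of_tendsto
        ((q.continuous.tendsto 0).comp tendsto_exp_atBot) ?_)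
      filter_upwards [eventually_le_atBot 0] with σ hσ
      simpa [ev] using hb σ hσ
  choose K0 hK0 using h.rho_bound
  set K' := ∑ i ∈ Finset.range (N + 1), |K0 (W i)|
  have hK' : ∀ i ≤ N, ∀ σ, |rho c (ev 1 p) (ev 0 q) (W i) σ| ≤ K' := fun i hi σ =>
    (hK0 _ σ).trans ((le_abs_self _).trans (Finset.single_le_sum
      (f := fun i => |K0 (W i)|) (fun _ _ => abs_nonneg _) (Finset.mem_range_succ_iff.2 hi)))
  have K0' : 0 ≤ K' := Finset.sum_nonneg fun _ _ => abs_nonneg _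
  obtain ⟨M, d, M0, hA⟩ := ang_base dp cp dq pp pq (K := K' + 1) c0 (by linarith)
  have rv : Rev a c (ev 1 p) (ev 0 q) (ev (1 / 2) (Polynomial.X * p * B + A * q)) (ang a p)
      (ang (a + c) q) (ang a A) (ang (a + c) B) := by
    refine ⟨ang_cont _ _, ang_cont _ _, ang1 _ _, ang2 _ _, ang1 _ _, ang2 _ _, ang1 _ _, ang2 _ _,
      ang1 _ _, ang2 _ _, fun σ => ?_, fun σ => ?_, fun σ => ?_⟩
    · rw [ang_Th dp, cTh_sq, ev, one_mul]; ring
    · rw [ang_Th dq, ev, zero_mul, exp_zero]; ring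
    · rw [ang_Th dp, ang_Th dq, ang_Th dA, ang_Th dB, cTh_sq, cTh_eq, ev]
      simp only [Polynomial.eval_add, Polynomial.eval_mul, Polynomial.eval_X]
      ring
  have ex := fun i (hi : i ≤ N) => rv.unpert h.toPos hA (lt_add_one K') (W i) (hK' i hi)
  choose! u u1 u2 u3 u4 u5 using ex
  set A0 : ℝ → ℝ := fun θ => cos θ * ang a p θ with hA0
  set B0 : ℝ → ℝ := fun θ => -(sin θ * ang (a + c) q θ) with hB0
  set A1 : ℝ → ℝ := fun θ => sin θ * ang a A θ with hA1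
  set B1 : ℝ → ℝ := fun θ => cos θ * ang (a + c) B θ with hB1
  have cA1 : Continuous A1 := continuous_sin.mul (ang_cont _ _)
  have cB1 : Continuous B1 := continuous_cos.mul (ang_cont _ _)
  obtain ⟨e, e0, -, he⟩ := hA.pert
  obtain ⟨M1, m1⟩ := ang_bd a A
  obtain ⟨M2, m2⟩ := ang_bd (a + c) B
  have E1 : ∀ᶠ z : ℝ × ℝ in 𝓝 (0, 0), ∀ i ∈ Finset.range (N + 1), _ :=
    (Filter.eventually_all_finset _).2 fun i hi =>
      hA.melnikov cA1 cB1 (u1 i (Finset.mem_range_succ_iff.1 hi))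
        (u3 i (Finset.mem_range_succ_iff.1 hi)) (u4 i (Finset.mem_range_succ_iff.1 hi)) (Th 0)
        (t * (-1) ^ (N + i)) (by
          rw [u5 i (Finset.mem_range_succ_iff.1 hi)]
          linarith [w2 i (Finset.mem_range_succ_iff.1 hi)])
  have E2 : ∀ᶠ z : ℝ × ℝ in 𝓝 (0, 0), |z.1| * max M1 M2 + |z.1 * z.2| < e :=
    (by fun_prop : Continuous fun z : ℝ × ℝ =>
      |z.1| * max M1 M2 + |z.1 * z.2|).continuousAt.eventually_lt continuousAt_const
      (by simpa using e0)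
  obtain ⟨δ, δ0, hδ⟩ := Metric.eventually_nhds_iff.1 (E1.and E2)
  set ε := δ / 2
  have ε0 : 0 < ε := by positivity
  have hz : ∀ μ ∈ Icc 0 (ε * ε), dist (ε, μ / ε) ((0, 0) : ℝ × ℝ) < δ := fun μ hμ => by
    have h1 : 0 ≤ μ / ε := div_nonneg hμ.1 ε0.le
    have h2 : μ / ε ≤ ε := (div_le_iff₀ ε0).2 hμ.2
    have h3 : ε < δ := half_lt_self δ0
    simp only [Prod.dist_eq, dist_zero_right, Real.norm_eq_abs, abs_of_pos ε0, abs_of_nonneg h1]
    exact max_lt h3 (h2.trans_lt h3)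
  have hm : ∀ μ, ε * (μ / ε) = μ := fun μ => by field_simp
  have an : ∀ μ ∈ Icc 0 (ε * ε), Ang c (K' + 1) (M + 1) (d / 2) (prA A0 A1 ε μ) (prB B0 B1 ε μ) := by
    intro μ hμ
    have := (hδ (hz μ hμ)).2
    simp only [hm] at this
    have cA := hA.cA; have cB := hA.cB
    refine he _ _ (by unfold prA; fun_prop) (by unfold prB; fun_prop)
      (fun θ => by simp only [prA, hA0, hA1, ang3, sin_add_two_pi, cos_add_two_pi])
      (fun θ => by simp only [prB, hB0, hB1, ang3, sin_add_two_pi, cos_add_two_pi])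
      (fun θ => ?_) fun θ => ?_
    · rw [prA, add_assoc, add_sub_cancel_left]
      refine (abs_add_le _ _).trans (le_trans ?_ this.le)
      rw [abs_mul, mul_comm μ]
      exact add_le_add (mul_le_mul_of_nonneg_left
        ((mul_bd (abs_sin_le_one θ) (m1 θ)).trans (le_max_left _ _)) (abs_nonneg _))
        (mul_bd (abs_sin_le_one θ) le_rfl)
    · rw [prB, add_assoc, add_sub_cancel_left]
      refine (abs_add_le _ _).trans (le_trans ?_ this.le)
      rw [abs_mul, mul_comm μ]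
      exact add_le_add (mul_le_mul_of_nonneg_left
        ((mul_bd (abs_cos_le_one θ) (m2 θ)).trans (le_max_right _ _)) (abs_nonneg _))
        (mul_bd (abs_cos_le_one θ) le_rfl)
  obtain ⟨β, β0, hβ⟩ := Ang.rot c (K' + 1) (M + 1) (d / 2) (by positivity)
    (by have := hA.hd; positivity)
  obtain ⟨μ, hμ, iso⟩ := isolate (f := fun μ => fc c (K' + 1) (prA A0 A1 ε μ) (prB B0 B1 ε μ))
    (mul_pos ε0 ε0) β0 (fun μ hμ => (an μ hμ).nice) (fun μ hμ μ' hμ' hlt => by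
      have e1 : prA A0 A1 ε μ' = fun θ => prA A0 A1 ε μ θ + (μ' - μ) * sin θ := by
        funext θ; simp only [prA]; ring
      have e2 : prB B0 B1 ε μ' = fun θ => prB B0 B1 ε μ θ + (μ' - μ) * cos θ := by
        funext θ; simp only [prB]; ring
      have := an μ' hμ'
      simp only [e1, e2] at this ⊢
      exact hβ _ _ _ (sub_pos.2 hlt) (an μ hμ) this)
  refine ⟨_, _, hom3 a p A ε μ 1 1 0, hom3 (a + c) q B ε μ (-1) 0 1, ?_⟩
  have hn := (an μ hμ).nice
  have fin := fun i (hi : i ≤ N) => (hδ (hz μ hμ)).1 i (Finset.mem_range_succ_iff.2 hi) ε0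
    (flow (fc c (K' + 1) (prA A0 A1 ε μ) (prB B0 B1 ε μ)) (u i 0))
    (by simp only [hm]; exact (hn.spec _).1) (hn.spec _).2
  refine ((an μ hμ).polar (a := 2 * a) ?_ (by positivity) fun θ ρ => ?_).count
    (α := fun i => u i 0) (t := t) (fun i hi => ?_) (fun i hi => (fin i hi).1)
    (fun i hi => (fin i hi).2) iso
  · have := hom_cd a p; have := hom_cd a A; have := hom_cd (a + c) q; have := hom_cd (a + c) B
    unfold vf
    simp only [map_add, map_mul, map_pow, MvPolynomial.eval_C, MvPolynomial.eval_X, eval_homP,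
      Matrix.cons_val_zero, Matrix.cons_val_one]
    fun_prop
  · have e1 : (exp ρ * sin θ) ^ 2 + (exp ρ * cos θ) ^ 2 = exp ρ ^ 2 := by
      linear_combination exp ρ ^ 2 * sin_sq_add_cos_sq θ
    have e2 : exp (2 * a * ρ) = exp ρ ^ (2 * a) := by rw [← exp_nat_mul]; push_cast; rfl
    have e3 : exp (2 * c * ρ) = exp ρ ^ (2 * c) := by rw [← exp_nat_mul]; push_cast; rfl
    simp only [vf, pol, map_add, map_mul, map_pow, MvPolynomial.eval_C, MvPolynomial.eval_X,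
      eval_homP, Matrix.cons_val_zero, Matrix.cons_val_one, hom_smul, e1, e2, e3, prA, prB, hA0,
      hA1, hB0, hB1, ang]
    refine Prod.ext ?_ ?_ <;> simp only <;> ring
  · refine sol_lt hA.nice.lip (u1 i hi.le) (u1 (i + 1) hi) (t0 := Th 0) ?_ 0
    rw [u2 i hi.le, u2 (i + 1) hi, rho, rho, (h.spec _).2, (h.spec _).2]
    gcongr
    exact w1 i hi

theorem main_lt {a c k : ℕ} (hc : 1 ≤ c) (hk : c + 3 ≤ 4 * k) (ha : 4 * k ≤ a) :
    ∃ P Q : MvPolynomial (Fin 2) ℝ, P.IsHomogeneous (2 * a + 1) ∧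
      Q.IsHomogeneous (2 * (a + c) + 1) ∧
      ((4 * a + 2 * c + 2 - 13 * k : ℕ) : ℕ∞) ≤ (LC (vf P Q)).encard := by
  obtain ⟨p, q, A, B, N, t, dp, cp, dq, dA, dB, h, hN, ch⟩ := partA hc hk ha
  rw [show 4 * a + 2 * c + 2 - 13 * k = N by omega]
  exact main_of dp cp dq dA dB h ch

theorem PO_swap {V V' : ℝ × ℝ → ℝ × ℝ} (h : ∀ z, V' z.swap = (V z).swap) {D : Set (ℝ × ℝ)}
    (hD : D ∈ PO V) : Prod.swap '' D ∈ PO V' := by
  obtain ⟨γ, T, hT, d, p, ⟨s, hs⟩, rfl⟩ := hD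
  refine ⟨fun t => (γ t).swap, T, hT, fun t => ?_, fun t => by simp only [p],
    ⟨s, fun e => hs (Prod.swap_injective e)⟩, (range_comp _ _).symm⟩
  rw [h]
  exact (hasFDerivAt_snd.comp_hasDerivAt t (d t)).prodMk (hasFDerivAt_fst.comp_hasDerivAt t (d t))

theorem LC_swap {V V' : ℝ × ℝ → ℝ × ℝ} (h : ∀ z, V' z.swap = (V z).swap) :
    (LC V).encard ≤ (LC V').encard := by
  have h' : ∀ z, V z.swap = (V' z).swap := fun z => by
    have := h z.swap
    rw [Prod.swap_swap] at this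
    rw [this, Prod.swap_swap]
  refine encard_le_encard_of_injOn (f := fun C => Prod.swap '' C) ?_
    (image_injective.2 Prod.swap_injective).injOn
  rintro C ⟨h1, U, hU, hC, h2⟩
  refine ⟨PO_swap h h1, Prod.swap ⁻¹' U, hU.preimage continuous_swap, ?_, fun D hD ⟨z, z1, z2⟩ => ?_⟩
  · rintro _ ⟨z, hz, rfl⟩
    exact hC hz
  · rw [← h2 _ (PO_swap h' hD) ⟨z.swap, ⟨z, z1, rfl⟩, z2⟩]
    simp [image_image]

theorem main_all {n m k : ℕ} (hn : Odd n) (hm : Odd m) (hne : n ≠ m) (h1 : m + 6 ≤ n + 8 * k)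
    (h2 : n + 6 ≤ m + 8 * k) (h3 : 8 * k < n) (h4 : 8 * k < m) :
    ∃ P Q : MvPolynomial (Fin 2) ℝ, P.IsHomogeneous n ∧ Q.IsHomogeneous m ∧
      ((n + m - 13 * k : ℕ) : ℕ∞) ≤ (LC (vf P Q)).encard := by
  obtain ⟨a, rfl⟩ := hn
  obtain ⟨b, rfl⟩ := hm
  rcases lt_or_gt_of_ne hne with h | h
  · obtain ⟨c, rfl⟩ := Nat.exists_eq_add_of_le (show a ≤ b by omega)
    obtain ⟨P, Q, p1, p2, p3⟩ := main_lt (a := a) (c := c) (k := k) (by omega) (by omega) (by omega)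
    exact ⟨P, Q, p1, p2, by rwa [show 2 * a + 1 + (2 * (a + c) + 1) = 4 * a + 2 * c + 2 by ring]⟩
  · obtain ⟨c, rfl⟩ := Nat.exists_eq_add_of_le (show b ≤ a by omega)
    obtain ⟨P, Q, p1, p2, p3⟩ := main_lt (a := b) (c := c) (k := k) (by omega) (by omega) (by omega)
    refine ⟨MvPolynomial.rename (Equiv.swap 0 1) Q, MvPolynomial.rename (Equiv.swap 0 1) P,
      p2.rename_isHomogeneous, p1.rename_isHomogeneous, ?_⟩
    rw [show 2 * (b + c) + 1 + (2 * b + 1) = 4 * b + 2 * c + 2 by ring]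
    refine p3.trans (LC_swap fun z => ?_)
    have : (![z.2, z.1] : Fin 2 → ℝ) ∘ Equiv.swap 0 1 = ![z.1, z.2] := by
      funext i; fin_cases i <;> simp
    simp only [vf, MvPolynomial.eval_rename, Prod.fst_swap, Prod.snd_swap, this, Prod.swap_prod_mk]

end Pool.Agent.LC5081
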