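import Pool.Agent.Lib.MP_5081b1_an.Ang

/-! First-order perturbation of a closed orbit of the polar equation. -/

set_option autoImplicit false

open Set Filter Topology MeasureTheory Real

namespace Pool.Agent.LC5081

noncomputable def a0 (c : ℝ) (A B u : ℝ → ℝ) (θ : ℝ) : ℝ :=
  2 * c * exp (2 * c * u θ) * (A θ * B θ) / Dd A B θ (exp (2 * c * u θ)) ^ 2

noncomputable def b0 (c : ℝ) (A B A1 B1 u : ℝ → ℝ) (θ : ℝ) : ℝ :=
  exp (2 * c * u θ) * (A θ * B1 θ - A1 θ * B θ) / Dd A B θ (exp (2 * c * u θ)) ^ 2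

noncomputable def prA (A A1 : ℝ → ℝ) (ε μ θ : ℝ) : ℝ := A θ + ε * A1 θ + μ * sin θ

noncomputable def prB (B B1 : ℝ → ℝ) (ε μ θ : ℝ) : ℝ := B θ + ε * B1 θ + μ * cos θ

namespace Ang

variable {c K M d : ℝ} {A B A1 B1 u : ℝ → ℝ}

theorem D_pos' (h : Ang c K M d A B) (θ : ℝ) {ρ : ℝ} (hρ : |ρ| ≤ K) :
    0 < Dd A B θ (exp (2 * c * ρ)) := by
  have := h.D_pos θ ρ
  rwa [cl_eq hρ] at this

theorem c_a0 (h : Ang c K M d A B) (cu : Continuous u) (bu : ∀ θ, |u θ| ≤ K) :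
    Continuous (a0 c A B u) := by
  have := h.cA; have := h.cB
  unfold a0
  exact Continuous.div (by fun_prop) (by unfold Dd; fun_prop)
    fun θ => (pow_pos (h.D_pos' θ (bu θ)) 2).ne'

theorem c_b0 (h : Ang c K M d A B) (c1 : Continuous A1) (c2 : Continuous B1) (cu : Continuous u)
    (bu : ∀ θ, |u θ| ≤ K) : Continuous (b0 c A B A1 B1 u) := by
  have := h.cA; have := h.cB
  unfold b0
  exact Continuous.div (by fun_prop) (by unfold Dd; fun_prop)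
    fun θ => (pow_pos (h.D_pos' θ (bu θ)) 2).ne'

theorem approx (h : Ang c K M d A B) (c1 : Continuous A1) (c2 : Continuous B1) (cu : Continuous u)
    (bu : ∀ θ, |u θ| < K) {ψ : ℝ → ℝ} (cψ : Continuous ψ) {η : ℝ} (hη : 0 < η) :
    ∀ᶠ z : ℝ × ℝ in 𝓝 (0, 0), ∀ θ ∈ Icc 0 (2 * π), |u θ + z.1 * ψ θ| ≤ K ∧ (0 < z.1 →
      |fc c K (prA A A1 z.1 (z.1 * z.2)) (prB B B1 z.1 (z.1 * z.2)) θ (u θ + z.1 * ψ θ) -
        fc c K A B θ (u θ) - z.1 * (a0 c A B u θ * ψ θ + b0 c A B A1 B1 u θ)| < z.1 * η) := by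
  refine isCompact_Icc.eventually_forall_of_forall_eventually (P := fun (z : ℝ × ℝ) θ =>
    |u θ + z.1 * ψ θ| ≤ K ∧ (0 < z.1 →
      |fc c K (prA A A1 z.1 (z.1 * z.2)) (prB B B1 z.1 (z.1 * z.2)) θ (u θ + z.1 * ψ θ) -
        fc c K A B θ (u θ) - z.1 * (a0 c A B u θ * ψ θ + b0 c A B A1 B1 u θ)| < z.1 * η))
    fun θ0 _ => ?_
  have cA := h.cA; have cB := h.cB
  have ca := h.c_a0 cu fun θ => (bu θ).le
  have cb := h.c_b0 c1 c2 cu fun θ => (bu θ).le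
  have d0 := h.D_pos' θ0 (bu θ0).le
  set Z0 : (ℝ × ℝ) × ℝ → ℝ := fun p => exp (2 * c * u p.2) with hZ0
  set Z1 : (ℝ × ℝ) × ℝ → ℝ := fun p => exp (2 * c * (u p.2 + p.1.1 * ψ p.2)) with hZ1
  set D0 : (ℝ × ℝ) × ℝ → ℝ := fun p => Dd A B p.2 (Z0 p) with hD0
  set D1 : (ℝ × ℝ) × ℝ → ℝ := fun p => Dd A B p.2 (Z1 p) with hD1
  set D2 : (ℝ × ℝ) × ℝ → ℝ := fun p =>
    Dd (prA A A1 p.1.1 (p.1.1 * p.1.2)) (prB B B1 p.1.1 (p.1.1 * p.1.2)) p.2 (Z1 p) with hD2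
  set S : (ℝ × ℝ) × ℝ → ℝ := fun p => dslope exp 0 (2 * c * (p.1.1 * ψ p.2)) with hS
  have cZ0 : Continuous Z0 := by fun_prop
  have cZ1 : Continuous Z1 := by fun_prop
  have cD0 : Continuous D0 := by simp only [hD0, Dd]; fun_prop
  have cD1 : Continuous D1 := by simp only [hD1, Dd]; fun_prop
  have cD2 : Continuous D2 := by simp only [hD2, Dd, prA, prB]; fun_prop
  have v0 : D0 ((0, 0), θ0) = Dd A B θ0 (exp (2 * c * u θ0)) := rfl
  have v1 : D1 ((0, 0), θ0) = Dd A B θ0 (exp (2 * c * u θ0)) := by simp [hD1, hZ1]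
  have v2 : D2 ((0, 0), θ0) = Dd A B θ0 (exp (2 * c * u θ0)) := by simp [hD2, hZ1, Dd, prA, prB]
  have vS : S ((0, 0), θ0) = 1 := by simp [hS]
  have cS : ContinuousAt S ((0, 0), θ0) := by
    refine ContinuousAt.comp (g := dslope exp 0) ?_ (by fun_prop)
    simpa using continuousAt_dslope_same.2 (differentiable_exp 0)
  set H : (ℝ × ℝ) × ℝ → ℝ := fun p =>
    Z0 p * (2 * c * ψ p.2) * S p * (A p.2 * B p.2) / (D0 p * D1 p) +
      Z1 p * (A p.2 * B1 p.2 - A1 p.2 * B p.2 + p.1.2 * (A p.2 * cos p.2 - sin p.2 * B p.2)) /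
        (D1 p * D2 p) - (a0 c A B u p.2 * ψ p.2 + b0 c A B A1 B1 u p.2) with hH
  have cH : ContinuousAt H ((0, 0), θ0) := by
    refine ((ContinuousAt.div (by fun_prop) (by fun_prop) ?_).add
      (ContinuousAt.div (by fun_prop) (by fun_prop) ?_)).sub (by fun_prop)
    · rw [v0, v1]; positivity
    · rw [v1, v2]; positivity
  have vH : H ((0, 0), θ0) = 0 := by
    simp only [hH, v0, v1, v2, vS, a0, b0, hZ0, hZ1]
    simp only [zero_mul, add_zero]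
    field_simp
    ring
  have e1 : ∀ᶠ p : (ℝ × ℝ) × ℝ in 𝓝 ((0, 0), θ0), |u p.2 + p.1.1 * ψ p.2| < K :=
    (by fun_prop : Continuous fun p : (ℝ × ℝ) × ℝ =>
      |u p.2 + p.1.1 * ψ p.2|).continuousAt.eventually_lt continuousAt_const (by simpa using bu θ0)
  have e2 : ∀ᶠ p in 𝓝 ((0, 0), θ0), D2 p ≠ 0 :=
    cD2.continuousAt.eventually_ne (by rw [v2]; exact d0.ne')
  have e3 : ∀ᶠ p in 𝓝 ((0, 0), θ0), |H p| < η :=
    cH.abs.eventually_lt continuousAt_const (by simpa [vH] using hη)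
  filter_upwards [e1, e2, e3] with p p1 p2 p3
  refine ⟨p1.le, fun hε => ?_⟩
  have q0 : D0 p ≠ 0 := (h.D_pos' p.2 (bu p.2).le).ne'
  have q1 : D1 p ≠ 0 := (h.D_pos' p.2 p1.le).ne'
  have f1 := FF_sub q1 p2
  have f2 := FF_sub' q0 q1
  have f3 : Z1 p - Z0 p = Z0 p * (2 * c * (p.1.1 * ψ p.2) * S p) := by
    have := sub_smul_dslope exp 0 (2 * c * (p.1.1 * ψ p.2))
    simp only [sub_zero, smul_eq_mul, exp_zero] at this
    simp only [hS, this, hZ1, hZ0, mul_add, exp_add]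
    ring
  have : fc c K (prA A A1 p.1.1 (p.1.1 * p.1.2)) (prB B B1 p.1.1 (p.1.1 * p.1.2)) p.2
      (u p.2 + p.1.1 * ψ p.2) - fc c K A B p.2 (u p.2) -
      p.1.1 * (a0 c A B u p.2 * ψ p.2 + b0 c A B A1 B1 u p.2) = p.1.1 * H p := by
    simp only [fc, cl_eq p1.le, cl_eq (bu p.2).le]
    rw [f3] at f2
    change FF _ _ _ (Z1 p) - FF _ _ _ (Z0 p) - _ = _
    rw [← sub_add_sub_cancel _ (FF A B p.2 (Z1 p)) (FF A B p.2 (Z0 p)), f1, f2]
    change _ / (D1 p * D2 p) + _ / (D0 p * D1 p) - _ = _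
    simp only [hH, prA, prB]
    ring
  rw [this, abs_mul, abs_of_pos hε]
  gcongr

theorem melnikov (h : Ang c K M d A B) (c1 : Continuous A1) (c2 : Continuous B1)
    (hu : IsSol (fc c K A B) u) (bu : ∀ θ, |u θ| < K) (e : u (2 * π) = u 0) (θ0 s : ℝ)
    (hs : 0 < s * ∫ θ in (0:ℝ)..2 * π, exp (-∫ t in θ0..θ, a0 c A B u t) * b0 c A B A1 B1 u θ) :
    ∀ᶠ z : ℝ × ℝ in 𝓝 (0, 0), 0 < z.1 → ∀ v,
      IsSol (fc c K (prA A A1 z.1 (z.1 * z.2)) (prB B B1 z.1 (z.1 * z.2))) v → v 0 = u 0 →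
      (∀ θ ∈ Icc 0 (2 * π), |v θ| ≤ K) ∧ 0 < s * (v (2 * π) - u 0) := by
  have ca := h.c_a0 hu.cont fun θ => (bu θ).le
  have cb := h.c_b0 c1 c2 hu.cont fun θ => (bu θ).le
  set a := a0 c A B u
  set b := b0 c A B A1 B1 u
  set I : ℝ → ℝ := fun θ => ∫ t in θ0..θ, a t with hI
  have dI : ∀ θ, HasDerivAt I (a θ) θ := fun θ => (ca.integral_hasStrictDerivAt θ0 θ).hasDerivAt
  have cI : Continuous I := continuous_iff_continuousAt.2 fun θ => (dI θ).continuousAt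
  set ψ : ℝ → ℝ → ℝ := fun η θ => exp (I θ) * ∫ t in (0:ℝ)..θ, exp (-I t) * (b t - η) with hψ
  have dψ : ∀ η θ, HasDerivAt (ψ η) (a θ * ψ η θ + b θ - η) θ := fun η θ => by
    refine ((dI θ).exp.fun_mul (((by fun_prop : Continuous fun t =>
      exp (-I t) * (b t - η)).integral_hasStrictDerivAt 0 θ).hasDerivAt)).congr_deriv ?_
    simp only [hψ, exp_neg]
    field_simp
    ring
  have cψ : ∀ η, Continuous (ψ η) := fun η =>
    continuous_iff_continuousAt.2 fun θ => (dψ η θ).continuousAt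
  have ψ0 : ∀ η, ψ η 0 = 0 := fun η => by simp [hψ]
  set G := ∫ θ in (0:ℝ)..2 * π, exp (-I θ) * b θ
  set J := ∫ θ in (0:ℝ)..2 * π, exp (-I θ)
  have ψ1 : ∀ η, ψ η (2 * π) = exp (I (2 * π)) * (G - η * J) := fun η => by
    simp only [hψ, mul_sub]
    rw [intervalIntegral.integral_sub (Continuous.intervalIntegrable (by fun_prop) _ _)
      (Continuous.intervalIntegrable (by fun_prop) _ _), intervalIntegral.integral_mul_const]
    ring
  obtain ⟨η, hη, g1, g2⟩ : ∃ η, 0 < η ∧ 0 < s * (G - η * J) ∧ 0 < s * (G - -η * J) := by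
    have k1 : ∀ᶠ η in 𝓝 (0:ℝ), 0 < s * (G - η * J) :=
      continuousAt_const.eventually_lt (by fun_prop) (by simpa using hs)
    have k2 : ∀ᶠ η in 𝓝 (0:ℝ), 0 < s * (G - -η * J) :=
      continuousAt_const.eventually_lt (by fun_prop) (by simpa using hs)
    obtain ⟨η, h1, h2⟩ := (((k1.and k2).filter_mono nhdsWithin_le_nhds).and
      (self_mem_nhdsWithin (s := Ioi 0))).exists
    exact ⟨η, h2, h1⟩
  filter_upwards [h.approx c1 c2 hu.cont bu (cψ η) hη, h.approx c1 c2 hu.cont bu (cψ (-η)) hη]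
    with z z1 z2 hε v hv v0
  have lo := sub_le hv (l := fun θ => u θ + z.1 * ψ η θ)
    (fun θ => (hu θ).fun_add ((dψ η θ).const_mul z.1)) (T := 2 * π) (by simp [ψ0, v0])
    (fun θ hθ => by linarith [(abs_lt.1 ((z1 θ hθ).2 hε)).1])
  have hi := le_sup hv (l := fun θ => u θ + z.1 * ψ (-η) θ)
    (fun θ => (hu θ).fun_add ((dψ (-η) θ).const_mul z.1)) (T := 2 * π) (by simp [ψ0, v0])
    (fun θ hθ => by linarith [(abs_lt.1 ((z2 θ hθ).2 hε)).2])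
  refine ⟨fun θ hθ => abs_le.2 ⟨(abs_le.1 (z1 θ hθ).1).1.trans (lo θ hθ),
    (hi θ hθ).trans (abs_le.1 (z2 θ hθ).1).2⟩, ?_⟩
  have l1 := lo _ ⟨two_pi_pos.le, le_rfl⟩
  have l2 := hi _ ⟨two_pi_pos.le, le_rfl⟩
  simp only [ψ1, e] at l1 l2
  have x1 := mul_pos (mul_pos hε (exp_pos (I (2 * π)))) g1
  have x2 := mul_pos (mul_pos hε (exp_pos (I (2 * π)))) g2
  rcases le_total 0 s with s0 | s0
  · nlinarith
  · nlinarith

end Ang

end Pool.Agent.LC5081
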