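import Mathlib

/-! Scalar ordinary differential equations with a globally Lipschitz bounded right-hand side. -/

set_option autoImplicit false

open Set Filter Topology MeasureTheory

namespace Pool.Agent.LC5081

/-- `u` is a global solution of `u' = f t u`. -/
def IsSol (f : ℝ → ℝ → ℝ) (u : ℝ → ℝ) : Prop := ∀ t, HasDerivAt u (f t (u t)) t

/-- Lipschitz in the state variable, uniformly in time. -/
def Lip (f : ℝ → ℝ → ℝ) (L : ℝ) : Prop := 0 ≤ L ∧ ∀ t x y, |f t x - f t y| ≤ L * |x - y|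

theorem Lip.lw {f : ℝ → ℝ → ℝ} {L : ℝ} (h : Lip f L) (t : ℝ) :
    LipschitzWith (⟨L, h.1⟩ : NNReal) (f t) :=
  LipschitzWith.of_dist_le_mul fun x y => h.2 t x y

theorem IsSol.cont {f : ℝ → ℝ → ℝ} {u : ℝ → ℝ} (h : IsSol f u) : Continuous u :=
  continuous_iff_continuousAt.2 fun t => (h t).continuousAt

theorem sol_unique {f : ℝ → ℝ → ℝ} {L : ℝ} (h : Lip f L) {u v : ℝ → ℝ} (hu : IsSol f u)
    (hv : IsSol f v) {t0 : ℝ} (e : u t0 = v t0) : u = v :=
  ODE_solution_unique_univ (s := fun _ => univ) (fun t => (h.lw t).lipschitzOnWith)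
    (fun t => ⟨hu t, trivial⟩) (fun t => ⟨hv t, trivial⟩) e

theorem exists_sol {f : ℝ → ℝ → ℝ} {L B : ℝ} (h : Lip f L) (hc : ∀ x, Continuous fun t => f t x)
    (hb : ∀ t x, |f t x| ≤ B) (t0 x0 : ℝ) : ∃ u, IsSol f u ∧ u t0 = x0 := by
  have hB : 0 ≤ B := (abs_nonneg _).trans (hb 0 0)
  have loc : ∀ n : ℕ, ∃ α : ℝ → ℝ, α t0 = x0 ∧
      ∀ t ∈ Ioo (t0 - (n + 1)) (t0 + (n + 1)), HasDerivAt α (f t (α t)) t := by
    intro n
    have hn : (0 : ℝ) ≤ n + 1 := by positivity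
    have hp : IsPicardLindelof f (tmin := t0 - (n + 1)) (tmax := t0 + (n + 1))
        ⟨t0, by constructor <;> linarith⟩ x0 ⟨B * (n + 1), by positivity⟩ 0 ⟨B, hB⟩ ⟨L, h.1⟩ := by
      refine ⟨fun t _ => (h.lw t).lipschitzOnWith, fun x _ => (hc x).continuousOn,
        fun t _ x _ => hb t x, ?_⟩
      show B * max (t0 + (n + 1) - t0) (t0 - (t0 - (n + 1))) ≤ B * (n + 1) - 0
      simp
    obtain ⟨α, h0, h1⟩ := hp.exists_eq_forall_mem_Icc_hasDerivWithinAt₀
    exact ⟨α, h0, fun t ht => (h1 t (Ioo_subset_Icc_self ht)).hasDerivAt (Icc_mem_nhds ht.1 ht.2)⟩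
  choose α h0 h1 using loc
  have agree : ∀ n m : ℕ, n ≤ m → EqOn (α n) (α m) (Ioo (t0 - (n + 1)) (t0 + (n + 1))) := by
    intro n m hnm
    have hn : (0 : ℝ) < n + 1 := by positivity
    have hnm' : (n : ℝ) ≤ m := by exact_mod_cast hnm
    refine ODE_solution_unique_of_mem_Ioo (s := fun _ => univ) (t₀ := t0)
      (fun t _ => (h.lw t).lipschitzOnWith) ⟨by linarith, by linarith⟩
      (fun t ht => ⟨h1 n t ht, trivial⟩)
      (fun t ht => ⟨h1 m t ⟨by linarith [ht.1], by linarith [ht.2]⟩, trivial⟩) ?_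
    rw [h0, h0]
  have mem : ∀ t : ℝ, t ∈ Ioo (t0 - ((⌈|t - t0|⌉₊ : ℕ) + 1)) (t0 + ((⌈|t - t0|⌉₊ : ℕ) + 1)) := by
    intro t
    have := Nat.le_ceil |t - t0|
    have h2 := le_abs_self (t - t0)
    have h3 := neg_abs_le (t - t0)
    constructor <;> linarith
  have key : ∀ (n : ℕ) (t : ℝ), t ∈ Ioo (t0 - (n + 1)) (t0 + (n + 1)) →
      α ⌈|t - t0|⌉₊ t = α n t := by
    intro n t ht
    rcases le_total n ⌈|t - t0|⌉₊ with hh | hh
    · exact (agree _ _ hh ht).symm
    · exact agree _ _ hh (mem t)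
  refine ⟨fun t => α ⌈|t - t0|⌉₊ t, fun t => ?_, h0 _⟩
  refine (h1 _ t (mem t)).congr_of_eventuallyEq ?_
  filter_upwards [Ioo_mem_nhds (mem t).1 (mem t).2] with s hs using key _ s hs

theorem sol_lt {f : ℝ → ℝ → ℝ} {L : ℝ} (h : Lip f L) {u v : ℝ → ℝ} (hu : IsSol f u)
    (hv : IsSol f v) {t0 : ℝ} (e : u t0 < v t0) (t : ℝ) : u t < v t := by
  by_contra hn
  push Not at hn
  have hc : Continuous fun s => v s - u s := hv.cont.sub hu.cont
  have : (0 : ℝ) ∈ range fun s => v s - u s :=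
    intermediate_value_univ t t0 hc ⟨by simpa using hn, by simpa using e.le⟩
  obtain ⟨s, hs⟩ := this
  have : u = v := sol_unique h hu hv (t0 := s) (by simp at hs; linarith)
  rw [this] at e
  exact lt_irrefl _ e

theorem sol_le {f : ℝ → ℝ → ℝ} {L : ℝ} (h : Lip f L) {u v : ℝ → ℝ} (hu : IsSol f u)
    (hv : IsSol f v) {t0 : ℝ} (e : u t0 ≤ v t0) (t : ℝ) : u t ≤ v t := by
  rcases e.lt_or_eq with e | e
  · exact (sol_lt h hu hv e t).le
  · rw [sol_unique h hu hv e]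

theorem gron_fwd {f g : ℝ → ℝ → ℝ} {L ε : ℝ} (h : Lip f L) {u v : ℝ → ℝ} (hu : IsSol f u)
    (hv : IsSol g v) {T : ℝ} (hT : 0 ≤ T) (hfg : ∀ t ∈ Icc 0 T, ∀ x, |g t x - f t x| ≤ ε) :
    |u T - v T| ≤ gronwallBound |u 0 - v 0| L ε T := by
  have := dist_le_of_approx_trajectories_ODE (v := f) (K := ⟨L, h.1⟩) (f := u) (g := v)
    (f' := fun t => f t (u t)) (g' := fun t => g t (v t)) (a := 0) (b := T) (εf := 0) (εg := ε)
    (δ := |u 0 - v 0|) h.lw hu.cont.continuousOn (fun t _ => (hu t).hasDerivWithinAt)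
    (fun t _ => by simp) hv.cont.continuousOn (fun t _ => (hv t).hasDerivWithinAt)
    (fun t ht => hfg t (Ico_subset_Icc_self ht) _) (by simp [Real.dist_eq]) T ⟨hT, le_rfl⟩
  rw [zero_add, sub_zero] at this
  exact this

theorem IsSol.neg {f : ℝ → ℝ → ℝ} {u : ℝ → ℝ} (hu : IsSol f u) :
    IsSol (fun t x => -f (-t) x) (fun t => u (-t)) := by
  intro t
  have := (hu (-t)).comp t (hasDerivAt_neg t)
  simpa [Function.comp_def] using this

theorem Lip.neg {f : ℝ → ℝ → ℝ} {L : ℝ} (h : Lip f L) : Lip (fun t x => -f (-t) x) L :=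
  ⟨h.1, fun t x y => by
    have := h.2 (-t) x y
    rwa [show -f (-t) x - -f (-t) y = -(f (-t) x - f (-t) y) by ring, abs_neg]⟩

theorem gron {f g : ℝ → ℝ → ℝ} {L ε : ℝ} (h : Lip f L) {u v : ℝ → ℝ} (hu : IsSol f u)
    (hv : IsSol g v) (T : ℝ) (hfg : ∀ t, |t| ≤ |T| → ∀ x, |g t x - f t x| ≤ ε) :
    |u T - v T| ≤ gronwallBound |u 0 - v 0| L ε |T| := by
  rcases le_total 0 T with hT | hT
  · rw [abs_of_nonneg hT] at hfg ⊢
    exact gron_fwd h hu hv hT fun t ht => hfg t (by rw [abs_of_nonneg ht.1]; exact ht.2)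
  · rw [abs_of_nonpos hT] at hfg ⊢
    have := gron_fwd (ε := ε) h.neg hu.neg hv.neg (T := -T) (by linarith) (fun t ht x => by
      have := hfg (-t) (by rw [abs_neg, abs_of_nonneg ht.1]; exact ht.2) x
      rwa [show -g (-t) x - -f (-t) x = -(g (-t) x - f (-t) x) by ring, abs_neg])
    simpa using this

/-- Comparison with a strict subsolution. -/
theorem sub_le {f : ℝ → ℝ → ℝ} {u l l' : ℝ → ℝ} (hu : IsSol f u)
    (hl : ∀ t, HasDerivAt l (l' t) t) {T : ℝ} (h0 : l 0 ≤ u 0)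
    (hs : ∀ t ∈ Icc 0 T, l' t < f t (l t)) : ∀ t ∈ Icc 0 T, l t ≤ u t := by
  intro t ht
  refine image_le_of_deriv_right_lt_deriv_boundary (f := l) (f' := l') (a := 0) (b := T)
    (B := u) (B' := fun t => f t (u t))
    (continuous_iff_continuousAt.2 fun t => (hl t).continuousAt).continuousOn
    (fun t _ => (hl t).hasDerivWithinAt) h0 hu (fun s hs' e => ?_) ht
  rw [← e]; exact hs s (Ico_subset_Icc_self hs')

/-- Comparison with a strict supersolution. -/
theorem le_sup {f : ℝ → ℝ → ℝ} {u l l' : ℝ → ℝ} (hu : IsSol f u)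
    (hl : ∀ t, HasDerivAt l (l' t) t) {T : ℝ} (h0 : u 0 ≤ l 0)
    (hs : ∀ t ∈ Icc 0 T, f t (l t) < l' t) : ∀ t ∈ Icc 0 T, u t ≤ l t := by
  intro t ht
  refine image_le_of_deriv_right_lt_deriv_boundary (f := u) (f' := fun t => f t (u t))
    (a := 0) (b := T) (B := l) (B' := l') hu.cont.continuousOn
    (fun t _ => (hu t).hasDerivWithinAt) h0 hl (fun s hs' e => ?_) ht
  rw [e]; exact hs s (Ico_subset_Icc_self hs')

theorem mono_of_deriv {g g' : ℝ → ℝ} (hg : ∀ t, HasDerivAt g (g' t) t) {a b : ℝ} (hab : a ≤ b)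
    (h : ∀ t ∈ Icc a b, 0 ≤ g' t) : g a ≤ g b := by
  have hm : MonotoneOn g (Icc a b) := by
    refine monotoneOn_of_deriv_nonneg (convex_Icc a b)
      (continuous_iff_continuousAt.2 fun t => (hg t).continuousAt).continuousOn
      (fun t _ => (hg t).differentiableAt.differentiableWithinAt) fun t ht => ?_
    rw [(hg t).deriv]
    exact h t (interior_subset ht)
  exact hm ⟨le_rfl, hab⟩ ⟨hab, le_rfl⟩ hab

/-- Forward integration of an exponential lower bound on the derivative. -/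
theorem fwd_bound {g g' : ℝ → ℝ} (hg : ∀ t, HasDerivAt g (g' t) t) {a b A ν : ℝ} (hab : a ≤ b)
    (hA : 0 ≤ A) (hν : 0 < ν) (h : ∀ t ∈ Icc a b, -(A * Real.exp (ν * t)) ≤ g' t) :
    g a - A / ν * Real.exp (ν * b) ≤ g b := by
  have := mono_of_deriv (g := fun t => g t + A / ν * Real.exp (ν * t))
    (g' := fun t => g' t + A / ν * (Real.exp (ν * t) * ν))
    (fun t => (hg t).add (HasDerivAt.const_mul _ (by
      simpa using ((hasDerivAt_id t).const_mul ν).exp))) hab (fun t ht => by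
      have := h t ht
      have e : A / ν * (Real.exp (ν * t) * ν) = A * Real.exp (ν * t) := by field_simp
      simp only [e]; linarith)
  have h2 : 0 ≤ A / ν * Real.exp (ν * a) := by positivity
  linarith

/-- Backward integration of an exponential lower bound on the derivative. -/
theorem bwd_bound {g g' : ℝ → ℝ} (hg : ∀ t, HasDerivAt g (g' t) t) {a b A ν : ℝ} (hab : a ≤ b)
    (hA : 0 ≤ A) (hν : 0 < ν) (h : ∀ t ∈ Icc a b, -(A * Real.exp (-ν * t)) ≤ g' t) :
    g a ≤ g b + A / ν * Real.exp (-ν * a) := by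
  have := mono_of_deriv (g := fun t => g t - A / ν * Real.exp (-ν * t))
    (g' := fun t => g' t - A / ν * (Real.exp (-ν * t) * (-ν)))
    (fun t => (hg t).sub (HasDerivAt.const_mul _ (by
      simpa using ((hasDerivAt_id t).const_mul (-ν)).exp))) hab (fun t ht => by
      have := h t ht
      have e : A / ν * (Real.exp (-ν * t) * (-ν)) = -(A * Real.exp (-ν * t)) := by field_simp
      simp only [e]; linarith)
  have h2 : 0 ≤ A / ν * Real.exp (-ν * b) := by positivity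
  linarith

end Pool.Agent.LC5081
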