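import Pool.Agent.Lib.MP_5081b1_an.Rem

/-! Polynomial data: growth, logarithmic derivatives, and the local sign. -/

set_option autoImplicit false

open Set Filter Topology MeasureTheory Real Polynomial

namespace Pool.Agent.LC5081

structure Good (p : ℝ[X]) (n : ℕ) : Prop where
  nn : ∀ i, 0 ≤ p.coeff i
  c0 : 0 < p.coeff 0
  dg : p.natDegree ≤ n
  top : 0 < p.coeff n

noncomputable def evs (h : ℝ) (n : ℕ) (a : ℕ → ℝ) (σ : ℝ) : ℝ :=
  ∑ i ∈ Finset.range (n + 1), a i * exp ((h + i) * σ)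

noncomputable def evd (h : ℝ) (n : ℕ) (p : ℝ[X]) : ℝ → ℝ := evs h n fun i => p.coeff i * (h + i)

theorem ev_eq (h : ℝ) {p : ℝ[X]} {n : ℕ} (hp : p.natDegree ≤ n) : ev h p = evs h n p.coeff := by
  funext σ
  rw [ev, eval_eq_sum_range' (Nat.lt_succ_of_le hp), evs, Finset.mul_sum]
  refine Finset.sum_congr rfl fun i _ => ?_
  rw [add_mul, exp_add, ← exp_nat_mul]; ring

theorem ev_deriv (h : ℝ) {p : ℝ[X]} {n : ℕ} (hp : p.natDegree ≤ n) (σ : ℝ) :
    HasDerivAt (ev h p) (evd h n p σ) σ := by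
  rw [ev_eq h hp]
  refine (HasDerivAt.fun_sum fun (i : ℕ) _ =>
    (((hasDerivAt_id σ).const_mul (h + i)).exp.const_mul (p.coeff i))).congr_deriv ?_
  exact Finset.sum_congr rfl fun i _ => by simp only [id]; ring

theorem evs_lim (h : ℝ) (n : ℕ) (a : ℕ → ℝ) :
    Tendsto (fun σ => evs h n a σ * exp (-(h + n) * σ)) atTop (𝓝 (a n)) := by
  simp only [evs, Finset.sum_range_succ, add_mul (Finset.sum _ _), Finset.sum_mul, mul_assoc,
    ← exp_add]
  have : Tendsto (fun σ : ℝ => ∑ i ∈ Finset.range n, a i * exp ((h + i) * σ + -(h + n) * σ)) atTop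
      (𝓝 (∑ i ∈ Finset.range n, a i * 0)) := by
    refine tendsto_finsetSum _ fun i hi => Tendsto.const_mul _ ?_
    have : (i : ℝ) < n := by exact_mod_cast Finset.mem_range.1 hi
    refine (tendsto_exp_atBot.comp (tendsto_id.const_mul_atTop_of_neg
      (show (i : ℝ) - n < 0 by linarith))).congr fun σ => ?_
    simp only [Function.comp, id]; congr 1; ring
  simp only [show ∀ σ : ℝ, (h + n) * σ + -(h + n) * σ = 0 from fun σ => by ring, exp_zero, mul_one]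
  simpa using this.add_const (a n)

theorem evs_up (h : ℝ) (n : ℕ) (a : ℕ → ℝ) : Up (evs h n a) h (h + n) := by
  induction n with
  | zero =>
    have : evs h 0 a = fun σ => a 0 * exp (h * σ) := by funext σ; simp [evs]
    simpa [this] using (up_exp h).smul (a 0)
  | succ n ih =>
    have := ih.add_exp (lo' := h) (hi' := h + (n + 1 : ℕ)) (e := h + (n + 1 : ℕ)) (a (n + 1)) le_rfl
      (by push_cast; linarith) (le_add_of_nonneg_right (Nat.cast_nonneg _)) le_rfl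
    refine (?_ : evs h (n + 1) a = _) ▸ this
    funext σ; rw [evs, Finset.sum_range_succ]; rfl

theorem ev_up (h : ℝ) {p : ℝ[X]} {n : ℕ} (hp : p.natDegree ≤ n) : Up (ev h p) h (h + n) :=
  ev_eq h hp ▸ evs_up h n _

theorem ev_lim (h : ℝ) {p : ℝ[X]} {n : ℕ} (hp : p.natDegree ≤ n) :
    Tendsto (fun σ => ev h p σ * exp (-(h + n) * σ)) atTop (𝓝 (p.coeff n)) :=
  ev_eq h hp ▸ evs_lim h n _

theorem ev_smul (h t : ℝ) (p : ℝ[X]) : ev h (C t * p) = fun σ => t * ev h p σ := by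
  funext σ; simp only [ev, eval_mul, eval_C]; ring

namespace Good

variable {p q : ℝ[X]} {n a b : ℕ}

theorem le (g : Good p n) (h σ : ℝ) {i : ℕ} (hi : i ≤ n) :
    p.coeff i * exp ((h + i) * σ) ≤ ev h p σ := by
  rw [ev_eq h g.dg]
  exact Finset.single_le_sum (f := fun i : ℕ => p.coeff i * exp ((h + i) * σ))
    (fun i _ => mul_nonneg (g.nn i) (exp_pos _).le) (Finset.mem_range_succ_iff.2 hi)

theorem pos (g : Good p n) (h σ : ℝ) : 0 < ev h p σ :=
  (mul_pos g.top (exp_pos _)).trans_le (g.le h σ le_rfl)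

theorem lo (g : Good p n) (h : ℝ) : Lo (ev h p) h (h + n) := by
  refine ⟨min (log (p.coeff 0)) (log (p.coeff n)), fun σ _ => ?_, fun σ _ => ?_⟩
  · refine le_trans ?_ (g.le h σ (Nat.zero_le n))
    rw [← exp_log g.c0, ← exp_add, log_exp]
    exact exp_le_exp.2 (by simp)
  · refine le_trans ?_ (g.le h σ le_rfl)
    rw [← exp_log g.top, ← exp_add, log_exp]
    exact exp_le_exp.2 (by simp)

theorem add_top (g : Good p n) {δ : ℝ} (hδ : 0 < δ) {m : ℕ} (hm : n ≤ m) :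
    Good (p + C δ * X ^ m) m := by
  refine ⟨fun i => ?_, ?_, deg_add (g.dg.trans hm) δ le_rfl, ?_⟩
  · rw [coeff_add, coeff_C_mul_X_pow]; have := g.nn i; split_ifs <;> linarith
  · rw [coeff_add, coeff_C_mul_X_pow]; have := g.c0; split_ifs <;> linarith
  · rw [coeff_add, coeff_C_mul_X_pow, if_pos rfl]; linarith [g.nn m]

theorem add_low (g : Good p n) {δ : ℝ} (hδ : 0 < δ) {m : ℕ} (hm : m ≤ n) :
    Good (p + C δ * X ^ m) n := by
  refine ⟨fun i => ?_, ?_, deg_add g.dg δ hm, ?_⟩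
  · rw [coeff_add, coeff_C_mul_X_pow]; have := g.nn i; split_ifs <;> linarith
  · rw [coeff_add, coeff_C_mul_X_pow]; have := g.c0; split_ifs <;> linarith
  · rw [coeff_add, coeff_C_mul_X_pow]; have := g.top; split_ifs <;> linarith

theorem one : Good (X ^ 0 : ℝ[X]) 0 :=
  ⟨fun i => by rw [coeff_X_pow]; split_ifs <;> norm_num, by simp, by simp, by simp⟩

theorem ratio (g : Good p n) (h : ℝ) :
    Tendsto (fun σ => evd h n p σ / ev h p σ) atTop (𝓝 (h + n)) := by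
  have := (evs_lim h n fun i => p.coeff i * (h + i)).div (ev_lim h g.dg) g.top.ne'
  rw [mul_div_cancel_left₀ _ g.top.ne'] at this
  refine this.congr fun σ => ?_
  simp only [Pi.div_apply]
  exact mul_div_mul_right _ _ (exp_pos _).ne'

theorem d_le (g : Good p n) (σ : ℝ) : 0 ≤ evd 0 n p σ ∧ evd 0 n p σ ≤ n * ev 0 p σ := by
  rw [ev_eq 0 g.dg, evd, evs, evs, Finset.mul_sum]
  refine ⟨Finset.sum_nonneg fun i _ => ?_, Finset.sum_le_sum fun i hi => ?_⟩
  · have := g.nn i; positivity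
  · have : (i : ℝ) ≤ n := by exact_mod_cast Finset.mem_range_succ_iff.1 hi
    have := mul_le_mul_of_nonneg_right this (mul_nonneg (g.nn i) (exp_pos ((0 + i) * σ)).le)
    linarith

theorem d_mono (g : Good p n) {s t : ℝ} (hst : s ≤ t) :
    evd 0 n p s / ev 0 p s ≤ evd 0 n p t / ev 0 p t := by
  rw [div_le_div_iff₀ (g.pos 0 s) (g.pos 0 t), ev_eq 0 g.dg, evd, ← sub_nonneg]
  simp only [evs, Finset.sum_mul_sum, ← Finset.sum_sub_distrib, zero_add]
  set f : ℕ → ℕ → ℝ := fun i j => p.coeff i * i * exp (i * t) * (p.coeff j * exp (j * s)) -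
    p.coeff i * i * exp (i * s) * (p.coeff j * exp (j * t)) with hf
  have h2 : 0 ≤ ∑ i ∈ Finset.range (n + 1), ∑ j ∈ Finset.range (n + 1), (f i j + f j i) := by
    refine Finset.sum_nonneg fun i _ => Finset.sum_nonneg fun j _ => ?_
    have e : f i j + f j i = p.coeff i * p.coeff j *
        ((i - j) * (exp (i * t + j * s) - exp (i * s + j * t))) := by
      simp only [hf, exp_add]; ring
    rw [e]
    refine mul_nonneg (mul_nonneg (g.nn i) (g.nn j)) ?_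
    rcases le_total (i : ℝ) j with h | h
    · exact mul_nonneg_of_nonpos_of_nonpos (by linarith)
        (sub_nonpos.2 (exp_le_exp.2 (by nlinarith)))
    · exact mul_nonneg (by linarith) (sub_nonneg.2 (exp_le_exp.2 (by nlinarith)))
  simp only [Finset.sum_add_distrib] at h2
  rw [Finset.sum_comm (f := fun i j => f j i)] at h2
  change 0 ≤ ∑ i ∈ Finset.range (n + 1), ∑ j ∈ Finset.range (n + 1), f i j
  linarith

theorem toPos (gp : Good p a) (gq : Good q b) {c : ℝ} (hc : 0 < c) : Pos c (ev 1 p) (ev 0 q) :=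
  ⟨hc, ev_cont _ _, ev_cont _ _, gp.pos 1, gq.pos 0⟩

end Good

noncomputable def kap (a b : ℕ) (p q : ℝ[X]) (σ : ℝ) : ℝ :=
  evd 0 b q σ / ev 0 q σ - evd 1 a p σ / ev 1 p σ

theorem kap_spec {p q : ℝ[X]} {a b : ℕ} (gp : Good p a) (gq : Good q b) :
    Kap (ev 1 p) (ev 0 q) (kap a b p q) := fun σ =>
  ((ev_deriv 0 gq.dg σ).log (gq.pos 0 σ).ne').fun_sub ((ev_deriv 1 gp.dg σ).log (gp.pos 1 σ).ne')

theorem kap_lim {p q : ℝ[X]} {a b : ℕ} (gp : Good p a) (gq : Good q b) :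
    Tendsto (kap a b p q) atTop (𝓝 (b - a - 1)) := by
  have := (gq.ratio 0).sub (gp.ratio 1)
  rwa [show (0 : ℝ) + b - (1 + a) = b - a - 1 by ring] at this

theorem bd_of {c : ℝ} {p q : ℝ[X]} {a b : ℕ} (gp : Good p a) (gq : Good q b) (hc : 0 < c) :
    ∀ᶠ A in atTop, Bd c A (ev 1 p) (ev 0 q) ∧
      (a + 2 ≤ b → ∀ σ, 0 ≤ σ → ev 1 p σ ≤ exp (A + -1 * σ) * ev 0 q σ) ∧
      ((b : ℝ) ≤ a + c → ∀ σ, 0 ≤ σ → ev 0 q σ ≤ exp (A + (c - 1) * σ) * ev 1 p σ) := by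
  obtain ⟨aP, P1, P2⟩ := ev_up 1 gp.dg
  obtain ⟨aQ, -, Q2⟩ := ev_up 0 gq.dg
  obtain ⟨bP, -, P4⟩ := gp.lo 1
  obtain ⟨bQ, Q3, Q4⟩ := gq.lo 0
  filter_upwards [eventually_ge_atTop (aP - bQ), eventually_ge_atTop (aQ - bP),
    eventually_ge_atTop (-bQ)] with A h1 h2 h3
  refine ⟨⟨gp.toPos gq hc, fun σ hσ => ?_, fun σ hσ => ?_⟩, fun h σ hσ => ?_, fun h σ hσ => ?_⟩
  · exact ((le_abs_self _).trans (P1 σ hσ)).trans (le_mul le_rfl (Q3 σ hσ) (by linarith))
  · exact (exp_le_exp.2 (by linarith)).trans (Q3 σ hσ)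
  · have : (a : ℝ) + 2 ≤ b := by exact_mod_cast h
    exact ((le_abs_self _).trans (P2 σ hσ)).trans (le_mul le_rfl (Q4 σ hσ) (by nlinarith))
  · exact ((le_abs_self _).trans (Q2 σ hσ)).trans (le_mul le_rfl (P4 σ hσ) (by nlinarith))

theorem rb_of {p q : ℝ[X]} {a b : ℕ} (gp : Good p a) (gq : Good q b) {R : ℝ → ℝ} {d μ : ℝ}
    (cR : Continuous R) (u : Up R (1 / 2) d) (hμ : d - (a + 1) - b ≤ μ) (hμ' : μ ≤ -(1 / 6)) :
    ∀ᶠ A in atTop, RB A (ev 1 p) (ev 0 q) R ∧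
      ∀ σ, 0 ≤ σ → |R σ| ≤ exp (A + μ * σ) * (ev 1 p σ * ev 0 q σ) := by
  obtain ⟨aR, R1, R2⟩ := u
  obtain ⟨bP, -, P4⟩ := gp.lo 1
  obtain ⟨bQ, -, Q4⟩ := gq.lo 0
  filter_upwards [eventually_ge_atTop aR, eventually_ge_atTop (aR - bP - bQ)] with A h1 h2
  have key : ∀ μ', μ ≤ μ' → ∀ σ, 0 ≤ σ → |R σ| ≤ exp (A + μ' * σ) * (ev 1 p σ * ev 0 q σ) :=
    fun μ' h σ hσ => (R2 σ hσ).trans (le_mul le_rfl (le_mul (P4 σ hσ) (Q4 σ hσ) le_rfl)
      (by nlinarith))
  exact ⟨⟨cR, fun σ hσ => (R1 σ hσ).trans (exp_le_exp.2 (by linarith)), key _ hμ'⟩, key _ le_rfl⟩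

theorem rb_poly {p q r : ℝ[X]} {a b d : ℕ} (gp : Good p a) (gq : Good q b) (dr : r.natDegree ≤ d)
    (hd : d ≤ a + b) : ∀ᶠ A in atTop, RB A (ev 1 p) (ev 0 q) (ev (1 / 2) r) ∧ ∀ σ, 0 ≤ σ →
      |ev (1 / 2) r σ| ≤ exp (A + (d - a - b - 1 / 2) * σ) * (ev 1 p σ * ev 0 q σ) := by
  have : (d : ℝ) ≤ a + b := by exact_mod_cast hd
  exact rb_of gp gq (ev_cont _ _) (ev_up _ dr) (by linarith) (by linarith)

theorem sl_of {c : ℝ} {p q : ℝ[X]} {a b : ℕ} (gp : Good p a) (gq : Good q b) (hc : 0 < c)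
    (h1 : a + 2 ≤ b) (h2 : (b : ℝ) ≤ a + c) : ∀ᶠ A in atTop, Sl c A (ev 1 p) (ev 0 q) := by
  have h1' : (a : ℝ) + 2 ≤ b := by exact_mod_cast h1
  have a0 : (0 : ℝ) ≤ a := Nat.cast_nonneg a
  filter_upwards [bd_of gp gq hc, rb_of gp gq (R := e0) (μ := -(1 / 6)) (by unfold e0; fun_prop)
    (up_exp _) (by linarith) le_rfl, rb_of gp gq (R := e1) (μ := -(1 / 6)) (d := 3 / 2)
    (by unfold e1; fun_prop) ((up_exp _).mono (by norm_num) le_rfl) (by linarith) le_rfl]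
    with A b1 b2 b3 using ⟨b1.1, b1.2.1 h1, b1.2.2 h2, b2.1, b3.1⟩

theorem N1_smul (c : ℝ) (P Q R : ℝ → ℝ) (t W : ℝ) :
    N1 c P Q (fun σ => t * R σ) W = t * N1 c P Q R W := by
  simp only [N1, mul_assoc, integral_const_mul]

theorem Tun.smul {c : ℝ} {P Q R : ℝ → ℝ} {V : ℝ} (h : Tun c P Q R V) (t : ℝ) :
    Tun c P Q (fun σ => t * R σ) V :=
  ⟨by rw [MM_smul, h.1, mul_zero], by rw [N1_smul, h.2, mul_zero]⟩

/-- A tuned state on a sliding separatrix. -/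
structure PS (c : ℝ) (a b d : ℕ) (p q r : ℝ[X]) (V : ℝ) : Prop where
  gp : Good p a
  gq : Good q b
  dr : r.natDegree ≤ d
  sep : Sep c (ev 1 p) (ev 0 q) V
  tun : Tun c (ev 1 p) (ev 0 q) (ev (1 / 2) r) V
  det : dt c (ev 1 p) (ev 0 q) V ≠ 0

theorem PS.loc {c : ℝ} {a b d : ℕ} {p q r : ℝ[X]} {V t : ℝ} (h : PS c a b d p q r V) (hc : 0 < c)
    (h1 : a + 2 ≤ b) (h2 : (b : ℝ) ≤ a + c) (hd : d ≤ a + b) (ht : 0 < t * r.coeff d)
    (hμ : (a + b + 1 / 2 - d) * c < (b - a - 1) * (c - (b - a - 1))) :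
    ∀ᶠ W in 𝓝[≠] V, 0 < -t * MM c (ev 1 p) (ev 0 q) (ev (1 / 2) r) W := by
  have gp := h.gp; have gq := h.gq
  have h1' : (a : ℝ) + 2 ≤ b := by exact_mod_cast h1
  have hd' : (d : ℝ) ≤ a + b := by exact_mod_cast hd
  have dr : (C t * r).natDegree ≤ d := (natDegree_C_mul_le t r).trans h.dr
  have ct : 0 < (C t * r).coeff d := by rwa [coeff_C_mul]
  have tun := h.tun.smul t
  rw [← ev_smul] at tun
  suffices ∀ᶠ W in 𝓝[≠] V, MM c (ev 1 p) (ev 0 q) (ev (1 / 2) (C t * r)) W < 0 by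
    filter_upwards [this] with W hW
    rw [ev_smul, MM_smul] at hW
    linarith
  generalize C t * r = r' at *
  obtain ⟨A, b1, b2, b3⟩ := ((bd_of gp gq hc).and (rb_poly gp gq dr hd)).exists
  have lR := ev_lim (1 / 2) dr; have lP := ev_lim 1 gp.dg; have lQ := ev_lim 0 gq.dg
  have tp := gp.top; have tq := gq.top
  refine local_neg (B := log (r'.coeff d / (p.coeff a * q.coeff b) / 2)) b1.1 (kap_spec gp gq)
    (kap_lim gp gq) (by linarith) (by linarith) h.sep b2 b3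
    (fun σ => (ev_deriv _ dr σ).fun_div ((ev_deriv 1 gp.dg σ).fun_mul (ev_deriv 0 gq.dg σ))
      (mul_pos (gp.pos 1 σ) (gq.pos 0 σ)).ne') (Eventually.and ?_ ?_) ?_ tun
  · have l := ((evs_lim (1 / 2) d fun i => r'.coeff i * (1 / 2 + i)).mul (lP.mul lQ)).sub
      (lR.mul (((evs_lim 1 a fun i => p.coeff i * (1 + i)).mul lQ).add
        (lP.mul (evs_lim 0 b fun i => q.coeff i * (0 + i)))))
    filter_upwards [l.eventually_lt_const (u := 0) (by
      have : 0 < r'.coeff d * p.coeff a * q.coeff b * (a + b + 1 / 2 - d) :=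
        mul_pos (by positivity) (by linarith)
      linarith)] with σ hσ
    refine div_nonpos_of_nonpos_of_nonneg (le_of_lt (neg_of_mul_neg_left (b :=
      exp (-(1 / 2 + d) * σ) * exp (-(1 + a) * σ) * exp (-(0 + b) * σ)) ?_ (by positivity)))
      (sq_nonneg _)
    refine lt_of_eq_of_lt ?_ hσ
    unfold evd; ring
  · have l := lR.div (lP.mul lQ) (by positivity)
    have : 0 < r'.coeff d / (p.coeff a * q.coeff b) := by positivity
    filter_upwards [l.eventually_const_lt (half_lt_self this)] with σ hσ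
    rw [exp_add, exp_log (by positivity)]
    refine (mul_le_mul_of_nonneg_right hσ.le (exp_pos _).le).trans (le_of_eq ?_)
    have e : exp (-(1 / 2 + d) * σ) * exp ((d - a - b - 1 / 2) * σ) =
        exp (-(1 + a) * σ) * exp (-(0 + b) * σ) := by
      rw [← exp_add, ← exp_add]; congr 1; ring
    have := gp.pos 1 σ; have := gq.pos 0 σ
    simp only [Pi.div_apply]
    have := exp_pos (-(1 + a) * σ); have := exp_pos (-(0 + b) * σ)
    generalize exp (-(1 + a) * σ) = x1 at *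
    generalize exp (-(0 + b) * σ) = x2 at *
    generalize exp (-(1 / 2 + d) * σ) = x3 at *
    generalize exp ((d - a - b - 1 / 2) * σ) = x4 at *
    field_simp
    linear_combination ev (1 / 2) r' σ * e
  · have e : c * ((b - a - 1) / c * (1 - (b - a - 1) / c)) = (b - a - 1) * (c - (b - a - 1)) / c := by
      field_simp
    rw [e, lt_div_iff₀ hc]; linarith

end Pool.Agent.LC5081
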