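import Pool.Agent.Lib.MP_5081b1_an.Stp

/-! The one-sided slide: a root of `R` followed by a root of `Q` gives two sign changes. -/

set_option autoImplicit false

open Set Filter Topology MeasureTheory Real Polynomial

namespace Pool.Agent.LC5081

theorem Pos.exists_through {c : ℝ} {P Q : ℝ → ℝ} (h : Pos c P Q) (t y : ℝ) :
    ∃ W, sol c P Q W t = y := by
  obtain ⟨u, hu, u0⟩ := exists_sol (B := c) h.lip
    (fun x => ((continuous_const.mul h.cP).div (h.cP.add (continuous_const.mul h.cQ))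
      fun t => (h.den t x).ne').neg)
    (fun t x => by
      have := h.fw_le t x; have := h.fw_ge t x
      rw [abs_le]; constructor <;> linarith [h.hc]) t y
  exact ⟨u 0, by rw [sol_unique h.lip (h.spec _).1 hu (h.spec _).2, u0]⟩

theorem Pos.E_ge {c : ℝ} {P Q : ℝ → ℝ} (h : Pos c P Q) {V σ : ℝ} (hc : 4 ≤ c)
    (h1 : 2 ≤ c * th c P Q V σ) (h2 : c * th c P Q V σ ≤ c - 2) : 1 ≤ c * EE c P Q V σ := by
  rw [h.EE_eq]
  refine le_of_mul_le_mul_left ?_ h.hc
  nlinarith [mul_nonneg (sub_nonneg.2 h1) (sub_nonneg.2 h2)]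

theorem kap_new {b : ℕ} {q : ℝ[X]} (gq : Good q b) (η σ : ℝ) :
    kap 0 (b + 1) (X ^ 0) (q + C η * X ^ (b + 1)) σ =
      (evd 0 b q σ + (b + 1) * (η * exp ((b + 1) * σ))) / (ev 0 q σ + η * exp ((b + 1) * σ)) - 1 := by
  have e := ev_add 0 q η (b + 1) (e := b + 1) (by push_cast; ring)
  have d1 := ev_deriv 0 (deg_add (gq.dg.trans (Nat.le_succ b)) η (le_refl (b + 1))) σ
  have d2 := (ev_deriv 0 gq.dg σ).fun_add
    (((hasDerivAt_id σ).const_mul ((b : ℝ) + 1)).exp.const_mul η)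
  rw [e] at d1
  rw [kap_zero, d1.unique d2, e]
  simp only [id]; ring

theorem PS.qstep {c : ℝ} {b N : ℕ} {q r : ℝ[X]} {V t : ℝ} (h : PS c 0 b b (X ^ 0) q r V)
    (hb : 4 ≤ b) (hc : (b : ℝ) + 2 ≤ c) (ht : |t| = 1) (hr : 0 < -t * r.coeff b)
    (ch : ChainS (MM c (ev 1 (X ^ 0)) (ev 0 q) (ev (1 / 2) r)) (Iio V) N t) :
    ∃ q' r' V', PS c 0 (b + 1) (b + 1) (X ^ 0) q' r' V' ∧ q'.coeff 0 = q.coeff 0 ∧
      0 < -t * r'.coeff (b + 1) ∧
      ChainS (MM c (ev 1 (X ^ 0)) (ev 0 q') (ev (1 / 2) r')) (Iio V') (N + 2) t := by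
  have hb' : (4 : ℝ) ≤ b := by exact_mod_cast hb
  have c0 : 0 < c := by linarith
  have gp := h.gp; have gq := h.gq
  set s := -t with hs
  have s1 : |s| = 1 := by rw [hs, abs_neg, ht]
  have s2 : s * s = 1 := by rw [← abs_mul_abs_self, s1, one_mul]
  have eP : ev 1 (X ^ 0) = fun σ => exp (1 * σ) := ev_mono _ _ (by simp)
  obtain ⟨aR, -, R2⟩ := ev_up (1 / 2) h.dr
  obtain ⟨aQ, -, Q2⟩ := ev_up 0 gq.dg
  obtain ⟨bQ, -, Q4⟩ := gq.lo 0
  obtain ⟨A, A0, b1, b2, b3⟩ := ((eventually_ge_atTop |bQ|).and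
    ((sl_of (c := c) gp gq c0 (by omega) (by push_cast; linarith)).and
    ((rb_poly gp gq h.dr (by omega)).and
    (rb_of gp gq (R := fun σ => exp ((1 / 2 + b) * σ)) (d := 1 / 2 + b) (μ := -(1 / 2))
      (by fun_prop) ((up_exp _).mono (by linarith) le_rfl) (by push_cast; linarith)
      (by norm_num))))).exists
  have q1 := abs_nonneg bQ; have q2 := neg_le_abs bQ; have q3 := abs_nonneg aQ
  have q4 := le_abs_self aQ; have q5 := abs_nonneg aR; have q6 := le_abs_self aR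
  set ρ := s * r.coeff b / 2 with hρ
  have ρ0 : 0 < ρ := half_pos hr
  obtain ⟨σ1, hσ1⟩ := eventually_atTop.1 ((eventually_ge_atTop 0).and
    (((kap_lim gp gq).eventually_const_le (u := 2) (by push_cast; linarith)).and
      (((ev_lim (1 / 2) h.dr).const_mul s).eventually_const_le (half_lt_self hr))))
  have s10 : 0 ≤ σ1 := (hσ1 σ1 le_rfl).1
  set T0 : ℝ := |bQ| + |aQ| + 4 * b + 5 with hT0
  set η : ℝ → ℝ := fun Λ => exp (-(3 / 2) * Λ) with hη
  have η0 : ∀ Λ, 0 < η Λ := fun Λ => exp_pos _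
  have eq : ∀ Λ, _ := fun Λ => ev_add 0 q (η Λ) (b + 1) (e := b + 1) (by push_cast; ring)
  have er : ∀ Λ, ev (1 / 2) (r + C (s * exp (-Λ)) * X ^ (b + 1)) =
      fun σ => ev (1 / 2) r σ + s * (exp (-Λ) * exp ((b + 3 / 2) * σ)) := fun Λ => by
    rw [ev_add (e := b + 3 / 2) _ _ _ _ (by push_cast; ring)]; simp only [mul_assoc]
  have tη : Tendsto η atTop (𝓝 0) :=
    tendsto_exp_atBot.comp (tendsto_id.const_mul_atTop_of_neg (by norm_num))
  have p2 : ∀ Λ σ : ℝ, 0 ≤ η Λ * exp ((b + 1) * σ) := fun Λ σ => by have := η0 Λ; positivity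
  have gr : ∀ Λ σ, ev 1 (X ^ 0) σ * ev 0 q σ ≤
      ev 1 (X ^ 0) σ * ev 0 (q + C (η Λ) * X ^ (b + 1)) σ := fun Λ σ => by
    rw [eq]; exact mul_le_mul_of_nonneg_left (le_add_of_nonneg_right (p2 Λ σ)) (b1.pP σ).le
  have sl : ∀ᶠ Λ in atTop, Sl c (A + 1) (ev 1 (X ^ 0)) (ev 0 (q + C (η Λ) * X ^ (b + 1))) ∧
      RB (A + 1) (ev 1 (X ^ 0)) (ev 0 (q + C (η Λ) * X ^ (b + 1)))
        (ev (1 / 2) (r + C (s * exp (-Λ)) * X ^ (b + 1))) := by
    filter_upwards [eventually_ge_atTop 0] with Λ hΛ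
    have := b1.add (G1 := fun _ => 0) (G2 := fun σ => η Λ * exp ((b + 1) * σ)) (by fun_prop)
      (by fun_prop) (fun _ => le_rfl) (p2 Λ) (fun σ _ => (exp_pos _).le)
      (fun σ _ => mul_nonneg (exp_pos _).le (add_nonneg (b1.pQ σ).le (p2 Λ σ)))
      (fun σ hσ => by
        rw [add_zero, eP, hη, ← exp_add, ← exp_add]
        exact exp_le_exp.2 (by nlinarith))
    simp only [add_zero] at this
    rw [← eq] at this
    refine ⟨this, ?_⟩
    rw [er]
    refine (b2.1.grow (gr Λ)).add ⟨by fun_prop, fun σ hσ => ?_, fun σ hσ => ?_⟩ this.toPos s1.le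
    · rw [← exp_add, abs_of_pos (exp_pos _)]
      exact exp_le_exp.2 (by nlinarith)
    · rw [← exp_add, abs_of_pos (exp_pos _), eq, eP]
      rcases le_total σ (3 / 2 * Λ) with h1 | h1
      · exact le_mul le_rfl (le_mul le_rfl ((Q4 σ hσ).trans (le_add_of_nonneg_right (p2 Λ σ)))
          le_rfl) (by linarith)
      · refine le_mul le_rfl (le_mul (b := -(3 / 2) * Λ + (b + 1) * σ) le_rfl ?_ le_rfl)
          (by linarith)
        rw [exp_add]; exact le_add_of_nonneg_left (b1.pQ σ).le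
  obtain ⟨Vi, α, β, u1, u2, u3, u4, u5⟩ := h.fam (l := (atTop : Filter ℝ)) (by omega)
    (by push_cast; linarith) (a' := 0) (b' := b + 1) (d' := b + 1) (by omega)
    (pi := fun _ => X ^ 0) (qi := fun Λ => q + C (η Λ) * X ^ (b + 1))
    (ri := fun Λ => r + C (s * exp (-Λ)) * X ^ (b + 1)) (A := A + 1)
    ⟨b1.toPos, sl.mono fun Λ hΛ => hΛ.1.toPos, Conv.const _ b1.pP,
      by simp only [eq]; exact Conv.add b1.cQ b1.pQ (by fun_prop) tη⟩
    (Eventually.of_forall fun Λ => ⟨gp, gq.add_top (η0 Λ) (by omega),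
      deg_add (h.dr.trans (by omega)) _ le_rfl⟩) sl
    (fun σ => by
      simpa only [er, zero_mul, mul_zero, add_zero] using
        ((tendsto_exp_neg_atTop_nhds_zero.mul_const (exp ((b + 3 / 2) * σ))).const_mul s).const_add _)
  obtain ⟨W0, ⟨w0, ch0⟩⟩ := ch.last
  have w0' : W0 < V := w0
  have pers := ch0.persist' (S' := fun _ => Iic W0) fun W hW =>
    ⟨u5 W, Eventually.of_forall fun _ => hW.2⟩
  set As := A + |aR| + T0 + 4 with hAs
  have lim : Tendsto (fun Λ : ℝ => 4 * exp σ1 * exp (-Λ)) atTop (𝓝 0) := by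
    simpa using tendsto_exp_neg_atTop_nhds_zero.const_mul (4 * exp σ1)
  have hδ : 0 < 1 - exp (-((V - W0) / 2)) := sub_pos.2 (exp_lt_one_iff.2 (by linarith))
  obtain ⟨Λ, ⟨⟨v1, v2⟩, ⟨v3, -⟩, v4, v5⟩, ⟨v6, v7, v8, v9⟩, v10, v11⟩ := ((u4.and (sl.and (pers.and
    (remote c As (1 * σ1) (V - 1) (2 * T0 + 8 * c + 2) c0)))).and
    (((u2.abs.eventually_le_const (u := min 1 (ρ / 2)) (by simpa using ρ0)).and
      ((u3.abs.eventually_le_const (u := min 1 (ρ / 2)) (by simpa using ρ0)).and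
      ((u1.eventually_const_le (sub_one_lt V)).and
        (u1.eventually_const_lt (u := V - (V - W0) / 2) (by linarith))))).and
    ((lim.eventually_lt_const hδ).and
      (eventually_ge_atTop (σ1 + T0 + 8 * c + 1))))).exists
  have T00 : 0 ≤ T0 := by rw [hT0]; linarith
  have Λ0 : 0 ≤ Λ := by linarith
  have gq' := v1.gq
  set q' := q + C (η Λ) * X ^ (b + 1) with hq'
  set r' := r + C (s * exp (-Λ)) * X ^ (b + 1) + C (α Λ) * X ^ 0 + C (β Λ) * X ^ 1 with hr'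
  set V' := Vi Λ
  have hm := kap_le_th gq' c0 v1.sep
  have hκ := kap_spec gp gq'
  have k1 : ∀ σ, kap 0 b (X ^ 0) q σ ≤ kap 0 (b + 1) (X ^ 0) q' σ := fun σ => by
    have := gq.pos 0 σ; have := p2 Λ σ
    rw [hq', kap_new gq, kap_zero, sub_le_sub_iff_right, div_le_div_iff₀ ‹_› (by linarith)]
    nlinarith [mul_le_mul_of_nonneg_right (gq.d_le σ).2 (p2 Λ σ)]
  have k2 : ∀ σ, c * th c (ev 1 (X ^ 0)) (ev 0 q') V' σ ≤ b := fun σ =>
    v3.th_le hκ v1.sep.1 fun t _ => by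
      rw [kap_zero, sub_le_iff_le_add, div_le_iff₀ (gq'.pos 0 t)]
      exact_mod_cast (gq'.d_le t).2
  have k3 : ∀ σ, σ1 ≤ σ → 2 ≤ c * th c (ev 1 (X ^ 0)) (ev 0 q') V' σ := fun σ hσ =>
    (hσ1 σ hσ).2.1.trans ((k1 σ).trans (hm σ))
  have k4 : ∀ σ, σ1 ≤ σ → 1 ≤ c * EE c (ev 1 (X ^ 0)) (ev 0 q') V' σ := fun σ hσ =>
    v3.E_ge (by linarith) (k3 σ hσ) (by linarith [k2 σ])
  have hdec := fun a b => v3.L_decay V' zero_le_one s10 k4 (a := a) (b := b)
  have big : ∀ σ, 3 / 2 * Λ + T0 ≤ σ → (4 * b + 3) * ev 0 q σ ≤ η Λ * exp ((b + 1) * σ) := by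
    intro σ hσ
    have a1 : (4 * b + 3 : ℝ) ≤ exp (4 * b + 3) := by linarith [add_one_le_exp (4 * b + 3 : ℝ)]
    refine (mul_le_mul a1 ((le_abs_self _).trans (Q2 σ (by linarith))) (gq.pos 0 σ).le
      (exp_pos _).le).trans ?_
    rw [hη, ← exp_add, ← exp_add]
    exact exp_le_exp.2 (by linarith)
  have w1 := v3.window hκ (a := 3 / 2 * Λ - T0 - (8 * c + 1)) (u := b - 1) hm
    (fun σ hσ => ⟨by linarith [k3 σ (by linarith)], by linarith [k2 σ]⟩) (fun σ hσ => by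
      have := gq.pos 0 σ; have := p2 Λ σ
      have a1 : 4 * (η Λ * exp ((b + 1) * σ)) ≤ ev 0 q σ := by
        have e4 : (4 : ℝ) ≤ exp 3 := by linarith [add_one_le_exp (3 : ℝ)]
        refine (mul_le_mul_of_nonneg_right e4 (p2 Λ σ)).trans
          (le_trans ?_ (Q4 σ (by linarith [hσ.1])))
        rw [hη, ← exp_add, ← exp_add]
        exact exp_le_exp.2 (by linarith [hσ.2])
      rw [hq', kap_new gq, sub_le_iff_le_add, div_le_iff₀ (by linarith)]
      linarith [(gq.d_le σ).2])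
  have w2 : (b : ℝ) - 1 / 4 ≤ c * th c (ev 1 (X ^ 0)) (ev 0 q') V' (3 / 2 * Λ + T0) := by
    refine le_trans ?_ (hm _)
    have := gq.pos 0 (3 / 2 * Λ + T0); have := p2 Λ (3 / 2 * Λ + T0)
    rw [hq', kap_new gq, le_sub_iff_add_le, le_div_iff₀ (by linarith)]
    linarith [(gq.d_le (3 / 2 * Λ + T0)).1, big _ le_rfl]
  obtain ⟨W, hW⟩ := v3.exists_through Λ (sol c (ev 1 (X ^ 0)) (ev 0 q') V' Λ + log (1 / 2))
  have hx : xx c (ev 1 (X ^ 0)) (ev 0 q') V' W Λ = 1 / 2 := by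
    rw [xx, hW, add_sub_cancel_left, exp_log (by norm_num)]; norm_num
  have er' : ∀ σ, s * ev (1 / 2) r' σ = s * ev (1 / 2) r σ + exp (-Λ) * exp ((b + 3 / 2) * σ) +
      s * α Λ * e0 σ + s * β Λ * e1 σ := fun σ => by
    rw [hr', ev_tune, er]
    linear_combination exp (-Λ) * exp ((b + 3 / 2) * σ) * s2
  have low : ∀ σ, 0 ≤ σ → ∀ x, |α Λ| ≤ x → |β Λ| ≤ x →
      |s * α Λ * e0 σ| ≤ x * exp ((1 / 2 + b) * σ) ∧
      |s * β Λ * e1 σ| ≤ x * exp ((1 / 2 + b) * σ) := fun σ hσ x ha hb => by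
    rw [abs_mul, abs_mul, abs_mul, abs_mul, s1, one_mul, one_mul, e0, e1, abs_of_pos (exp_pos _),
      abs_of_pos (exp_pos _)]
    exact ⟨mul_le_mul ha (exp_le_exp.2 (by nlinarith)) (exp_pos _).le ((abs_nonneg _).trans ha),
      mul_le_mul hb (exp_le_exp.2 (by nlinarith)) (exp_pos _).le ((abs_nonneg _).trans hb)⟩
  have upp : ∀ σ, 0 ≤ σ → ∀ y, 0 ≤ y → σ - Λ ≤ y → |s * ev (1 / 2) r' σ| ≤
      exp (As + y + -(1 / 2) * σ) * (ev 1 (X ^ 0) σ * ev 0 q' σ) := fun σ hσ y y0 y1 => by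
    obtain ⟨l1, l2⟩ := low σ hσ 1 (v6.trans (min_le_left _ _)) (v7.trans (min_le_left _ _))
    have U := (le_abs_self _).trans ((b3.2 σ hσ).trans
      (mul_le_mul_of_nonneg_left (gr Λ σ) (exp_pos _).le))
    have a1 : |s * ev (1 / 2) r σ| ≤ exp (|aR| + y + (1 / 2 + b) * σ) := by
      rw [abs_mul, s1, one_mul]; exact (R2 σ hσ).trans (exp_le_exp.2 (by linarith))
    have a2 : |exp (-Λ) * exp ((b + 3 / 2) * σ)| ≤ exp (|aR| + y + (1 / 2 + b) * σ) := by
      rw [← exp_add, abs_of_pos (exp_pos _)]; exact exp_le_exp.2 (by linarith)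
    have a3 : exp ((1 / 2 + b) * σ) ≤ exp (|aR| + y + (1 / 2 + b) * σ) :=
      exp_le_exp.2 (by linarith)
    have a4 : 4 * exp (|aR| + y + (1 / 2 + b) * σ) ≤
        exp (|aR| + y + T0 + 4) * exp ((1 / 2 + b) * σ) := by
      have e4 : (4 : ℝ) ≤ exp 3 := by linarith [add_one_le_exp (3 : ℝ)]
      refine (mul_le_mul_of_nonneg_right e4 (exp_pos _).le).trans ?_
      rw [← exp_add, ← exp_add]; exact exp_le_exp.2 (by linarith)
    have a5 := mul_le_mul_of_nonneg_left U (exp_pos (|aR| + y + T0 + 4)).le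
    rw [← mul_assoc, ← exp_add _ (A + _), show |aR| + y + T0 + 4 + (A + -(1 / 2) * σ) =
      As + y + -(1 / 2) * σ by rw [hAs]; ring, ← hq'] at a5
    rw [er']
    refine (abs_add_le _ _).trans ((add_le_add_left (abs_add_three _ _ _) _).trans ?_)
    linarith
  have lowr : ∀ σ, σ1 ≤ σ → exp (-Λ) * exp ((b + 3 / 2) * σ) ≤ s * ev (1 / 2) r' σ := fun σ hσ => by
    obtain ⟨l1, l2⟩ := low σ (s10.trans hσ) _ (v6.trans (min_le_right _ _))
      (v7.trans (min_le_right _ _))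
    have a := mul_le_mul_of_nonneg_right (hσ1 σ hσ).2.2 (exp_pos ((1 / 2 + b) * σ)).le
    have e : exp (-(1 / 2 + b) * σ) * exp ((1 / 2 + b) * σ) = 1 := by
      rw [← exp_add, neg_mul, neg_add_cancel, exp_zero]
    rw [mul_assoc s, mul_assoc (ev _ _ _), e, mul_one, ← hρ] at a
    rw [er']
    linarith [(abs_le.1 l1).1, (abs_le.1 l2).1]
  have rb : RB As (ev 1 (X ^ 0)) (ev 0 q') fun σ => s * ev (1 / 2) r' σ := by
    have := v2.mono v3.toPos (show A + 1 + 1 + 1 ≤ As by rw [hAs]; linarith)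
    exact ⟨continuous_const.mul this.cR, fun σ hσ => by
      rw [abs_mul, s1, one_mul]; exact this.r1 σ hσ, fun σ hσ => by
      rw [abs_mul, s1, one_mul]; exact this.r2 σ hσ⟩
  have pos := v5 _ _ _ _ V' W (3 / 2 * Λ - T0 - (8 * c + 1)) (3 / 2 * Λ + T0)
    (v3.toBd.mono (by rw [hAs]; linarith)) rb (v1.tun.smul s) hκ v8 hm hdec
    (fun σ a1 a2 => by simpa only [add_zero] using upp σ a1 0 le_rfl (by linarith))
    (fun σ a1 => ⟨le_trans (by positivity) (lowr σ (by linarith)), by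
      have := (le_abs_self _).trans (upp σ (by linarith) (σ - Λ) (by linarith) le_rfl)
      rwa [show As + (σ - Λ) + -(1 / 2) * σ = As - Λ + 1 / 2 * σ by ring] at this⟩)
    (by linarith) (by linarith) (by linarith) (by linarith) (by linarith)
    (fun σ hσ => ⟨le_trans (by
      have a1 := big σ hσ.1
      have a2 := gq.pos 0 σ
      have a3 : ev 0 q' σ ≤ exp 1 * (η Λ * exp ((b + 1) * σ)) := by
        rw [hq', eq]
        nlinarith [add_one_le_exp (1 : ℝ), p2 Λ σ]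
      refine (mul_le_mul_of_nonneg_left (mul_le_mul_of_nonneg_left a3 (v3.pP σ).le)
        (exp_pos _).le).trans ?_
      rw [eP, hη, ← exp_add, ← exp_add, ← exp_add, ← exp_add, ← exp_add]
      exact exp_le_exp.2 (by linarith [hσ.2])) (lowr σ (by linarith [hσ.1])),
      k4 σ (by linarith [hσ.1])⟩) hx
  rw [MM_smul] at pos
  have lt1 : W < V' := by
    have := sol_lt v3.lip (v3.spec W).1 (v3.spec V').1 (t0 := Λ)
      (by rw [hW]; linarith [log_neg (x := 1 / 2) (by norm_num) (by norm_num)]) 0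
    rwa [(v3.spec W).2, (v3.spec V').2] at this
  have lt0 : W0 < W := by
    obtain ⟨C, -, hC⟩ := second
    have a := (hC c _ _ v3.toPos V' W Λ Λ0 (by rw [hx]; norm_num) Λ le_rfl).lo
    rw [hx, abs_of_pos (v3.xx_pos lt1 0), v3.xx0, abs_of_pos (by norm_num)] at a
    have d := hdec 0 Λ le_rfl Λ0
    rw [Pos.L0] at d
    have e : 1 ≤ exp (-LV c (ev 1 (X ^ 0)) (ev 0 q') V' Λ) * (exp σ1 * exp (-Λ)) := by
      rw [← exp_add, ← exp_add]; exact one_le_exp (by linarith)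
    have x0 := v3.xx_pos lt1 0
    rw [v3.xx0] at x0
    have a2 := mul_le_mul_of_nonneg_right a (show 0 ≤ exp σ1 * exp (-Λ) by positivity)
    have a3 := mul_le_mul_of_nonneg_left e x0.le
    have : exp (-((V - W0) / 2)) < exp (W - V') := by linarith
    linarith [exp_lt_exp.1 this]
  have top : 0 < s * r'.coeff (b + 1) := by
    rw [hr', coeff_tune _ _ _ (by omega), coeff_new h.dr (by omega), ← mul_assoc, s2, one_mul]
    exact exp_pos _
  have c1 := v4.snoc (S' := Iio V') (fun w hw => ⟨lt_of_le_of_lt hw lt0,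
    (lt_of_le_of_lt hw lt0).trans lt1⟩) lt1 pos
  have c2 := c1.right fun W1 h1 => near_lt (v1.loc c0 (by omega) (by push_cast; linarith)
    (by omega) top (by push_cast; nlinarith)) h1
  rw [neg_neg] at c2
  refine ⟨q', r', V', v1, ?_, top, c2⟩
  rw [hq', coeff_add, coeff_C_mul_X_pow, if_neg (by omega), add_zero]

/-- The one-sided slide. -/
theorem phase2 {c : ℝ} (e : ℕ) (hc : (e : ℝ) + 5 ≤ c) : ∃ q r V,
    PS c 0 (e + 4) (e + 4) (X ^ 0) q r V ∧ q.coeff 0 = 1 ∧ 0 < -1 * r.coeff (e + 4) ∧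
    ChainS (MM c (ev 1 (X ^ 0)) (ev 0 q) (ev (1 / 2) r)) (Iio V) (2 * e) 1 := by
  induction e with
  | zero =>
    simp only [Nat.cast_zero, zero_add] at hc
    have c0 : 0 < c := by linarith
    obtain ⟨V, h⟩ := ps_base (c := c) (by linarith)
    obtain ⟨r', V', -, -, u3⟩ := h.addR c0 (by norm_num) (by push_cast; linarith) (d' := 4)
      (by norm_num) (by norm_num) (by norm_num) (s := -1) (by norm_num)
    obtain ⟨δ, v1, v2⟩ := u3.exists
    have := Two.near (v1.loc c0 (by norm_num) (by push_cast; linarith) (by norm_num) v2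
      (by push_cast; linarith))
    rw [neg_neg] at this
    exact ⟨_, _, _, v1, by simp [coeff_X_pow], v2, this.1⟩
  | succ e ih =>
    push_cast at hc
    obtain ⟨q, r, V, h, q0, hr, ch⟩ := ih (by linarith)
    obtain ⟨q', r', V', h', q1, hr', ch'⟩ := h.qstep (by omega) (by push_cast; linarith) abs_one hr ch
    exact ⟨q', r', V', h', q1.trans q0, hr', ch'⟩

end Pool.Agent.LC5081
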