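import Pool.Agent.Lib.MP_5081b1_an.Loc

/-! Tuning, and the sign coming from a remote root of `Q`. -/

set_option autoImplicit false

open Set Filter Topology MeasureTheory Real

namespace Pool.Agent.LC5081

noncomputable def e0 (σ : ℝ) : ℝ := exp (1 / 2 * σ)

noncomputable def e1 (σ : ℝ) : ℝ := exp (3 / 2 * σ)

noncomputable def dt (c : ℝ) (P Q : ℝ → ℝ) (V : ℝ) : ℝ :=
  MM c P Q e0 V * N1 c P Q e1 V - N1 c P Q e0 V * MM c P Q e1 V

structure Sl (c A : ℝ) (P Q : ℝ → ℝ) : Prop extends Bd c A P Q where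
  tA : ∀ σ, 0 ≤ σ → P σ ≤ exp (A + -1 * σ) * Q σ
  tB : ∀ σ, 0 ≤ σ → Q σ ≤ exp (A + (c - 1) * σ) * P σ
  b0 : RB A P Q e0
  b1 : RB A P Q e1

theorem Sl.mono {c A A' : ℝ} {P Q : ℝ → ℝ} (h : Sl c A P Q) (hA : A ≤ A') : Sl c A' P Q :=
  ⟨h.toBd.mono hA, fun σ hσ => (h.tA σ hσ).trans (mul_le_mul_of_nonneg_right
    (exp_le_exp.2 (by linarith)) (h.pQ σ).le),
    fun σ hσ => (h.tB σ hσ).trans (mul_le_mul_of_nonneg_right
    (exp_le_exp.2 (by linarith)) (h.pP σ).le), h.b0.mono h.toPos hA, h.b1.mono h.toPos hA⟩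

theorem RB.grow {A : ℝ} {P Q P' Q' R : ℝ → ℝ} (h : RB A P Q R)
    (hg : ∀ σ, P σ * Q σ ≤ P' σ * Q' σ) : RB A P' Q' R :=
  ⟨h.cR, h.r1, fun σ hσ => (h.r2 σ hσ).trans (mul_le_mul_of_nonneg_left (hg σ) (exp_pos _).le)⟩

theorem two_exp (x : ℝ) : 2 * exp x ≤ exp (x + 1) := by
  rw [exp_add]; nlinarith [add_one_le_exp (1 : ℝ), exp_pos x]

theorem RB.add {c A a : ℝ} {P Q R G : ℝ → ℝ} (h : RB A P Q R) (h' : RB A P Q G) (hp : Pos c P Q)
    (ha : |a| ≤ 1) : RB (A + 1) P Q fun σ => R σ + a * G σ := by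
  have key : ∀ σ, |R σ + a * G σ| ≤ |R σ| + |G σ| := fun σ => (abs_add_le _ _).trans (by
    rw [abs_mul]; nlinarith [abs_nonneg (G σ)])
  refine ⟨h.cR.add (continuous_const.mul h'.cR), fun σ hσ => ?_, fun σ hσ => ?_⟩
  · have := two_exp (A + 1 / 2 * σ)
    rw [add_right_comm] at this
    linarith [key σ, h.r1 σ hσ, h'.r1 σ hσ]
  · have := two_exp (A + -(1 / 6) * σ)
    rw [add_right_comm] at this
    have := mul_le_mul_of_nonneg_right this (mul_pos (hp.pP σ) (hp.pQ σ)).le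
    linarith [key σ, h.r2 σ hσ, h'.r2 σ hσ]

theorem Bd.add {c A : ℝ} {P Q G1 G2 : ℝ → ℝ} (h : Bd c A P Q) (c1 : Continuous G1)
    (c2 : Continuous G2) (p1 : ∀ σ, 0 ≤ G1 σ) (p2 : ∀ σ, 0 ≤ G2 σ)
    (g0 : ∀ σ, σ ≤ 0 → G1 σ ≤ exp σ) :
    Bd c (A + 1) (fun σ => P σ + G1 σ) fun σ => Q σ + G2 σ := by
  refine ⟨⟨h.hc, h.cP.add c1, h.cQ.add c2, fun σ => add_pos_of_pos_of_nonneg (h.pP σ) (p1 σ),
    fun σ => add_pos_of_pos_of_nonneg (h.pQ σ) (p2 σ)⟩, fun σ hσ => ?_, fun σ hσ => ?_⟩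
  · have a := two_exp (A + σ)
    rw [add_right_comm] at a
    have b : exp σ ≤ exp (A + σ) * Q σ := by
      refine le_trans (le_of_eq ?_) (mul_le_mul_of_nonneg_left (h.n2 σ hσ) (exp_pos _).le)
      rw [← exp_add]; congr 1; ring
    have d := mul_le_mul_of_nonneg_right a (h.pQ σ).le
    have e := mul_nonneg (exp_pos (A + 1 + σ)).le (p2 σ)
    linarith [h.n1 σ hσ, g0 σ hσ]
  · linarith [h.n2 σ hσ, p2 σ, exp_le_exp.2 (show -(A + 1) ≤ -A by linarith)]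

theorem Pos.mul_le {c : ℝ} {P Q G1 G2 : ℝ → ℝ} (h : Pos c P Q) (p1 : ∀ σ, 0 ≤ G1 σ)
    (p2 : ∀ σ, 0 ≤ G2 σ) (σ : ℝ) : P σ * Q σ ≤ (P σ + G1 σ) * (Q σ + G2 σ) :=
  mul_le_mul (le_add_of_nonneg_right (p1 σ)) (le_add_of_nonneg_right (p2 σ)) (h.pQ σ).le
    (add_nonneg (h.pP σ).le (p1 σ))

theorem Sl.add {c A : ℝ} {P Q G1 G2 : ℝ → ℝ} (h : Sl c A P Q) (c1 : Continuous G1)
    (c2 : Continuous G2) (p1 : ∀ σ, 0 ≤ G1 σ) (p2 : ∀ σ, 0 ≤ G2 σ)
    (g0 : ∀ σ, σ ≤ 0 → G1 σ ≤ exp σ)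
    (gA : ∀ σ, 0 ≤ σ → G1 σ ≤ exp (A + -1 * σ) * (Q σ + G2 σ))
    (gB : ∀ σ, 0 ≤ σ → G2 σ ≤ exp (A + (c - 1) * σ) * (P σ + G1 σ)) :
    Sl c (A + 1) (fun σ => P σ + G1 σ) fun σ => Q σ + G2 σ := by
  have hb := h.toBd.add c1 c2 p1 p2 g0
  refine ⟨hb, fun σ hσ => ?_, fun σ hσ => ?_,
    (h.b0.grow (h.mul_le p1 p2)).mono hb.toPos (by linarith),
    (h.b1.grow (h.mul_le p1 p2)).mono hb.toPos (by linarith)⟩
  · have a := two_exp (A + -1 * σ)
    rw [add_right_comm] at a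
    have d := mul_le_mul_of_nonneg_right a (hb.pQ σ).le
    have e := mul_nonneg (exp_pos (A + -1 * σ)).le (p2 σ)
    linarith [h.tA σ hσ, gA σ hσ]
  · have a := two_exp (A + (c - 1) * σ)
    rw [add_right_comm] at a
    have d := mul_le_mul_of_nonneg_right a (hb.pP σ).le
    have e := mul_nonneg (exp_pos (A + (c - 1) * σ)).le (p1 σ)
    linarith [h.tB σ hσ, gB σ hσ]

theorem Conv.add {ι : Type} {l : Filter ι} {f G : ℝ → ℝ} {δ : ι → ℝ} (hf : Continuous f)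
    (f0 : ∀ t, 0 < f t) (hG : Continuous G) (hδ : Tendsto δ l (𝓝 0)) :
    Conv l (fun i σ => f σ + δ i * G σ) f := by
  intro T ε hε
  have hc : Continuous fun t => |G t| / f t := hG.abs.div hf fun t => (f0 t).ne'
  obtain ⟨B, hB⟩ := (isCompact_Icc (a := -T) (b := T)).bddAbove_image hc.continuousOn
  have : Tendsto (fun i => |δ i| * B) l (𝓝 0) := by simpa using hδ.abs.mul_const B
  filter_upwards [this.eventually_lt_const hε] with i hi t ht
  have h1 : |G t| ≤ B * f t := (div_le_iff₀ (f0 t)).1 (hB ⟨t, abs_le.1 ht, rfl⟩)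
  rw [add_sub_cancel_left, abs_mul]
  refine (mul_le_mul_of_nonneg_left h1 (abs_nonneg _)).trans ?_
  rw [← mul_assoc]
  exact mul_le_mul_of_nonneg_right hi.le (f0 t).le

theorem Bd.lin {c A A1 A2 : ℝ} {P Q R G : ℝ → ℝ} (h : Bd c A P Q) (hR : RB A1 P Q R)
    (hG : RB A2 P Q G) (a W : ℝ) :
    MM c P Q (fun σ => R σ + a * G σ) W = MM c P Q R W + a * MM c P Q G W ∧
    N1 c P Q (fun σ => R σ + a * G σ) W = N1 c P Q R W + a * N1 c P Q G W := by
  constructor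
  · simp only [MM, add_mul, mul_assoc]
    rw [integral_add (h.int0 hR W) ((h.int0 hG W).const_mul a), integral_const_mul]
  · simp only [N1, add_mul, mul_assoc a]
    rw [integral_add (h.int1 hR W) ((h.int1 hG W).const_mul a), integral_const_mul]

theorem ChainS.persist' {ι : Type} {l : Filter ι} {M : ℝ → ℝ} {S : Set ℝ} {N : ℕ} {t : ℝ}
    (h : ChainS M S N t) {M' : ι → ℝ → ℝ} {S' : ι → Set ℝ}
    (h' : ∀ W ∈ S, Tendsto (fun i => M' i W) l (𝓝 (M W)) ∧ ∀ᶠ i in l, W ∈ S' i) :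
    ∀ᶠ i in l, ChainS (M' i) (S' i) N t := by
  obtain ⟨W, h1, h2⟩ := h
  have : ∀ᶠ δ in l, ∀ i ∈ Finset.range (N + 1),
      W i ∈ S' δ ∧ 0 < t * (-1) ^ (N + i) * M' δ (W i) := by
    rw [Filter.eventually_all_finset]
    intro i hi
    have h3 := h2 i (by simpa [Nat.lt_succ_iff] using hi)
    exact (h' _ h3.1).2.and (((h' _ h3.1).1.const_mul _).eventually_const_lt h3.2)
  filter_upwards [this] with δ hδ
  exact ⟨W, h1, fun i hi => hδ i (by simpa [Nat.lt_succ_iff] using hi)⟩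

theorem retune {ι : Type} {l : Filter ι} [l.IsCountablyGenerated] {c A k0 V : ℝ}
    {Pi Qi Ri : ι → ℝ → ℝ} {P Q R κ : ℝ → ℝ} (h : Fam l c Pi Qi P Q) (hκ : Kap P Q κ)
    (hk : Tendsto κ atTop (𝓝 k0)) (k1 : 0 < k0) (k2 : k0 < c) (hV : Sep c P Q V)
    (ht : Tun c P Q R V) (hd : dt c P Q V ≠ 0)
    (hb : ∀ᶠ i in l, Sl c A (Pi i) (Qi i) ∧ RB A (Pi i) (Qi i) (Ri i))
    (hR : ∀ σ, Tendsto (fun i => Ri i σ) l (𝓝 (R σ))) :
    ∃ Vi α β : ι → ℝ, Tendsto Vi l (𝓝 V) ∧ Tendsto α l (𝓝 0) ∧ Tendsto β l (𝓝 0) ∧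
      (∀ᶠ i in l, Sep c (Pi i) (Qi i) (Vi i) ∧ dt c (Pi i) (Qi i) (Vi i) ≠ 0 ∧
        Tun c (Pi i) (Qi i) (fun σ => Ri i σ + α i * e0 σ + β i * e1 σ) (Vi i) ∧
        RB (A + 1 + 1) (Pi i) (Qi i) fun σ => Ri i σ + α i * e0 σ + β i * e1 σ) ∧
      ∀ W, Tendsto (fun i => MM c (Pi i) (Qi i) (fun σ => Ri i σ + α i * e0 σ + β i * e1 σ) W) l
        (𝓝 (MM c P Q R W)) := by
  set Vi : ι → ℝ := fun i => Classical.epsilon (Sep c (Pi i) (Qi i)) with hVi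
  have s1 : ∀ᶠ i in l, Sep c (Pi i) (Qi i) (Vi i) := hb.mono fun i hi =>
    Classical.epsilon_spec (hi.1.exists_sep one_pos (sub_one_lt c) hi.1.tA hi.1.tB)
  have tV : Tendsto Vi l (𝓝 V) := h.tsep hκ hV hk k1 k2 one_pos (sub_one_lt c)
    (hb.mono fun i hi => hi.1.tA) (hb.mono fun i hi => hi.1.tB) s1
  obtain ⟨m, n⟩ := h.tM tV (hb.mono fun i hi => ⟨hi.1.toBd, hi.2⟩) hR
  obtain ⟨m0, n0⟩ := h.tM (Ri := fun _ => e0) tV (hb.mono fun i hi => ⟨hi.1.toBd, hi.1.b0⟩)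
    fun _ => tendsto_const_nhds
  obtain ⟨m1, n1⟩ := h.tM (Ri := fun _ => e1) tV (hb.mono fun i hi => ⟨hi.1.toBd, hi.1.b1⟩)
    fun _ => tendsto_const_nhds
  rw [ht.1] at m; rw [ht.2] at n
  have td : Tendsto (fun i => dt c (Pi i) (Qi i) (Vi i)) l (𝓝 (dt c P Q V)) :=
    (m0.mul n1).sub (n0.mul m1)
  have ta := ((n.mul m1).sub (m.mul n1)).div td hd
  have tb := ((n0.mul m).sub (m0.mul n)).div td hd
  simp only [zero_mul, mul_zero, sub_self, zero_div] at ta tb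
  have a1 := ta.abs.eventually_le_const (u := 1) (by simp)
  have b1 := tb.abs.eventually_le_const (u := 1) (by simp)
  have rb : ∀ᶠ i in l, _ := (hb.and (a1.and b1)).mono fun i hi =>
    (hi.1.2.add hi.1.1.b0 hi.1.1.toPos hi.2.1).add (hi.1.1.b1.mono hi.1.1.toPos (by linarith))
      hi.1.1.toPos hi.2.2
  refine ⟨Vi, _, _, tV, ta, tb, ?_, fun W => ?_⟩
  · filter_upwards [s1, td.eventually_ne hd, rb, hb, a1] with i s d r b a
    refine ⟨s, d, ?_, r⟩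
    have l1 := fun x => b.1.toBd.lin (b.2.add b.1.b0 b.1.toPos a) b.1.b1 x (Vi i)
    have l2 := fun x => b.1.toBd.lin b.2 b.1.b0 x (Vi i)
    constructor
    · rw [(l1 _).1, (l2 _).1]
      simp only [_root_.Pi.div_apply]
      field_simp
      unfold dt; ring
    · rw [(l1 _).2, (l2 _).2]
      simp only [_root_.Pi.div_apply]
      field_simp
      unfold dt; ring
  · refine (h.tM (A := A + 1 + 1) tendsto_const_nhds ((hb.and rb).mono fun i hi =>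
      ⟨hi.1.1.toBd.mono (by linarith), hi.2⟩) fun σ => ?_).1
    simpa using ((hR σ).add (ta.mul_const (e0 σ))).add (tb.mul_const (e1 σ))

theorem Pos.dnn {c : ℝ} {P Q κ : ℝ → ℝ} (h : Pos c P Q) (hκ : Kap P Q κ) (V σ : ℝ) :
    HasDerivAt (nn c P Q V)
      (2 * (EE c P Q V σ * (c * th c P Q V σ - κ σ)) * exp (-LV c P Q V σ)) σ :=
  (((((h.dth hκ V σ).const_mul 2).sub_const 1).fun_mul (h.dEi V σ)).fun_add
    (h.dYi V σ)).congr_deriv (by ring)

theorem Pos.th_mono {c : ℝ} {P Q κ : ℝ → ℝ} (h : Pos c P Q) (hκ : Kap P Q κ) {V : ℝ}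
    (hm : ∀ σ, κ σ ≤ c * th c P Q V σ) {a b : ℝ} (hab : a ≤ b) :
    th c P Q V a ≤ th c P Q V b :=
  mono_of_deriv (h.dth hκ V) hab fun t _ => mul_nonneg (h.E_pos V t).le (sub_nonneg.2 (hm t))

theorem Pos.nn_gain {c : ℝ} {P Q κ : ℝ → ℝ} (h : Pos c P Q) (hκ : Kap P Q κ) {V : ℝ}
    (hm : ∀ σ, κ σ ≤ c * th c P Q V σ) {a b : ℝ} (hab : a ≤ b) :
    nn c P Q V a + 2 * (th c P Q V b - th c P Q V a) * exp (-LV c P Q V a) ≤ nn c P Q V b := by
  have := mono_of_deriv (fun t => (h.dnn hκ V t).fun_sub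
    (((h.dth hκ V t).const_mul 2).mul_const (exp (-LV c P Q V a)))) hab fun t ht => by
      rw [← mul_sub]
      exact mul_nonneg (mul_nonneg two_pos.le (mul_nonneg (h.E_pos V t).le (sub_nonneg.2 (hm t))))
        (sub_nonneg.2 (exp_le_exp.2 (by linarith [(h.L_lip V ht.1).2])))
  linarith

theorem Pos.nn_mono {c : ℝ} {P Q κ : ℝ → ℝ} (h : Pos c P Q) (hκ : Kap P Q κ) {V : ℝ}
    (hm : ∀ σ, κ σ ≤ c * th c P Q V σ) {a b : ℝ} (hab : a ≤ b) :
    nn c P Q V a ≤ nn c P Q V b := by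
  have := h.nn_gain hκ hm hab
  have := mul_nonneg (mul_nonneg two_pos.le (sub_nonneg.2 (h.th_mono hκ hm hab)))
    (exp_pos (-LV c P Q V a)).le
  linarith

theorem Sl.dt_pos {c A : ℝ} {P Q κ : ℝ → ℝ} (h : Sl c A P Q) (hκ : Kap P Q κ) {V : ℝ}
    (hm : ∀ σ, κ σ ≤ c * th c P Q V σ) : 0 < dt c P Q V := by
  have ce0 : Continuous e0 := h.b0.cR
  have ce1 : Continuous e1 := h.b1.cR
  have cK := h.cK V; have cn := h.cnn V
  have m0 : 0 < MM c P Q e0 V := integral_pos_of_integrable_nonneg_nonzero (x := 0)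
    (ce0.mul cK) (h.int0 h.b0 V) (fun σ => (mul_pos (exp_pos _) (h.K_pos V σ)).le)
    (mul_pos (exp_pos _) (h.K_pos V 0)).ne'
  have m1 : 0 < MM c P Q e1 V := integral_pos_of_integrable_nonneg_nonzero (x := 0)
    (ce1.mul cK) (h.int0 h.b1 V) (fun σ => (mul_pos (exp_pos _) (h.K_pos V σ)).le)
    (mul_pos (exp_pos _) (h.K_pos V 0)).ne'
  set ρ := MM c P Q e1 V / MM c P Q e0 V with hρ
  have ρ0 : 0 < ρ := by positivity
  set s := log ρ
  have es : exp s = ρ := exp_log ρ0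
  have ee : ∀ σ, e1 σ = exp σ * e0 σ := fun σ => by
    unfold e0 e1; rw [← exp_add]; congr 1; ring
  obtain ⟨a, ha, hθ⟩ : ∃ a, a < s ∧ th c P Q V a < th c P Q V s := by
    have t : Tendsto (fun σ => exp (A - V) * exp (1 * σ)) atBot (𝓝 0) := by
      simpa using tendsto_exp_atBot.const_mul (exp (A - V))
    obtain ⟨a, a1, a2, a3⟩ := ((eventually_lt_atBot s).and ((eventually_le_atBot 0).and
      (t.eventually_lt_const (h.th_pos V s)))).exists
    exact ⟨a, a1, (h.th_neg le_rfl a2).trans_lt a3⟩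
  have hn : nn c P Q V a < nn c P Q V s := by
    have := h.nn_gain hκ hm ha.le
    have := mul_pos (mul_pos two_pos (sub_pos.2 hθ)) (exp_pos (-LV c P Q V a))
    linarith
  set f : ℝ → ℝ := fun σ => (exp σ - exp s) * (nn c P Q V σ - nn c P Q V s) *
    (e0 σ * KK c P Q V σ) with hf
  have ef : f = fun σ => (e1 σ * (nn c P Q V σ * KK c P Q V σ) -
      ρ * (e0 σ * (nn c P Q V σ * KK c P Q V σ))) - (nn c P Q V s * (e1 σ * KK c P Q V σ) -
      nn c P Q V s * ρ * (e0 σ * KK c P Q V σ)) := by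
    funext σ; simp only [hf, ee, es]; ring
  have i1 : Integrable fun σ => e1 σ * (nn c P Q V σ * KK c P Q V σ) -
      ρ * (e0 σ * (nn c P Q V σ * KK c P Q V σ)) :=
    (h.int1 h.b1 V).sub ((h.int1 h.b0 V).const_mul ρ)
  have i2 : Integrable fun σ => nn c P Q V s * (e1 σ * KK c P Q V σ) -
      nn c P Q V s * ρ * (e0 σ * KK c P Q V σ) :=
    ((h.int0 h.b1 V).const_mul _).sub ((h.int0 h.b0 V).const_mul _)
  have fp : 0 < ∫ σ, f σ := by
    refine integral_pos_of_integrable_nonneg_nonzero (x := a) (by simp only [hf]; fun_prop)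
      (ef ▸ i1.sub i2) (fun σ => mul_nonneg ?_ (mul_pos (exp_pos _) (h.K_pos V σ)).le)
      (mul_pos (mul_pos_of_neg_of_neg (sub_neg.2 (exp_lt_exp.2 ha)) (sub_neg.2 hn))
        (mul_pos (exp_pos _) (h.K_pos V a))).ne'
    rcases le_total σ s with h1 | h1
    · exact mul_nonneg_of_nonpos_of_nonpos (sub_nonpos.2 (exp_le_exp.2 h1))
        (sub_nonpos.2 (h.nn_mono hκ hm h1))
    · exact mul_nonneg (sub_nonneg.2 (exp_le_exp.2 h1)) (sub_nonneg.2 (h.nn_mono hκ hm h1))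
  rw [ef, integral_sub i1 i2, integral_sub (h.int1 h.b1 V) ((h.int1 h.b0 V).const_mul ρ),
    integral_sub ((h.int0 h.b1 V).const_mul _) ((h.int0 h.b0 V).const_mul _), integral_const_mul,
    integral_const_mul, integral_const_mul] at fp
  change 0 < N1 c P Q e1 V - ρ * N1 c P Q e0 V -
    (nn c P Q V s * MM c P Q e1 V - nn c P Q V s * ρ * MM c P Q e0 V) at fp
  have e : MM c P Q e1 V = ρ * MM c P Q e0 V := by rw [hρ]; field_simp
  unfold dt
  rw [e] at fp ⊢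
  nlinarith [mul_pos m0 fp]

theorem Pos.window {c : ℝ} {P Q κ : ℝ → ℝ} (h : Pos c P Q) (hκ : Kap P Q κ) {V a u : ℝ}
    (hm : ∀ σ, κ σ ≤ c * th c P Q V σ)
    (hb : ∀ σ, a ≤ σ → 1 ≤ c * th c P Q V σ ∧ c * th c P Q V σ ≤ c - 1)
    (hu : ∀ σ ∈ Icc a (a + (8 * c + 1)), κ σ ≤ u + 1 / 4) : c * th c P Q V a < u + 1 / 2 := by
  by_contra hn
  push Not at hn
  have hc := h.hc
  have hab : a ≤ a + (8 * c + 1) := by linarith
  have := mono_of_deriv (fun t => ((h.dss hκ V t).fun_add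
    ((hasDerivAt_id t).const_mul (1 / 4))).fun_neg) hab fun t ht => by
      have := mul_le_mul_of_nonneg_left (h.th_mono hκ hm ht.1) hc.le
      linarith [hu t ht]
  simp only [id] at this
  have s1 : ss c P Q V a ≤ c := by
    have b := (hb a le_rfl).1
    have e := exp_pos (ss c P Q V a)
    rw [h.th_eq, mul_one_div, le_div_iff₀ (by positivity)] at b
    linarith [add_one_le_exp (ss c P Q V a)]
  have s2 : -ss c P Q V (a + (8 * c + 1)) ≤ c := by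
    have b := (hb _ hab).2
    set s := ss c P Q V (a + (8 * c + 1))
    have e := exp_pos s
    rw [h.th_eq, mul_one_div, div_le_iff₀ (by positivity)] at b
    have e2 : exp s * exp (-s) = 1 := by rw [← exp_add]; simp
    have := mul_le_mul_of_nonneg_right b (exp_pos (-s)).le
    nlinarith [add_one_le_exp (-s)]
  linarith

theorem remote (c A A1 W0 T : ℝ) (hc : 0 < c) : ∀ᶠ Λ in atTop, ∀ (P Q R κ : ℝ → ℝ) (V W a b : ℝ),
    Bd c A P Q → RB A P Q R → Tun c P Q R V → Kap P Q κ → W0 ≤ V →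
    (∀ σ, κ σ ≤ c * th c P Q V σ) →
    (∀ a b, 0 ≤ a → a ≤ b → LV c P Q V b ≤ LV c P Q V a + A1 - 1 * (b - a)) →
    (∀ σ, 0 ≤ σ → σ ≤ Λ → |R σ| ≤ exp (A + -(1 / 2) * σ) * (P σ * Q σ)) →
    (∀ σ, Λ ≤ σ → 0 ≤ R σ ∧ R σ ≤ exp (A - Λ + 1 / 2 * σ) * (P σ * Q σ)) →
    0 ≤ a → a ≤ b → Λ ≤ b → b + 1 - a ≤ T → c * th c P Q V a + 1 / 4 ≤ c * th c P Q V b →
    (∀ σ ∈ Icc b (b + 1), exp (-A - Λ / 4) * (P σ * Q σ) ≤ R σ ∧ 1 ≤ c * EE c P Q V σ) →
    xx c P Q V W Λ = 1 / 2 → 0 < MM c P Q R W := by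
  obtain ⟨C, -, hC⟩ := second
  obtain ⟨Z, Z0, hZ⟩ := left_bd c A A1 1 (-(1 / 2)) W0 (by norm_num)
  set c4 := exp (-(c / 4 * T)) / (2 * c) / c * exp (-A) with hc4
  have c40 : 0 < c4 := by positivity
  have lim : Tendsto (fun Λ : ℝ => (Z + 64 * exp (A + A1)) * exp (-(1 / 4) * Λ)) atTop (𝓝 0) := by
    simpa using (tendsto_exp_atBot.comp (tendsto_id.const_mul_atTop_of_neg
      (show -(1 / 4 : ℝ) < 0 by norm_num))).const_mul (Z + 64 * exp (A + A1))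
  filter_upwards [eventually_ge_atTop 0, lim.eventually_lt_const c40] with Λ Λ0 hΛ
  intro P Q R κ V W a b h hR ht hκ hV hm hL r2 r3 a0 ab Λb hT hθ hw hx
  have ax : |xx c P Q V W Λ| ≤ 1 / 2 := by rw [hx]; norm_num
  have x0 : 0 < xx c P Q V W 0 := by
    obtain ⟨l, -, -, e⟩ := h.exists_ell V W
    have : 0 < xx c P Q V W 0 * (exp (-LV c P Q V Λ) * exp (l Λ)) := by
      rw [← mul_assoc, ← e, hx]; norm_num
    exact (mul_pos_iff_of_pos_right (by positivity)).1 this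
  have x1 : xx c P Q V W 0 ≤ 1 := (Pos.xx_lt V W 0).le
  obtain ⟨L1, -⟩ := hZ P Q R V W Λ Λ h hV hR.r1 r2 hL Λ0 le_rfl ax
  have up := (hC c P Q h.toPos V W Λ Λ0 ax Λ le_rfl).up
  rw [hx, abs_of_pos x0, abs_of_pos (by norm_num)] at up
  rw [abs_of_pos x0, sub_self, mul_zero, sub_zero] at L1
  set x := xx c P Q V W 0 with hx0
  have eL : exp (LV c P Q V Λ) ≤ 16 * x := by
    have e : exp (-LV c P Q V Λ) * exp (LV c P Q V Λ) = 1 := by rw [← exp_add]; simp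
    have := mul_le_mul_of_nonneg_right up (exp_pos (LV c P Q V Λ)).le
    nlinarith
  have n0 : -1 ≤ nn c P Q V 0 := by
    simp only [nn, Pos.L0, Pos.Yi0, neg_zero, exp_zero]; linarith [h.th_pos V 0]
  have hi := h.intD hR V W
  set g : ℝ → ℝ := fun σ => R σ * Dl c P Q V W σ + 32 * x * exp (A + A1) * exp (-(1 / 2) * σ) with hg
  have ie : IntegrableOn (fun σ => 32 * x * exp (A + A1) * exp (-(1 / 2) * σ)) (Ioi Λ) :=
    (integrableOn_exp_mul_Ioi (by norm_num) Λ).const_mul _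
  have gi : IntegrableOn g (Ioi Λ) := hi.integrableOn.add ie
  have g1 : ∀ σ, Λ ≤ σ → x * ((nn c P Q V σ + 1) * (R σ * KK c P Q V σ)) ≤ g σ := by
    intro σ hσ
    obtain ⟨R0, R1⟩ := r3 σ hσ
    have K0 := h.K_pos V σ
    have k1 := mul_nonneg R0 (h.K_pos W σ).le
    have k2 : R σ * KK c P Q V σ ≤ 16 * x * exp (A + A1) * exp (-(1 / 2) * σ) := by
      have e : exp (A - Λ + 1 / 2 * σ) * exp (LV c P Q V σ) ≤
          exp (LV c P Q V Λ) * exp (A + A1) * exp (-(1 / 2) * σ) := by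
        rw [← exp_add, ← exp_add, ← exp_add]
        exact exp_le_exp.2 (by linarith [hL Λ σ Λ0 hσ])
      calc R σ * KK c P Q V σ ≤ exp (A - Λ + 1 / 2 * σ) * (P σ * Q σ) * KK c P Q V σ := by gcongr
        _ = exp (A - Λ + 1 / 2 * σ) * exp (LV c P Q V σ) * EE c P Q V σ := by
          linear_combination exp (A - Λ + 1 / 2 * σ) * h.K_mul V σ
        _ ≤ exp (A - Λ + 1 / 2 * σ) * exp (LV c P Q V σ) :=
          mul_le_of_le_one_right (by positivity) (by linarith [h.E_le V σ])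
        _ ≤ _ := e.trans (by gcongr)
    have k3 := mul_le_of_le_one_left (mul_nonneg R0 K0.le) x1
    simp only [hg, Dl, ← hx0]
    linarith
  have g0 : ∀ σ, Λ ≤ σ → 0 ≤ g σ := fun σ hσ => le_trans (mul_nonneg x0.le (mul_nonneg
    (by linarith [h.nn_mono hκ hm (Λ0.trans hσ)]) (mul_nonneg (r3 σ hσ).1 (h.K_pos V σ).le)))
    (g1 σ hσ)
  have g2 : ∀ σ ∈ Ioc b (b + 1), x * (c4 * exp (-(1 / 4) * Λ)) ≤ g σ := by
    intro σ hσ
    refine le_trans (mul_le_mul_of_nonneg_left ?_ x0.le) (g1 σ (Λb.trans hσ.1.le))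
    obtain ⟨w1, w2⟩ := hw σ (Ioc_subset_Icc_self hσ)
    have aσ : a ≤ σ := ab.trans hσ.1.le
    have k1 : 1 / (2 * c) * exp (-LV c P Q V a) ≤ nn c P Q V σ + 1 := by
      have u1 := h.nn_gain hκ hm aσ
      have u2 := h.nn_mono hκ hm a0
      have u3 := mul_le_mul_of_nonneg_left (h.th_mono hκ hm hσ.1.le) hc.le
      have u4 : 1 / (2 * c) ≤ 2 * (th c P Q V σ - th c P Q V a) := by
        rw [div_le_iff₀ (by positivity)]; linarith
      have := mul_le_mul_of_nonneg_right u4 (exp_pos (-LV c P Q V a)).le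
      linarith
    have k2 : exp (-A - Λ / 4) * (1 / c * exp (LV c P Q V σ)) ≤ R σ * KK c P Q V σ := by
      have u : 1 / c ≤ EE c P Q V σ := by rw [div_le_iff₀ hc]; linarith
      calc _ ≤ exp (-A - Λ / 4) * (EE c P Q V σ * exp (LV c P Q V σ)) := by gcongr
        _ = exp (-A - Λ / 4) * (P σ * Q σ) * KK c P Q V σ := by rw [← h.K_mul]; ring
        _ ≤ _ := mul_le_mul_of_nonneg_right w1 (h.K_pos V σ).le
    have k3 : exp (-(c / 4 * T)) * exp (-A) * exp (-(1 / 4) * Λ) ≤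
        exp (-LV c P Q V a) * exp (-A - Λ / 4) * exp (LV c P Q V σ) := by
      rw [← exp_add, ← exp_add, ← exp_add, ← exp_add]
      have := mul_le_mul_of_nonneg_left (show σ - a ≤ T by linarith [hσ.2]) (show 0 ≤ c / 4 by positivity)
      exact exp_le_exp.2 (by linarith [(h.L_lip V aσ).1])
    refine le_trans ?_ (mul_le_mul k1 k2 (by positivity) (le_trans (by positivity) k1))
    calc c4 * exp (-(1 / 4) * Λ) = 1 / (2 * c) / c *
          (exp (-(c / 4 * T)) * exp (-A) * exp (-(1 / 4) * Λ)) := by rw [hc4]; ring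
      _ ≤ 1 / (2 * c) / c * (exp (-LV c P Q V a) * exp (-A - Λ / 4) * exp (LV c P Q V σ)) := by
        gcongr
      _ = _ := by ring
  have sub : Ioc b (b + 1) ⊆ Ioi Λ := fun σ hσ => Λb.trans_lt hσ.1
  have I1 := setIntegral_mono_set gi ((ae_restrict_iff' measurableSet_Ioi).2
    (Eventually.of_forall fun σ hσ => g0 σ (le_of_lt hσ))) sub.eventuallyLE
  have I2 := setIntegral_ge_of_const_le measurableSet_Ioc (by simp) g2 (gi.mono_set sub)
  simp only [Real.volume_real_Ioc, add_sub_cancel_left, zero_le_one, max_eq_left, one_smul] at I2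
  have I3 : ∫ σ in Ioi Λ, g σ = (∫ σ in Ioi Λ, R σ * Dl c P Q V W σ) +
      64 * x * exp (A + A1) * exp (-(1 / 2) * Λ) := by
    rw [hg, integral_add hi.integrableOn ie, integral_const_mul,
      integral_exp_mul_Ioi (by norm_num)]
    ring
  have e : exp (-(1 / 2) * Λ) = exp (-(1 / 4) * Λ) * exp (-(1 / 4) * Λ) := by
    rw [← exp_add]; congr 1; ring
  have fin := mul_lt_mul_of_pos_right hΛ (mul_pos x0 (exp_pos (-(1 / 4) * Λ)))
  rw [h.M_eq hR ht, ← intervalIntegral.integral_Iic_add_Ioi (b := Λ) hi.integrableOn hi.integrableOn]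
  rw [e] at I3 L1
  linarith [(abs_le.1 L1).1]

end Pool.Agent.LC5081
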