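import Pool.Agent.Lib.MP_5081b1_an.Main
import Pool.Agent.Lib.MP_5081b1_an.Chn

/-! Polynomial data with a sliding separatrix, and a lower bound valid for all odd degrees. -/

set_option autoImplicit false

open Set Filter Topology MeasureTheory Real Polynomial

namespace Pool.Agent.LC5081

theorem phaseT' {c : ℕ} {P Q : ℝ → ℝ} {a N d : ℕ} {k i t : ℝ} (h : Sys c P Q 0 (a + 1) k)
    (hk : a + 1 + k < d + 3 / 2) {r : ℝ[X]} (hi : 0 < i) (hi' : i ≤ d + 1 / 2)
    (dr : r.natDegree ≤ d) (u : Up (ev (1 / 2) r) i (d + 1 / 2))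
    (ch : Chain (MM c P Q (ev (1 / 2) r)) N t) (l : ℕ) (hl : d + l ≤ 2 * a + c + 1) :
    ∃ (r : ℝ[X]) (t : ℝ), r.natDegree ≤ d + l ∧
      Up (ev (1 / 2) r) i (d + l + 1 / 2) ∧ Chain (MM c P Q (ev (1 / 2) r)) (N + l) t := by
  induction l with
  | zero => exact ⟨r, t, dr, by simpa using u, ch⟩
  | succ l ih =>
    obtain ⟨r, t, d', u, ch⟩ := ih (by omega)
    have hl' : (d : ℝ) + l ≤ 2 * a + c := by exact_mod_cast (by omega : d + l ≤ 2 * a + c)
    have l0 : (0 : ℝ) ≤ l := Nat.cast_nonneg l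
    obtain ⟨b, ch'⟩ := h.step_top' (ev_cont _ _) u (e := d + l + 3 / 2) hi (by linarith)
      (by linarith) (by linarith) (by linarith) ch
    refine ⟨r + C b * X ^ (d + l + 1), -t, deg_add (by omega) b (by omega), ?_⟩
    rw [ev_add (e := d + l + 3 / 2) _ _ _ _ (by push_cast; ring)]
    exact ⟨u.add_exp b le_rfl (by push_cast; linarith) (by linarith) (by push_cast; linarith), ch'⟩

theorem phaseL' {c : ℕ} {P Q : ℝ → ℝ} {a N n0 : ℕ} {k t : ℝ} (h : Sys c P Q 0 (a + 1) k)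
    {r : ℝ[X]} (h0 : n0 ≤ c + 2) (dr : r.natDegree ≤ 2 * a + c + 1)
    (u : Up (ev (1 / 2) r) (n0 + 1 / 2) (2 * a + c + 3 / 2))
    (ch : Chain (MM c P Q (ev (1 / 2) r)) N t) (l : ℕ) :
    ∀ n : ℕ, l + n = n0 → ∃ r : ℝ[X], r.natDegree ≤ 2 * a + c + 1 ∧
      Up (ev (1 / 2) r) (n + 1 / 2) (2 * a + c + 3 / 2) ∧
      Chain (MM c P Q (ev (1 / 2) r)) (N + l) t := by
  induction l with
  | zero =>
    intro n hn
    obtain rfl : n = n0 := by omega
    exact ⟨r, dr, u, ch⟩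
  | succ l ih =>
    intro n hn
    obtain ⟨r, d, u, ch⟩ := ih (n + 1) (by omega)
    have hn' : (n : ℝ) ≤ c + 1 := by exact_mod_cast (by omega : n ≤ c + 1)
    have n0 : (0 : ℝ) ≤ n := Nat.cast_nonneg n
    have a0 : (0 : ℝ) ≤ a := Nat.cast_nonneg a
    push_cast at u
    obtain ⟨b, ch'⟩ := h.step_low (ev_cont _ _) u (e := n + 1 / 2) (by linarith) (by linarith)
      (by linarith) (by linarith) (by linarith) ch
    refine ⟨r + C b * X ^ n, deg_add d b (by omega), ?_⟩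
    rw [ev_add (e := n + 1 / 2) _ _ _ _ (by ring)]
    exact ⟨u.add_exp b (by linarith) le_rfl le_rfl (by linarith), ch'⟩

theorem finish {a c N d n : ℕ} {p q r : ℝ[X]} {k t : ℝ} (h : Sys c (ev 1 p) (ev 0 q) 0 (a + 1) k)
    (dp : p.natDegree ≤ a) (cp : 0 < p.coeff a) (dq : q.natDegree ≤ a + c)
    (cop : IsCoprime (X * p) q) (hk : a + 1 + k < d + 3 / 2) (h0 : n ≤ c + 2) (h1 : n ≤ d)
    (h2 : d ≤ 2 * a + c + 1) (dr : r.natDegree ≤ d) (u : Up (ev (1 / 2) r) (n + 1 / 2) (d + 1 / 2))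
    (ch : Chain (MM c (ev 1 p) (ev 0 q) (ev (1 / 2) r)) N t) :
    ∃ P Q : MvPolynomial (Fin 2) ℝ, P.IsHomogeneous (2 * a + 1) ∧
      Q.IsHomogeneous (2 * (a + c) + 1) ∧
      ((N + (2 * a + c + 1 - d) + n : ℕ) : ℕ∞) ≤ (LC (vf P Q)).encard := by
  have p0 : p ≠ 0 := by rintro rfl; simp at cp
  have dp' : p.natDegree = a := le_antisymm dp (le_natDegree_of_ne_zero cp.ne')
  have h1' : (n : ℝ) ≤ d := by exact_mod_cast h1
  obtain ⟨l, hl⟩ := Nat.exists_eq_add_of_le h2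
  have hl' : 2 * (a : ℝ) + c + 1 = d + l := by exact_mod_cast hl
  obtain ⟨r1, t1, d1, u1, ch2⟩ := phaseT' h hk (by positivity) (by linarith) dr u ch l hl.ge
  obtain ⟨r2, d2, -, ch3⟩ := phaseL' h h0 (hl ▸ d1) (u1.mono le_rfl (by linarith)) ch2 n 0 rfl
  obtain ⟨A, B, dA, dB, e⟩ := bezout (a := a) (b := a + c) (r := r2) cop
    (by rw [natDegree_X_mul p0, dp']) (by omega) (by omega)
  rw [show 2 * a + c + 1 - d = l by omega]
  exact main_of dp cp dq dA dB h (e ▸ ch3)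

theorem main_base (a : ℕ) {c : ℕ} (hc : 1 ≤ c) :
    ∃ P Q : MvPolynomial (Fin 2) ℝ, P.IsHomogeneous (2 * a + 1) ∧
      Q.IsHomogeneous (2 * (a + c) + 1) ∧
      ((a + c + min (a + 1) (c + 2) : ℕ) : ℕ∞) ≤ (LC (vf P Q)).encard := by
  have hc' : (1 : ℝ) ≤ c := by exact_mod_cast hc
  have a0 : (0 : ℝ) ≤ a := Nat.cast_nonneg a
  have h : Sys c (ev 1 (X ^ 0 + C 1 * X ^ a)) (ev 0 (X ^ 0)) 0 (a + 1) 0 := by
    rw [ev_add (e := a + 1) _ _ _ _ (by ring), ev_mono (e := 1) _ _ (by simp),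
      ev_mono (e := 0) _ _ (by simp)]
    exact ⟨⟨by linarith, by fun_prop, by fun_prop, fun σ => by positivity, fun σ => by positivity⟩,
      (up_exp 1).add_exp 1 le_rfl (by linarith) (by linarith) le_rfl,
      (lo_exp 1).add_hi one_pos _, up_exp _, lo_exp _, by linarith⟩
  have e := ev_mono (1 / 2) (a + 1) (e := a + 1 + 1 / 2) (by push_cast; ring)
  have u : Up (ev (1 / 2) (X ^ (a + 1))) (a + 1 + 1 / 2) (a + 1 + 1 / 2) := e ▸ up_exp _
  obtain ⟨W, -, hW⟩ := h.top_pos' u (d := a + 1 + 1 / 2)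
    (e ▸ ⟨0, 0, le_rfl, fun σ _ => by simp⟩) (by linarith) (by linarith)
    (h.int_closed (ev_cont _ _) u (by linarith) (by linarith)) 0
  have m : ((min (a + 1) (c + 2) : ℕ) : ℝ) ≤ a + 1 := by exact_mod_cast min_le_left _ _
  have := finish (d := a + 1) (n := min (a + 1) (c + 2)) (N := 0) (t := 1) h
    (deg_add (by simp) _ le_rfl) (by simp [coeff_one]; split_ifs <;> norm_num) (by simp)
    (by simpa using isCoprime_one_right) (by push_cast; linarith) (min_le_right _ _)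
    (min_le_left _ _) (by omega) (by simp) (u.mono (by linarith) (by push_cast; rfl))
    ⟨fun _ => W, fun i hi => by omega, fun i hi => by
      obtain rfl : i = 0 := by omega
      simpa using hW⟩
  rwa [show 0 + (2 * a + c + 1 - (a + 1)) = a + c by omega] at this

/-- The state reached after `e` rounds along the sliding separatrix. -/
def St2 (c : ℝ) (s e : ℕ) : Prop :=
  ∃ (p q r : ℝ[X]) (t : ℝ), Sld c (ev 1 p) (ev 0 q) (e + 1) s ∧ p.natDegree ≤ e ∧
    q.natDegree ≤ s + e + 1 ∧ q.eval 0 = 1 ∧ r.natDegree ≤ 2 * (s + e) + 1 ∧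
    Up (ev (1 / 2) r) (2 * s + 1 / 2) (2 * (s + e) + 3 / 2) ∧
    Two (MM c (ev 1 p) (ev 0 q) (ev (1 / 2) r)) (Below c (ev 1 p) (ev 0 q))
      (Above c (ev 1 p) (ev 0 q)) (2 * e + 1) t

theorem st2_base {c : ℝ} {s : ℕ} (hc : 0 < c) (h1 : 3 / 2 < (s : ℝ) ^ 2 / c) (h2 : 2 * s ≤ c)
    (hs : (0 : ℝ) < s) : St2 c s 0 := by
  have h : Sld c (ev 1 (X ^ 0)) (ev 0 (X ^ 0 + C 1 * X ^ (s + 1))) 1 s := by
    rw [ev_add (e := 1 + s) _ _ _ _ (by push_cast; ring), ev_mono (e := 1) _ _ (by simp),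
      ev_mono (e := 0) _ _ (by simp)]
    exact ⟨⟨hc, by fun_prop, by fun_prop, fun σ => by positivity, fun σ => by positivity⟩,
      up_exp _, lo_exp _, (up_exp 0).add_exp 1 le_rfl (by linarith) (by linarith) le_rfl,
      (lo_exp 0).add_hi one_pos _, hs, h2, le_rfl⟩
  have e := ev_mono (1 / 2) (2 * s) (e := 2 * s + 1 / 2) (by push_cast; ring)
  have u : Up (ev (1 / 2) (X ^ (2 * s))) (2 * s + 1 / 2) (2 * s + 1 / 2) := e ▸ up_exp _
  have tp : Top (ev (1 / 2) (X ^ (2 * s))) (2 * s + 1 / 2) := e ▸ ⟨0, 0, le_rfl, fun σ _ => by simp⟩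
  obtain ⟨W0, w0⟩ := h.exists_below
  obtain ⟨V0, v0⟩ := h.exists_above
  obtain ⟨W, w1, -, w2⟩ := h.pos_below (ev_cont _ _) u tp (by linarith) (by linarith) (by linarith)
    W0 w0
  obtain ⟨V, v1, -, v2⟩ := h.pos_above (ev_cont _ _) u tp (by linarith) (by linarith) (by linarith)
    V0 v0
  obtain ⟨a, ch⟩ := h.step (ev_cont _ _) u (by linarith) (e := 2 * s + 3 / 2) (by linarith)
    (by linarith) (by linarith) (by linarith) (N := 0) (t := 1)
    ⟨⟨fun _ => W, fun i hi => by omega, fun i hi => by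
      obtain rfl : i = 0 := by omega
      exact ⟨w1, by simpa using w2⟩⟩, fun _ => -V, fun i hi => by omega, fun i hi => by
      obtain rfl : i = 0 := by omega
      exact ⟨by simpa using v1, by simpa using v2⟩⟩
  have u1 := u.add_exp (e := 2 * s + 3 / 2) a le_rfl (by linarith) (by linarith) le_rfl
  rw [← ev_add (n := 2 * s + 1) _ _ _ (by push_cast; ring)] at ch u1
  exact ⟨_, _, _, _, by simpa using h, by simp, deg_add (by simp) _ le_rfl, by simp,
    deg_add (by simp) _ le_rfl, by simpa using u1, ch⟩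

theorem st2_step {c : ℝ} {s e : ℕ} (h1 : 3 / 2 < (s : ℝ) ^ 2 / c) (h : St2 c s e) :
    St2 c s (e + 1) := by
  obtain ⟨p, q, r, t, h, dp, dq, q0, dr, u, ch⟩ := h
  have hs := h.s0
  have e0 : (0 : ℝ) ≤ e := Nat.cast_nonneg e
  obtain ⟨δ, hδ, g⟩ := h.grow (ev_cont _ _) u (by linarith) (by linarith) ch
  obtain ⟨h', ch1⟩ := g _ _ (ev_add 1 p δ (e + 1) (by push_cast; ring))
    (ev_add 0 q δ (s + e + 2) (by push_cast; ring))
  obtain ⟨a1, ch2⟩ := h'.step (ev_cont _ _) u (by linarith) (e := 2 * (s + e) + 5 / 2) (by linarith)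
    (by linarith) (by linarith) (by linarith) ch1
  have u1 := u.add_exp (e := 2 * (s + e) + 5 / 2) a1 le_rfl (by linarith) (by linarith) le_rfl
  rw [← ev_add (n := 2 * (s + e) + 2) _ _ _ (by push_cast; ring)] at ch2 u1
  obtain ⟨a2, ch3⟩ := h'.step (ev_cont _ _) u1 (by linarith) (e := 2 * (s + e) + 7 / 2)
    (by linarith) (by linarith) (by linarith) (by linarith) ch2
  have u2 := u1.add_exp (e := 2 * (s + e) + 7 / 2) a2 le_rfl (by linarith) (by linarith) le_rfl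
  rw [← ev_add (1 / 2) _ a2 (2 * (s + e) + 3) (by push_cast; ring)] at ch3 u2
  exact ⟨_, _, _, _, by push_cast; exact h', deg_add (by omega) _ le_rfl,
    deg_add (by omega) _ (by omega), by simp [q0],
    deg_add (deg_add (by omega) _ (by omega)) _ (by omega),
    u2.mono le_rfl (by push_cast; linarith), ch3⟩

theorem coprime_ev' (p : ℝ[X]) {q : ℝ[X]} (hq : q.eval 0 = 1) (a : ℕ) :
    ∀ᶠ δ in 𝓝[>] (0 : ℝ), IsCoprime (X * (p + C δ * X ^ a)) q := by
  have q0 : q ≠ 0 := by rintro rfl; simp at hq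
  have hfin : {δ : ℝ | ¬ IsCoprime (X * (p + C δ * X ^ a)) q}.Finite := by
    refine ((rootSet_finite q ℂ).image fun z => (-(aeval z p) / z ^ a).re).subset fun δ hδ => ?_
    have hδ' : ¬ ∀ z : ℂ, aeval z (X * (p + C δ * X ^ a)) ≠ 0 ∨ aeval z q ≠ 0 := fun h =>
      hδ ((Polynomial.isCoprime_iff_aeval_ne_zero_of_isAlgClosed ℝ ℂ _ _).2 h)
    push Not at hδ'
    obtain ⟨z, h1, h2⟩ := hδ'
    refine ⟨z, mem_rootSet.2 ⟨q0, h2⟩, ?_⟩
    have z0 : z ≠ 0 := by
      rintro rfl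
      rw [← coeff_zero_eq_eval_zero] at hq
      rw [← coeff_zero_eq_aeval_zero', hq] at h2
      simp at h2
    simp only [map_mul, map_add, aeval_X, aeval_C, map_pow, mul_eq_zero, z0, false_or,
      Complex.coe_algebraMap] at h1
    have : -(aeval z p) / z ^ a = (δ : ℂ) := by
      rw [div_eq_iff (pow_ne_zero _ z0)]; linear_combination -h1
    simp only [this, Complex.ofReal_re]
  have h1 : ∀ᶠ δ in 𝓝[≠] (0 : ℝ), δ ∉ {δ : ℝ | ¬ IsCoprime (X * (p + C δ * X ^ a)) q} :=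
    nhdsNE_le_cofinite 0 hfin.compl_mem_cofinite
  exact (h1.filter_mono (nhdsWithin_mono _ fun x hx => ne_of_gt hx)).mono fun δ hδ => by
    simpa using hδ

theorem main_slide {a c s : ℕ} (h1 : 3 * c < 2 * s ^ 2) (h2 : 2 * s ≤ c) (ha : s + 1 ≤ a) :
    ∃ P Q : MvPolynomial (Fin 2) ℝ, P.IsHomogeneous (2 * a + 1) ∧
      Q.IsHomogeneous (2 * (a + c) + 1) ∧
      ((4 * a + c - (2 * s + 1) : ℕ) : ℕ∞) ≤ (LC (vf P Q)).encard := by
  have s1 : 0 < s := Nat.pos_of_ne_zero (by rintro rfl; simp at h1)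
  have hs : (0 : ℝ) < s := by exact_mod_cast s1
  have h2' : 2 * (s : ℝ) ≤ c := by exact_mod_cast h2
  have hc : (0 : ℝ) < c := by linarith
  have h1' : 3 / 2 < (s : ℝ) ^ 2 / c := by
    have : 3 * (c : ℝ) < 2 * s ^ 2 := by exact_mod_cast h1
    rw [lt_div_iff₀ hc]; linarith
  obtain ⟨e, rfl⟩ := Nat.exists_eq_add_of_le ha
  have st : St2 c s e := by
    induction e with
    | zero => exact st2_base hc h1' h2' hs
    | succ e ih => exact st2_step h1' (ih (by omega))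
  obtain ⟨p, q, r, t, h, dp, dq, q0, dr, u, ch⟩ := st
  obtain ⟨δ, ⟨hδ, h', ch'⟩, cop⟩ := ((h.close (ev_cont _ _) u (by linarith) (by linarith) ch).and
    (coprime_ev' p q0 (s + 1 + e))).exists
  rw [← ev_add 1 p δ (s + 1 + e) (by push_cast; ring)] at h' ch'
  have := finish (a := s + 1 + e) (d := 2 * (s + 1 + e)) (n := 2 * s) (k := e + 1 + s)
    (by convert h' using 1; push_cast; ring) (deg_add (by omega) _ le_rfl)
    (by simp [coeff_eq_zero_of_natDegree_lt (show p.natDegree < s + 1 + e by omega), hδ])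
    (by omega) cop (by push_cast; linarith) (by omega) (by omega) (by omega) (by omega)
    (u.mono (by push_cast; rfl) (by push_cast; linarith)) ch'
  rwa [show 2 * e + 1 + (2 * e + 1) + (2 * (s + 1 + e) + c + 1 - 2 * (s + 1 + e)) + 2 * s =
    4 * (s + 1 + e) + c - (2 * s + 1) by omega] at this

theorem main_unif (a : ℕ) {c : ℕ} (hc : 1 ≤ c) :
    ∃ P Q : MvPolynomial (Fin 2) ℝ, P.IsHomogeneous (2 * a + 1) ∧
      Q.IsHomogeneous (2 * (a + c) + 1) ∧
      ((4 * a + c + 2 - 2 * Nat.sqrt (2 * c) - (if 2 * c < 16 then 27 else 5) : ℕ) : ℕ∞) ≤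
        (LC (vf P Q)).encard := by
  have key : ∀ N : ℕ, (∃ P Q : MvPolynomial (Fin 2) ℝ, P.IsHomogeneous (2 * a + 1) ∧
      Q.IsHomogeneous (2 * (a + c) + 1) ∧ (N : ℕ∞) ≤ (LC (vf P Q)).encard) → ∀ M ≤ N,
      ∃ P Q : MvPolynomial (Fin 2) ℝ, P.IsHomogeneous (2 * a + 1) ∧
      Q.IsHomogeneous (2 * (a + c) + 1) ∧ (M : ℕ∞) ≤ (LC (vf P Q)).encard :=
    fun N ⟨P, Q, p1, p2, p3⟩ M hM => ⟨P, Q, p1, p2, le_trans (by exact_mod_cast hM) p3⟩
  set r := Nat.sqrt (2 * c)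
  have r1 : r * r ≤ 2 * c := Nat.sqrt_le _
  have r2 : 2 * c < (r + 1) * (r + 1) := Nat.lt_succ_sqrt _
  split_ifs with h
  · have r3 : c ≤ 4 ∨ 3 ≤ r := by
      by_contra h3
      have : r ≤ 2 := by omega
      have : 5 ≤ c := by omega
      nlinarith
    rcases le_or_gt (4 * ((c + 6) / 4)) a with h4 | h4
    · exact key _ (main_lt hc (by omega) h4) _ (by omega)
    · exact key _ (main_base a hc) _ (by omega)
  · obtain ⟨s, s1, s2, s3⟩ : ∃ s, 3 * c < 2 * s ^ 2 ∧ 2 * s ≤ c ∧ s ≤ r + 1 := by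
      have r4 : 4 ≤ r := by by_contra h3; have : r ≤ 3 := by omega
                            nlinarith
      rcases le_or_gt c 10 with h5 | h5
      · exact ⟨4, by omega, by omega, by omega⟩
      rcases le_or_gt c 16 with h6 | h6
      · exact ⟨5, by omega, by omega, by omega⟩
      have r5 : 5 ≤ r := by by_contra h3; have : r ≤ 4 := by omega
                            nlinarith
      exact ⟨r + 1, by nlinarith, by nlinarith, le_rfl⟩
    rcases le_or_gt (s + 1) a with h4 | h4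
    · exact key _ (main_slide s1 s2 h4) _ (by omega)
    · exact key _ (main_base a hc) _ (by omega)

theorem main_uniform {n m : ℕ} (hn : Odd n) (hm : Odd m) (hne : n ≠ m) :
    ∃ P Q : MvPolynomial (Fin 2) ℝ, P.IsHomogeneous n ∧ Q.IsHomogeneous m ∧
      (((n + m) / 2 + min n m - 2 * Nat.sqrt (max n m - min n m) -
        (if max n m - min n m < 16 then 27 else 5) : ℕ) : ℕ∞) ≤ (LC (vf P Q)).encard := by
  obtain ⟨a, rfl⟩ := hn
  obtain ⟨b, rfl⟩ := hm
  rcases lt_or_gt_of_ne hne with h | h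
  · obtain ⟨c, rfl⟩ := Nat.exists_eq_add_of_le (show a ≤ b by omega)
    rw [min_eq_left h.le, max_eq_right h.le,
      show 2 * (a + c) + 1 - (2 * a + 1) = 2 * c by omega,
      show (2 * a + 1 + (2 * (a + c) + 1)) / 2 + (2 * a + 1) = 4 * a + c + 2 by omega]
    exact main_unif a (by omega)
  · obtain ⟨c, rfl⟩ := Nat.exists_eq_add_of_le (show b ≤ a by omega)
    rw [min_eq_right h.le, max_eq_left h.le,
      show 2 * (b + c) + 1 - (2 * b + 1) = 2 * c by omega,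
      show (2 * (b + c) + 1 + (2 * b + 1)) / 2 + (2 * b + 1) = 4 * b + c + 2 by omega]
    obtain ⟨P, Q, p1, p2, p3⟩ := main_unif b (c := c) (by omega)
    refine ⟨MvPolynomial.rename (Equiv.swap 0 1) Q, MvPolynomial.rename (Equiv.swap 0 1) P,
      p2.rename_isHomogeneous, p1.rename_isHomogeneous, p3.trans (LC_swap fun z => ?_)⟩
    have : (![z.2, z.1] : Fin 2 → ℝ) ∘ Equiv.swap 0 1 = ![z.1, z.2] := by
      funext i; fin_cases i <;> simp
    simp only [vf, MvPolynomial.eval_rename, Prod.fst_swap, Prod.snd_swap, this, Prod.swap_prod_mk]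

end Pool.Agent.LC5081
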