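import Pool.Agent.Lib.MP_5081b1_an.TwoO

/-! The separatrix: existence, uniqueness, bounds, and convergence along families of systems. -/

set_option autoImplicit false

open Set Filter Topology MeasureTheory Real

namespace Pool.Agent.LC5081

def Kap (P Q κ : ℝ → ℝ) : Prop := ∀ σ, HasDerivAt (fun t => log (Q t) - log (P t)) (κ σ) σ

def Sep (c : ℝ) (P Q : ℝ → ℝ) (V : ℝ) : Prop := V ∉ Below c P Q ∧ V ∉ Above c P Q

noncomputable def ss (c : ℝ) (P Q : ℝ → ℝ) (W σ : ℝ) : ℝ :=
  sol c P Q W σ + (log (Q σ) - log (P σ))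

def Conv {ι : Type} (l : Filter ι) (F : ι → ℝ → ℝ) (f : ℝ → ℝ) : Prop :=
  ∀ T ε : ℝ, 0 < ε → ∀ᶠ i in l, ∀ t, |t| ≤ T → |F i t - f t| ≤ ε * f t

theorem Conv.const {ι : Type} (l : Filter ι) {f : ℝ → ℝ} (hf : ∀ t, 0 < f t) :
    Conv l (fun _ => f) f := fun _ ε hε => Eventually.of_forall fun _ t _ => by
  have := hf t
  rw [sub_self, abs_zero]; positivity

theorem Conv.tendsto {ι : Type} {l : Filter ι} {F : ι → ℝ → ℝ} {f : ℝ → ℝ} (h : Conv l F f)
    {t : ℝ} (hf : 0 < f t) : Tendsto (fun i => F i t) l (𝓝 (f t)) := by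
  refine Metric.tendsto_nhds.2 fun ε hε => ?_
  filter_upwards [h |t| (ε / 2 / f t) (by positivity)] with i hi
  have := hi t le_rfl
  rw [div_mul_cancel₀ _ hf.ne'] at this
  exact this.trans_lt (half_lt_self hε)

namespace Pos

variable {c : ℝ} {P Q κ : ℝ → ℝ}

theorem th_eq (h : Pos c P Q) (W σ : ℝ) : th c P Q W σ = 1 / (1 + exp (ss c P Q W σ)) := by
  have := h.pP σ; have := h.pQ σ; have := h.den σ (sol c P Q W σ)
  unfold th ss
  rw [exp_add, exp_sub, exp_log (h.pP σ), exp_log (h.pQ σ)]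
  field_simp

theorem dss (h : Pos c P Q) (hκ : Kap P Q κ) (W σ : ℝ) :
    HasDerivAt (ss c P Q W) (κ σ - c * th c P Q W σ) σ :=
  ((h.dsol W σ).fun_add (hκ σ)).congr_deriv (by ring)

theorem dth (h : Pos c P Q) (hκ : Kap P Q κ) (W σ : ℝ) :
    HasDerivAt (th c P Q W) (EE c P Q W σ * (c * th c P Q W σ - κ σ)) σ := by
  have e : th c P Q W = fun t => (1 + exp (ss c P Q W t))⁻¹ := by
    funext t; rw [h.th_eq, one_div]
  have := exp_pos (ss c P Q W σ)
  have d := ((h.dss hκ W σ).exp.const_add 1).fun_inv (by positivity)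
  rw [← e] at d
  refine d.congr_deriv ?_
  rw [h.EE_eq, show c * th c P Q W σ - κ σ = -(κ σ - c * th c P Q W σ) by ring]
  generalize κ σ - c * th c P Q W σ = u
  rw [h.th_eq]
  field_simp
  ring

theorem th_ge (h : Pos c P Q) (hκ : Kap P Q κ) {V a lo : ℝ} (hV : V ∉ Above c P Q)
    (hlo : ∀ t, a ≤ t → lo ≤ κ t) : lo ≤ c * th c P Q V a := by
  by_contra hn
  push Not at hn
  have hc := h.hc
  set B := (lo + c * th c P Q V a) / 2
  have hB : B < lo := by simp only [B]; linarith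
  have h1 : ∀ t, a ≤ t → c * th c P Q V t ≤ B := fun T hT =>
    image_le_of_deriv_right_lt_deriv_boundary (f := fun t => c * th c P Q V t) (a := a) (b := T)
      (B := fun _ => B) (B' := fun _ => 0) (continuous_const.mul (h.cth V)).continuousOn
      (fun t _ => ((h.dth hκ V t).const_mul c).hasDerivWithinAt) (by simp only [B]; linarith)
      (fun t => hasDerivAt_const t B) (fun t ht e => by
        have := h.E_pos V t; have := hlo t ht.1
        exact mul_neg_of_pos_of_neg hc (mul_neg_of_pos_of_neg ‹_› (by linarith))) ⟨hT, le_rfl⟩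
  have hν : 0 < lo - B := sub_pos.2 hB
  have h2 : ∀ t, a ≤ t → ss c P Q V a - (lo - B) * a ≤ ss c P Q V t - (lo - B) * t := fun t ht =>
    mono_of_deriv (fun t => (h.dss hκ V t).fun_sub ((hasDerivAt_id t).const_mul (lo - B))) ht
      fun s hs => by linarith [h1 s hs.1, hlo s hs.1]
  set A := c * exp (-(ss c P Q V a - (lo - B) * a))
  refine hV ⟨sol c P Q V a - A / (lo - B) * exp (-(lo - B) * a), fun σ _ => ?_⟩
  have A0 : 0 ≤ A := by positivity
  rcases le_total σ a with hσ | hσ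
  · have : 0 ≤ A / (lo - B) * exp (-(lo - B) * a) := by positivity
    linarith [h.w_anti V hσ]
  · have := bwd_bound (h.dsol V) hσ A0 hν (fun t ht => by
      rw [neg_le_neg_iff, mul_assoc, ← exp_add, h.th_eq]
      refine mul_le_mul_of_nonneg_left ?_ hc.le
      refine le_trans ?_ (exp_le_exp.2 (show -ss c P Q V t ≤ _ by linarith [h2 t ht.1]))
      rw [exp_neg, ← one_div]
      exact one_div_le_one_div_of_le (exp_pos _) (by linarith))
    linarith

theorem th_le (h : Pos c P Q) (hκ : Kap P Q κ) {V a hi : ℝ} (hV : V ∉ Below c P Q)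
    (hhi : ∀ t, a ≤ t → κ t ≤ hi) : c * th c P Q V a ≤ hi := by
  by_contra hn
  push Not at hn
  have hc := h.hc
  set B := (hi + c * th c P Q V a) / 2
  have hB : hi < B := by simp only [B]; linarith
  have h1 : ∀ t, a ≤ t → -(c * th c P Q V t) ≤ -B := fun T hT =>
    image_le_of_deriv_right_lt_deriv_boundary (f := fun t => -(c * th c P Q V t)) (a := a) (b := T)
      (B := fun _ => -B) (B' := fun _ => 0) (continuous_const.mul (h.cth V)).neg.continuousOn
      (fun t _ => ((h.dth hκ V t).const_mul c).neg.hasDerivWithinAt) (by simp only [B]; linarith)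
      (fun t => hasDerivAt_const t (-B)) (fun t ht e => by
        have := h.E_pos V t; have := hhi t ht.1
        exact neg_neg_of_pos (mul_pos hc (mul_pos ‹_› (by linarith)))) ⟨hT, le_rfl⟩
  have hν : 0 < B - hi := sub_pos.2 hB
  have h2 : ∀ t, a ≤ t → -ss c P Q V a - (B - hi) * a ≤ -ss c P Q V t - (B - hi) * t := fun t ht =>
    mono_of_deriv (fun t => (h.dss hκ V t).fun_neg.fun_sub ((hasDerivAt_id t).const_mul (B - hi)))
      ht fun s hs => by linarith [h1 s hs.1, hhi s hs.1]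
  set A := c * exp (ss c P Q V a + (B - hi) * a)
  refine hV ⟨sol c P Q V a + c * a + A / (B - hi) * exp (-(B - hi) * a), fun σ _ => ?_⟩
  have A0 : 0 ≤ A := by positivity
  rcases le_total σ a with hσ | hσ
  · have : 0 ≤ A / (B - hi) * exp (-(B - hi) * a) := by positivity
    linarith [h.v_mono V hσ]
  · have := bwd_bound (fun t => ((h.dsol V t).fun_add ((hasDerivAt_id t).const_mul c)).fun_neg)
      hσ A0 hν (fun t ht => by
      rw [neg_le_neg_iff, mul_assoc, ← exp_add, h.th_eq, mul_one, neg_add_eq_sub, ← mul_one_sub]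
      refine mul_le_mul_of_nonneg_left ?_ hc.le
      refine le_trans ?_ (exp_le_exp.2 (show ss c P Q V t ≤ _ by linarith [h2 t ht.1]))
      have := exp_pos (ss c P Q V t)
      rw [one_sub_div (by positivity), div_le_iff₀ (by positivity)]
      nlinarith)
    simp only [id] at this
    linarith

theorem th_tendsto (h : Pos c P Q) (hκ : Kap P Q κ) {V k0 : ℝ} (hV : Sep c P Q V)
    (hk : Tendsto κ atTop (𝓝 k0)) : Tendsto (th c P Q V) atTop (𝓝 (k0 / c)) := by
  have hc := h.hc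
  refine tendsto_order.2 ⟨fun b hb => ?_, fun b hb => ?_⟩
  · obtain ⟨b', b1, b2⟩ := exists_between ((lt_div_iff₀ hc).1 hb)
    obtain ⟨s, hs⟩ := eventually_atTop.1 (hk.eventually_const_le b2)
    filter_upwards [eventually_ge_atTop s] with a ha
    have := h.th_ge hκ hV.2 (a := a) fun t ht => hs t (ha.trans ht)
    nlinarith
  · obtain ⟨b', b1, b2⟩ := exists_between ((div_lt_iff₀ hc).1 hb)
    obtain ⟨s, hs⟩ := eventually_atTop.1 (hk.eventually_le_const b1)
    filter_upwards [eventually_ge_atTop s] with a ha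
    have := h.th_le hκ hV.1 (a := a) fun t ht => hs t (ha.trans ht)
    nlinarith

theorem E_tendsto (h : Pos c P Q) (hκ : Kap P Q κ) {V k0 : ℝ} (hV : Sep c P Q V)
    (hk : Tendsto κ atTop (𝓝 k0)) :
    Tendsto (EE c P Q V) atTop (𝓝 (k0 / c * (1 - k0 / c))) := by
  have := h.th_tendsto hκ hV hk
  exact (this.mul (this.const_sub 1)).congr fun t => (h.EE_eq V t).symm

theorem xx_pos (h : Pos c P Q) {V W : ℝ} (hW : W < V) (σ : ℝ) : 0 < xx c P Q V W σ := by
  have := sol_lt h.lip (h.spec W).1 (h.spec V).1 (t0 := 0)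
    (by rwa [(h.spec W).2, (h.spec V).2]) σ
  exact sub_pos.2 (exp_lt_one_iff.2 (by linarith))

theorem sep_unique (h : Pos c P Q) (hκ : Kap P Q κ) {V W k0 : ℝ} (hV : Sep c P Q V)
    (hW : Sep c P Q W) (hk : Tendsto κ atTop (𝓝 k0)) (k1 : 0 < k0) (k2 : k0 < c) : ¬ W < V := by
  intro hlt
  have hc := h.hc
  have x0 := h.xx_pos hlt 0
  have := le_of_tendsto_of_tendsto ((h.E_tendsto hκ hV hk).mul_const (xx c P Q V W 0))
    ((h.th_tendsto hκ hW hk).sub (h.th_tendsto hκ hV hk)) (by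
      filter_upwards [eventually_ge_atTop 0] with t ht
      have x1 := h.xx_pos hlt t
      have x2 := h.xx_mono V W ht
      rw [abs_of_pos x0, abs_of_pos x1] at x2
      have e := h.E_pos V t
      have d : dn c P Q V W t ≤ 1 := sub_le_self _ (mul_pos x1 (sub_pos.2 (h.th_lt V t))).le
      rw [h.th_sub, le_div_iff₀ (h.dn_pos V W t)]
      exact (mul_le_of_le_one_right (by positivity) d).trans (by gcongr))
  have a1 : 0 < k0 / c := by positivity
  have a2 : k0 / c < 1 := (div_lt_one hc).2 k2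
  have : 0 < k0 / c * (1 - k0 / c) * xx c P Q V W 0 := mul_pos (mul_pos a1 (by linarith)) x0
  linarith

theorem below_mono (h : Pos c P Q) {W W' : ℝ} (hW : W ≤ W') (h1 : W' ∈ Below c P Q) :
    W ∈ Below c P Q := by
  obtain ⟨G, hG⟩ := h1
  exact ⟨G, fun σ hσ => (sol_le h.lip (h.spec W).1 (h.spec W').1 (t0 := 0)
    (by rwa [(h.spec W).2, (h.spec W').2]) σ).trans (hG σ hσ)⟩

theorem above_mono (h : Pos c P Q) {W W' : ℝ} (hW : W ≤ W') (h1 : W ∈ Above c P Q) :
    W' ∈ Above c P Q := by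
  obtain ⟨G, hG⟩ := h1
  exact ⟨G, fun σ hσ => (hG σ hσ).trans (sol_le h.lip (h.spec W).1 (h.spec W').1 (t0 := 0)
    (by rwa [(h.spec W).2, (h.spec W').2]) σ)⟩

theorem below_of_lt (h : Pos c P Q) (hκ : Kap P Q κ) {V W k0 : ℝ} (hV : Sep c P Q V)
    (hk : Tendsto κ atTop (𝓝 k0)) (k1 : 0 < k0) (k2 : k0 < c) (hW : W < V) :
    W ∈ Below c P Q := by
  by_contra hn
  exact h.sep_unique hκ hV ⟨hn, fun ha => hV.2 (h.above_mono hW.le ha)⟩ hk k1 k2 hW

theorem above_of_lt (h : Pos c P Q) (hκ : Kap P Q κ) {V W k0 : ℝ} (hV : Sep c P Q V)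
    (hk : Tendsto κ atTop (𝓝 k0)) (k1 : 0 < k0) (k2 : k0 < c) (hW : V < W) :
    W ∈ Above c P Q := by
  by_contra hn
  exact h.sep_unique hκ ⟨fun ha => hV.1 (h.below_mono hW.le ha), hn⟩ hV hk k1 k2 hW

theorem L_lip (h : Pos c P Q) (W : ℝ) {a b : ℝ} (hab : a ≤ b) :
    LV c P Q W a - c / 4 * (b - a) ≤ LV c P Q W b ∧ LV c P Q W b ≤ LV c P Q W a := by
  have hc := h.hc
  have h1 := mono_of_deriv (fun t => (h.dL W t).fun_add ((hasDerivAt_id t).const_mul (c / 4))) hab
    (fun t _ => by nlinarith [h.E_le W t])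
  have h2 := mono_of_deriv (fun t => (h.dL W t).fun_neg) hab
    (fun t _ => by have := h.E_pos W t; rw [neg_neg]; positivity)
  simp only [id] at h1
  exact ⟨by linarith, by linarith⟩

theorem L_decay (h : Pos c P Q) (W : ℝ) {s lam : ℝ} (hl : 0 ≤ lam) (hs : 0 ≤ s)
    (hE : ∀ t, s ≤ t → lam ≤ c * EE c P Q W t) {a b : ℝ} (ha : 0 ≤ a) (hab : a ≤ b) :
    LV c P Q W b ≤ LV c P Q W a + lam * s - lam * (b - a) := by
  have key : ∀ a b, s ≤ a → a ≤ b → LV c P Q W b + lam * b ≤ LV c P Q W a + lam * a := by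
    intro a b ha hab
    have := mono_of_deriv (fun t => ((h.dL W t).fun_add ((hasDerivAt_id t).const_mul lam)).fun_neg)
      hab (fun t ht => by linarith [hE t (ha.trans ht.1)])
    simp only [id] at this
    linarith
  rcases le_total b s with h1 | h1
  · nlinarith [(h.L_lip W hab).2]
  rcases le_total a s with h2 | h2
  · nlinarith [(h.L_lip W h2).2, key s b le_rfl h1]
  · nlinarith [key a b h2 hab]

theorem Yi_le (h : Pos c P Q) (W σ : ℝ) : |Yi c P Q W σ| ≤ |exp (-LV c P Q W σ) - 1| := by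
  have := abs_sub_le_of (h.dYi W) (h.dEi W) (a := 0) (b := σ) (fun t _ => by
    have h3 := h.E_pos W t; have hc := h.hc
    have t1 : |2 * th c P Q W t - 1| ≤ 1 :=
      abs_le.2 ⟨by linarith [h.th_pos W t], by linarith [h.th_lt W t]⟩
    rw [abs_neg, abs_mul, abs_mul, abs_mul, abs_of_pos hc, abs_of_pos h3, abs_of_pos (exp_pos _)]
    calc c * (EE c P Q W t * |2 * th c P Q W t - 1| * exp (-LV c P Q W t))
        ≤ c * (EE c P Q W t * 1 * exp (-LV c P Q W t)) := by gcongr
      _ = _ := by ring)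
  simpa [Yi0, L0] using this

theorem nn_le (h : Pos c P Q) (W σ : ℝ) : |nn c P Q W σ| ≤ 2 * max 1 (exp (-LV c P Q W σ)) := by
  have t1 : |2 * th c P Q W σ - 1| ≤ 1 :=
    abs_le.2 ⟨by linarith [h.th_pos W σ], by linarith [h.th_lt W σ]⟩
  have e := exp_pos (-LV c P Q W σ)
  have a := le_max_left 1 (exp (-LV c P Q W σ)); have b := le_max_right 1 (exp (-LV c P Q W σ))
  have h1 : |exp (-LV c P Q W σ) - 1| ≤ max 1 (exp (-LV c P Q W σ)) :=
    abs_le.2 ⟨by linarith, by linarith⟩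
  refine (abs_add_le _ _).trans ?_
  rw [abs_mul, abs_of_pos e]
  nlinarith [h.Yi_le W σ]

theorem y_tendsto (h : Pos c P Q) {V θ : ℝ} (hθ : Tendsto (th c P Q V) atTop (𝓝 θ))
    (hL : Tendsto (LV c P Q V) atTop atBot) :
    Tendsto (fun σ => Yi c P Q V σ * exp (LV c P Q V σ)) atTop (𝓝 (1 - 2 * θ)) := by
  refine Metric.tendsto_nhds.2 fun ε hε => ?_
  obtain ⟨s, hs⟩ := eventually_atTop.1 (Metric.tendsto_nhds.1 hθ (ε / 4) (by positivity))
  set f : ℝ → ℝ := fun t => Yi c P Q V t - (1 - 2 * θ) * exp (-LV c P Q V t) with hf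
  have lim : Tendsto (fun σ => |f s| * exp (LV c P Q V σ)) atTop (𝓝 0) := by
    simpa using (tendsto_exp_atBot.comp hL).const_mul |f s|
  filter_upwards [eventually_ge_atTop s, lim.eventually_lt_const (half_pos hε)] with σ hσ h2
  have := abs_sub_le_of (fun t => (h.dYi V t).fun_sub ((h.dEi V t).const_mul (1 - 2 * θ)))
    (fun t => (h.dEi V t).const_mul (ε / 2)) (a := s) (b := σ) (fun t ht => by
      rw [uIcc_of_le hσ] at ht
      have h3 := h.E_pos V t; have hc := h.hc
      have := (hs t ht.1).le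
      rw [Real.dist_eq] at this
      rw [show -(c * (EE c P Q V t * (2 * th c P Q V t - 1) * exp (-LV c P Q V t))) - (1 - 2 * θ) *
        (exp (-LV c P Q V t) * (c * EE c P Q V t)) = -((th c P Q V t - θ) * (2 *
        (exp (-LV c P Q V t) * (c * EE c P Q V t)))) by ring, abs_neg, abs_mul,
        abs_of_pos (a := 2 * _) (by positivity)]
      refine (mul_le_mul_of_nonneg_right this (by positivity)).trans (le_of_eq (by ring)))
  have m : exp (-LV c P Q V s) ≤ exp (-LV c P Q V σ) := exp_le_exp.2 (by linarith [(h.L_lip V hσ).2])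
  rw [← mul_sub, abs_mul, abs_of_pos (half_pos hε), abs_of_nonneg (sub_nonneg.2 m)] at this
  have e1 : exp (-LV c P Q V σ) * exp (LV c P Q V σ) = 1 := by rw [← exp_add]; simp
  have e2 : Yi c P Q V σ * exp (LV c P Q V σ) - (1 - 2 * θ) = f σ * exp (LV c P Q V σ) := by
    simp only [hf]; linear_combination (1 - 2 * θ) * e1
  have h3 : |f σ| ≤ |f s| + ε / 2 * exp (-LV c P Q V σ) := by
    have a := abs_add_le (f σ - f s) (f s)
    rw [sub_add_cancel] at a
    have : 0 < ε / 2 * exp (-LV c P Q V s) := by positivity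
    simp only [hf] at a ⊢
    linarith
  rw [Real.dist_eq, e2, abs_mul, abs_of_pos (exp_pos _)]
  have := mul_le_mul_of_nonneg_right h3 (exp_pos (LV c P Q V σ)).le
  rw [add_mul, mul_assoc, e1] at this
  linarith

end Pos

end Pool.Agent.LC5081
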