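import Pool.Agent.Lib.MP_5081b1_an.Step

/-! Systems with a separatrix that slides along the curve `y Q = P`: orbits below and above it,
the sign of the displacement integral near it, and continuity under perturbations. -/

set_option autoImplicit false

open Set Filter Topology MeasureTheory Real

namespace Pool.Agent.LC5081

def Below (c : ℝ) (P Q : ℝ → ℝ) : Set ℝ := {W | ∃ G, ∀ σ, 0 ≤ σ → sol c P Q W σ ≤ G - c * σ}

def Above (c : ℝ) (P Q : ℝ → ℝ) : Set ℝ := {W | ∃ G, ∀ σ, 0 ≤ σ → G ≤ sol c P Q W σ}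

theorem half_exp {x y z : ℝ} (h : exp x ≤ exp y + z) (hz : 2 * z ≤ exp x) : x - 1 ≤ y := by
  have h3 : exp x = exp (x - 1) * exp 1 := by rw [← exp_add]; congr 1; ring
  have h4 := add_one_le_exp (1 : ℝ)
  have h5 := exp_pos (x - 1)
  rw [← exp_le_exp]
  nlinarith

namespace Pos

variable {c : ℝ} {P Q : ℝ → ℝ}

theorem dy_ge' (h : Pos c P Q) (σ w : ℝ) {x : ℝ} (ha : P σ ≤ x * Q σ) :
    -(c * x) ≤ exp w * fw c P Q σ w := by
  have hd := h.den σ w
  have hP := h.pP σ; have hQ := h.pQ σ; have hc := h.hc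
  have hy : 0 < exp w := exp_pos w
  have hx : 0 < x := by by_contra hx; nlinarith
  have e : exp w * fw c P Q σ w = -(c * (exp w * P σ / (P σ + exp w * Q σ))) := by
    unfold fw; ring
  rw [e, neg_le_neg_iff]
  refine mul_le_mul_of_nonneg_left ?_ hc.le
  rw [div_le_iff₀ hd]
  have h2 : 0 < x * P σ := by positivity
  nlinarith

theorem dg_ge (h : Pos c P Q) (σ w : ℝ) {x : ℝ} (ha : Q σ ≤ x * P σ) :
    fw c P Q σ w + c ≤ c * (exp w * x) := by
  have hd := h.den σ w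
  have hP := h.pP σ; have hQ := h.pQ σ; have hc := h.hc
  have hy : 0 < exp w := exp_pos w
  have hx : 0 < x := by by_contra hx; nlinarith
  rw [h.fw_add]
  refine mul_le_mul_of_nonneg_left ?_ hc.le
  rw [div_le_iff₀ hd]
  have h2 : 0 < exp w * x * (exp w * Q σ) := by positivity
  nlinarith

theorem w_anti (h : Pos c P Q) (W : ℝ) {a b : ℝ} (hab : a ≤ b) :
    sol c P Q W b ≤ sol c P Q W a := by
  have := mono_of_deriv (g := fun t => -sol c P Q W t) (fun t => ((h.spec W).1 t).neg) hab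
    (fun t _ => by linarith [h.fw_le t (sol c P Q W t)])
  linarith

theorem v_mono (h : Pos c P Q) (W : ℝ) {a b : ℝ} (hab : a ≤ b) :
    sol c P Q W a + c * a ≤ sol c P Q W b + c * b :=
  mono_of_deriv (h.dv W) hab (fun t _ => h.fw_ge t _)

theorem trapA (h : Pos c P Q) {A s : ℝ} (hs : 0 < s)
    (hA : ∀ σ, 0 ≤ σ → P σ ≤ exp (A + -s * σ) * Q σ) (W : ℝ) {σ1 : ℝ} (h1 : 0 ≤ σ1)
    (hw : log (2 * (c * exp A / s)) + -s * σ1 ≤ sol c P Q W σ1) (σ : ℝ) (hσ : 0 ≤ σ) :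
    W - c * σ1 - 1 ≤ sol c P Q W σ := by
  have hc := h.hc
  have h0 := h.v_ge W h1
  rcases le_total σ σ1 with hh | hh
  · linarith [h.w_anti W hh]
  have := bwd_bound (h.dy W) (A := c * exp A) hh (by positivity) hs (fun t ht => by
    have := h.dy_ge' t (sol c P Q W t) (hA t (h1.trans ht.1))
    rwa [exp_add, ← mul_assoc] at this)
  have h2 := exp_le_exp.2 hw
  rw [exp_add, exp_log (by positivity)] at h2
  linarith [half_exp this (by linarith)]

theorem trapB (h : Pos c P Q) {A s : ℝ} (hs : s < c)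
    (hA : ∀ σ, 0 ≤ σ → Q σ ≤ exp (A + s * σ) * P σ) (W : ℝ) {σ1 : ℝ} (h1 : 0 ≤ σ1)
    (hw : sol c P Q W σ1 ≤ -log (2 * (c * exp A / (c - s))) + -s * σ1) (σ : ℝ) (hσ : 0 ≤ σ) :
    sol c P Q W σ ≤ W + c * σ1 + 1 - c * σ := by
  have hc := h.hc
  have hs' : 0 < c - s := sub_pos.2 hs
  have h0 := h.w_le W h1
  rcases le_total σ σ1 with hh | hh
  · nlinarith [h.w_le W hσ]
  have := bwd_bound (fun t => (h.dv W t).neg.exp) (A := c * exp A) hh (by positivity) hs'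
    (fun t ht => by
    have := h.dg_ge t (sol c P Q W t) (hA t (h1.trans ht.1))
    have e : exp (-(sol c P Q W t + c * t)) * (c * (exp (sol c P Q W t) * exp (A + s * t))) =
        c * exp A * exp (-(c - s) * t) := by
      rw [mul_left_comm, ← exp_add, ← exp_add, mul_assoc, ← exp_add]; congr 2; ring
    simp only [Pi.neg_apply]
    rw [← e, mul_neg, neg_le_neg_iff]
    gcongr)
  simp only [Pi.neg_apply] at this
  have h2 : exp (log (2 * (c * exp A / (c - s))) + -(c - s) * σ1) ≤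
      exp (-(sol c P Q W σ1 + c * σ1)) := exp_le_exp.2 (by linarith)
  rw [exp_add, exp_log (by positivity)] at h2
  linarith [half_exp this (by linarith)]

theorem L_tan (h : Pos c P Q) (W s : ℝ) {σ : ℝ} (hσ : 0 ≤ σ) :
    -(s ^ 2 / c * σ) + (1 - 2 * s / c) * (sol c P Q W σ - W) ≤ LV c P Q W σ := by
  have hc := h.hc
  have := mono_of_deriv
    (g := fun t => LV c P Q W t + s ^ 2 / c * t - (1 - 2 * s / c) * sol c P Q W t)
    (g' := fun t => -(c * EE c P Q W t) + s ^ 2 / c - (1 - 2 * s / c) * fw c P Q t (sol c P Q W t))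
    (fun t => by
      simpa using ((h.dL W t).fun_add ((hasDerivAt_id t).const_mul (s ^ 2 / c))).fun_sub
        (((h.spec W).1 t).const_mul (1 - 2 * s / c))) hσ (fun t _ => by
      have d := h.den t (sol c P Q W t)
      have e : -(c * EE c P Q W t) + s ^ 2 / c - (1 - 2 * s / c) * fw c P Q t (sol c P Q W t) =
          c * (P t / (P t + exp (sol c P Q W t) * Q t) - s / c) ^ 2 := by
        unfold EE fw; field_simp; ring
      rw [e]; positivity)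
  rw [L0, (h.spec W).2] at this
  linarith

theorem neg_K (h : Pos c P Q) {A b : ℝ} (hA : ∀ σ, σ ≤ 0 → P σ ≤ exp (A + 1 * σ))
    (hb : ∀ σ, σ ≤ 0 → exp (b + 0 * σ) ≤ Q σ) {W0 W : ℝ} (hW : W0 ≤ W) (σ : ℝ) (hσ : σ ≤ 0) :
    KK c P Q W σ ≤ exp (c * exp (A - b - W0) - W0 - 2 * b) := by
  have hc := h.hc
  have := fwd_bound (h.dL W) (A := c * exp (A - b - W0)) (ν := 1) hσ (by positivity) one_pos
    (fun t ht => by
    have := h.E_le' W t (hA t ht.2) (hb t ht.2) (hW.trans (h.w_ge W ht.2))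
    rw [show A + 1 * t - (b + 0 * t) - W0 = A - b - W0 + 1 * t by ring, exp_add] at this
    rw [neg_le_neg_iff, mul_assoc]
    gcongr)
  rw [Pos.L0] at this
  simp only [mul_zero, exp_zero, div_one, mul_one] at this
  refine (h.K_le_Q W σ (hW.trans (h.w_ge W hσ)) (hb σ hσ) (v := c * exp (A - b - W0))
    (by linarith)).trans (le_of_eq ?_)
  congr 1; ring

theorem below_lt (h : Pos c P Q) {W W' : ℝ} (h1 : W ∈ Below c P Q) (h2 : W' ∈ Above c P Q) :
    W < W' := by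
  obtain ⟨G, hG⟩ := h1
  obtain ⟨G', hG'⟩ := h2
  obtain ⟨σ, s1, s2⟩ := ((eventually_ge_atTop 0).and (ev_ge h.hc (G - G' + 1))).exists
  have := sol_lt h.lip (h.spec W).1 (h.spec W').1 (t0 := σ) (by linarith [hG σ s1, hG' σ s1]) 0
  rwa [(h.spec W).2, (h.spec W').2] at this

theorem M_lim (h : Pos c P Q) {G1 G2 R : ℝ → ℝ} (c1 : Continuous G1) (c2 : Continuous G2)
    (p1 : ∀ σ, 0 ≤ G1 σ) (p2 : ∀ σ, 0 ≤ G2 σ) (hR : Continuous R) (W : ℝ) {a b A B : ℝ}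
    (ha : 0 < a) (hb : 0 < b) (hd : ∀ᶠ δ in 𝓝[>] (0 : ℝ),
      (∀ σ, σ ≤ 0 → |R σ * KK c (fun σ => P σ + δ * G1 σ) (fun σ => Q σ + δ * G2 σ) W σ| ≤
        exp (A + a * σ)) ∧
      ∀ σ, 0 ≤ σ → |R σ * KK c (fun σ => P σ + δ * G1 σ) (fun σ => Q σ + δ * G2 σ) W σ| ≤
        exp (B + -b * σ)) :
    Tendsto (fun δ => MM c (fun σ => P σ + δ * G1 σ) (fun σ => Q σ + δ * G2 σ) R W) (𝓝[>] 0)
      (𝓝 (MM c P Q R W)) := by
  refine tendsto_integral_filter_of_dominated_convergence _ ?_ ?_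
    ((integrable_two ha hb).const_mul (exp (max A B)))
    (Eventually.of_forall fun σ => (h.K_tendsto c1 c2 p1 p2 W σ).const_mul _)
  · filter_upwards [self_mem_nhdsWithin] with δ hδ
    exact (hR.mul ((h.pert c1 c2 p1 p2 (le_of_lt hδ)).cK W)).aestronglyMeasurable
  · filter_upwards [hd] with δ hδ
    exact Eventually.of_forall (bound_two
      (fun σ hσ => (hδ.1 σ hσ).trans (exp_le_exp.2 (by linarith [le_max_left A B])))
      fun σ hσ => (hδ.2 σ hσ).trans (exp_le_exp.2 (by linarith [le_max_right A B])))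

end Pos

structure Sld (c : ℝ) (P Q : ℝ → ℝ) (p s : ℝ) : Prop extends Pos c P Q where
  uP : Up P 1 p
  lP : Lo P 1 p
  uQ : Up Q 0 (p + s)
  lQ : Lo Q 0 (p + s)
  s0 : 0 < s
  sc : 2 * s ≤ c
  p1 : 1 ≤ p

namespace Sld

variable {c : ℝ} {P Q R : ℝ → ℝ} {p s : ℝ}

theorem ratA (h : Sld c P Q p s) : ∃ A, 0 ≤ A ∧ ∀ σ, 0 ≤ σ → P σ ≤ exp (A + -s * σ) * Q σ := by
  obtain ⟨aP, -, hP⟩ := h.uP
  obtain ⟨bQ, -, hQ⟩ := h.lQ
  refine ⟨|aP - bQ|, abs_nonneg _, fun σ hσ => ((le_abs_self _).trans (hP σ hσ)).trans ?_⟩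
  refine le_trans ?_ (mul_le_mul_of_nonneg_left (hQ σ hσ) (exp_pos _).le)
  rw [← exp_add]
  exact exp_le_exp.2 (by linarith [le_abs_self (aP - bQ)])

theorem ratB (h : Sld c P Q p s) : ∃ A, 0 ≤ A ∧ ∀ σ, 0 ≤ σ → Q σ ≤ exp (A + s * σ) * P σ := by
  obtain ⟨aQ, -, hQ⟩ := h.uQ
  obtain ⟨bP, -, hP⟩ := h.lP
  refine ⟨|aQ - bP|, abs_nonneg _, fun σ hσ => ((le_abs_self _).trans (hQ σ hσ)).trans ?_⟩
  refine le_trans ?_ (mul_le_mul_of_nonneg_left (hP σ hσ) (exp_pos _).le)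
  rw [← exp_add]
  exact exp_le_exp.2 (by linarith [le_abs_self (aQ - bP)])

theorem sc' (h : Sld c P Q p s) : s < c := by linarith [h.s0, h.sc]

theorem int_of (h : Sld c P Q p s) (hR : Continuous R) {i d : ℝ} (uR : Up R i d) (hi : 0 < i)
    (hd : d < 2 * (p + s)) {W : ℝ} (hW : W ∈ Below c P Q ∪ Above c P Q) :
    Integrable fun σ => R σ * KK c P Q W σ := by
  obtain ⟨aR, R1, R2⟩ := uR
  obtain ⟨aP, P1, -⟩ := h.uP
  obtain ⟨bP, -, P4⟩ := h.lP
  obtain ⟨bQ, Q3, Q4⟩ := h.lQ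
  have sc := h.sc
  have : ∃ B, ∀ σ, 0 ≤ σ → KK c P Q W σ ≤ exp (B - 2 * (p + s) * σ) := by
    rcases hW with ⟨G, hG⟩ | ⟨G, hG⟩
    · exact ⟨G - 2 * bP, fun σ hσ => (h.K_le_P W σ (hG σ hσ) (P4 σ hσ) (h.L_le W hσ)).trans
        (exp_le_exp.2 (by nlinarith))⟩
    · exact ⟨-G - 2 * bQ, fun σ hσ => (h.K_le_Q W σ (hG σ hσ) (Q4 σ hσ) (h.L_le W hσ)).trans
        (exp_le_exp.2 (by linarith))⟩
  obtain ⟨B, hB⟩ := this
  set A := c * exp (aP - bQ - W) - W - 2 * bQ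
  refine integrable_of_up (hR.mul (h.cK W)) hi (b := 2 * (p + s) - d) (by linarith)
    ⟨aR + max A B, fun σ hσ => abs_mul_le (R1 σ hσ) (h.K_pos W σ)
      (h.neg_K (fun σ hσ => (le_abs_self _).trans (P1 σ hσ)) Q3 le_rfl σ hσ) ?_,
      fun σ hσ => abs_mul_le (R2 σ hσ) (h.K_pos W σ) (hB σ hσ) ?_⟩
  · linarith [le_max_left A B]
  · linarith [le_max_right A B]

theorem core (h : Sld c P Q p s) {i d d' : ℝ} (uR : Up R i d') (tR : Top R d) (hi : 0 < i)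
    (hd : 2 * (p + s) - s ^ 2 / c < d) {W1 W2 : ℝ} (h1 : W1 ∈ Below c P Q) (h2 : W2 ∈ Above c P Q)
    (g : ℝ) : ∃ W ∈ Ioo W1 W2, ∃ σ1, 0 ≤ σ1 ∧ sol c P Q W σ1 = g + -s * σ1 ∧
      ((Integrable fun σ => R σ * KK c P Q W σ) → 0 < MM c P Q R W) := by
  obtain ⟨J, hJ⟩ := pos_int hi
  obtain ⟨aR, R1, R2⟩ := uR
  obtain ⟨bR, s0, hs0, R3⟩ := tR
  obtain ⟨aP, P1, P2⟩ := h.uP
  obtain ⟨bP, -, P4⟩ := h.lP
  obtain ⟨aQ, -, Q2⟩ := h.uQ
  obtain ⟨bQ, Q3, Q4⟩ := h.lQ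
  obtain ⟨G1, hG1⟩ := h1
  obtain ⟨G2, hG2⟩ := h2
  have hc := h.hc; have hs := h.s0; have sc := h.sc; have p1 := h.p1
  have x0 : 0 ≤ 1 - 2 * s / c := by rw [sub_nonneg, div_le_one hc]; exact sc
  have x1 : 0 < s ^ 2 / c := by positivity
  have x2 : s ^ 2 / c ≤ s := by rw [div_le_iff₀ hc]; nlinarith
  set A := aR + (c * exp (aP - bQ - W1) - W1 - 2 * bQ)
  set B := aR - bP - bQ + |d' - p - (p + s) + i| * s0
  set H := max (aP + p) (g + aQ + (p + s))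
  have H1 : aP + p ≤ H := le_max_left _ _
  have H2 : g + aQ + (p + s) ≤ H := le_max_right _ _
  obtain ⟨t, ⟨t0, t1⟩, ⟨t2, t3⟩⟩ := (((eventually_ge_atTop s0).and
    (ev_ge (a := c - s) (by linarith) (G1 - g + 1))).and ((ev_ge hs (g - G2 + 1)).and
    (ev_ge (a := d - (2 * (p + s) - s ^ 2 / c)) (by linarith) (max A B + J - (bR + (g - c) -
      s ^ 2 / c + (1 - 2 * s / c) * (g - c - W2) - 2 * H - 2))))).exists
  have t4 : 0 ≤ t := hs0.trans t0
  obtain ⟨u, hu, u0⟩ := exists_sol (B := c) h.lip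
    (fun x => ((continuous_const.mul h.cP).div (h.cP.add (continuous_const.mul h.cQ))
      fun t => (h.den t x).ne').neg)
    (fun t x => by
      have := h.fw_le t x; have := h.fw_ge t x
      rw [abs_le]; constructor <;> linarith) t (g + -s * t)
  have eu : sol c P Q (u 0) = u := sol_unique h.lip (h.spec _).1 hu (h.spec _).2
  have l1 := sol_lt h.lip (h.spec W1).1 hu (t0 := t) (by linarith [hG1 t t4]) 0
  have l2 := sol_lt h.lip hu (h.spec W2).1 (t0 := t) (by linarith [hG2 t t4]) 0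
  rw [(h.spec _).2] at l1 l2
  refine ⟨u 0, ⟨l1, l2⟩, t, t4, by rw [eu, u0], fun hint => ?_⟩
  set W := u 0
  have wt : sol c P Q W t = g + -s * t := by rw [eu, u0]
  refine hJ _ (max A B) (max A B + J) t hint (fun σ hσ => ?_) (fun σ hσ => ?_) (fun σ hσ => ?_)
    le_rfl
  · exact neg_le_mul (R1 σ hσ) (h.K_pos W σ)
      (h.neg_K (fun σ hσ => (le_abs_self _).trans (P1 σ hσ)) Q3 l1.le σ hσ)
      (by linarith [le_max_left A B])
  · rcases le_total σ s0 with h0 | h0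
    · have := mul_le_abs (x := d' - p - (p + s) + i) (σ := σ) (s := s0) (by linarith) h0
      exact neg_le_mul (R2 σ hσ) (h.K_pos W σ) (h.K_le_am W σ (P4 σ hσ) (Q4 σ hσ) (h.L_le W hσ))
        (by linarith [le_max_right A B])
    · exact neg_le_mul' (R3 σ h0) (h.K_pos W σ)
  · have h0 : 0 ≤ σ := t4.trans hσ.1
    have w1 := h.w_anti W hσ.1
    have w2 := h.v_mono W hσ.1
    have y1 : c * σ ≤ c * (t + 1) := by gcongr; exact hσ.2
    have y2 : p * σ ≤ p * (t + 1) := by gcongr; exact hσ.2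
    have y3 : (p + s) * σ ≤ (p + s) * (t + 1) := by gcongr; exact hσ.2
    have y4 : s ^ 2 / c * σ ≤ s ^ 2 / c * (t + 1) := by gcongr; exact hσ.2
    have y5 : d * t ≤ d * σ := by
      gcongr
      · linarith
      · exact hσ.1
    have y6 : (1 - 2 * s / c) * (g - c + -s * t - W2) ≤ (1 - 2 * s / c) * (sol c P Q W σ - W) := by
      gcongr; linarith
    have y7 : 2 * s / c * s = 2 * (s ^ 2 / c) := by ring
    refine le_mul (R3 σ (t0.trans hσ.1)) (h.K_ge W σ (a := p * t + H) (u := g - c + -s * t)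
      (u' := g + -s * t) (by linarith) (by linarith)
      ((le_abs_self _).trans ((P2 σ h0).trans (exp_le_exp.2 (by linarith))))
      ((le_abs_self _).trans (Q2 σ h0)) (by linarith) (h.L_tan W s h0)) (by nlinarith)

theorem exists_below (h : Sld c P Q p s) : ∃ W, W ∈ Below c P Q := by
  obtain ⟨A, -, hA⟩ := h.ratB
  exact ⟨_, _, h.trapB h.sc' hA _ le_rfl (by rw [(h.spec _).2, mul_zero, add_zero])⟩

theorem exists_above (h : Sld c P Q p s) : ∃ W, W ∈ Above c P Q := by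
  obtain ⟨A, -, hA⟩ := h.ratA
  exact ⟨_, _, h.trapA h.s0 hA _ le_rfl (by rw [(h.spec _).2, mul_zero, add_zero])⟩

theorem pos_below (h : Sld c P Q p s) (hR : Continuous R) {i d : ℝ} (uR : Up R i d) (tR : Top R d)
    (hi : 0 < i) (hd : 2 * (p + s) - s ^ 2 / c < d) (hd' : d < 2 * (p + s)) (W0 : ℝ)
    (h0 : W0 ∈ Below c P Q) : ∃ W ∈ Below c P Q, W0 < W ∧ 0 < MM c P Q R W := by
  obtain ⟨A, -, hA⟩ := h.ratB
  obtain ⟨W2, h2⟩ := h.exists_above
  obtain ⟨W, hW, σ1, s1, e, hM⟩ := h.core uR tR hi hd h0 h2 _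
  have : W ∈ Below c P Q := ⟨_, h.trapB h.sc' hA W s1 e.le⟩
  exact ⟨W, this, hW.1, hM (h.int_of hR uR hi hd' (Or.inl this))⟩

theorem pos_above (h : Sld c P Q p s) (hR : Continuous R) {i d : ℝ} (uR : Up R i d) (tR : Top R d)
    (hi : 0 < i) (hd : 2 * (p + s) - s ^ 2 / c < d) (hd' : d < 2 * (p + s)) (W0 : ℝ)
    (h0 : W0 ∈ Above c P Q) : ∃ W ∈ Above c P Q, W < W0 ∧ 0 < MM c P Q R W := by
  obtain ⟨A, -, hA⟩ := h.ratA
  obtain ⟨W1, h1⟩ := h.exists_below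
  obtain ⟨W, hW, σ1, s1, e, hM⟩ := h.core uR tR hi hd h1 h0 _
  have : W ∈ Above c P Q := ⟨_, h.trapA h.s0 hA W s1 e.ge⟩
  exact ⟨W, this, hW.2, hM (h.int_of hR uR hi hd' (Or.inr this))⟩

end Sld

end Pool.Agent.LC5081
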