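import Pool.Agent.Lib.MP_5081b1_an.Asy

/-! Chains of sign changes of the displacement integral and the steps that lengthen them. -/

set_option autoImplicit false

open Set Filter Topology MeasureTheory Real

namespace Pool.Agent.LC5081

theorem exp_add_le (a b : ℝ) : exp a + exp b ≤ exp (max a b + 1) := by
  have h1 : exp a ≤ exp (max a b) := exp_le_exp.2 (le_max_left _ _)
  have h2 : exp b ≤ exp (max a b) := exp_le_exp.2 (le_max_right _ _)
  have := add_one_le_exp (1 : ℝ)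
  rw [exp_add]
  nlinarith [exp_pos (max a b)]

theorem abs_le_exp (t : ℝ) : |t| ≤ exp |t| := by linarith [add_one_le_exp |t|]

theorem Up.mono {f : ℝ → ℝ} {lo hi lo' hi' : ℝ} (h : Up f lo hi) (h1 : lo' ≤ lo) (h2 : hi ≤ hi') :
    Up f lo' hi' := by
  obtain ⟨A, a1, a2⟩ := h
  exact ⟨A, fun σ hσ => (a1 σ hσ).trans (exp_le_exp.2 (by nlinarith)),
    fun σ hσ => (a2 σ hσ).trans (exp_le_exp.2 (by nlinarith))⟩

theorem Up.smul {f : ℝ → ℝ} {lo hi : ℝ} (h : Up f lo hi) (t : ℝ) :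
    Up (fun σ => t * f σ) lo hi := by
  obtain ⟨A, a1, a2⟩ := h
  refine ⟨|t| + A, fun σ hσ => ?_, fun σ hσ => ?_⟩
  · rw [abs_mul, add_assoc, exp_add]; gcongr; exacts [abs_le_exp t, a1 σ hσ]
  · rw [abs_mul, add_assoc, exp_add]; gcongr; exacts [abs_le_exp t, a2 σ hσ]

theorem up_exp (e : ℝ) : Up (fun σ => exp (e * σ)) e e :=
  ⟨0, fun σ _ => by simp, fun σ _ => by simp⟩

theorem Up.add {f g : ℝ → ℝ} {lo hi : ℝ} (h : Up f lo hi) (h' : Up g lo hi) :
    Up (fun σ => f σ + g σ) lo hi := by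
  obtain ⟨A, a1, a2⟩ := h
  obtain ⟨B, b1, b2⟩ := h'
  refine ⟨max A B + 1, fun σ hσ => ?_, fun σ hσ => ?_⟩
  · refine (abs_add_le _ _).trans ((add_le_add (a1 σ hσ) (b1 σ hσ)).trans
      ((exp_add_le _ _).trans (exp_le_exp.2 ?_)))
    rw [max_add_add_right]; linarith
  · refine (abs_add_le _ _).trans ((add_le_add (a2 σ hσ) (b2 σ hσ)).trans
      ((exp_add_le _ _).trans (exp_le_exp.2 ?_)))
    rw [max_add_add_right]; linarith

theorem Up.add_exp {f : ℝ → ℝ} {lo hi lo' hi' e : ℝ} (h : Up f lo hi) (δ : ℝ) (h1 : lo' ≤ lo)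
    (h2 : hi ≤ hi') (h3 : lo' ≤ e) (h4 : e ≤ hi') : Up (fun σ => f σ + δ * exp (e * σ)) lo' hi' :=
  (h.mono h1 h2).add (((up_exp e).smul δ).mono h3 h4)

theorem Lo.add_hi {f : ℝ → ℝ} {lo hi δ : ℝ} (h : Lo f lo hi) (hδ : 0 < δ) (e : ℝ) :
    Lo (fun σ => f σ + δ * exp (e * σ)) lo e := by
  obtain ⟨A, a1, a2⟩ := h
  refine ⟨min A (log δ), fun σ hσ => ?_, fun σ hσ => ?_⟩
  · have : exp (min A (log δ) + lo * σ) ≤ exp (A + lo * σ) :=
      exp_le_exp.2 (by linarith [min_le_left A (log δ)])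
    have h2 : 0 < δ * exp (e * σ) := by positivity
    linarith [a1 σ hσ]
  · have : exp (min A (log δ) + e * σ) ≤ exp (log δ + e * σ) :=
      exp_le_exp.2 (by linarith [min_le_right A (log δ)])
    rw [exp_add (log δ), exp_log hδ] at this
    linarith [a2 σ hσ, exp_pos (A + hi * σ)]

theorem Lo.add_lo {f : ℝ → ℝ} {lo hi δ : ℝ} (h : Lo f lo hi) (hδ : 0 < δ) (e : ℝ) :
    Lo (fun σ => f σ + δ * exp (e * σ)) e hi := by
  obtain ⟨A, a1, a2⟩ := h
  refine ⟨min A (log δ), fun σ hσ => ?_, fun σ hσ => ?_⟩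
  · have : exp (min A (log δ) + e * σ) ≤ exp (log δ + e * σ) :=
      exp_le_exp.2 (by linarith [min_le_right A (log δ)])
    rw [exp_add (log δ), exp_log hδ] at this
    linarith [a1 σ hσ, exp_pos (A + lo * σ)]
  · have : exp (min A (log δ) + hi * σ) ≤ exp (A + hi * σ) :=
      exp_le_exp.2 (by linarith [min_le_left A (log δ)])
    have h2 : 0 < δ * exp (e * σ) := by positivity
    linarith [a2 σ hσ]

theorem half_le {x y a b : ℝ} (hx : |x| ≤ exp a) (hy : exp b ≤ y) (h : a + 1 ≤ b) :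
    exp (b - 1) ≤ x + y := by
  have h1 : exp a ≤ exp (b - 1) := exp_le_exp.2 (by linarith)
  have h2 : exp b = exp (b - 1) * exp 1 := by rw [← exp_add]; congr 1; ring
  have := add_one_le_exp (1 : ℝ)
  have := exp_pos (b - 1)
  have := neg_abs_le x
  nlinarith

theorem Up.top {f : ℝ → ℝ} {lo hi e δ : ℝ} (h : Up f lo hi) (hδ : 0 < δ) (he : hi < e) :
    Top (fun σ => f σ + δ * exp (e * σ)) e := by
  obtain ⟨A, -, a2⟩ := h
  obtain ⟨s, hs⟩ := eventually_atTop.1 ((eventually_ge_atTop 0).and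
    (ev_ge (sub_pos.2 he) (A + 1 - log δ)))
  refine ⟨log δ - 1, s, (hs s le_rfl).1, fun σ hσ => ?_⟩
  have := half_le (a2 σ (hs σ hσ).1) (y := δ * exp (e * σ)) (b := log δ + e * σ)
    (by rw [exp_add, exp_log hδ]) (by linarith [(hs σ hσ).2])
  rwa [show log δ + e * σ - 1 = log δ - 1 + e * σ by ring] at this

theorem Up.bot {f : ℝ → ℝ} {lo hi e δ : ℝ} (h : Up f lo hi) (hδ : 0 < δ) (he : e < lo) :
    Bot (fun σ => f σ + δ * exp (e * σ)) e := by
  obtain ⟨A, a1, -⟩ := h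
  obtain ⟨s, hs⟩ := eventually_atTop.1 ((eventually_ge_atTop 0).and
    (ev_ge (sub_pos.2 he) (A + 1 - log δ)))
  refine ⟨log δ - 1, s, (hs s le_rfl).1, fun σ hσ => ?_⟩
  have h0 := hs (-σ) (by linarith)
  have := half_le (a1 σ (by linarith [h0.1])) (y := δ * exp (e * σ)) (b := log δ + e * σ)
    (by rw [exp_add, exp_log hδ]) (by linarith [h0.2])
  rwa [show log δ + e * σ - 1 = log δ - 1 + e * σ by ring] at this

theorem Bot.add {f : ℝ → ℝ} {i e : ℝ} (h : Bot f i) (δ : ℝ) (he : i < e) :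
    Bot (fun σ => f σ + δ * exp (e * σ)) i := by
  obtain ⟨A, s0, hs0, a1⟩ := h
  obtain ⟨s, hs⟩ := eventually_atTop.1 ((eventually_ge_atTop s0).and
    (ev_ge (sub_pos.2 he) (|δ| + 1 - A)))
  refine ⟨A - 1, s, hs0.trans (hs s le_rfl).1, fun σ hσ => ?_⟩
  have h0 := hs (-σ) (by linarith)
  have := half_le (x := δ * exp (e * σ)) (a := |δ| + e * σ) (by
    rw [abs_mul, exp_add, abs_of_pos (exp_pos _)]; gcongr; exact abs_le_exp δ)
    (a1 σ (by linarith [h0.1])) (by linarith [h0.2])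
  rwa [show A + i * σ - 1 = A - 1 + i * σ by ring, add_comm (δ * _)] at this

/-- `N` sign changes of `M`, the last sign being that of `t`. -/
def Chain (M : ℝ → ℝ) (N : ℕ) (t : ℝ) : Prop :=
  ∃ W : ℕ → ℝ, (∀ i < N, W i < W (i + 1)) ∧ ∀ i ≤ N, 0 < t * (-1) ^ (N + i) * M (W i)

theorem Chain.ne {M : ℝ → ℝ} {N : ℕ} {t : ℝ} (h : Chain M N t) : t ≠ 0 := by
  obtain ⟨W, -, h⟩ := h
  rintro rfl
  simpa using h 0 (Nat.zero_le _)

theorem Chain.right {M : ℝ → ℝ} {N : ℕ} {t : ℝ} (h : Chain M N t)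
    (h' : ∀ W0, ∃ W, W0 < W ∧ 0 < -t * M W) : Chain M (N + 1) (-t) := by
  obtain ⟨W, h1, h2⟩ := h
  obtain ⟨V, hV, hV'⟩ := h' (W N)
  refine ⟨fun i => if i ≤ N then W i else V, fun i hi => ?_, fun i hi => ?_⟩
  · rcases (Nat.lt_succ_iff.1 hi).lt_or_eq with h | rfl
    · simp only [h.le, Nat.succ_le_of_lt h, if_true]; exact h1 i h
    · simpa using hV
  · rcases hi.lt_or_eq with h | rfl
    · simp only [Nat.lt_succ_iff.1 h, if_true]
      have := h2 i (Nat.lt_succ_iff.1 h)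
      rwa [show N + 1 + i = N + i + 1 by ring, pow_succ,
        show -t * ((-1) ^ (N + i) * -1) = t * (-1) ^ (N + i) by ring]
    · rw [← two_mul, pow_mul]
      simpa using hV'

theorem Chain.left {M : ℝ → ℝ} {N : ℕ} {t : ℝ} (h : Chain M N t)
    (h' : ∀ W0, ∃ W, W < W0 ∧ 0 < -(t * (-1) ^ N) * M W) : Chain M (N + 1) t := by
  obtain ⟨W, h1, h2⟩ := h
  obtain ⟨V, hV, hV'⟩ := h' (W 0)
  refine ⟨fun i => Nat.casesOn i V W, fun i hi => ?_, fun i hi => ?_⟩
  · cases i with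
    | zero => exact hV
    | succ i => exact h1 i (by omega)
  · cases i with
    | zero => rwa [add_zero, pow_succ, show t * ((-1) ^ N * -1) = -(t * (-1) ^ N) by ring]
    | succ i =>
      have := h2 i (by omega)
      rwa [show N + 1 + (i + 1) = N + i + 2 by ring, pow_add, neg_one_sq, mul_one]

theorem Chain.persist {M : ℝ → ℝ} {N : ℕ} {t : ℝ} (h : Chain M N t) {M' : ℝ → ℝ → ℝ}
    (h' : ∀ W, Tendsto (fun δ => M' δ W) (𝓝[>] 0) (𝓝 (M W))) :
    ∀ᶠ δ in 𝓝[>] (0 : ℝ), 0 < δ ∧ Chain (M' δ) N t := by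
  obtain ⟨W, h1, h2⟩ := h
  have : ∀ᶠ δ in 𝓝[>] (0 : ℝ), ∀ i ∈ Finset.range (N + 1),
      0 < t * (-1) ^ (N + i) * M' δ (W i) := by
    rw [Filter.eventually_all_finset]
    intro i hi
    exact ((h' (W i)).const_mul _).eventually_const_lt (h2 i (by simpa [Nat.lt_succ_iff] using hi))
  filter_upwards [this, self_mem_nhdsWithin] with δ hδ h0
  exact ⟨h0, W, h1, fun i hi => hδ i (by simpa [Nat.lt_succ_iff] using hi)⟩

theorem MM_smul (c : ℝ) (P Q R : ℝ → ℝ) (t W : ℝ) :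
    MM c P Q (fun σ => t * R σ) W = t * MM c P Q R W := by
  simp only [MM, mul_assoc, integral_const_mul]

theorem int_smul {R K : ℝ → ℝ} (h : Integrable fun σ => R σ * K σ) (t : ℝ) :
    Integrable fun σ => t * R σ * K σ := by
  simpa only [mul_assoc] using h.const_mul t

theorem Chain.addR {c : ℝ} {P Q R G : ℝ → ℝ} {N : ℕ} {t : ℝ} (h : Chain (MM c P Q R) N t)
    (h1 : ∀ W, Integrable fun σ => R σ * KK c P Q W σ)
    (h2 : ∀ W, Integrable fun σ => G σ * KK c P Q W σ) (s : ℝ) :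
    ∃ δ, 0 < δ ∧ Chain (MM c P Q fun σ => R σ + δ * s * G σ) N t := by
  refine (h.persist (M' := fun δ => MM c P Q fun σ => R σ + δ * s * G σ) fun W => ?_).exists
  have e : ∀ δ, MM c P Q (fun σ => R σ + δ * s * G σ) W =
      MM c P Q R W + δ * (s * MM c P Q G W) := fun δ => by
    simp only [MM, add_mul]
    rw [integral_add (h1 W) (int_smul (h2 W) _)]
    simp only [mul_assoc, integral_const_mul]
  simp only [e]
  have : Continuous fun δ : ℝ => MM c P Q R W + δ * (s * MM c P Q G W) := by fun_prop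
  simpa using (this.tendsto 0).mono_left nhdsWithin_le_nhds

theorem smul_add_exp (R : ℝ → ℝ) (s a e : ℝ) :
    (fun σ => s * (R σ + a * exp (e * σ))) = fun σ => s * R σ + s * a * exp (e * σ) := by
  funext σ; ring

namespace Sys

variable {c : ℝ} {P Q R : ℝ → ℝ} {j p k : ℝ} {N : ℕ} {t : ℝ}

theorem step_top (h : Sys c P Q j p k) (cR : Continuous R) {i d e : ℝ} (uR : Up R i d)
    (hi : 0 < i - 1 - j - c / 4) (hie : i ≤ e) (hde : d < e) (he : p + k < e) (he' : e < 2 * p + c)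
    (ch : Chain (MM c P Q R) N t) :
    ∃ a, Chain (MM c P Q fun σ => R σ + a * exp (e * σ)) (N + 1) (-t) := by
  obtain ⟨δ, hδ, ch'⟩ := ch.addR (h.int_open cR uR hi (by linarith))
    (h.int_open (by fun_prop) ((up_exp e).mono hie le_rfl) hi he') (-t)
  refine ⟨δ * -t, ch'.right fun W0 => ?_⟩
  have u' := (uR.add_exp (δ * -t) le_rfl hde.le hie le_rfl).smul (-t)
  simp only [← MM_smul]
  refine h.top_pos u' (d := e) ?_ hi he (h.int_open (by fun_prop) u' hi he') W0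
  rw [smul_add_exp]
  exact (uR.smul (-t)).top (by have := mul_self_pos.2 ch.ne; nlinarith) hde

theorem step_bot (h : Sys c P Q j p k) (hj : 1 < j) (cR : Continuous R) {i d e D : ℝ}
    (uR : Up R i d) (hi : 0 < e - 1 - j - c / 4) (hie : e < i) (hde : e ≤ d)
    (hd' : d < 2 * p + c) (hD : 0 < D) (hD' : D ≤ p - k) (hd : d ≤ p + k - D)
    (he : (e - j - 1) * (p - k) < D * (j - 1)) (ch : Chain (MM c P Q R) N t) :
    ∃ a, Chain (MM c P Q fun σ => R σ + a * exp (e * σ)) (N + 1) (-t) ∧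
      Bot (fun σ => -t * (R σ + a * exp (e * σ))) e := by
  obtain ⟨δ, hδ, ch'⟩ := ch.addR (h.int_open cR (uR.mono hie.le le_rfl) hi hd')
    (h.int_open (by fun_prop) ((up_exp e).mono le_rfl hde) hi hd') (-t)
  have hb : Bot (fun σ => -t * (R σ + δ * -t * exp (e * σ))) e := by
    rw [smul_add_exp]
    exact (uR.smul (-t)).bot (by have := mul_self_pos.2 ch.ne; nlinarith) hie
  refine ⟨δ * -t, ch'.right fun W0 => ?_, hb⟩
  have u' := (uR.add_exp (δ * -t) hie.le le_rfl le_rfl hde).smul (-t)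
  simp only [← MM_smul]
  exact h.bot_pos hj u' hb hD hD' hd he (h.int_open (by fun_prop) u' hi hd') W0

theorem step_low (h : Sys c P Q 0 p k) (cR : Continuous R) {i d e : ℝ}
    (uR : Up R i d) (hi : 0 < e) (hie : e < i) (hde : e ≤ d) (he : e < c + 2)
    (hd' : d < 2 * p + c) (ch : Chain (MM c P Q R) N t) :
    ∃ a, Chain (MM c P Q fun σ => R σ + a * exp (e * σ)) (N + 1) t := by
  set s := -(t * (-1) ^ N) with hs
  have s0 : s ≠ 0 := neg_ne_zero.2 (mul_ne_zero ch.ne (pow_ne_zero _ (by norm_num)))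
  obtain ⟨δ, hδ, ch'⟩ := ch.addR (h.int_closed cR (uR.mono hie.le le_rfl) hi hd')
    (h.int_closed (by fun_prop) ((up_exp e).mono le_rfl hde) hi hd') s
  have hb : Bot (fun σ => s * (R σ + δ * s * exp (e * σ))) e := by
    rw [smul_add_exp]
    exact (uR.smul s).bot (by have := mul_self_pos.2 s0; nlinarith) hie
  refine ⟨δ * s, ch'.left fun W0 => ?_⟩
  have u' := (uR.add_exp (δ * s) hie.le le_rfl le_rfl hde).smul s
  simp only [← MM_smul]
  exact h.low_pos u' hb hi.le he hd' (h.int_closed (by fun_prop) u' hi hd') W0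

theorem addP (h : Sys c P Q j p k) {δ e : ℝ} (hδ : 0 < δ) (he : p ≤ e) (he1 : 1 ≤ e) :
    Sys c (fun σ => P σ + δ * exp (e * σ)) Q j e k := by
  have := h.toPos.pert (G1 := fun σ => exp (e * σ)) (G2 := fun _ => 0) (by fun_prop) (by fun_prop)
    (fun _ => (exp_pos _).le) (fun _ => le_rfl) hδ.le
  simp only [mul_zero, add_zero] at this
  exact ⟨this, h.uP.add_exp δ le_rfl he he1 le_rfl, h.lP.add_hi hδ e, h.uQ, h.lQ,
    h.lt.trans_le he⟩

theorem posQ (h : Sys c P Q j p k) {δ : ℝ} (hδ : 0 < δ) (e : ℝ) :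
    Pos c P (fun σ => Q σ + δ * exp (e * σ)) := by
  have := h.toPos.pert (G2 := fun σ => exp (e * σ)) (G1 := fun _ => 0) (by fun_prop) (by fun_prop)
    (fun _ => le_rfl) (fun _ => (exp_pos _).le) hδ.le
  simpa only [mul_zero, add_zero] using this

theorem addQ (h : Sys c P Q j p k) {δ e : ℝ} (hδ : 0 < δ) (he : k ≤ e) (he1 : j ≤ e)
    (he2 : e < p) : Sys c P (fun σ => Q σ + δ * exp (e * σ)) j p e :=
  ⟨h.posQ hδ e, h.uP, h.lP, h.uQ.add_exp δ le_rfl he he1 le_rfl, h.lQ.add_hi hδ e, he2⟩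

theorem addQ0 (h : Sys c P Q j p k) {δ : ℝ} (hδ : 0 < δ) (he : 0 ≤ k) (he1 : 0 ≤ j) :
    Sys c P (fun σ => Q σ + δ * exp (0 * σ)) 0 p k :=
  ⟨h.posQ hδ 0, h.uP, h.lP, h.uQ.add_exp δ he1 le_rfl le_rfl he, h.lQ.add_lo hδ 0, h.lt⟩

theorem perP (h : Sys c P Q j p k) (cR : Continuous R) {i d : ℝ} (uR : Up R i d)
    (hi : 0 < i - 1 - j - c / 4) (hd : d < 2 * p) (ch : Chain (MM c P Q R) N t) (e : ℝ) :
    ∀ᶠ δ in 𝓝[>] (0 : ℝ), 0 < δ ∧ Chain (MM c (fun σ => P σ + δ * exp (e * σ)) Q R) N t := by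
  refine ch.persist (M' := fun δ => MM c (fun σ => P σ + δ * exp (e * σ)) Q R) fun W => ?_
  simpa only [mul_zero, add_zero] using h.M_tendsto (G1 := fun σ => exp (e * σ))
    (G2 := fun _ => 0) (by fun_prop) (by fun_prop) (fun _ => (exp_pos _).le) (fun _ => le_rfl)
    cR uR hi hd W

theorem perQ (h : Sys c P Q j p k) (cR : Continuous R) {i d : ℝ} (uR : Up R i d)
    (hi : 0 < i - 1 - j - c / 4) (hd : d < 2 * p) (ch : Chain (MM c P Q R) N t) (e : ℝ) :
    ∀ᶠ δ in 𝓝[>] (0 : ℝ), 0 < δ ∧ Chain (MM c P (fun σ => Q σ + δ * exp (e * σ)) R) N t := by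
  refine ch.persist (M' := fun δ => MM c P (fun σ => Q σ + δ * exp (e * σ)) R) fun W => ?_
  simpa only [mul_zero, add_zero] using h.M_tendsto (G2 := fun σ => exp (e * σ))
    (G1 := fun _ => 0) (by fun_prop) (by fun_prop) (fun _ => le_rfl) (fun _ => (exp_pos _).le)
    cR uR hi hd W

theorem ext_bot (h : Sys c P Q j p k) (hj : 1 < j) (cR : Continuous R) {i d D : ℝ}
    (uR : Up R i d) (hi : 0 < i - 1 - j - c / 4) (hb : Bot (fun σ => t * R σ) i)
    (hd' : d < 2 * p + c) (hD : 0 < D) (hD' : D ≤ p - k) (hd : d ≤ p + k - D)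
    (he : (i - j - 1) * (p - k) < D * (j - 1)) (ch : Chain (MM c P Q R) N (-t)) :
    Chain (MM c P Q R) (N + 1) t := by
  have := ch.right fun W0 => by
    simp only [neg_neg, ← MM_smul]
    exact h.bot_pos hj (uR.smul t) hb hD hD' hd he
      (h.int_open (by fun_prop) (uR.smul t) hi hd') W0
  rwa [neg_neg] at this

end Sys

end Pool.Agent.LC5081
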