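import Pool.Agent.Lib.MP_5081b1_an.Pol

/-! Induction steps along a doubly tuned separatrix. -/

set_option autoImplicit false

open Set Filter Topology MeasureTheory Real Polynomial

namespace Pool.Agent.LC5081

theorem ChainS.snoc {M : ℝ → ℝ} {S S' : Set ℝ} {N : ℕ} {t V : ℝ} (h : ChainS M S N t)
    (hS : ∀ w ∈ S, w < V ∧ w ∈ S') (hV : V ∈ S') (hV' : 0 < -t * M V) :
    ChainS M S' (N + 1) (-t) := by
  obtain ⟨W, h1, h2⟩ := h
  refine ⟨fun i => if i ≤ N then W i else V, fun i hi => ?_, fun i hi => ?_⟩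
  · rcases (Nat.lt_succ_iff.1 hi).lt_or_eq with h | rfl
    · simp only [h.le, Nat.succ_le_of_lt h, if_true]; exact h1 i h
    · simpa using (hS _ (h2 i le_rfl).1).1
  · rcases hi.lt_or_eq with h | rfl
    · simp only [Nat.lt_succ_iff.1 h, if_true]
      have := h2 i (Nat.lt_succ_iff.1 h)
      rw [show N + 1 + i = N + i + 1 by ring, pow_succ,
        show -t * ((-1) ^ (N + i) * -1) = t * (-1) ^ (N + i) by ring]
      exact ⟨(hS _ this.1).2, this.2⟩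
    · rw [← two_mul, pow_mul]
      simpa using ⟨hV, by simpa using hV'⟩

theorem ChainS.last {M : ℝ → ℝ} {S : Set ℝ} {N : ℕ} {t : ℝ} (h : ChainS M S N t) :
    ∃ W0 ∈ S, ChainS M (S ∩ Iic W0) N t := by
  obtain ⟨W, h1, h2⟩ := h
  refine ⟨W N, (h2 N le_rfl).1, W, h1, fun i hi => ⟨⟨(h2 i hi).1, ?_⟩, (h2 i hi).2⟩⟩
  have : ∀ k, k ≤ N → ∀ i ≤ k, W i ≤ W k := by
    intro k
    induction k with
    | zero => intro _ i hi; rw [Nat.le_zero.1 hi]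
    | succ k ih =>
      intro hk i hi
      rcases hi.lt_or_eq with h | rfl
      · exact (ih (by omega) i (by omega)).trans (h1 k (by omega)).le
      · exact le_rfl
  exact this N le_rfl i hi

theorem ChainS.mono {M : ℝ → ℝ} {S S' : Set ℝ} {N : ℕ} {t : ℝ} (h : ChainS M S N t)
    (hS : S ⊆ S') : ChainS M S' N t := by
  obtain ⟨W, h1, h2⟩ := h
  exact ⟨W, h1, fun i hi => ⟨hS (h2 i hi).1, (h2 i hi).2⟩⟩

theorem ChainS.single {M : ℝ → ℝ} {S : Set ℝ} {t W : ℝ} (h : W ∈ S) (h' : 0 < t * M W) :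
    ChainS M S 0 t := ⟨fun _ => W, fun i hi => by omega, fun i hi => by
      obtain rfl : i = 0 := by omega
      exact ⟨h, by simpa using h'⟩⟩

theorem near_lt {p : ℝ → Prop} {V : ℝ} (h : ∀ᶠ W in 𝓝[≠] V, p W) {W0 : ℝ} (h0 : W0 < V) :
    ∃ W, W < V ∧ W0 < W ∧ p W := by
  obtain ⟨W, a, b⟩ := ((h.filter_mono (nhdsWithin_mono V fun x (hx : x ∈ Iio V) => ne_of_lt hx)).and
    (Ioo_mem_nhdsLT h0)).exists
  exact ⟨W, b.2, b.1, a⟩

theorem near_gt {p : ℝ → Prop} {V : ℝ} (h : ∀ᶠ W in 𝓝[≠] V, p W) {W0 : ℝ} (h0 : V < W0) :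
    ∃ W, V < W ∧ W < W0 ∧ p W := by
  obtain ⟨W, a, b⟩ := ((h.filter_mono (nhdsWithin_mono V fun x (hx : x ∈ Ioi V) => ne_of_gt hx)).and
    (Ioo_mem_nhdsGT h0)).exists
  exact ⟨W, b.1, b.2, a⟩

theorem Two.near {M : ℝ → ℝ} {V t : ℝ} (h : ∀ᶠ W in 𝓝[≠] V, 0 < t * M W) :
    Two M (Iio V) (Ioi V) 0 t := by
  obtain ⟨W, a, -, b⟩ := near_lt h (sub_one_lt V)
  obtain ⟨W', a', -, b'⟩ := near_gt h (lt_add_one V)
  exact ⟨.single a b, .single (W := -W') (by simpa using a') (by simpa using b')⟩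

theorem Two.ext {M : ℝ → ℝ} {V t : ℝ} {N : ℕ} (h : Two M (Iio V) (Ioi V) N t)
    (h' : ∀ᶠ W in 𝓝[≠] V, 0 < -t * M W) : Two M (Iio V) (Ioi V) (N + 1) (-t) := by
  refine ⟨h.1.right fun W0 h0 => near_lt h' h0, h.2.right fun W0 h0 => ?_⟩
  obtain ⟨W, a, b, d⟩ := near_gt h' (W0 := -W0) h0
  exact ⟨-W, by simpa using a, by linarith, by simpa using d⟩

theorem Two.pers {ι : Type} {l : Filter ι} {M : ℝ → ℝ} {V t : ℝ} {N : ℕ}
    (h : Two M (Iio V) (Ioi V) N t) {M' : ι → ℝ → ℝ} {V' : ι → ℝ} (hV : Tendsto V' l (𝓝 V))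
    (hM : ∀ W, Tendsto (fun i => M' i W) l (𝓝 (M W))) :
    ∀ᶠ i in l, Two (M' i) (Iio (V' i)) (Ioi (V' i)) N t :=
  (h.1.persist' (S' := fun i => Iio (V' i)) fun W hW => ⟨hM W, hV.eventually_const_lt hW⟩).and
    (h.2.persist' (M' := fun i W => M' i (-W)) (S' := fun i => {W | -W ∈ Ioi (V' i)})
      fun _ hW => ⟨hM _, hV.eventually_lt_const hW⟩)

theorem ev_tune (r : ℝ[X]) (α β : ℝ) : ev (1 / 2) (r + C α * X ^ 0 + C β * X ^ 1) =
    fun σ => ev (1 / 2) r σ + α * e0 σ + β * e1 σ := by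
  rw [ev_add (e := 3 / 2) _ _ _ _ (by norm_num), ev_add (e := 1 / 2) _ _ _ _ (by norm_num)]
  rfl

theorem coeff_tune (r : ℝ[X]) (α β : ℝ) {d : ℕ} (hd : 2 ≤ d) :
    (r + C α * X ^ 0 + C β * X ^ 1).coeff d = r.coeff d := by
  rw [coeff_add, coeff_add, coeff_C_mul_X_pow, coeff_C_mul_X_pow, if_neg (by omega),
    if_neg (by omega)]; ring

theorem coeff_new {r : ℝ[X]} {d d' : ℕ} (h : r.natDegree ≤ d) (hd : d < d') (x : ℝ) :
    (r + C x * X ^ d').coeff d' = x := by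
  rw [coeff_add, coeff_C_mul_X_pow, if_pos rfl, coeff_eq_zero_of_natDegree_lt (by omega), zero_add]

namespace PS

variable {c : ℝ} {a b d : ℕ} {p q r : ℝ[X]} {V : ℝ}

theorem fam {ι : Type} {l : Filter ι} [l.IsCountablyGenerated] (h : PS c a b d p q r V)
    (h1 : a + 2 ≤ b) (h2 : (b : ℝ) ≤ a + c) {a' b' d' : ℕ} (hd : 1 ≤ d') {pi qi ri : ι → ℝ[X]} {A : ℝ}
    (hf : Fam l c (fun i => ev 1 (pi i)) (fun i => ev 0 (qi i)) (ev 1 p) (ev 0 q))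
    (hg : ∀ᶠ i in l, Good (pi i) a' ∧ Good (qi i) b' ∧ (ri i).natDegree ≤ d')
    (hb : ∀ᶠ i in l, Sl c A (ev 1 (pi i)) (ev 0 (qi i)) ∧
      RB A (ev 1 (pi i)) (ev 0 (qi i)) (ev (1 / 2) (ri i)))
    (hR : ∀ σ, Tendsto (fun i => ev (1 / 2) (ri i) σ) l (𝓝 (ev (1 / 2) r σ))) :
    ∃ Vi α β : ι → ℝ, Tendsto Vi l (𝓝 V) ∧ Tendsto α l (𝓝 0) ∧ Tendsto β l (𝓝 0) ∧
      (∀ᶠ i in l, PS c a' b' d' (pi i) (qi i) (ri i + C (α i) * X ^ 0 + C (β i) * X ^ 1) (Vi i) ∧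
        RB (A + 1 + 1) (ev 1 (pi i)) (ev 0 (qi i))
          (ev (1 / 2) (ri i + C (α i) * X ^ 0 + C (β i) * X ^ 1))) ∧
      ∀ W, Tendsto (fun i => MM c (ev 1 (pi i)) (ev 0 (qi i))
        (ev (1 / 2) (ri i + C (α i) * X ^ 0 + C (β i) * X ^ 1)) W) l
        (𝓝 (MM c (ev 1 p) (ev 0 q) (ev (1 / 2) r) W)) := by
  have h1' : (a : ℝ) + 2 ≤ b := by exact_mod_cast h1
  obtain ⟨Vi, α, β, u1, u2, u3, u4, u5⟩ := retune hf (kap_spec h.gp h.gq) (kap_lim h.gp h.gq)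
    (by linarith) (by linarith) h.sep h.tun h.det hb hR
  simp only [ev_tune]
  refine ⟨Vi, α, β, u1, u2, u3, ?_, u5⟩
  filter_upwards [u4, hg] with i u g
  exact ⟨⟨g.1, g.2.1, deg_add (deg_add g.2.2 _ (by omega)) _ hd, u.1, ev_tune _ _ _ ▸ u.2.2.1,
    u.2.1⟩, u.2.2.2⟩

theorem addR (h : PS c a b d p q r V) (hc : 0 < c) (h1 : a + 2 ≤ b) (h2 : (b : ℝ) ≤ a + c) {d' : ℕ}
    (d1 : d < d') (d2 : 2 ≤ d') (d3 : d' ≤ a + b) {s : ℝ} (hs : s ≠ 0) :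
    ∃ (r' : ℝ → ℝ[X]) (V' : ℝ → ℝ), Tendsto V' (𝓝[>] 0) (𝓝 V) ∧
      (∀ W, Tendsto (fun δ => MM c (ev 1 p) (ev 0 q) (ev (1 / 2) (r' δ)) W) (𝓝[>] 0)
        (𝓝 (MM c (ev 1 p) (ev 0 q) (ev (1 / 2) r) W))) ∧
      ∀ᶠ δ in 𝓝[>] 0, PS c a b d' p q (r' δ) (V' δ) ∧ 0 < s * (r' δ).coeff d' := by
  obtain ⟨A, b1, b2, b3⟩ := ((sl_of h.gp h.gq hc h1 h2).and ((rb_poly h.gp h.gq h.dr (by omega)).and
    (rb_poly h.gp h.gq (r := X ^ d') (d := d') (by simp) d3))).exists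
  have tδ : Tendsto (fun δ : ℝ => δ * s) (𝓝[>] 0) (𝓝 0) := by
    have : Continuous fun δ : ℝ => δ * s := by fun_prop
    simpa using (this.tendsto 0).mono_left nhdsWithin_le_nhds
  have e : ∀ δ, ev (1 / 2) (r + C (δ * s) * X ^ d') =
      fun σ => ev (1 / 2) r σ + δ * s * ev (1 / 2) (X ^ d') σ := fun δ => by
    rw [ev_add _ _ _ _ rfl, ev_mono _ _ rfl]
  obtain ⟨Vi, α, β, u1, -, -, u4, u5⟩ := h.fam (l := 𝓝[>] (0 : ℝ)) h1 h2 (a' := a) (b' := b)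
    (d' := d') (by omega) (pi := fun _ => p) (qi := fun _ => q)
    (ri := fun δ => r + C (δ * s) * X ^ d') (A := A + 1) (b1.toPos.fam _)
    (Eventually.of_forall fun δ => ⟨h.gp, h.gq, deg_add (h.dr.trans d1.le) _ le_rfl⟩)
    ((tδ.abs.eventually_le_const (u := 1) (by simp)).mono fun δ hδ =>
      ⟨b1.mono (by linarith), e δ ▸ b2.1.add b3.1 b1.toPos hδ⟩)
    (fun σ => by simpa only [e, zero_mul, add_zero] using (tδ.mul_const _).const_add _)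
  refine ⟨_, Vi, u1, u5, ?_⟩
  filter_upwards [u4, self_mem_nhdsWithin] with δ u hδ
  refine ⟨u.1, ?_⟩
  rw [coeff_tune _ _ _ d2, coeff_new h.dr d1, mul_left_comm]
  exact mul_pos hδ (mul_self_pos.2 hs)

theorem two_add (h : PS c a b d p q r V) (hc : 0 < c) (h1 : a + 2 ≤ b) (h2 : (b : ℝ) ≤ a + c)
    {d' N : ℕ} (d1 : d < d') (d2 : 2 ≤ d') (d3 : d' ≤ a + b) {t : ℝ}
    (hμ : (a + b + 1 / 2 - d') * c < (b - a - 1) * (c - (b - a - 1)))
    (ch : Two (MM c (ev 1 p) (ev 0 q) (ev (1 / 2) r)) (Iio V) (Ioi V) N t) :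
    ∃ r' V', PS c a b d' p q r' V' ∧
      Two (MM c (ev 1 p) (ev 0 q) (ev (1 / 2) r')) (Iio V') (Ioi V') (N + 1) (-t) := by
  obtain ⟨r', V', u1, u2, u3⟩ := h.addR hc h1 h2 d1 d2 d3 ch.1.ne
  obtain ⟨δ, ⟨v1, v2⟩, v3⟩ := (u3.and (ch.pers u1 u2)).exists
  exact ⟨_, _, v1, v3.ext (v1.loc hc h1 h2 d3 v2 hμ)⟩

theorem grow (h : PS c a b d p q r V) (hc : 0 < c) (h1 : a + 2 ≤ b) (h2 : (b : ℝ) ≤ a + c)
    (d1 : 1 ≤ d) (d3 : d ≤ a + b) {N : ℕ} {t : ℝ}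
    (ch : Two (MM c (ev 1 p) (ev 0 q) (ev (1 / 2) r)) (Iio V) (Ioi V) N t) :
    ∃ p' q' r' V', PS c (a + 1) (b + 1) d p' q' r' V' ∧
      Two (MM c (ev 1 p') (ev 0 q') (ev (1 / 2) r')) (Iio V') (Ioi V') N t := by
  have h1' : (a : ℝ) + 2 ≤ b := by exact_mod_cast h1
  have a0 : (0 : ℝ) ≤ a := Nat.cast_nonneg a
  obtain ⟨A, A0, b1, b2⟩ := ((eventually_ge_atTop 0).and ((sl_of h.gp h.gq hc h1 h2).and
    (rb_poly h.gp h.gq h.dr d3))).exists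
  have ep : ∀ δ, _ := fun δ => ev_add 1 p δ (a + 1) (e := a + 2) (by push_cast; ring)
  have eq : ∀ δ, _ := fun δ => ev_add 0 q δ (b + 1) (e := b + 1) (by push_cast; ring)
  have tδ : Tendsto (fun δ : ℝ => δ) (𝓝[>] 0) (𝓝 0) := tendsto_id.mono_left nhdsWithin_le_nhds
  have sl : ∀ᶠ δ in 𝓝[>] (0 : ℝ), Sl c (A + 1) (ev 1 (p + C δ * X ^ (a + 1)))
      (ev 0 (q + C δ * X ^ (b + 1))) ∧ RB (A + 1) (ev 1 (p + C δ * X ^ (a + 1)))
      (ev 0 (q + C δ * X ^ (b + 1))) (ev (1 / 2) r) := by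
    filter_upwards [Ioo_mem_nhdsGT (zero_lt_one' ℝ)] with δ hδ
    have d0 := hδ.1
    rw [ep, eq]
    have p1 : ∀ σ : ℝ, 0 ≤ δ * exp ((a + 2) * σ) := fun σ => by positivity
    have p2 : ∀ σ : ℝ, 0 ≤ δ * exp ((b + 1) * σ) := fun σ => by positivity
    have := b1.add (by fun_prop) (by fun_prop) p1 p2
      (fun σ hσ => (mul_le_of_le_one_left (exp_pos _).le hδ.2.le).trans
        (exp_le_exp.2 (by nlinarith)))
      (fun σ hσ => by
        have : exp ((a + 2) * σ) ≤ exp (A + -1 * σ) * exp ((b + 1) * σ) :=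
          le_mul le_rfl le_rfl (by nlinarith)
        have := mul_le_mul_of_nonneg_left this d0.le
        have := mul_pos (exp_pos (A + -1 * σ)) (b1.pQ σ)
        linarith)
      (fun σ hσ => by
        have : exp ((b + 1) * σ) ≤ exp (A + (c - 1) * σ) * exp ((a + 2) * σ) :=
          le_mul le_rfl le_rfl (by nlinarith)
        have := mul_le_mul_of_nonneg_left this d0.le
        have := mul_pos (exp_pos (A + (c - 1) * σ)) (b1.pP σ)
        linarith)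
    exact ⟨this, (b2.1.grow (b1.mul_le p1 p2)).mono this.toPos (by linarith)⟩
  obtain ⟨Vi, α, β, u1, -, -, u4, u5⟩ := h.fam (l := 𝓝[>] (0 : ℝ)) h1 h2 (a' := a + 1) (b' := b + 1)
    (d' := d) d1 (pi := fun δ => p + C δ * X ^ (a + 1)) (qi := fun δ => q + C δ * X ^ (b + 1))
    (ri := fun _ => r) (A := A + 1)
    ⟨b1.toPos, sl.mono fun δ hδ => hδ.1.toPos,
      by simp only [ep]; exact Conv.add b1.cP b1.pP (by fun_prop) tδ,
      by simp only [eq]; exact Conv.add b1.cQ b1.pQ (by fun_prop) tδ⟩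
    (eventually_mem_nhdsWithin.mono fun δ hδ =>
      ⟨h.gp.add_top hδ (by omega), h.gq.add_top hδ (by omega), h.dr⟩) sl
    (fun σ => tendsto_const_nhds)
  obtain ⟨δ, v1, v3⟩ := (u4.and (ch.pers u1 u5)).exists
  exact ⟨_, _, _, _, v1.1, v3⟩

end PS

theorem kap_zero (b : ℕ) (q : ℝ[X]) (σ : ℝ) :
    kap 0 b (X ^ 0) q σ = evd 0 b q σ / ev 0 q σ - 1 := by
  simp [kap, evd, evs, ev]

theorem kap_le_th {c V : ℝ} {b : ℕ} {q : ℝ[X]} (gq : Good q b) (hc : 0 < c)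
    (hV : Sep c (ev 1 (X ^ 0)) (ev 0 q) V) (σ : ℝ) :
    kap 0 b (X ^ 0) q σ ≤ c * th c (ev 1 (X ^ 0)) (ev 0 q) V σ :=
  (Good.one.toPos gq hc).th_ge (kap_spec Good.one gq) hV.2 fun t ht => by
    rw [kap_zero, kap_zero]; linarith [gq.d_mono ht]

theorem ps_base {c : ℝ} (hc : 4 ≤ c) : ∃ V, PS c 0 4 1 (X ^ 0) (X ^ 0 + C 1 * X ^ 4) 0 V := by
  have gq : Good (X ^ 0 + C 1 * X ^ 4) 4 := Good.one.add_top one_pos (by norm_num)
  obtain ⟨A, h⟩ := (sl_of (c := c) Good.one gq (by linarith) (by norm_num)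
    (by push_cast; linarith)).exists
  obtain ⟨V, hV⟩ := h.exists_sep one_pos (sub_one_lt c) h.tA h.tB
  refine ⟨V, Good.one, gq, by simp, hV, ⟨by simp [MM, ev], by simp [N1, ev]⟩,
    (h.dt_pos (kap_spec Good.one gq) (kap_le_th gq h.hc hV)).ne'⟩

/-- The two-sided slide. -/
theorem phase1 {c : ℝ} (hc : 6 < c) (e : ℕ) : ∃ p q r V t, PS c e (e + 4) (2 * e + 4) p q r V ∧
    Two (MM c (ev 1 p) (ev 0 q) (ev (1 / 2) r)) (Iio V) (Ioi V) (2 * e + 1) t := by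
  have c0 : 0 < c := by linarith
  induction e with
  | zero =>
    obtain ⟨V, h⟩ := ps_base (c := c) (by linarith)
    obtain ⟨r', V', -, -, u3⟩ := h.addR c0 (by norm_num) (by push_cast; linarith) (d' := 3)
      (by norm_num) (by norm_num) (by norm_num) one_ne_zero
    obtain ⟨δ, v1, v2⟩ := u3.exists
    obtain ⟨r, V, w1, w2⟩ := v1.two_add c0 (by norm_num) (by push_cast; linarith) (d' := 4)
      (by norm_num) (by norm_num) (by norm_num) (by push_cast; linarith)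
      (Two.near (v1.loc c0 (by norm_num) (by push_cast; linarith) (by norm_num) v2
        (by push_cast; linarith)))
    exact ⟨_, _, r, V, _, w1, w2⟩
  | succ e ih =>
    obtain ⟨p, q, r, V, t, h, ch⟩ := ih
    obtain ⟨p, q, r, V, h, ch⟩ := h.grow c0 (by omega) (by push_cast; linarith) (by omega)
      (by omega) ch
    obtain ⟨r, V, h, ch⟩ := h.two_add c0 (by omega) (by push_cast; linarith) (d' := 2 * e + 5)
      (by omega) (by omega) (by omega) (by push_cast; linarith) ch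
    obtain ⟨r, V, h, ch⟩ := h.two_add c0 (by omega) (by push_cast; linarith) (d' := 2 * e + 6)
      (by omega) (by omega) (by omega) (by push_cast; linarith) ch
    exact ⟨p, q, r, V, _, h, ch⟩

/-- The closed configuration on the left. -/
theorem closed1 {c : ℝ} (hc : 6 < c) (e : ℕ) : ∃ p q r t, Good p (e + 4) ∧ Good q (e + 4) ∧
    r.natDegree ≤ 2 * e + 4 ∧
    ChainS (MM c (ev 1 p) (ev 0 q) (ev (1 / 2) r)) univ (4 * e + 2) t := by
  obtain ⟨p, q, r, V, t, h, ch⟩ := phase1 hc e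
  have c0 : 0 < c := by linarith
  have e0 : (0 : ℝ) ≤ e := Nat.cast_nonneg e
  obtain ⟨W, w1, w2⟩ := ch.concat fun W hW W' hW' => lt_trans hW hW'
  have ch' : ChainS (MM c (ev 1 p) (ev 0 q) (ev (1 / 2) r)) univ (2 * e + 1 + (2 * e + 1)) _ :=
    ⟨W, w1, fun i hi => ⟨trivial, w2 i hi⟩⟩
  obtain ⟨A, b1, b2⟩ := ((bd_of h.gp h.gq c0).and (rb_poly h.gp h.gq h.dr (by omega))).exists
  have ep : ∀ δ, _ := fun δ => ev_add 1 p δ (e + 4) (e := e + 5) (by push_cast; ring)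
  have tδ : Tendsto (fun δ : ℝ => δ) (𝓝[>] 0) (𝓝 0) := tendsto_id.mono_left nhdsWithin_le_nhds
  have sl : ∀ᶠ δ in 𝓝[>] (0 : ℝ), Bd c (A + 1) (ev 1 (p + C δ * X ^ (e + 4))) (ev 0 q) ∧
      RB (A + 1) (ev 1 (p + C δ * X ^ (e + 4))) (ev 0 q) (ev (1 / 2) r) := by
    filter_upwards [Ioo_mem_nhdsGT (zero_lt_one' ℝ)] with δ hδ
    have d0 := hδ.1
    rw [ep]
    have p1 : ∀ σ : ℝ, 0 ≤ δ * exp ((e + 5) * σ) := fun σ => by positivity
    have := b1.1.add (G2 := fun _ => 0) (by fun_prop) (by fun_prop) p1 (fun _ => le_rfl)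
      (fun σ hσ => (mul_le_of_le_one_left (exp_pos _).le hδ.2.le).trans
        (exp_le_exp.2 (by nlinarith)))
    have r := (b2.1.grow (b1.1.mul_le p1 (G2 := fun _ => 0) fun _ => le_rfl)).mono this.toPos
      (show A ≤ A + 1 by linarith)
    simp only [add_zero] at this r
    exact ⟨this, r⟩
  have hf : Fam (𝓝[>] (0 : ℝ)) c (fun δ => ev 1 (p + C δ * X ^ (e + 4))) (fun _ => ev 0 q)
      (ev 1 p) (ev 0 q) := ⟨b1.1.toPos, sl.mono fun δ hδ => hδ.1.toPos,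
    by simp only [ep]; exact Conv.add b1.1.cP b1.1.pP (by fun_prop) tδ, Conv.const _ b1.1.pQ⟩
  obtain ⟨δ, hδ, v⟩ := (eventually_mem_nhdsWithin.and (ch'.persist' (S' := fun _ => univ)
    fun W _ => ⟨(hf.tM (Ri := fun _ => ev (1 / 2) r) tendsto_const_nhds sl
      fun _ => tendsto_const_nhds).1, Eventually.of_forall fun _ => trivial⟩)).exists
  exact ⟨_, q, r, _, h.gp.add_top hδ (by omega), h.gq, h.dr,
    (show 2 * e + 1 + (2 * e + 1) = 4 * e + 2 by ring) ▸ v⟩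

end Pool.Agent.LC5081
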