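import Pool.Agent.Lib.MP_5081b1_an.Glu

/-! The lower bound `n + m - C` for all odd `n ≠ m`. -/

set_option autoImplicit false

open Set Filter Topology MeasureTheory Real Polynomial

namespace Pool.Agent.LC5081

theorem finishB {a c N : ℕ} {p q r : ℝ[X]} {t A s : ℝ} (dp : p.natDegree ≤ a) (cp : 0 < p.coeff a)
    (dq : q.natDegree ≤ a + c) (dr : r.natDegree ≤ a + (a + c) + 1)
    (h : Bd c A (ev 1 p) (ev 0 q)) (hR : RB A (ev 1 p) (ev 0 q) (ev (1 / 2) r)) (hs : s < c)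
    (hB : ∀ σ, 0 ≤ σ → ev 0 q σ + 1 ≤ exp (A + s * σ) * ev 1 p σ)
    (ch : ChainS (MM c (ev 1 p) (ev 0 q) (ev (1 / 2) r)) (Below c (ev 1 p) (ev 0 q)) N t) :
    ∃ P Q : MvPolynomial (Fin 2) ℝ, P.IsHomogeneous (2 * a + 1) ∧
      Q.IsHomogeneous (2 * (a + c) + 1) ∧ (N : ℕ∞) ≤ (LC (vf P Q)).encard := by
  have p0 : p ≠ 0 := by rintro rfl; simp at cp
  have dp' : (X * p).natDegree = a + 1 := by
    rw [natDegree_X_mul p0, le_antisymm dp (le_natDegree_of_ne_zero cp.ne')]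
  have hb : ∀ δ : ℝ, 0 < δ → Bd c A (ev 1 p) (fun σ => ev 0 q σ + δ * exp (0 * σ)) ∧
      RB A (ev 1 p) (fun σ => ev 0 q σ + δ * exp (0 * σ)) (ev (1 / 2) r) := fun δ hδ => by
    have g : ∀ σ, ev 0 q σ ≤ ev 0 q σ + δ * exp (0 * σ) := fun σ =>
      le_add_of_nonneg_right (by positivity)
    have := h.cQ
    exact ⟨⟨⟨h.hc, h.cP, by fun_prop, h.pP, fun σ => (h.pQ σ).trans_le (g σ)⟩,
      fun σ hσ => (h.n1 σ hσ).trans (mul_le_mul_of_nonneg_left (g σ) (exp_pos _).le),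
      fun σ hσ => (h.n2 σ hσ).trans (g σ)⟩,
      hR.grow fun σ => mul_le_mul_of_nonneg_left (g σ) (h.pP σ).le⟩
  have ev0 : ∀ᶠ δ : ℝ in 𝓝[>] 0, 0 < δ := self_mem_nhdsWithin
  have t0 : Tendsto (fun δ : ℝ => δ) (𝓝[>] 0) (𝓝 0) := tendsto_id.mono_left nhdsWithin_le_nhds
  have F : Fam (𝓝[>] (0 : ℝ)) c (fun _ => ev 1 p) (fun δ σ => ev 0 q σ + δ * exp (0 * σ))
      (ev 1 p) (ev 0 q) :=
    ⟨h.toPos, ev0.mono fun δ hδ => (hb δ hδ).1.toPos, Conv.const _ h.pP,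
      Conv.add h.cQ h.pQ (by fun_prop) t0⟩
  have E := ch.persist' (l := 𝓝[>] (0 : ℝ))
    (M' := fun δ => MM c (ev 1 p) (fun σ => ev 0 q σ + δ * exp (0 * σ)) (ev (1 / 2) r))
    (S' := fun δ => Below c (ev 1 p) fun σ => ev 0 q σ + δ * exp (0 * σ)) fun W hW =>
      ⟨(F.tM (Wi := fun _ => W) (Ri := fun _ => ev (1 / 2) r) tendsto_const_nhds (ev0.mono hb)
        fun σ => tendsto_const_nhds).1, F.below (A := A) tendsto_const_nhds hs (by
          filter_upwards [t0.eventually_le_const one_pos] with δ hδ σ hσ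
          refine le_trans ?_ (hB σ hσ)
          simpa using hδ) hW⟩
  obtain ⟨δ, ⟨e1, e2⟩, e3⟩ := ((E.and ev0).and
    (coprime_ev (q := q) (mul_ne_zero X_ne_zero p0))).exists
  have dq' : (q + C δ * X ^ 0).natDegree ≤ a + c := deg_add dq δ (Nat.zero_le _)
  obtain ⟨A', B', dA, dB, e⟩ := bezout e3 dp' (dq'.trans (Nat.le_succ _)) dr
  have b := (hb δ e2).1
  rw [← ev_add 0 q δ 0 (by simp)] at b e1
  rw [e] at e1
  exact main_of' dp cp dq' dA dB b e1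

theorem cfg_of {c : ℝ} {p q r q2 r2 : ℝ[X]} {a b : ℕ} (hc : 0 < c) (gp : Good p a) (gq : Good q a)
    (ur : Up (ev (1 / 2) r) (1 / 2) (2 * a - 1 / 2)) (g2 : Good q2 b) (c0 : q2.coeff 0 = 1)
    (d2 : r2.natDegree ≤ b) (hb : (b : ℝ) ≤ c) : ∃ A, Cfg c a A (log (p.coeff a)) (log (q.coeff a))
      (ev 1 p) (ev 0 q) (ev (1 / 2) r) (ev 0 q2) (ev (1 / 2) r2) := by
  obtain ⟨aP, P1, P2⟩ := ev_up 1 gp.dg
  obtain ⟨aQ, -, Q2⟩ := ev_up 0 gq.dg
  obtain ⟨bQ, Q3, Q4⟩ := gq.lo 0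
  obtain ⟨aR, R1, R2⟩ := ur
  obtain ⟨aS, S1, S2⟩ := ev_up 0 g2.dg
  obtain ⟨bS, S3, S4⟩ := g2.lo 0
  obtain ⟨aT, T1, T2⟩ := ev_up (1 / 2) d2
  obtain ⟨A, ⟨h0, -⟩, h1, h2, h3, h4, h5, h6, h7, h8⟩ := ((bd_of gp gq hc).and <|
    (eventually_ge_atTop 0).and <| (eventually_ge_atTop |log (p.coeff a)|).and <|
    (eventually_ge_atTop |log (q.coeff a)|).and <| (eventually_ge_atTop (aP - bQ)).and <|
    (eventually_ge_atTop aQ).and <| (eventually_ge_atTop aR).and <|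
    (eventually_ge_atTop aS).and <| eventually_ge_atTop (aT - bS)).exists
  have lim : ∀ (h : ℝ) {f : ℝ[X]}, Good f a → Tendsto
      (fun x => ev h f x * exp (-log (f.coeff a) - (h + a) * x)) atTop (𝓝 1) := fun h f g => by
    have := (ev_lim h g.dg).mul_const (exp (-log (f.coeff a)))
    rw [exp_neg, exp_log g.top, mul_inv_cancel₀ g.top.ne', ← exp_log g.top, ← exp_neg] at this
    refine this.congr fun x => ?_
    rw [mul_assoc, ← exp_add]; congr 2; ring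
  refine ⟨A, h0, Nat.cast_nonneg a, h1, h2, h3, fun x => ?_, fun x => ?_, fun x => ?_,
    fun x hx => ?_, lim 1 gp, by simpa only [zero_add] using lim 0 gq, ev_cont _ _,
    fun x hx => (R1 x hx).trans (exp_le_exp.2 (by linarith)),
    fun x hx => (R2 x hx).trans (exp_le_exp.2 (by linarith)), ev_cont _ _, fun x => ?_, ?_,
    fun x hx => ?_, fun x hx => ?_, ev_cont _ _, fun x => ?_⟩
  · rcases le_total x 0 with hx | hx
    · exact ((le_abs_self _).trans (P1 x hx)).trans (le_mul le_rfl (Q3 x hx) (by linarith))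
    · exact ((le_abs_self _).trans (P2 x hx)).trans (le_mul le_rfl (Q4 x hx) (by linarith))
  · rw [exp_add, exp_log gp.top]; exact gp.le 1 x le_rfl
  · rw [exp_add, exp_log gq.top]; simpa only [zero_add] using gq.le 0 x le_rfl
  · exact ((le_abs_self _).trans (Q2 x hx)).trans (exp_le_exp.2 (by linarith))
  · simpa [c0] using g2.le 0 x (Nat.zero_le b)
  · have := (q2.continuous.tendsto 0).comp tendsto_exp_atBot
    rw [← coeff_zero_eq_eval_zero, c0] at this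
    exact this.congr fun x => by simp [ev]
  · exact ((le_abs_self _).trans (S1 x hx)).trans (exp_le_exp.2 (by linarith))
  · exact ((le_abs_self _).trans (S2 x hx)).trans (exp_le_exp.2 (by nlinarith))
  · rcases le_total x 0 with hx | hx
    · exact (T1 x hx).trans (le_mul le_rfl (S3 x hx) (by linarith))
    · exact (T2 x hx).trans (le_mul le_rfl (S4 x hx) (by linarith))

theorem deg_glue {f g : ℝ[X]} {n k b : ℕ} (hf : f.natDegree ≤ n) (hg : g.natDegree ≤ b)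
    (h : k + b ≤ n) (u v : ℝ) : (f + C u * X ^ k * g.comp (C v * X)).natDegree ≤ n := by
  refine natDegree_add_le_of_degree_le hf (natDegree_mul_le.trans (le_trans (add_le_add
    (natDegree_C_mul_X_pow_le u k) (natDegree_comp_le.trans ?_)) h))
  have : (C v * X).natDegree ≤ 1 := (natDegree_C_mul_le _ _).trans natDegree_X_le
  nlinarith

theorem glue {a b c N t' : ℕ} {p q r q2 r2 : ℝ[X]} {t : ℝ} (gp : Good p a) (gq : Good q a)
    (dr : r.natDegree ≤ 2 * a) (ur : Up (ev (1 / 2) r) (1 / 2) (2 * a - 1 / 2)) (g2 : Good q2 b)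
    (c0 : q2.coeff 0 = 1) (d2 : r2.natDegree ≤ b) (hb : b ≤ c) (hc : 1 ≤ c)
    (H : ∀ {A α β : ℝ}, Cfg c a A α β (ev 1 p) (ev 0 q) (ev (1 / 2) r) (ev 0 q2) (ev (1 / 2) r2) →
      ∀ᶠ Λ in atTop, ChainS (MM c (ev 1 p) (QL a β (ev 0 q) (ev 0 q2) Λ)
        (RL a (ev (1 / 2) r) (ev (1 / 2) r2) Λ)) (Below c (ev 1 p) (QL a β (ev 0 q) (ev 0 q2) Λ))
        N t) (ht : t' = N) :
    ∃ P Q : MvPolynomial (Fin 2) ℝ, P.IsHomogeneous (2 * a + 1) ∧
      Q.IsHomogeneous (2 * (a + c) + 1) ∧ (t' : ℕ∞) ≤ (LC (vf P Q)).encard := by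
  subst ht
  have hc' : (1 : ℝ) ≤ c := by exact_mod_cast hc
  obtain ⟨A, h⟩ := cfg_of (c := c) (by linarith) gp gq ur g2 c0 d2 (by exact_mod_cast hb)
  obtain ⟨Λ, ch, hΛ⟩ := ((H h).and (eventually_ge_atTop 0)).exists
  obtain ⟨b1, b2, b3⟩ := h.bdL hΛ
  have eq : ev 0 (q + C (q.coeff a) * X ^ a * (q2 - 1).comp (C (exp (-Λ)) * X)) =
      QL a (log (q.coeff a)) (ev 0 q) (ev 0 q2) Λ := by
    funext σ
    simp only [ev, QL, eval_add, eval_mul, eval_C, eval_pow, eval_X, eval_comp, eval_sub, eval_one,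
      zero_mul, exp_zero, one_mul, exp_add, exp_log gq.top, ← exp_nat_mul]
    rw [← exp_add, neg_add_eq_sub]
  have er : ev (1 / 2) (r + C (exp (-Λ / 4)) * X ^ (2 * a) * r2.comp (C (exp (-Λ)) * X)) =
      RL a (ev (1 / 2) r) (ev (1 / 2) r2) Λ := by
    funext σ
    have e : exp (1 / 2 * σ) * (exp (-Λ / 4) * exp ((2 * a : ℕ) * σ)) =
        exp (Λ / 4 + 2 * a * σ) * exp (1 / 2 * (σ - Λ)) := by
      simp only [← exp_add]; congr 1; push_cast; ring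
    simp only [ev, RL, eval_add, eval_mul, eval_C, eval_pow, eval_X, eval_comp, ← exp_nat_mul]
    rw [← exp_add (-Λ), neg_add_eq_sub]
    linear_combination eval (exp (σ - Λ)) r2 * e
  rw [← eq, ← er] at ch b2
  rw [← eq] at b1 b3
  have A0 := h.A0
  have a0 := h.a0
  refine finishB (c := c) gp.dg gp.top (deg_glue (gq.dg.trans (by omega)) (b := b) ?_ (by omega) _ _)
    (deg_glue (dr.trans (by omega)) d2 (by omega) _ _) (b1.mono (A' := 3 * A + 1 + 1) (by linarith))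
    (b2.mono b1.toPos (by linarith)) (sub_one_lt _) (fun σ hσ => ?_) ch
  · exact (natDegree_sub_le _ _).trans (max_le g2.dg (by simp))
  · have e1 : 1 ≤ exp (3 * A + 1 + (c - 1) * σ) * ev 1 p σ :=
      exp_zero.ge.trans (le_mul le_rfl (h.lP σ) (by nlinarith [(abs_le.1 h.hα).1]))
    have e2 := two_exp (3 * A + 1 + (c - 1) * σ)
    rw [add_right_comm (3 * A + 1)] at e2
    have := mul_le_mul_of_nonneg_right e2 (h.pP σ).le
    linarith [b3 σ hσ]

theorem cfg2 (e : ℕ) {c : ℝ} (hc : (e : ℝ) + 5 ≤ c) {s : ℝ} (hs : s ≠ 0) : ∃ q r : ℝ[X],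
    Good q (e + 4) ∧ q.coeff 0 = 1 ∧ r.natDegree ≤ e + 4 ∧
      ChainS (MM c exp (ev 0 q) (ev (1 / 2) r)) (Below c exp (ev 0 q)) (2 * e) s := by
  obtain ⟨q, r, V, h, c0, -, ch⟩ := phase2 e hc
  have e0 : (0 : ℝ) ≤ e := Nat.cast_nonneg e
  have e1 : ev 1 (X ^ 0) = exp := by funext σ; simp [ev]
  refine ⟨q, C s * r, h.gq, c0, (natDegree_C_mul_le _ _).trans h.dr, ?_⟩
  have := (ch.smul hs).mono (S' := Below c (ev 1 (X ^ 0)) (ev 0 q)) fun W hW =>
    (h.gp.toPos h.gq (by linarith)).below_of_lt (kap_spec h.gp h.gq) h.sep (kap_lim h.gp h.gq)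
      (by push_cast; linarith) (by push_cast; linarith) hW
  rw [e1] at this
  rw [ev_smul]
  simpa only [← MM_smul] using this

theorem main_big (e f : ℕ) (hf : 2 ≤ f) :
    ∃ P Q : MvPolynomial (Fin 2) ℝ, P.IsHomogeneous (2 * (e + 4) + 1) ∧
      Q.IsHomogeneous (2 * (e + 4 + (f + 5)) + 1) ∧
      ((4 * e + 2 * f + 3 : ℕ) : ℕ∞) ≤ (LC (vf P Q)).encard := by
  have hf' : (2 : ℝ) ≤ f := by exact_mod_cast hf
  obtain ⟨p, q, r, t, gp, gq, dr, ch⟩ := closed1 (c := (f + 5 : ℕ)) (by push_cast; linarith) e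
  obtain ⟨q2, r2, g2, c0, d2, ch2⟩ := cfg2 f (c := (f + 5 : ℕ)) (by push_cast; rfl)
    (neg_ne_zero.2 ch.ne)
  obtain ⟨W1, -, ch⟩ := ch.last
  refine glue (N := 4 * e + 2 + 2 * f + 1) (t := -t) gp gq (by omega)
    ((ev_up _ dr).mono le_rfl (by push_cast; linarith)) g2 c0 d2 (by omega) (by omega)
    (fun h => ?_) (by ring)
  filter_upwards [h.view1 ch, h.view2 W1 ch2] with Λ h1 h2
  exact (h1.append h2 fun x hx y hy => lt_of_le_of_lt hx.2.2 hy.2).mono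
    (union_subset inter_subset_left inter_subset_left)

theorem main_small (a f : ℕ) :
    ∃ P Q : MvPolynomial (Fin 2) ℝ, P.IsHomogeneous (2 * a + 1) ∧
      Q.IsHomogeneous (2 * (a + (f + 5)) + 1) ∧ ((2 * f : ℕ) : ℕ∞) ≤ (LC (vf P Q)).encard := by
  obtain ⟨q2, r2, g2, c0, d2, ch2⟩ := cfg2 f (c := (f + 5 : ℕ)) (by push_cast; rfl) one_ne_zero
  have g := Good.one.add_top one_pos (Nat.zero_le a)
  refine glue (r := 0) (t := 1) g g (by simp) ⟨0, fun σ _ => ?_, fun σ _ => ?_⟩ g2 c0 d2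
    (by omega) (by omega) (fun h => (h.view2 0 ch2).mono fun Λ h2 => h2.mono inter_subset_left) rfl
  all_goals simp [ev, (exp_pos _).le]

theorem main_sum' (a : ℕ) {c : ℕ} (hc : 1 ≤ c) :
    ∃ P Q : MvPolynomial (Fin 2) ℝ, P.IsHomogeneous (2 * a + 1) ∧
      Q.IsHomogeneous (2 * (a + c) + 1) ∧
      ((4 * a + 2 * c + 2 - (if 2 * c < 14 then 39 else 25) : ℕ) : ℕ∞) ≤ (LC (vf P Q)).encard := by
  have key : ∀ N : ℕ, (∃ P Q : MvPolynomial (Fin 2) ℝ, P.IsHomogeneous (2 * a + 1) ∧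
      Q.IsHomogeneous (2 * (a + c) + 1) ∧ (N : ℕ∞) ≤ (LC (vf P Q)).encard) → ∀ M ≤ N,
      ∃ P Q : MvPolynomial (Fin 2) ℝ, P.IsHomogeneous (2 * a + 1) ∧
      Q.IsHomogeneous (2 * (a + c) + 1) ∧ (M : ℕ∞) ≤ (LC (vf P Q)).encard :=
    fun N ⟨P, Q, p1, p2, p3⟩ M hM => ⟨P, Q, p1, p2, le_trans (by exact_mod_cast hM) p3⟩
  split_ifs with h
  · rcases le_or_gt (4 * ((c + 6) / 4)) a with h4 | h4
    · exact key _ (main_lt hc (by omega) h4) _ (by omega)
    · exact key _ (main_base a hc) _ (by omega)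
  · obtain ⟨f, rfl⟩ : ∃ f, c = f + 5 := ⟨c - 5, by omega⟩
    rcases le_or_gt 4 a with h4 | h4
    · obtain ⟨e, rfl⟩ : ∃ e, a = e + 4 := ⟨a - 4, by omega⟩
      exact key _ (main_big e f (by omega)) _ (by omega)
    · exact key _ (main_small a f) _ (by omega)

theorem main_sum {n m : ℕ} (hn : Odd n) (hm : Odd m) (hne : n ≠ m) :
    ∃ P Q : MvPolynomial (Fin 2) ℝ, P.IsHomogeneous n ∧ Q.IsHomogeneous m ∧
      ((n + m - (if max n m - min n m < 14 then 39 else 25) : ℕ) : ℕ∞) ≤ (LC (vf P Q)).encard := by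
  obtain ⟨a, rfl⟩ := hn
  obtain ⟨b, rfl⟩ := hm
  rcases lt_or_gt_of_ne hne with h | h
  · obtain ⟨c, rfl⟩ := Nat.exists_eq_add_of_le (show a ≤ b by omega)
    rw [min_eq_left h.le, max_eq_right h.le,
      show 2 * (a + c) + 1 - (2 * a + 1) = 2 * c by omega,
      show 2 * a + 1 + (2 * (a + c) + 1) = 4 * a + 2 * c + 2 by omega]
    exact main_sum' a (by omega)
  · obtain ⟨c, rfl⟩ := Nat.exists_eq_add_of_le (show b ≤ a by omega)
    rw [min_eq_right h.le, max_eq_left h.le,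
      show 2 * (b + c) + 1 - (2 * b + 1) = 2 * c by omega,
      show 2 * (b + c) + 1 + (2 * b + 1) = 4 * b + 2 * c + 2 by omega]
    obtain ⟨P, Q, p1, p2, p3⟩ := main_sum' b (c := c) (by omega)
    refine ⟨MvPolynomial.rename (Equiv.swap 0 1) Q, MvPolynomial.rename (Equiv.swap 0 1) P,
      p2.rename_isHomogeneous, p1.rename_isHomogeneous, p3.trans (LC_swap fun z => ?_)⟩
    have : (![z.2, z.1] : Fin 2 → ℝ) ∘ Equiv.swap 0 1 = ![z.1, z.2] := by
      funext i; fin_cases i <;> simp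
    simp only [vf, MvPolynomial.eval_rename, Prod.fst_swap, Prod.snd_swap, this, Prod.swap_prod_mk]

end Pool.Agent.LC5081
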