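import Pool.Agent.Lib.MP_5081b1_an.Mel
import Pool.Agent.Lib.MP_5081b1_an.Bnd

/-! The reversible unperturbed system: its orbits are closed, and the first-order displacement
is the integral studied in logarithmic coordinates. -/

set_option autoImplicit false

open Set Filter Topology MeasureTheory Real

namespace Pool.Agent.LC5081

noncomputable def Th (σ : ℝ) : ℝ := arctan (exp (-σ / 2))

theorem cTh_pos (σ : ℝ) : 0 < cos (Th σ) := cos_arctan_pos _

theorem sTh_eq (σ : ℝ) : sin (Th σ) = exp (-σ / 2) * cos (Th σ) := by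
  have := tan_arctan (exp (-σ / 2))
  rw [tan_eq_sin_div_cos, div_eq_iff (cos_arctan_pos _).ne'] at this
  exact this

theorem sTh_pos (σ : ℝ) : 0 < sin (Th σ) := by
  rw [sTh_eq]; exact mul_pos (exp_pos _) (cTh_pos σ)

theorem cTh_eq (σ : ℝ) : cos (Th σ) = exp (1 / 2 * σ) * sin (Th σ) := by
  rw [sTh_eq, ← mul_assoc, ← exp_add, show 1 / 2 * σ + -σ / 2 = 0 by ring, exp_zero, one_mul]

theorem cTh_sq (σ : ℝ) : cos (Th σ) ^ 2 = exp σ * sin (Th σ) ^ 2 := by
  rw [cTh_eq, mul_pow, sq (exp _), ← exp_add, show 1 / 2 * σ + 1 / 2 * σ = σ by ring]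

theorem sTh_sq (σ : ℝ) : sin (Th σ) ^ 2 * (1 + exp σ) = 1 := by
  linear_combination sin_sq_add_cos_sq (Th σ) - cTh_sq σ

theorem dTh (σ : ℝ) : HasDerivAt Th (-(sin (Th σ) * cos (Th σ)) / 2) σ := by
  have h1 : HasDerivAt (fun σ : ℝ => -σ / 2) (-1 / 2) σ := (hasDerivAt_neg σ).div_const 2
  refine h1.exp.arctan.congr_deriv ?_
  have h2 := sin_sq_add_cos_sq (Th σ)
  rw [sTh_eq] at h2 ⊢
  generalize exp (-σ / 2) = u at h2 ⊢
  field_simp
  linear_combination u * h2

theorem Th_inj : Function.Injective Th := fun x y h => by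
  have := exp_eq_exp.1 (arctan_injective h)
  linarith

theorem Th_range : Th '' univ = Ioo 0 (π / 2) := by
  ext θ
  constructor
  · rintro ⟨σ, -, rfl⟩
    exact ⟨arctan_pos.2 (exp_pos _), arctan_lt_pi_div_two _⟩
  · intro h
    refine ⟨-2 * log (tan θ), trivial, ?_⟩
    rw [Th, show -(-2 * log (tan θ)) / 2 = log (tan θ) by ring,
      exp_log (tan_pos_of_pos_of_lt_pi_div_two h.1 h.2),
      arctan_tan (by linarith [h.1, pi_pos]) h.2]

theorem sym_per {g : ℝ → ℝ} (h1 : ∀ θ, g (-θ) = g θ) (h2 : ∀ θ, g (π - θ) = g θ) :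
    Function.Periodic g π := fun θ => by
  rw [← h1 θ, ← h2 (-θ)]; congr 1; ring

theorem sym_int {g : ℝ → ℝ} (hc : Continuous g) (h1 : ∀ θ, g (-θ) = g θ)
    (h2 : ∀ θ, g (π - θ) = g θ) :
    ∫ θ in (0:ℝ)..2 * π, g θ = 4 * ∫ θ in (0:ℝ)..π / 2, g θ := by
  have a := intervalIntegral.integral_add_adjacent_intervals (hc.intervalIntegrable (μ := volume) 0 π)
    (hc.intervalIntegrable π (π + π))
  have b := (sym_per h1 h2).intervalIntegral_add_eq π 0
  have c := intervalIntegral.integral_add_adjacent_intervals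
    (hc.intervalIntegrable (μ := volume) 0 (π / 2)) (hc.intervalIntegrable (π / 2) π)
  have d := intervalIntegral.integral_comp_sub_left g π (a := 0) (b := π / 2)
  simp only [h2, sub_zero, show π - π / 2 = π / 2 by ring] at d
  rw [zero_add] at b
  rw [two_mul]
  linarith

theorem sym_bound {g : ℝ → ℝ} {K : ℝ} (hc : Continuous g) (h1 : ∀ θ, g (-θ) = g θ)
    (h2 : ∀ θ, g (π - θ) = g θ) (h3 : ∀ σ, |g (Th σ)| ≤ K) (θ : ℝ) : |g θ| ≤ K := by
  have hp := pi_pos
  have k : ∀ θ ∈ Icc 0 (π / 2), |g θ| ≤ K := by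
    rw [← closure_Ioo (by linarith : (0:ℝ) ≠ π / 2)]
    refine closure_minimal (t := {θ | |g θ| ≤ K}) ?_ (isClosed_le hc.abs continuous_const)
    rw [← Th_range]
    rintro _ ⟨σ, -, rfl⟩
    exact h3 σ
  obtain ⟨θ', a, b⟩ := (sym_per h1 h2).exists_mem_Ico₀ hp θ
  rw [b]
  rcases le_total θ' (π / 2) with h | h
  · exact k _ ⟨a.1, h⟩
  · rw [← h2]; exact k _ ⟨by linarith [a.2], by linarith⟩

theorem lip_zero (a : ℝ → ℝ) : Lip (fun t _ => a t) 0 := ⟨le_rfl, fun _ _ _ => by simp⟩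

theorem sol_even {f : ℝ → ℝ → ℝ} {L : ℝ} (h : Lip f L) {u : ℝ → ℝ} (hu : IsSol f u) (s : ℝ)
    (hf : ∀ t x, f (s - t) x = -f t x) (θ : ℝ) : u (s - θ) = u θ := by
  have : IsSol f fun θ => u (s - θ) := fun θ => by
    have := (hu (s - θ)).comp θ ((hasDerivAt_id θ).const_sub s)
    rw [hf] at this
    simpa [Function.comp_def] using this
  exact congrFun (sol_unique h this hu (t0 := s / 2) (by congr 1; ring)) θ

noncomputable def rho (c : ℝ) (P Q : ℝ → ℝ) (W σ : ℝ) : ℝ :=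
  sol c P Q W σ / (2 * c) + log (1 + exp σ) / 2

theorem Sys.rho_bound {c : ℝ} {P Q : ℝ → ℝ} {p k : ℝ} (h : Sys c P Q 0 p k) (W : ℝ) :
    ∃ K, ∀ σ, |rho c P Q W σ| ≤ K := by
  obtain ⟨H, -, hH⟩ := h.fwd_v
  obtain ⟨G, hG⟩ := h.bwd_y W
  have hc := h.hc
  have e2 := add_one_le_exp (1 : ℝ)
  have key : ∀ σ, W ≤ sol c P Q W σ + c * log (1 + exp σ) ∧
      sol c P Q W σ + c * log (1 + exp σ) ≤ max (W + H * exp W) G + c := by
    intro σ
    have e0 := exp_pos σ
    rcases le_total 0 σ with hσ | hσ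
    · have l1 : σ ≤ log (1 + exp σ) := (le_log_iff_exp_le (by positivity)).2 (by linarith)
      have l2 : log (1 + exp σ) ≤ σ + 1 := (log_le_iff_le_exp (by positivity)).2 (by
        have := one_le_exp hσ
        rw [exp_add]; nlinarith)
      have := h.v_ge W hσ
      have := hH W σ hσ
      have := le_max_left (W + H * exp W) G
      constructor <;> nlinarith
    · have l1 : 0 ≤ log (1 + exp σ) := log_nonneg (by linarith)
      have l2 : log (1 + exp σ) ≤ 1 := (log_le_iff_le_exp (by positivity)).2 (by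
        have := exp_le_one_iff.2 hσ
        linarith)
      have := h.w_ge W hσ
      have := hG σ hσ
      have := le_max_right (W + H * exp W) G
      constructor <;> nlinarith
  refine ⟨(|W| + |max (W + H * exp W) G + c|) / (2 * c), fun σ => ?_⟩
  have : rho c P Q W σ = (sol c P Q W σ + c * log (1 + exp σ)) / (2 * c) := by
    unfold rho; field_simp
  rw [this, abs_div, abs_of_pos (a := 2 * c) (by positivity)]
  gcongr
  rw [abs_le]
  constructor
  · linarith [(key σ).1, neg_abs_le W, abs_nonneg (max (W + H * exp W) G + c)]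
  · linarith [(key σ).2, abs_nonneg W, le_abs_self (max (W + H * exp W) G + c)]

/-- Angular data of a reversible system and of its perturbation. -/
structure Rev (a c : ℕ) (P Q R ph qh Ah Bh : ℝ → ℝ) : Prop where
  cA : Continuous Ah
  cB : Continuous Bh
  p1 : ∀ θ, ph (0 - θ) = ph θ
  p2 : ∀ θ, ph (π - θ) = ph θ
  q1 : ∀ θ, qh (0 - θ) = qh θ
  q2 : ∀ θ, qh (π - θ) = qh θ
  A1 : ∀ θ, Ah (0 - θ) = Ah θ
  A2 : ∀ θ, Ah (π - θ) = Ah θ
  B1 : ∀ θ, Bh (0 - θ) = Bh θ
  B2 : ∀ θ, Bh (π - θ) = Bh θ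
  hP : ∀ σ, cos (Th σ) ^ 2 * ph (Th σ) = sin (Th σ) ^ (2 * a + 2) * P σ
  hQ : ∀ σ, qh (Th σ) = sin (Th σ) ^ (2 * a + 2 * c) * Q σ
  hR : ∀ σ, cos (Th σ) * (cos (Th σ) ^ 2 * ph (Th σ) * Bh (Th σ) +
    sin (Th σ) ^ 2 * Ah (Th σ) * qh (Th σ)) = sin (Th σ) ^ (4 * a + 2 * c + 3) * R σ

theorem Rev.unpert {a c : ℕ} {P Q R ph qh Ah Bh : ℝ → ℝ} {K K' M d : ℝ}
    (r : Rev a c P Q R ph qh Ah Bh) (hp : Pos c P Q)
    (h : Ang c K M d (fun θ => cos θ * ph θ) (fun θ => -(sin θ * qh θ))) (hK : K' < K) (W : ℝ)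
    (hb : ∀ σ, |rho c P Q W σ| ≤ K') :
    ∃ u, IsSol (fc c K (fun θ => cos θ * ph θ) (fun θ => -(sin θ * qh θ))) u ∧
      u (Th 0) = rho c P Q W 0 ∧ (∀ θ, |u θ| < K) ∧ u (2 * π) = u 0 ∧
      ∫ θ in (0:ℝ)..2 * π, exp (-∫ t in Th 0..θ,
          a0 c (fun θ => cos θ * ph θ) (fun θ => -(sin θ * qh θ)) u t) *
        b0 c (fun θ => cos θ * ph θ) (fun θ => -(sin θ * qh θ)) (fun θ => sin θ * Ah θ)
          (fun θ => cos θ * Bh θ) u θ = 2 * MM c P Q R W := by
  set A : ℝ → ℝ := fun θ => cos θ * ph θ with hA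
  set B : ℝ → ℝ := fun θ => -(sin θ * qh θ) with hB
  have hn := h.nice
  obtain ⟨Bd, hBd⟩ := hn.bf
  obtain ⟨u, hu, u0⟩ := exists_sol hn.lip hn.cf hBd (Th 0) (rho c P Q W 0)
  have hc := hp.hc
  set w := sol c P Q W with hw
  have hZ : ∀ σ, exp (2 * c * rho c P Q W σ) * sin (Th σ) ^ (2 * c) = exp (w σ) := fun σ => by
    have : 2 * c * rho c P Q W σ = w σ + c * log (1 + exp σ) := by
      unfold rho; field_simp; rfl
    rw [this, exp_add, exp_nat_mul, exp_log (by positivity), pow_mul, mul_assoc, ← mul_pow,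
      mul_comm (1 + _), sTh_sq, one_pow, mul_one]
  have hD : ∀ σ, Dd A B (Th σ) (exp (2 * c * rho c P Q W σ)) =
      sin (Th σ) ^ (2 * a + 2) * (P σ + exp (w σ) * Q σ) := fun σ => by
    simp only [Dd, hA, hB, ← hZ σ, r.hQ]
    linear_combination r.hP σ
  have hAB : ∀ σ, exp (2 * c * rho c P Q W σ) * (A (Th σ) * B (Th σ)) *
      (-(sin (Th σ) * cos (Th σ)) / 2) =
      (sin (Th σ) ^ (2 * a + 2)) ^ 2 * (exp (w σ) * P σ * Q σ) / 2 := fun σ => by
    simp only [hA, hB, ← hZ σ, r.hQ]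
    linear_combination (exp (2 * c * rho c P Q W σ) * sin (Th σ) ^ (2 * a + 2 * c + 2) * Q σ / 2) *
      r.hP σ
  have hρ : IsSol (fun σ x => fc c K A B (Th σ) x * (-(sin (Th σ) * cos (Th σ)) / 2))
      (rho c P Q W) := fun σ => by
    have e0 := exp_pos σ
    refine ((((hp.spec W).1 σ).div_const (2 * c)).fun_add
      ((((hasDerivAt_exp σ).const_add 1).log (by positivity)).div_const 2)).congr_deriv ?_
    have s0 := sTh_pos σ
    have c0 := cTh_pos σ
    have d0 := hp.den σ (w σ)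
    have e1 : exp σ / (1 + exp σ) = cos (Th σ) ^ 2 := by
      rw [div_eq_iff (by positivity), cTh_sq]
      linear_combination -exp σ * sTh_sq σ
    have hN : (sin (Th σ) * A (Th σ) + exp (2 * c * rho c P Q W σ) * (cos (Th σ) * B (Th σ))) *
        (sin (Th σ) * cos (Th σ)) = sin (Th σ) ^ (2 * a + 2) *
        (sin (Th σ) ^ 2 * P σ - cos (Th σ) ^ 2 * (exp (w σ) * Q σ)) := by
      simp only [hA, hB, ← hZ σ, r.hQ]
      linear_combination sin (Th σ) ^ 2 * r.hP σ
    simp only [fc, FF, cl_eq ((hb σ).trans hK.le), hD, e1, fw, ← hw]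
    rw [div_mul_div_comm, mul_neg, hN]
    field_simp
    linear_combination P σ * sin_sq_add_cos_sq (Th σ)
  have hL : Lip (fun σ x => fc c K A B (Th σ) x * (-(sin (Th σ) * cos (Th σ)) / 2))
      (exp (2 * c * K) * (2 * c) * (M * M) / (d * d)) := by
    refine ⟨hn.lip.1, fun σ x y => ?_⟩
    rw [← sub_mul, abs_mul]
    refine (mul_le_of_le_one_right (abs_nonneg _) ?_).trans (hn.lip.2 _ x y)
    rw [abs_le]
    constructor <;> nlinarith [sin_sq_add_cos_sq (Th σ), sq_nonneg (sin (Th σ) - cos (Th σ)),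
      sq_nonneg (sin (Th σ) + cos (Th σ))]
  have uρ : ∀ σ, u (Th σ) = rho c P Q W σ := congrFun
    (sol_unique hL (u := fun σ => u (Th σ)) (fun σ => (hu (Th σ)).comp σ (dTh σ)) hρ (t0 := 0) u0)
  have s1 : ∀ θ, u (0 - θ) = u θ := sol_even hn.lip hu 0 fun t x => by
    simp only [fc, FF, Dd, hA, hB, r.p1, r.q1]
    simp only [zero_sub, sin_neg, cos_neg]
    ring
  have s2 : ∀ θ, u (π - θ) = u θ := sol_even hn.lip hu π fun t x => by
    simp only [fc, FF, Dd, hA, hB, r.p2, r.q2, sin_pi_sub, cos_pi_sub]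
    ring
  have bu : ∀ θ, |u θ| < K := fun θ => (sym_bound hu.cont (by simpa using s1) s2
    (fun σ => by rw [uρ]; exact hb σ) θ).trans_lt hK
  refine ⟨u, hu, u0, bu, by simpa [two_mul] using ((sym_per (by simpa using s1) s2).nat_mul 2) 0,
    ?_⟩
  have cA := r.cA; have cB := r.cB
  have ca := h.c_a0 hu.cont fun θ => (bu θ).le
  have cb := h.c_b0 (A1 := fun θ => sin θ * Ah θ) (B1 := fun θ => cos θ * Bh θ) (by fun_prop)
    (by fun_prop) hu.cont fun θ => (bu θ).le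
  set I : ℝ → ℝ := fun θ => ∫ t in Th 0..θ, a0 c A B u t with hI
  have dI : IsSol (fun t _ => a0 c A B u t) I := fun θ =>
    (ca.integral_hasStrictDerivAt _ θ).hasDerivAt
  have cI := dI.cont
  have i1 : ∀ θ, I (0 - θ) = I θ := sol_even (lip_zero _) dI 0 fun t x => by
    simp only [a0, Dd, hA, hB, r.p1, r.q1, s1]
    simp only [zero_sub, sin_neg, cos_neg]
    ring
  have i2 : ∀ θ, I (π - θ) = I θ := sol_even (lip_zero _) dI π fun t x => by
    simp only [a0, Dd, hA, hB, r.p2, r.q2, s2, sin_pi_sub, cos_pi_sub]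
    ring
  have iL : ∀ σ, -I (Th σ) = LV c P Q W σ := congrFun
    (sol_unique (lip_zero fun σ => -(c * EE c P Q W σ)) (u := fun σ => -I (Th σ)) (fun σ => by
      refine ((dI (Th σ)).comp σ (dTh σ)).neg.congr_deriv ?_
      have s0 := sTh_pos σ
      have d0 := hp.den σ (w σ)
      simp only [a0, uρ, hD, EE, ← hw]
      rw [div_mul_eq_mul_div, mul_assoc (2 * (c:ℝ)), mul_assoc (2 * (c:ℝ)), hAB]
      field_simp) (hp.dL W) (t0 := 0) (by simp [hI, Pos.L0]))
  change ∫ θ in (0:ℝ)..2 * π, exp (-I θ) * _ = _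
  rw [sym_int (by fun_prop) (fun θ => ?_) (fun θ => ?_),
    intervalIntegral.integral_of_le (by positivity), integral_Ioc_eq_integral_Ioo, ← Th_range,
    integral_image_eq_integral_abs_deriv_smul MeasurableSet.univ
      (fun σ _ => (dTh σ).hasDerivWithinAt) Th_inj.injOn, Measure.restrict_univ, MM,
    ← integral_const_mul, ← integral_const_mul]
  · congr 1
    funext σ
    have s0 := sTh_pos σ
    have c0 := cTh_pos σ
    have d0 := hp.den σ (w σ)
    have hb0 : exp (2 * c * rho c P Q W σ) * (A (Th σ) * (cos (Th σ) * Bh (Th σ)) -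
        sin (Th σ) * Ah (Th σ) * B (Th σ)) * (sin (Th σ) * cos (Th σ)) =
        (sin (Th σ) ^ (2 * a + 2)) ^ 2 * (exp (w σ) * R σ) := by
      simp only [hA, hB, ← hZ σ]
      linear_combination exp (2 * c * rho c P Q W σ) * sin (Th σ) * r.hR σ
    rw [neg_div, abs_neg, abs_of_pos (by positivity), iL]
    simp only [b0, uρ, hD, KK, ← hw, smul_eq_mul]
    rw [mul_left_comm (_ / 2), div_mul_div_comm, mul_comm (sin _ * cos _), hb0]
    field_simp
    ring
  · rw [← zero_sub θ]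
    simp only [b0, Dd, hA, hB, r.p1, r.q1, r.A1, r.B1, s1, i1]
    simp only [zero_sub, sin_neg, cos_neg]
    ring
  · simp only [b0, Dd, hA, hB, r.p2, r.q2, r.A2, r.B2, s2, i2, sin_pi_sub, cos_pi_sub]
    ring

end Pool.Agent.LC5081
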