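import Pool.Agent.Lib.MP_5081b1_an.Rnd

/-! Two orbits of the scalar equation: second order expansion of the kernel. -/

set_option autoImplicit false

open Set Filter Topology MeasureTheory Real

namespace Pool.Agent.LC5081

noncomputable def th (c : ℝ) (P Q : ℝ → ℝ) (W σ : ℝ) : ℝ :=
  P σ / (P σ + exp (sol c P Q W σ) * Q σ)

noncomputable def Yi (c : ℝ) (P Q : ℝ → ℝ) (W σ : ℝ) : ℝ :=
  -(c * ∫ t in (0:ℝ)..σ, EE c P Q W t * (2 * th c P Q W t - 1) * exp (-LV c P Q W t))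

noncomputable def nn (c : ℝ) (P Q : ℝ → ℝ) (W σ : ℝ) : ℝ :=
  (2 * th c P Q W σ - 1) * exp (-LV c P Q W σ) + Yi c P Q W σ

noncomputable def xx (c : ℝ) (P Q : ℝ → ℝ) (V W σ : ℝ) : ℝ :=
  1 - exp (sol c P Q W σ - sol c P Q V σ)

noncomputable def dn (c : ℝ) (P Q : ℝ → ℝ) (V W σ : ℝ) : ℝ :=
  1 - xx c P Q V W σ * (1 - th c P Q V σ)

noncomputable def ze (c : ℝ) (P Q : ℝ → ℝ) (V W σ : ℝ) : ℝ :=
  |xx c P Q V W 0| * (1 + exp (-LV c P Q V σ))

theorem abs_sub_le_of {f f' g g' : ℝ → ℝ} (hf : ∀ t, HasDerivAt f (f' t) t)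
    (hg : ∀ t, HasDerivAt g (g' t) t) {a b : ℝ} (h : ∀ t ∈ uIcc a b, |f' t| ≤ g' t) :
    |f b - f a| ≤ |g b - g a| := by
  have key : ∀ a b, a ≤ b → (∀ t ∈ Icc a b, |f' t| ≤ g' t) → |f b - f a| ≤ |g b - g a| := by
    intro a b hab h
    have h1 := mono_of_deriv (fun t => (hg t).fun_sub (hf t)) hab
      (fun t ht => by linarith [(abs_le.1 (h t ht)).2])
    have h2 := mono_of_deriv (fun t => (hg t).fun_add (hf t)) hab
      (fun t ht => by linarith [(abs_le.1 (h t ht)).1])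
    refine le_trans (abs_le.2 ⟨by linarith, by linarith⟩) (le_abs_self (g b - g a))
  rcases le_total a b with hab | hab
  · exact key a b hab (by rwa [uIcc_of_le hab] at h)
  · rw [abs_sub_comm, abs_sub_comm (g b)]
    exact key b a hab (by rwa [uIcc_of_ge hab] at h)

theorem abs_exp_sub_one (x : ℝ) : |exp x - 1| ≤ exp |x| * |x| := by
  rcases le_total 0 x with h | h
  · have h1 := add_one_le_exp (-x)
    have h2 : exp x * exp (-x) = 1 := by rw [← exp_add]; simp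
    rw [abs_of_nonneg h, abs_of_nonneg (by linarith [one_le_exp h])]
    nlinarith [exp_pos x]
  · have h1 := add_one_le_exp x
    have h2 := exp_le_one_iff.2 h
    have h3 := one_le_exp (neg_nonneg.2 h)
    rw [abs_of_nonpos h, abs_of_nonpos (by linarith)]
    nlinarith

theorem abs_exp_sub_two (x : ℝ) : |exp x - 1 - x| ≤ exp |x| * x ^ 2 := by
  have h0 := add_one_le_exp x
  have h1 := add_one_le_exp (-x)
  have h2 : exp x * exp (-x) = 1 := by rw [← exp_add]; simp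
  have h3 : exp x - 1 - x ≤ x * (exp x - 1) := by nlinarith [exp_pos x]
  rw [abs_of_nonneg (by linarith)]
  refine h3.trans ((le_abs_self _).trans ?_)
  rw [abs_mul, ← sq_abs x]
  nlinarith [abs_exp_sub_one x, abs_nonneg x]

theorem exp_two_le : exp 2 ≤ 8 := by
  have := exp_one_lt_d9
  have h : exp 2 = exp 1 * exp 1 := by rw [← exp_add]; norm_num
  nlinarith [exp_pos 1]

theorem alg_ratio {θ x : ℝ} (h0 : 0 < θ) (h1 : θ < 1) (hx : |x| ≤ 1 / 2) :
    |(1 - x) / (1 - x * (1 - θ)) ^ 2 - 1 + x * (2 * θ - 1)| ≤ 6 * x ^ 2 := by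
  obtain ⟨x1, x2⟩ := abs_le.1 hx
  have hd : 1 / 2 ≤ 1 - x * (1 - θ) := by nlinarith
  have hd0 : 0 < 1 - x * (1 - θ) := by linarith
  have e : (1 - x) / (1 - x * (1 - θ)) ^ 2 - 1 + x * (2 * θ - 1) =
      x ^ 2 * (-(2 * (1 - θ) - 3 * (1 - θ) ^ 2) + x * (1 - θ) ^ 2 * (2 * θ - 1)) /
        (1 - x * (1 - θ)) ^ 2 := by
    field_simp; ring
  have hb : |-(2 * (1 - θ) - 3 * (1 - θ) ^ 2) + x * (1 - θ) ^ 2 * (2 * θ - 1)| ≤ 3 / 2 := by
    have a1 : |x * (1 - θ) ^ 2 * (2 * θ - 1)| ≤ 1 / 2 := by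
      rw [abs_mul, abs_mul]
      have : |(1 - θ) ^ 2| ≤ 1 := abs_le.2 ⟨by nlinarith, by nlinarith⟩
      have : |2 * θ - 1| ≤ 1 := abs_le.2 ⟨by linarith, by linarith⟩
      calc |x| * |(1 - θ) ^ 2| * |2 * θ - 1| ≤ 1 / 2 * 1 * 1 := by gcongr
        _ = 1 / 2 := by norm_num
    obtain ⟨a2, a3⟩ := abs_le.1 a1
    exact abs_le.2 ⟨by nlinarith, by nlinarith⟩
  rw [e, abs_div, abs_mul, abs_of_nonneg (sq_nonneg x), abs_of_pos (pow_pos hd0 2),
    div_le_iff₀ (pow_pos hd0 2)]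
  have : 1 / 4 ≤ (1 - x * (1 - θ)) ^ 2 := by nlinarith
  nlinarith [sq_nonneg x, mul_le_mul_of_nonneg_left hb (sq_nonneg x),
    mul_le_mul_of_nonneg_left this (sq_nonneg x)]

namespace Pos

variable {c : ℝ} {P Q : ℝ → ℝ}

theorem th_pos (h : Pos c P Q) (W σ : ℝ) : 0 < th c P Q W σ := div_pos (h.pP σ) (h.den σ _)

theorem th_lt (h : Pos c P Q) (W σ : ℝ) : th c P Q W σ < 1 := by
  have := h.pQ σ
  rw [th, div_lt_one (h.den σ _)]
  exact lt_add_of_pos_right _ (by positivity)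

theorem EE_eq (h : Pos c P Q) (W σ : ℝ) :
    EE c P Q W σ = th c P Q W σ * (1 - th c P Q W σ) := by
  have := h.den σ (sol c P Q W σ)
  unfold EE th; field_simp; ring

theorem E_pos (h : Pos c P Q) (W σ : ℝ) : 0 < EE c P Q W σ := by
  rw [h.EE_eq]; exact mul_pos (h.th_pos W σ) (sub_pos.2 (h.th_lt W σ))

theorem dsol (h : Pos c P Q) (W σ : ℝ) :
    HasDerivAt (sol c P Q W) (-(c * th c P Q W σ)) σ := by
  refine ((h.spec W).1 σ).congr_deriv ?_
  unfold fw th; ring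

theorem K_eq (h : Pos c P Q) (W σ : ℝ) :
    KK c P Q W σ = EE c P Q W σ * exp (LV c P Q W σ) / (P σ * Q σ) := by
  have := h.den σ (sol c P Q W σ); have := h.pP σ; have := h.pQ σ
  unfold KK EE; field_simp

theorem cth (h : Pos c P Q) (W : ℝ) : Continuous (th c P Q W) := by
  have := h.cP; have := h.cQ; have := h.cw W
  unfold th
  exact Continuous.div (by fun_prop) (by fun_prop) fun t => (h.den t _).ne'

theorem dYi (h : Pos c P Q) (W σ : ℝ) : HasDerivAt (Yi c P Q W)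
    (-(c * (EE c P Q W σ * (2 * th c P Q W σ - 1) * exp (-LV c P Q W σ)))) σ := by
  have := h.cE W; have := h.cth W; have := h.cL W
  have hc : Continuous fun t => EE c P Q W t * (2 * th c P Q W t - 1) * exp (-LV c P Q W t) := by
    fun_prop
  exact (((hc.integral_hasStrictDerivAt 0 σ).hasDerivAt).const_mul c).neg

theorem Yi0 (W : ℝ) : Yi c P Q W 0 = 0 := by simp [Yi]

theorem cYi (h : Pos c P Q) (W : ℝ) : Continuous (Yi c P Q W) :=
  continuous_iff_continuousAt.2 fun σ => (h.dYi W σ).continuousAt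

theorem cnn (h : Pos c P Q) (W : ℝ) : Continuous (nn c P Q W) := by
  have := h.cYi W; have := h.cth W; have := h.cL W
  unfold nn; fun_prop

theorem xx_lt (V W σ : ℝ) : xx c P Q V W σ < 1 := sub_lt_self _ (exp_pos _)

theorem xx0 (h : Pos c P Q) (V W : ℝ) : xx c P Q V W 0 = 1 - exp (W - V) := by
  rw [xx, (h.spec W).2, (h.spec V).2]

theorem dn_eq (h : Pos c P Q) (V W σ : ℝ) : dn c P Q V W σ =
    (P σ + exp (sol c P Q W σ) * Q σ) / (P σ + exp (sol c P Q V σ) * Q σ) := by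
  have := h.den σ (sol c P Q V σ)
  unfold dn xx th
  rw [exp_sub]; field_simp; ring

theorem dn_pos (h : Pos c P Q) (V W σ : ℝ) : 0 < dn c P Q V W σ := by
  rw [h.dn_eq]; exact div_pos (h.den _ _) (h.den _ _)

theorem th_two (h : Pos c P Q) (V W σ : ℝ) :
    th c P Q W σ = th c P Q V σ / dn c P Q V W σ := by
  have := h.den σ (sol c P Q V σ); have := h.den σ (sol c P Q W σ)
  rw [h.dn_eq]; unfold th
  rw [div_div_div_cancel_right₀ (h.den σ _).ne']

theorem th_sub (h : Pos c P Q) (V W σ : ℝ) : th c P Q W σ - th c P Q V σ =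
    EE c P Q V σ * xx c P Q V W σ / dn c P Q V W σ := by
  have := h.dn_pos V W σ
  rw [h.th_two V W, h.EE_eq]; field_simp; unfold dn; ring

theorem EE_two (h : Pos c P Q) (V W σ : ℝ) : EE c P Q W σ =
    EE c P Q V σ * ((1 - xx c P Q V W σ) / dn c P Q V W σ ^ 2) := by
  have := h.dn_pos V W σ
  rw [h.EE_eq, h.th_two V W, h.EE_eq]; field_simp; unfold dn; ring

theorem dg (h : Pos c P Q) (V W σ : ℝ) : HasDerivAt (fun t => sol c P Q W t - sol c P Q V t)
    (-(c * (EE c P Q V σ * xx c P Q V W σ / dn c P Q V W σ))) σ := by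
  refine ((h.dsol W σ).fun_sub (h.dsol V σ)).congr_deriv ?_
  rw [← h.th_sub]; ring

theorem dxx (h : Pos c P Q) (V W σ : ℝ) : HasDerivAt (xx c P Q V W)
    ((1 - xx c P Q V W σ) * (c * (EE c P Q V σ * xx c P Q V W σ / dn c P Q V W σ))) σ := by
  refine ((h.dg V W σ).exp.const_sub 1).congr_deriv ?_
  have : exp (sol c P Q W σ - sol c P Q V σ) = 1 - xx c P Q V W σ := by unfold xx; ring
  rw [this]; ring

theorem cxx (h : Pos c P Q) (V W : ℝ) : Continuous (xx c P Q V W) :=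
  continuous_iff_continuousAt.2 fun σ => (h.dxx V W σ).continuousAt

theorem cdn (h : Pos c P Q) (V W : ℝ) : Continuous (dn c P Q V W) := by
  have := h.cxx V W; have := h.cth V
  unfold dn; fun_prop

theorem xx_mono (h : Pos c P Q) (V W : ℝ) {a b : ℝ} (hab : a ≤ b) :
    |xx c P Q V W a| ≤ |xx c P Q V W b| := by
  rw [← sq_le_sq]
  refine mono_of_deriv (g := fun t => xx c P Q V W t ^ 2)
    (fun t => (h.dxx V W t).fun_pow 2) hab fun t _ => ?_
  have h1 := sub_pos.2 (xx_lt (c := c) (P := P) (Q := Q) V W t)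
  have h2 := h.dn_pos V W t; have h3 := h.E_pos V t; have := h.hc
  have : ((2 : ℕ) : ℝ) * xx c P Q V W t ^ (2 - 1) * ((1 - xx c P Q V W t) *
      (c * (EE c P Q V t * xx c P Q V W t / dn c P Q V W t))) = 2 * xx c P Q V W t ^ 2 *
      ((1 - xx c P Q V W t) * (c * (EE c P Q V t / dn c P Q V W t))) := by
    norm_num; ring
  rw [this]; positivity

/-- `x E = x₀ e^ℓ`. -/
theorem exists_ell (h : Pos c P Q) (V W : ℝ) : ∃ l : ℝ → ℝ, l 0 = 0 ∧
    (∀ σ, HasDerivAt l (-(c * th c P Q V σ *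
      (EE c P Q V σ * xx c P Q V W σ / dn c P Q V W σ))) σ) ∧
    ∀ σ, xx c P Q V W σ = xx c P Q V W 0 * exp (-LV c P Q V σ) * exp (l σ) := by
  have := h.cE V; have := h.cth V; have := h.cxx V W; have := h.cdn V W
  have hc : Continuous fun σ => -(c * th c P Q V σ *
      (EE c P Q V σ * xx c P Q V W σ / dn c P Q V W σ)) :=
    ((continuous_const.mul (h.cth V)).mul (Continuous.div (by fun_prop) (by fun_prop)
      fun t => (h.dn_pos V W t).ne')).neg
  have hl := fun σ => (hc.integral_hasStrictDerivAt 0 σ).hasDerivAt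
  refine ⟨_, by simp, hl, fun σ => ?_⟩
  set l := fun u => ∫ t in (0:ℝ)..u, -(c * th c P Q V t *
      (EE c P Q V t * xx c P Q V W t / dn c P Q V W t)) with hl0
  have hd : ∀ t, HasDerivAt (fun t => xx c P Q V W t * exp (LV c P Q V t - l t)) 0 t := by
    intro t
    refine ((h.dxx V W t).fun_mul ((h.dL V t).fun_sub (hl t)).exp).congr_deriv ?_
    have := h.dn_pos V W t
    field_simp
    unfold dn; ring
  have := is_const_of_deriv_eq_zero (fun t => (hd t).differentiableAt) (fun t => (hd t).deriv) σ 0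
  have l0 : l 0 = 0 := by simp [hl0]
  simp only [L0, l0, sub_self, exp_zero, mul_one] at this
  change _ = _ * _ * exp (l σ)
  rw [← this, mul_assoc, mul_assoc, ← exp_add, ← exp_add,
    show LV c P Q V σ - l σ + (-LV c P Q V σ + l σ) = 0 by ring, exp_zero, mul_one]

theorem dEi (h : Pos c P Q) (V σ : ℝ) : HasDerivAt (fun t => exp (-LV c P Q V t))
    (exp (-LV c P Q V σ) * (c * EE c P Q V σ)) σ := by
  simpa using (h.dL V σ).fun_neg.exp

theorem dze (h : Pos c P Q) (V W σ : ℝ) : HasDerivAt (ze c P Q V W)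
    (|xx c P Q V W 0| * (exp (-LV c P Q V σ) * (c * EE c P Q V σ))) σ :=
  ((h.dEi V σ).const_add 1).const_mul _

theorem crude (h : Pos c P Q) (V W : ℝ) {σ0 : ℝ} (h0 : 0 ≤ σ0) (hx : |xx c P Q V W σ0| ≤ 1 / 2)
    {l : ℝ → ℝ} (l0 : l 0 = 0) (hl : ∀ σ, HasDerivAt l (-(c * th c P Q V σ *
      (EE c P Q V σ * xx c P Q V W σ / dn c P Q V W σ))) σ)
    (e : ∀ σ, xx c P Q V W σ = xx c P Q V W 0 * exp (-LV c P Q V σ) * exp (l σ))
    (σ : ℝ) (hσ : σ ≤ σ0) : |l σ| ≤ 2 := by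
  have hg : ∀ t, t ≤ σ0 → |sol c P Q W t - sol c P Q V t| ≤ 1 := fun t ht => by
    obtain ⟨a, b⟩ := abs_le.1 ((h.xx_mono V W ht).trans hx)
    unfold xx at a b
    set g := sol c P Q W t - sol c P Q V t
    have h1 := add_one_le_exp g
    have h2 := add_one_le_exp (-g)
    have h3 : exp g * exp (-g) = 1 := by rw [← exp_add]; simp
    have h4 : exp (-g) ≤ 2 := by nlinarith [exp_pos (-g)]
    exact abs_le.2 ⟨by linarith, by linarith⟩
  have key : ∀ s : ℝ, |s| = 1 → (∀ t, |xx c P Q V W t| = s * xx c P Q V W t) → |l σ| ≤ 2 := by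
    intro s hs hsx
    have := abs_sub_le_of hl (fun t => (h.dg V W t).const_mul (-s)) (a := 0) (b := σ) (fun t _ => by
      have h2 := h.dn_pos V W t; have h3 := h.E_pos V t; have := h.hc
      have h4 := h.th_pos V t; have h5 := h.th_lt V t
      rw [abs_neg, abs_mul, abs_div, abs_mul (EE _ _ _ _ _), abs_of_pos h2, abs_of_pos h3,
        abs_of_pos (mul_pos this h4), show -s * -(c * (EE c P Q V t * xx c P Q V W t /
          dn c P Q V W t)) = c * 1 * (EE c P Q V t * (s * xx c P Q V W t) / dn c P Q V W t) by ring,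
        ← hsx]
      gcongr)
    rw [l0, sub_zero, ← mul_sub, abs_mul, abs_neg, hs, one_mul] at this
    exact this.trans ((abs_sub _ _).trans (by linarith [hg σ hσ, hg 0 h0]))
  rcases le_total 0 (xx c P Q V W 0) with h1 | h1
  · exact key 1 abs_one fun t => by rw [one_mul, abs_of_nonneg (by rw [e]; positivity)]
  · refine key (-1) (by simp) fun t => ?_
    rw [neg_one_mul, abs_of_nonpos]
    rw [e, mul_assoc]
    exact mul_nonpos_of_nonpos_of_nonneg h1 (by positivity)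

end Pos

/-- The second order estimates, up to the level where the orbits separate. -/
structure Sec (C c : ℝ) (P Q : ℝ → ℝ) (V W σ : ℝ) : Prop where
  up : |xx c P Q V W σ| ≤ 8 * (|xx c P Q V W 0| * exp (-LV c P Q V σ))
  lo : |xx c P Q V W 0| * exp (-LV c P Q V σ) ≤ 8 * |xx c P Q V W σ|
  ff : |xx c P Q V W σ * exp (LV c P Q V σ) - xx c P Q V W 0| ≤
    C * ze c P Q V W σ * |xx c P Q V W 0|
  e1 : |exp (LV c P Q W σ) - exp (LV c P Q V σ)| ≤ C * ze c P Q V W σ * exp (LV c P Q V σ)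
  ee : |exp (LV c P Q W σ) - exp (LV c P Q V σ) +
      xx c P Q V W 0 * (Yi c P Q V σ * exp (LV c P Q V σ))| ≤
    C * ze c P Q V W σ ^ 2 * exp (LV c P Q V σ)
  kk : |KK c P Q W σ - KK c P Q V σ + xx c P Q V W 0 * (nn c P Q V σ * KK c P Q V σ)| ≤
    C * ze c P Q V W σ ^ 2 * KK c P Q V σ

theorem alg_prod {a b r s z C : ℝ} (z0 : 0 ≤ z) (z5 : z ≤ 5) (_ : 0 ≤ C) (ha : |a| ≤ z)
    (hb : |b| ≤ 2 * z) (hr : |r| ≤ 600 * z ^ 2) (hs : |s| ≤ C * z ^ 2) :
    |(1 - a + r) * (1 - b + s) - 1 + (a + b)| ≤ (7000 + 20000 * C) * z ^ 2 := by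
  have e : (1 - a + r) * (1 - b + s) - 1 + (a + b) = a * b + r * (1 - b) + (1 - a + r) * s := by ring
  have z2 : z ^ 2 ≤ 25 := by nlinarith
  have h1 : |a * b| ≤ z * (2 * z) := by rw [abs_mul]; gcongr
  have h2 : |r * (1 - b)| ≤ 600 * z ^ 2 * 11 := by
    rw [abs_mul]
    have : |1 - b| ≤ 11 := by
      obtain ⟨u, v⟩ := abs_le.1 hb
      exact abs_le.2 ⟨by linarith, by linarith⟩
    gcongr
  have h3 : |(1 - a + r) * s| ≤ 20000 * (C * z ^ 2) := by
    rw [abs_mul]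
    have : |1 - a + r| ≤ 20000 := by
      obtain ⟨u, v⟩ := abs_le.1 ha
      obtain ⟨u', v'⟩ := abs_le.1 hr
      exact abs_le.2 ⟨by linarith, by linarith⟩
    gcongr
  rw [e]
  refine (abs_add_three _ _ _).trans ?_
  nlinarith [sq_nonneg z]

theorem second : ∃ C : ℝ, 1 ≤ C ∧ ∀ (c : ℝ) (P Q : ℝ → ℝ), Pos c P Q → ∀ V W σ0, 0 ≤ σ0 →
    |xx c P Q V W σ0| ≤ 1 / 2 → ∀ σ, σ ≤ σ0 → Sec C c P Q V W σ := by
  set C1 : ℝ := 1200 + exp 40000 * 6002 ^ 2 with hC1
  have C10 : 0 ≤ exp 40000 * 6002 ^ 2 := by positivity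
  refine ⟨7000 + 20000 * C1, by linarith, fun c P Q h V W σ0 h0 hx => ?_⟩
  obtain ⟨l, l0, hl, e⟩ := h.exists_ell V W
  have l2 := h.crude V W h0 hx l0 hl e
  have hc := h.hc
  set x := xx c P Q V W with hxx
  set L := LV c P Q V with hL
  set z := ze c P Q V W with hz
  have ez : ∀ t, z t = |x 0| + |x 0| * exp (-L t) := fun t => by simp only [hz, ze]; ring
  have xi0 : ∀ t, 0 ≤ |x 0| * exp (-L t) := fun t => by positivity
  have z0 : ∀ t, 0 ≤ z t := fun t => by rw [ez]; positivity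
  have hx' : ∀ t, t ≤ σ0 → |x t| ≤ 1 / 2 := fun t ht => (h.xx_mono V W ht).trans hx
  have ax : ∀ t, |x t| = |x 0| * exp (-L t) * exp (l t) := fun t => by
    rw [e t, abs_mul, abs_mul, abs_of_pos (exp_pos _), abs_of_pos (exp_pos _)]
  have e8 : ∀ t, t ≤ σ0 → exp |l t| ≤ 8 := fun t ht =>
    (exp_le_exp.2 (l2 t ht)).trans exp_two_le
  have up : ∀ t, t ≤ σ0 → |x t| ≤ 8 * (|x 0| * exp (-L t)) := fun t ht => by
    rw [ax, mul_comm 8]
    exact mul_le_mul_of_nonneg_left ((exp_le_exp.2 (le_abs_self _)).trans (e8 t ht)) (xi0 t)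
  have lo : ∀ t, t ≤ σ0 → |x 0| * exp (-L t) ≤ 8 * |x t| := fun t ht => by
    have h1 : exp (-l t) ≤ 8 := (exp_le_exp.2 (neg_le_abs _)).trans (e8 t ht)
    have h2 : exp (l t) * exp (-l t) = 1 := by rw [← exp_add]; simp
    have h3 : |x 0| * exp (-L t) = |x t| * exp (-l t) := by rw [ax t, mul_assoc _ (exp _), h2, mul_one]
    rw [h3, mul_comm 8]
    exact mul_le_mul_of_nonneg_left h1 (abs_nonneg _)
  have z5 : ∀ t, t ≤ σ0 → z t ≤ 5 := fun t ht => by
    rw [ez]; linarith [lo t ht, hx' t ht, hx' 0 h0]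
  have z00 : z 0 = 2 * |x 0| := by rw [ez, hL, Pos.L0]; simp; ring
  have zz : ∀ t, |z t - z 0| ≤ z t := fun t => by
    rw [z00, ez]; exact abs_le.2 ⟨by linarith [xi0 t], by linarith [abs_nonneg (x 0)]⟩
  have zz2 : ∀ t, |z t ^ 2 - z 0 ^ 2| ≤ 4 * z t ^ 2 := fun t => by
    have h1 : z 0 ≤ 2 * z t := by rw [z00, ez]; linarith [xi0 t]
    have h2 : z 0 ^ 2 ≤ (2 * z t) ^ 2 := by gcongr; exact z0 0
    exact abs_le.2 ⟨by nlinarith [sq_nonneg (z t)], by nlinarith [sq_nonneg (z 0)]⟩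
  have seg : ∀ σ, σ ≤ σ0 → ∀ t ∈ uIcc 0 σ, t ≤ σ0 := fun σ hσ t ht =>
    ht.2.trans (max_le h0 hσ)
  have dn2 : ∀ t, t ≤ σ0 → 1 / 2 ≤ dn c P Q V W t := fun t ht => by
    have := abs_le.1 (hx' t ht); have := h.th_pos V t; have := h.th_lt V t
    unfold dn; nlinarith
  have hlz : ∀ σ, σ ≤ σ0 → |l σ| ≤ 16 * z σ := fun σ hσ => by
    have := abs_sub_le_of hl (fun t => (h.dze V W t).const_mul 16) (a := 0) (b := σ) (fun t ht => by
      have ht := seg σ hσ t ht
      have h2 := h.dn_pos V W t; have h3 := h.E_pos V t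
      have h4 := h.th_pos V t; have h5 := h.th_lt V t
      rw [abs_neg, abs_mul, abs_div, abs_mul (EE _ _ _ _ _), abs_of_pos h2, abs_of_pos h3,
        abs_of_pos (mul_pos hc h4)]
      calc c * th c P Q V t * (EE c P Q V t * |x t| / dn c P Q V W t)
          ≤ c * 1 * (EE c P Q V t * (8 * (|x 0| * exp (-L t))) / (1 / 2)) := by
            gcongr; exacts [up t ht, dn2 t ht]
        _ = _ := by ring)
    rw [l0, sub_zero, ← mul_sub, abs_mul] at this
    exact this.trans (by rw [abs_of_pos (by norm_num)]; linarith [zz σ])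
  have hel : ∀ σ, σ ≤ σ0 → |exp (l σ) - 1| ≤ 128 * z σ := fun σ hσ =>
    (abs_exp_sub_one _).trans (by
      nlinarith [e8 σ hσ, hlz σ hσ, abs_nonneg (l σ), mul_le_mul (e8 σ hσ) (hlz σ hσ)
        (abs_nonneg _) (by norm_num)])
  have hxξ : ∀ σ, σ ≤ σ0 → |x σ - x 0 * exp (-L σ)| ≤ 128 * z σ * (|x 0| * exp (-L σ)) :=
    fun σ hσ => by
    rw [e σ, ← mul_sub_one, abs_mul, abs_mul, abs_of_pos (exp_pos _), mul_comm]
    exact mul_le_mul_of_nonneg_right (hel σ hσ) (xi0 σ)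
  have t1 : ∀ t, |2 * th c P Q V t - 1| ≤ 1 := fun t =>
    abs_le.2 ⟨by linarith [h.th_pos V t], by linarith [h.th_lt V t]⟩
  have hr : ∀ t, t ≤ σ0 → |(1 - x t) / dn c P Q V W t ^ 2 - 1 +
      x 0 * exp (-L t) * (2 * th c P Q V t - 1)| ≤ 600 * z t * (|x 0| * exp (-L t)) := by
    intro t ht
    have a1 := alg_ratio (h.th_pos V t) (h.th_lt V t) (hx' t ht)
    have a2 : |(x t - x 0 * exp (-L t)) * (2 * th c P Q V t - 1)| ≤
        128 * z t * (|x 0| * exp (-L t)) * 1 := by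
      rw [abs_mul]; gcongr
      · have := z0 t; positivity
      · exact hxξ t ht
      · exact t1 t
    have a3 : x t ^ 2 ≤ (8 * (|x 0| * exp (-L t))) ^ 2 := by
      rw [← sq_abs]; gcongr; exact up t ht
    have a4 : |x 0| * exp (-L t) ≤ z t := by rw [ez]; linarith [abs_nonneg (x 0)]
    have a5 := mul_le_mul_of_nonneg_right a4 (xi0 t)
    have a6 := mul_nonneg (z0 t) (xi0 t)
    have := abs_sub ((1 - x t) / (1 - x t * (1 - th c P Q V t)) ^ 2 - 1 +
      x t * (2 * th c P Q V t - 1)) ((x t - x 0 * exp (-L t)) * (2 * th c P Q V t - 1))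
    refine le_trans (le_of_eq ?_) (this.trans (by nlinarith))
    congr 1; unfold dn; ring
  have hΛ : ∀ σ, σ ≤ σ0 → |LV c P Q W σ - L σ + x 0 * Yi c P Q V σ| ≤ 1200 * z σ ^ 2 := by
    intro σ hσ
    have := abs_sub_le_of (fun t => ((h.dL W t).fun_sub (h.dL V t)).fun_add
      ((h.dYi V t).const_mul (x 0))) (fun t => ((h.dze V W t).fun_pow 2).const_mul 300)
      (a := 0) (b := σ) (fun t ht => by
        have ht := seg σ hσ t ht
        have h3 := h.E_pos V t
        have e1 : -(c * EE c P Q W t) - -(c * EE c P Q V t) + x 0 * -(c * (EE c P Q V t *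
            (2 * th c P Q V t - 1) * exp (-LV c P Q V t))) = -(c * EE c P Q V t *
            ((1 - x t) / dn c P Q V W t ^ 2 - 1 + x 0 * exp (-L t) * (2 * th c P Q V t - 1))) := by
          rw [h.EE_two V W]; ring
        rw [e1, abs_neg, abs_mul, abs_of_pos (mul_pos hc h3)]
        refine (mul_le_mul_of_nonneg_left (hr t ht) (mul_pos hc h3).le).trans (le_of_eq ?_)
        norm_num; ring)
    simp only [Pos.L0, Pos.Yi0, sub_self, mul_zero, add_zero, sub_zero] at this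
    rw [← mul_sub, abs_mul] at this
    exact this.trans (by rw [abs_of_pos (by norm_num)]; linarith [zz2 σ])
  have hY : ∀ σ, |x 0 * Yi c P Q V σ| ≤ z σ := fun σ => by
    have := abs_sub_le_of (fun t => (h.dYi V t).const_mul (x 0)) (h.dze V W) (a := 0) (b := σ)
      (fun t _ => by
        have h3 := h.E_pos V t
        rw [abs_mul, abs_neg, abs_mul, abs_mul, abs_mul, abs_of_pos hc, abs_of_pos h3,
          abs_of_pos (exp_pos _)]
        calc |x 0| * (c * (EE c P Q V t * |2 * th c P Q V t - 1| * exp (-LV c P Q V t)))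
            ≤ |x 0| * (c * (EE c P Q V t * 1 * exp (-LV c P Q V t))) := by gcongr; exact t1 t
          _ = _ := by ring)
    simp only [Pos.Yi0, mul_zero, sub_zero] at this
    exact this.trans (zz σ)
  intro σ hσ
  have zσ := z0 σ; have zσ5 := z5 σ hσ
  set Λ := LV c P Q W σ - L σ with hΛ0
  have b1 : |Λ| ≤ 6002 * z σ := by
    have := abs_sub (Λ + x 0 * Yi c P Q V σ) (x 0 * Yi c P Q V σ)
    rw [add_sub_cancel_right] at this
    nlinarith [hΛ σ hσ, hY σ]
  have b2 : |exp Λ - 1 + x 0 * Yi c P Q V σ| ≤ C1 * z σ ^ 2 := by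
    have a1 := abs_exp_sub_two Λ
    have a2 : exp |Λ| ≤ exp 40000 := exp_le_exp.2 (by linarith)
    have a3 : Λ ^ 2 ≤ (6002 * z σ) ^ 2 := by rw [← sq_abs]; gcongr
    have a4 : exp |Λ| * Λ ^ 2 ≤ exp 40000 * (6002 * z σ) ^ 2 := by gcongr
    have := abs_add_le (exp Λ - 1 - Λ) (Λ + x 0 * Yi c P Q V σ)
    refine le_trans (le_of_eq (by congr 1; ring)) (this.trans ?_)
    have := hΛ σ hσ
    rw [hC1]; linarith
  have eW : exp (LV c P Q W σ) = exp Λ * exp (L σ) := by rw [← exp_add]; congr 1; ring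
  have Lp := exp_pos (L σ)
  have zs := sq_nonneg (z σ)
  have C1z : 0 ≤ C1 * z σ ^ 2 := by positivity
  refine ⟨up σ hσ, lo σ hσ, ?_, ?_, ?_, ?_⟩
  · have : x σ * exp (L σ) - x 0 = x 0 * (exp (l σ) - 1) := by
      have h2 : exp (-L σ) * exp (L σ) = 1 := by rw [← exp_add]; simp
      rw [e σ]; linear_combination x 0 * exp (l σ) * h2
    change |x σ * exp (L σ) - x 0| ≤ _ * z σ * |x 0|
    rw [this, abs_mul, mul_comm]
    refine mul_le_mul_of_nonneg_right ((hel σ hσ).trans ?_) (abs_nonneg _)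
    exact mul_le_mul_of_nonneg_right (by linarith) zσ
  · change |_ - exp (L σ)| ≤ _ * z σ * exp (L σ)
    rw [eW, ← sub_one_mul, abs_mul, abs_of_pos Lp]
    refine mul_le_mul_of_nonneg_right ?_ Lp.le
    have := abs_sub (exp Λ - 1 + x 0 * Yi c P Q V σ) (x 0 * Yi c P Q V σ)
    rw [add_sub_cancel_right] at this
    have a1 : C1 * z σ ^ 2 ≤ C1 * (5 * z σ) := by
      refine mul_le_mul_of_nonneg_left (by nlinarith) (by linarith)
    have a2 : 0 ≤ C1 * z σ := mul_nonneg (by linarith) zσ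
    nlinarith [hY σ]
  · change |_ - exp (L σ) + x 0 * (_ * exp (L σ))| ≤ _ * z σ ^ 2 * exp (L σ)
    rw [eW, show exp Λ * exp (L σ) - exp (L σ) + x 0 * (Yi c P Q V σ * exp (L σ)) =
      (exp Λ - 1 + x 0 * Yi c P Q V σ) * exp (L σ) by ring, abs_mul, abs_of_pos Lp]
    exact mul_le_mul_of_nonneg_right (b2.trans (by nlinarith)) Lp.le
  · have Kp := h.K_pos V σ
    have a4 : |x 0| * exp (-L σ) ≤ z σ := by rw [ez]; linarith [abs_nonneg (x 0)]
    have := alg_prod (a := x 0 * exp (-L σ) * (2 * th c P Q V σ - 1)) (b := x 0 * Yi c P Q V σ)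
      zσ zσ5 (C := C1) (by linarith) (by
        rw [abs_mul, abs_mul, abs_of_pos (exp_pos _)]
        exact (mul_le_of_le_one_right (xi0 σ) (t1 σ)).trans a4)
      ((hY σ).trans (by linarith)) ((hr σ hσ).trans (by nlinarith)) b2
    have eK : KK c P Q W σ = (1 - x σ) / dn c P Q V W σ ^ 2 * exp Λ * KK c P Q V σ := by
      rw [h.K_eq, h.K_eq, h.EE_two V W, eW]; ring
    change |_ - _ + x 0 * _| ≤ _ * z σ ^ 2 * _
    refine le_trans (le_of_eq ?_) (mul_le_mul_of_nonneg_right this Kp.le)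
    rw [← abs_of_pos Kp, ← abs_mul, abs_of_pos Kp, eK]
    congr 1; unfold nn; ring

end Pool.Agent.LC5081
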